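import Pool.Agent.R923.SE.Stm

/-!
Project SE: auxiliary lemmas (helper206): measurability, polynomially bounded functions.
-/

set_option autoImplicit false

open MeasureTheory Complex Filter Topology

namespace Pool.Agent.R923.SE.A206

open Pool.Agent.R923.SE

lemma continuous_dt {n : ℕ} : Continuous (dt : Mt n n → ℂ) := by
  unfold dt
  refine Continuous.matrix_det ?_
  refine continuous_matrix ?_
  intro i j
  exact (continuous_apply j).comp (continuous_apply i)

lemma measurable_fp {n : ℕ} (p : ℂ) : Measurable (fp p : Mt n n → ℂ) := by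
  unfold fp
  refine Complex.measurable_exp.comp ?_
  refine Measurable.const_mul ?_ _
  refine Complex.measurable_ofReal.comp ?_
  exact Real.measurable_log.comp continuous_dt.norm.measurable

lemma norm_fp {n : ℕ} (p : ℂ) (A : Mt n n) :
    ‖fp p A‖ = Real.exp (2 * p.re * Real.log ‖dt A‖) := by
  unfold fp
  rw [Complex.norm_exp]
  congr 1
  simp [Complex.mul_re]

lemma nsq_nonneg {n m : ℕ} (B : Mt n m) : 0 ≤ nsq B := by
  unfold nsq; positivity

lemma continuous_nsq {n m : ℕ} : Continuous (nsq : Mt n m → ℝ) := by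
  unfold nsq; fun_prop

lemma norm_entry_le {n m : ℕ} (B : Mt n m) (i : Fin n) (j : Fin m) : ‖B i j‖ ≤ 1 + nsq B := by
  have h1 : ‖B i j‖ ^ 2 ≤ nsq B := by
    unfold nsq
    refine le_trans ?_ (Finset.single_le_sum (f := fun i => ∑ j, ‖B i j‖ ^ 2)
      (fun i _ => by positivity) (Finset.mem_univ i))
    exact Finset.single_le_sum (f := fun j => ‖B i j‖ ^ 2) (fun i _ => by positivity)
      (Finset.mem_univ j)
  nlinarith [norm_nonneg (B i j), sq_nonneg (‖B i j‖ - 1)]

/-- continuous and polynomially bounded -/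
def PB {n m : ℕ} (g : Mt n m → ℂ) : Prop :=
  Continuous g ∧ ∃ K : ℝ, 0 ≤ K ∧ ∃ j : ℕ, ∀ C, ‖g C‖ ≤ K * (1 + nsq C) ^ j

lemma PB.entry {n m : ℕ} (i : Fin n) (j : Fin m) : PB (fun C : Mt n m => C i j) :=
  ⟨(continuous_apply j).comp (continuous_apply i), 1, zero_le_one, 1, fun C => by
    simpa using norm_entry_le C i j⟩

lemma PB.entry' {n m : ℕ} (i : Fin n) (j : Fin m) :
    PB (fun C : Mt n m => (starRingEnd ℂ) (C i j)) :=
  ⟨Complex.continuous_conj.comp ((continuous_apply j).comp (continuous_apply i)),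
    1, zero_le_one, 1, fun C => by
    simpa using norm_entry_le C i j⟩

lemma PB.const {n m : ℕ} (c : ℂ) : PB (fun _ : Mt n m => c) :=
  ⟨continuous_const, ‖c‖, norm_nonneg _, 0, fun C => by simp⟩

lemma one_le_nsq {n m : ℕ} (C : Mt n m) : 1 ≤ 1 + nsq C := by linarith [nsq_nonneg C]

lemma PB.mul {n m : ℕ} {f g : Mt n m → ℂ} (hf : PB f) (hg : PB g) : PB (fun C => f C * g C) := by
  obtain ⟨hc, K, hK, j, h⟩ := hf
  obtain ⟨hc', K', hK', j', h'⟩ := hg
  refine ⟨hc.mul hc', K * K', by positivity, j + j', fun C => ?_⟩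
  rw [norm_mul, pow_add]
  calc ‖f C‖ * ‖g C‖ ≤ (K * (1 + nsq C) ^ j) * (K' * (1 + nsq C) ^ j') :=
        mul_le_mul (h C) (h' C) (norm_nonneg _)
          (mul_nonneg hK (pow_nonneg (by linarith [nsq_nonneg C]) _))
    _ = _ := by ring

lemma PB.add {n m : ℕ} {f g : Mt n m → ℂ} (hf : PB f) (hg : PB g) : PB (fun C => f C + g C) := by
  obtain ⟨hc, K, hK, j, h⟩ := hf
  obtain ⟨hc', K', hK', j', h'⟩ := hg
  refine ⟨hc.add hc', K + K', by positivity, j + j', fun C => ?_⟩
  have h1 := one_le_nsq C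
  have h2 : (1 + nsq C) ^ j ≤ (1 + nsq C) ^ (j + j') := pow_le_pow_right₀ h1 (by omega)
  have h3 : (1 + nsq C) ^ j' ≤ (1 + nsq C) ^ (j + j') := pow_le_pow_right₀ h1 (by omega)
  calc ‖f C + g C‖ ≤ ‖f C‖ + ‖g C‖ := norm_add_le _ _
    _ ≤ K * (1 + nsq C) ^ j + K' * (1 + nsq C) ^ j' := add_le_add (h C) (h' C)
    _ ≤ K * (1 + nsq C) ^ (j + j') + K' * (1 + nsq C) ^ (j + j') :=
        add_le_add (mul_le_mul_of_nonneg_left h2 hK) (mul_le_mul_of_nonneg_left h3 hK')
    _ = _ := by ring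

lemma PB.sum {n m : ℕ} {ι : Type*} (s : Finset ι) {f : ι → Mt n m → ℂ} (hf : ∀ i ∈ s, PB (f i)) :
    PB (fun C => ∑ i ∈ s, f i C) := by
  classical
  induction s using Finset.induction_on with
  | empty => simpa using PB.const 0
  | insert a s ha ih =>
    simp only [Finset.sum_insert ha]
    exact (hf a (Finset.mem_insert_self _ _)).add
      (ih fun i hi => hf i (Finset.mem_insert_of_mem hi))

lemma PB.pow {n m : ℕ} {f : Mt n m → ℂ} (hf : PB f) (k : ℕ) : PB (fun C => f C ^ k) := by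
  induction k with
  | zero => simpa using PB.const 1
  | succ k ih => simpa [pow_succ] using ih.mul hf

lemma trace_ct {n : ℕ} (X : Matrix (Fin n) (Fin n) ℂ) (C : Mt n n) :
    Matrix.trace (X * (Matrix.of C).conjTranspose) = ∑ i, ∑ j, X i j * (starRingEnd ℂ) (C i j) := by
  simp [Matrix.trace, Matrix.mul_apply]

lemma trace_t {n : ℕ} (Y : Matrix (Fin n) (Fin n) ℂ) (C : Mt n n) :
    Matrix.trace (Y * Matrix.of C) = ∑ i, ∑ j, Y i j * C j i := by
  simp [Matrix.trace, Matrix.mul_apply]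

lemma trace_q {n m : ℕ} (S : Matrix (Fin n) (Fin n) ℂ) (B : Mt n m) :
    Matrix.trace (S * (Matrix.of B * (Matrix.of B).conjTranspose)) =
      ∑ i, ∑ j, S i j * ∑ l, B j l * (starRingEnd ℂ) (B i l) := by
  simp [Matrix.trace, Matrix.mul_apply]

lemma PB.trace_ct {n : ℕ} (X : Matrix (Fin n) (Fin n) ℂ) :
    PB (fun C : Mt n n => Matrix.trace (X * (Matrix.of C).conjTranspose)) := by
  simp only [A206.trace_ct]
  exact PB.sum _ fun i _ => PB.sum _ fun j _ => (PB.const _).mul (PB.entry' i j)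

lemma PB.trace_t {n : ℕ} (Y : Matrix (Fin n) (Fin n) ℂ) :
    PB (fun C : Mt n n => Matrix.trace (Y * Matrix.of C)) := by
  simp only [A206.trace_t]
  exact PB.sum _ fun i _ => PB.sum _ fun j _ => (PB.const _).mul (PB.entry j i)

lemma PB.trace_q {n m : ℕ} (S : Matrix (Fin n) (Fin n) ℂ) :
    PB (fun B : Mt n m => Matrix.trace (S * (Matrix.of B * (Matrix.of B).conjTranspose))) := by
  simp only [A206.trace_q]
  exact PB.sum _ fun i _ => PB.sum _ fun j _ => (PB.const _).mul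
    (PB.sum _ fun l _ => (PB.entry j l).mul (PB.entry' i l))

lemma one_add_pow_le {x : ℝ} (hx : 0 ≤ x) (j : ℕ) : (1 + x) ^ j ≤ 2 ^ j * (1 + x ^ j) := by
  rcases le_total x 1 with h | h
  · have h1 : (1 + x) ^ j ≤ 2 ^ j := pow_le_pow_left₀ (by linarith) (by linarith) j
    have h2 : 0 ≤ x ^ j := pow_nonneg hx j
    nlinarith [pow_pos (show (0 : ℝ) < 2 by norm_num) j]
  · have h1 : (1 + x) ^ j ≤ (2 * x) ^ j := pow_le_pow_left₀ (by linarith) (by linarith) j
    rw [mul_pow] at h1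
    nlinarith [pow_pos (show (0 : ℝ) < 2 by norm_num) j]

lemma PB.integrable_fp (hP : S_POL) {n : ℕ} {g : Mt n n → ℂ} (hg : PB g) {p : ℂ}
    (hp : -1 < p.re) : Integrable (fun C => fp p C * g C) (gau n n) := by
  obtain ⟨hc, K, hK, j, h⟩ := hg
  have h1 := (hP n p j hp).norm
  have h0 := (hP n p 0 hp).norm
  refine Integrable.mono' (((h0.add h1).const_mul (2 ^ j)).const_mul K)
    ((measurable_fp p).mul hc.measurable).aestronglyMeasurable ?_
  refine Filter.Eventually.of_forall fun C => ?_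
  rw [norm_mul]
  simp only [Pi.add_apply, norm_mul, pow_zero, Complex.ofReal_one, mul_one]
  have h2 : ‖(((nsq C) ^ j : ℝ) : ℂ)‖ = nsq C ^ j := by
    rw [Complex.norm_real, Real.norm_of_nonneg (pow_nonneg (nsq_nonneg C) _)]
  rw [h2]
  have h3 := one_add_pow_le (nsq_nonneg C) j
  calc ‖fp p C‖ * ‖g C‖ ≤ ‖fp p C‖ * (K * (1 + nsq C) ^ j) :=
        mul_le_mul_of_nonneg_left (h C) (norm_nonneg _)
    _ ≤ ‖fp p C‖ * (K * (2 ^ j * (1 + nsq C ^ j))) := by gcongr
    _ = _ := by ring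

lemma pow_le_exp {x : ℝ} (hx : 0 ≤ x) (j : ℕ) :
    (1 + x) ^ j ≤ (2 ^ j * j.factorial * Real.exp (1 / 2)) * Real.exp (x / 2) := by
  have h1 : ((1 + x) / 2) ^ j / j.factorial ≤ Real.exp ((1 + x) / 2) :=
    Real.pow_div_factorial_le_exp _ (by positivity) j
  have h2 : Real.exp ((1 + x) / 2) = Real.exp (1 / 2) * Real.exp (x / 2) := by
    rw [← Real.exp_add]; ring_nf
  have h3 : (0 : ℝ) < j.factorial := by exact_mod_cast j.factorial_pos
  rw [div_le_iff₀ h3, h2, div_pow, div_le_iff₀ (by positivity)] at h1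
  calc (1 + x) ^ j ≤ _ := h1
    _ = _ := by ring

lemma integrable_exp_nsq (hR : S_ROW) (n m : ℕ) :
    Integrable (fun B : Mt n m => Real.exp (nsq B / 2)) (gau n m) := by
  have h := (hR.2 n m (fun _ => 1 / 2) (fun _ => by norm_num)).1
  refine h.congr (Filter.Eventually.of_forall fun B => ?_)
  simp only [nsq]
  congr 1
  rw [← Finset.mul_sum]; ring

lemma PB.integrable (hR : S_ROW) {n m : ℕ} {g : Mt n m → ℂ} (hg : PB g) :
    Integrable g (gau n m) := by
  obtain ⟨hc, K, hK, j, h⟩ := hg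
  refine Integrable.mono' (((integrable_exp_nsq hR n m).const_mul
    (2 ^ j * j.factorial * Real.exp (1 / 2))).const_mul K) hc.measurable.aestronglyMeasurable ?_
  refine Filter.Eventually.of_forall fun C => ?_
  exact (h C).trans (mul_le_mul_of_nonneg_left (pow_le_exp (nsq_nonneg C) j) hK)

end Pool.Agent.R923.SE.A206
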