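import Pool.Agent.R923.SE.Defs

/-!
Project SE (helper923), piece BG (helper308): the function `barnesG`, defined by its Weierstrass
product, is the Barnes `G`-function: it is entire, `G(1) = 1` and `G(s+1) = Γ(s) G(s)`.
-/

set_option autoImplicit false

open MeasureTheory Complex Filter Topology

namespace Pool.Agent.R923.SE

noncomputable section

namespace BG

/-- the `k`-th term of the product -/
def tm (k : ℕ) (z : ℂ) : ℂ :=
  (1 + z / ((k : ℂ) + 1)) ^ (k + 1) * Complex.exp (z ^ 2 / (2 * ((k : ℂ) + 1)) - z)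

theorem cast_ne (k : ℕ) : (k : ℂ) + 1 ≠ 0 := by exact_mod_cast k.succ_ne_zero

theorem tm_zero (k : ℕ) : tm k 0 = 1 := by
  unfold tm
  simp

theorem tm_diff (k : ℕ) : Differentiable ℂ (tm k) := by
  unfold tm
  fun_prop

theorem tm_bound {R : ℝ} {k : ℕ} (h1 : 2 * R ≤ (k : ℝ) + 1) (h2 : R ^ 3 ≤ ((k : ℝ) + 1) ^ 2)
    {z : ℂ} (hz : ‖z‖ ≤ R) : ‖tm k z - 1‖ ≤ 2 * R ^ 3 * (1 / ((k : ℝ) + 1) ^ 2) := by
  have hk : (0 : ℝ) < (k : ℝ) + 1 := by positivity
  have hR : 0 ≤ R := (norm_nonneg z).trans hz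
  obtain ⟨w, hw⟩ : ∃ w : ℂ, w = z / ((k : ℂ) + 1) := ⟨_, rfl⟩
  have hkn : ‖(k : ℂ) + 1‖ = (k : ℝ) + 1 := by
    have h3 : (k : ℂ) + 1 = (((k : ℝ) + 1 : ℝ) : ℂ) := by push_cast; ring
    rw [h3, Complex.norm_real, Real.norm_of_nonneg hk.le]
  have hwn : ‖w‖ ≤ R / ((k : ℝ) + 1) := by
    rw [hw, norm_div, hkn]
    gcongr
  have hw2 : ‖w‖ ≤ 1 / 2 := by
    refine hwn.trans ?_
    rw [div_le_iff₀ hk]
    linarith
  have hw1 : ‖w‖ < 1 := by linarith
  have hne : 1 + w ≠ 0 := by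
    intro h
    have h3 : w = -1 := by linear_combination h
    rw [h3, norm_neg, norm_one] at hw1
    exact lt_irrefl _ hw1
  obtain ⟨E, hE⟩ : ∃ E : ℂ, E = ((k : ℂ) + 1) * (Complex.log (1 + w) - logTaylor 3 w) := ⟨_, rfl⟩
  have hlt : logTaylor 3 w = w - w ^ 2 / 2 := by
    simp [logTaylor, Finset.sum_range_succ]
    ring
  have htm : tm k z = Complex.exp E := by
    unfold tm
    rw [← hw]
    have h3 : (1 + w) ^ (k + 1) = Complex.exp (((k : ℂ) + 1) * Complex.log (1 + w)) := by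
      rw [← Complex.exp_log hne, ← Complex.exp_nat_mul, Complex.exp_log hne]
      congr 1
      push_cast
      ring
    rw [h3, ← Complex.exp_add, hE, hlt]
    congr 1
    have h4 : z = w * ((k : ℂ) + 1) := by
      rw [hw, div_mul_cancel₀ _ (cast_ne k)]
    rw [h4]
    have h5 := cast_ne k
    field_simp
    ring
  have hEn : ‖E‖ ≤ R ^ 3 * (1 / ((k : ℝ) + 1) ^ 2) := by
    rw [hE, norm_mul, hkn]
    have h3 := norm_log_sub_logTaylor_le 2 hw1
    have h4 : (1 - ‖w‖)⁻¹ ≤ 2 := by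
      rw [inv_le_comm₀ (by linarith) (by norm_num)]
      linarith
    have h5 : ‖Complex.log (1 + w) - logTaylor 3 w‖ ≤ ‖w‖ ^ 3 := by
      refine h3.trans ?_
      have h6 : 0 ≤ ‖w‖ ^ 3 := by positivity
      have h7 : ‖w‖ ^ (2 + 1) * (1 - ‖w‖)⁻¹ ≤ ‖w‖ ^ 3 * 2 := by gcongr
      rw [div_le_iff₀ (by positivity)]
      push_cast
      nlinarith
    calc ((k : ℝ) + 1) * ‖Complex.log (1 + w) - logTaylor 3 w‖
        ≤ ((k : ℝ) + 1) * (R / ((k : ℝ) + 1)) ^ 3 := by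
          gcongr
          exact h5.trans (by gcongr)
      _ = R ^ 3 * (1 / ((k : ℝ) + 1) ^ 2) := by
          field_simp
  have hE1 : ‖E‖ ≤ 1 := by
    refine hEn.trans ?_
    rw [mul_one_div, div_le_one (by positivity)]
    exact h2
  rw [htm]
  refine (Complex.norm_exp_sub_one_le hE1).trans ?_
  linarith

theorem hasProd_compact {K : Set ℂ} (hK : IsCompact K) :
    HasProdUniformlyOn tm (fun z => ∏' k, tm k z) K := by
  obtain ⟨R, hR⟩ := hK.isBounded.exists_norm_le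
  have hs : Summable fun k : ℕ => 2 * R ^ 3 * (1 / ((k : ℝ) + 1) ^ 2) := by
    refine Summable.mul_left _ ?_
    have h := (summable_nat_add_iff 1).2 (Real.summable_one_div_nat_pow.2 (by norm_num : 1 < 2))
    refine h.congr fun k => ?_
    push_cast
    ring
  have h := hs.hasProdUniformlyOn_nat_one_add (f := fun k z => tm k z - 1) hK
    (by
      have h1 : ∀ᶠ k : ℕ in atTop, 2 * R ≤ (k : ℝ) + 1 := by
        filter_upwards [eventually_ge_atTop ⌈2 * R⌉₊] with k hk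
        have h2 := Nat.le_ceil (2 * R)
        have h3 : ((⌈2 * R⌉₊ : ℕ) : ℝ) ≤ (k : ℝ) := by exact_mod_cast hk
        linarith
      have h2 : ∀ᶠ k : ℕ in atTop, R ^ 3 ≤ ((k : ℝ) + 1) ^ 2 := by
        filter_upwards [eventually_ge_atTop ⌈R ^ 3⌉₊] with k hk
        have h2 := Nat.le_ceil (R ^ 3)
        have h3 : ((⌈R ^ 3⌉₊ : ℕ) : ℝ) ≤ (k : ℝ) := by exact_mod_cast hk
        have h4 : (0 : ℝ) ≤ k := by positivity
        nlinarith
      filter_upwards [h1, h2] with k hk1 hk2 z hz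
      exact tm_bound hk1 hk2 (hR z hz))
    (fun k => ((tm_diff k).continuous.sub continuous_const).continuousOn)
  simpa using h

theorem hasProd_loc : HasProdLocallyUniformlyOn tm (fun z => ∏' k, tm k z) Set.univ :=
  hasProdLocallyUniformlyOn_of_forall_compact isOpen_univ fun _ _ hK => hasProd_compact hK

theorem multipliable_tm (z : ℂ) : Multipliable fun k => tm k z :=
  (hasProd_loc.hasProd (Set.mem_univ z)).multipliable

/-- the product -/
def P (z : ℂ) : ℂ := ∏' k, tm k z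

theorem P_diff : Differentiable ℂ P := by
  have h := hasProd_loc.differentiableOn (.of_forall fun s => by
    simpa [Finset.prod_fn] using
      DifferentiableOn.finsetProd (fun k _ => (tm_diff k).differentiableOn)) isOpen_univ
  exact differentiableOn_univ.1 h

theorem P_zero : P 0 = 1 := by
  unfold P
  simp only [tm_zero, tprod_one]

theorem P_tendsto (z : ℂ) : Tendsto (fun n => ∏ k ∈ Finset.range n, tm k z) atTop (𝓝 (P z)) :=
  (multipliable_tm z).hasProd.tendsto_prod_nat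

theorem barnesG_eq (s : ℂ) : barnesG s = (2 * (Real.pi : ℂ)) ^ ((s - 1) / 2) *
    Complex.exp (-((s - 1) + (s - 1) ^ 2 * (1 + (Real.eulerMascheroniConstant : ℂ))) / 2) *
    P (s - 1) := rfl

/-- the recursion of the partial products -/
theorem rec_partial (z : ℂ) (n : ℕ) :
    (∏ k ∈ Finset.range n, tm k (z + 1)) * ∏ k ∈ Finset.range n, (z + 1 + k) =
      (∏ k ∈ Finset.range n, tm k z) * ((n : ℂ) + 1 + z) ^ n *
        Complex.exp ((2 * z + 1) / 2 * ((harmonic n : ℚ) : ℂ) - n) := by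
  induction n with
  | zero => simp
  | succ n ih =>
    rw [Finset.prod_range_succ, Finset.prod_range_succ, Finset.prod_range_succ, harmonic_succ]
    have h1 : (∏ k ∈ Finset.range n, tm k (z + 1)) * tm n (z + 1) *
        ((∏ k ∈ Finset.range n, (z + 1 + k)) * (z + 1 + n)) =
        ((∏ k ∈ Finset.range n, tm k (z + 1)) * ∏ k ∈ Finset.range n, (z + 1 + k)) *
          (tm n (z + 1) * (z + 1 + n)) := by ring
    rw [h1, ih]
    unfold tm
    have h2 := cast_ne n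
    have h3 : (1 + (z + 1) / ((n : ℂ) + 1)) ^ (n + 1) * ((n : ℂ) + 1 + z) ^ (n + 1) =
        (1 + z / ((n : ℂ) + 1)) ^ (n + 1) * (((n + 1 : ℕ) : ℂ) + 1 + z) ^ (n + 1) := by
      rw [← mul_pow, ← mul_pow]
      congr 1
      push_cast
      field_simp
      ring
    have h4 : Complex.exp ((2 * z + 1) / 2 * ((harmonic n : ℚ) : ℂ) - n) *
        Complex.exp ((z + 1) ^ 2 / (2 * ((n : ℂ) + 1)) - (z + 1)) =
        Complex.exp (z ^ 2 / (2 * ((n : ℂ) + 1)) - z) *
        Complex.exp ((2 * z + 1) / 2 * ((harmonic n + (((n + 1 : ℕ) : ℚ))⁻¹ : ℚ) : ℂ) -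
          ((n + 1 : ℕ) : ℂ)) := by
      rw [← Complex.exp_add, ← Complex.exp_add]
      congr 1
      push_cast
      field_simp
      ring
    calc _ = (∏ k ∈ Finset.range n, tm k z) *
          ((1 + (z + 1) / ((n : ℂ) + 1)) ^ (n + 1) * ((n : ℂ) + 1 + z) ^ (n + 1)) *
          (Complex.exp ((2 * z + 1) / 2 * ((harmonic n : ℚ) : ℂ) - n) *
            Complex.exp ((z + 1) ^ 2 / (2 * ((n : ℂ) + 1)) - (z + 1))) := by
          unfold tm
          ring
      _ = _ := by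
          rw [h3, h4]
          unfold tm
          ring

/-- the factor of the recursion -/
def cs (z : ℂ) (n : ℕ) : ℂ :=
  (1 + (z + 1) / (n : ℂ)) ^ n * (1 + (z + 1) / (n : ℂ)) *
    (((√2 * Stirling.stirlingSeq n)⁻¹ : ℝ) : ℂ) *
    Complex.exp ((2 * z + 1) / 2 * (((harmonic n : ℝ) - Real.log n : ℝ) : ℂ))

theorem real_fact {n : ℕ} (hn : n ≠ 0) :
    (n.factorial : ℝ) * (√2 * Stirling.stirlingSeq n)⁻¹ =
      Real.exp (Real.log n / 2) * (n : ℝ) ^ n * Real.exp (-n) := by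
  have hn' : (0 : ℝ) < n := by exact_mod_cast Nat.pos_of_ne_zero hn
  have hf : (n.factorial : ℝ) ≠ 0 := by exact_mod_cast n.factorial_ne_zero
  have h1 : Real.exp (Real.log n / 2) = √n := by
    rw [Real.sqrt_eq_rpow, Real.rpow_def_of_pos hn']
    congr 1
    ring
  have h2 : √(2 * n : ℝ) = √2 * √n := Real.sqrt_mul (by norm_num) _
  have h3 : ((n : ℝ) / Real.exp 1) ^ n = (n : ℝ) ^ n * Real.exp (-n) := by
    rw [div_pow, ← Real.exp_nat_mul, mul_one, Real.exp_neg, div_eq_mul_inv]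
  have h4 : √2 ≠ 0 := (Real.sqrt_pos.2 (by norm_num)).ne'
  have h5 : √(n : ℝ) ≠ 0 := (Real.sqrt_pos.2 hn').ne'
  have h6 := Real.exp_ne_zero (-(n : ℝ))
  unfold Stirling.stirlingSeq
  rw [h1, h2, h3]
  field_simp

theorem key_id (z : ℂ) {n : ℕ} (hn : n ≠ 0) :
    ((n : ℂ) + 1 + z) ^ (n + 1) * Complex.exp ((2 * z + 1) / 2 * ((harmonic n : ℚ) : ℂ) - n) =
      (n : ℂ) ^ (z + 1) * (n.factorial : ℂ) * cs z n := by
  have hn' : (0 : ℝ) < n := by exact_mod_cast Nat.pos_of_ne_zero hn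
  have hnc : (n : ℂ) ≠ 0 := by exact_mod_cast hn
  obtain ⟨L, hL⟩ : ∃ L : ℂ, L = ((Real.log n : ℝ) : ℂ) := ⟨_, rfl⟩
  have h1 : (n : ℂ) ^ (z + 1) = Complex.exp (L * (z + 1)) := by
    rw [Complex.cpow_def_of_ne_zero hnc, hL, Complex.ofReal_log hn'.le, Complex.ofReal_natCast]
  have h2 : (n : ℂ) = Complex.exp L := by
    rw [hL, ← Complex.ofReal_exp, Real.exp_log hn', Complex.ofReal_natCast]
  have h3 := congrArg (fun x : ℝ => (x : ℂ)) (real_fact hn)
  beta_reduce at h3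
  have h4 : (((n.factorial : ℝ) * (√2 * Stirling.stirlingSeq n)⁻¹ : ℝ) : ℂ) =
      (n.factorial : ℂ) * (((√2 * Stirling.stirlingSeq n)⁻¹ : ℝ) : ℂ) := by push_cast; ring
  have h5 : ((Real.exp (Real.log n / 2) * (n : ℝ) ^ n * Real.exp (-n) : ℝ) : ℂ) =
      Complex.exp (L / 2) * (n : ℂ) ^ n * Complex.exp (-n) := by
    rw [hL]
    push_cast
    ring
  rw [h4, h5] at h3
  have h6 : (((harmonic n : ℝ) - Real.log n : ℝ) : ℂ) = ((harmonic n : ℚ) : ℂ) - L := by
    rw [hL]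
    push_cast
    ring
  have h7 : ((n : ℂ) + 1 + z) ^ (n + 1) =
      (n : ℂ) ^ n * (n : ℂ) * ((1 + (z + 1) / (n : ℂ)) ^ n * (1 + (z + 1) / (n : ℂ))) := by
    have h8 : (n : ℂ) + 1 + z = (n : ℂ) * (1 + (z + 1) / (n : ℂ)) := by
      field_simp
      ring
    rw [h8, mul_pow, pow_succ, pow_succ]
  have h9 : Complex.exp (L * (z + 1)) * Complex.exp (L / 2) * Complex.exp (-n) *
      Complex.exp ((2 * z + 1) / 2 * (((harmonic n : ℚ) : ℂ) - L)) =
      Complex.exp L * Complex.exp ((2 * z + 1) / 2 * ((harmonic n : ℚ) : ℂ) - n) := by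
    rw [← Complex.exp_add, ← Complex.exp_add, ← Complex.exp_add, ← Complex.exp_add]
    congr 1
    ring
  unfold cs
  rw [h6, h7, h1]
  calc _ = (n : ℂ) ^ n * ((1 + (z + 1) / (n : ℂ)) ^ n * (1 + (z + 1) / (n : ℂ))) *
        ((n : ℂ) * Complex.exp ((2 * z + 1) / 2 * ((harmonic n : ℚ) : ℂ) - n)) := by ring
    _ = (n : ℂ) ^ n * ((1 + (z + 1) / (n : ℂ)) ^ n * (1 + (z + 1) / (n : ℂ))) *
        (Complex.exp L * Complex.exp ((2 * z + 1) / 2 * ((harmonic n : ℚ) : ℂ) - n)) := by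
        rw [← h2]
    _ = (n : ℂ) ^ n * ((1 + (z + 1) / (n : ℂ)) ^ n * (1 + (z + 1) / (n : ℂ))) *
        (Complex.exp (L * (z + 1)) * Complex.exp (L / 2) * Complex.exp (-n) *
          Complex.exp ((2 * z + 1) / 2 * (((harmonic n : ℚ) : ℂ) - L))) := by rw [h9]
    _ = Complex.exp (L * (z + 1)) * (Complex.exp (L / 2) * (n : ℂ) ^ n * Complex.exp (-n)) *
        ((1 + (z + 1) / (n : ℂ)) ^ n * (1 + (z + 1) / (n : ℂ))) *
          Complex.exp ((2 * z + 1) / 2 * (((harmonic n : ℚ) : ℂ) - L)) := by ring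
    _ = _ := by
        rw [← h3]
        ring

theorem cs_tendsto (z : ℂ) : Tendsto (cs z) atTop (𝓝 (Complex.exp (z + 1) *
    (((√2 * √Real.pi)⁻¹ : ℝ) : ℂ) *
    Complex.exp ((2 * z + 1) / 2 * (Real.eulerMascheroniConstant : ℂ)))) := by
  have h1 : Tendsto (fun n : ℕ => (1 + (z + 1) / (n : ℂ)) ^ n) atTop (𝓝 (Complex.exp (z + 1))) :=
    Complex.tendsto_one_add_div_pow_exp (z + 1)
  have h2 : Tendsto (fun n : ℕ => 1 + (z + 1) / (n : ℂ)) atTop (𝓝 1) := by
    have h3 : Tendsto (fun n : ℕ => (z + 1) / (n : ℂ)) atTop (𝓝 0) :=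
      tendsto_const_div_atTop_nhds_zero_nat _
    simpa using h3.const_add 1
  have hpi : √2 * √Real.pi ≠ 0 := by positivity
  have h4 : Tendsto (fun n : ℕ => (((√2 * Stirling.stirlingSeq n)⁻¹ : ℝ) : ℂ)) atTop
      (𝓝 (((√2 * √Real.pi)⁻¹ : ℝ) : ℂ)) :=
    (Complex.continuous_ofReal.tendsto _).comp
      ((Stirling.tendsto_stirlingSeq_sqrt_pi.const_mul _).inv₀ hpi)
  have h5 : Tendsto (fun n : ℕ =>
      Complex.exp ((2 * z + 1) / 2 * (((harmonic n : ℝ) - Real.log n : ℝ) : ℂ))) atTop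
      (𝓝 (Complex.exp ((2 * z + 1) / 2 * (Real.eulerMascheroniConstant : ℂ)))) := by
    have h6 : Tendsto (fun n : ℕ => (((harmonic n : ℝ) - Real.log n : ℝ) : ℂ)) atTop
        (𝓝 (Real.eulerMascheroniConstant : ℂ)) :=
      (Complex.continuous_ofReal.tendsto _).comp Real.tendsto_harmonic_sub_log
    exact (Complex.continuous_exp.tendsto _).comp (h6.const_mul _)
  have h7 := ((h1.mul h2).mul h4).mul h5
  rw [mul_one] at h7
  exact h7

theorem P_rec {z : ℂ} (hz : ∀ j : ℕ, z + 1 + j ≠ 0) :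
    P (z + 1) = P z * Complex.Gamma (z + 1) * (Complex.exp (z + 1) *
      (((√2 * √Real.pi)⁻¹ : ℝ) : ℂ) *
      Complex.exp ((2 * z + 1) / 2 * (Real.eulerMascheroniConstant : ℂ))) := by
  have h1 := ((P_tendsto z).mul (Complex.GammaSeq_tendsto_Gamma (z + 1))).mul (cs_tendsto z)
  refine tendsto_nhds_unique (P_tendsto (z + 1)) (h1.congr' ?_)
  filter_upwards [eventually_ne_atTop 0] with n hn
  have h2 : ∏ j ∈ Finset.range (n + 1), (z + 1 + j) ≠ 0 :=
    Finset.prod_ne_zero_iff.2 fun j _ => hz j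
  have h3 := rec_partial z n
  have h4 := key_id z hn
  unfold Complex.GammaSeq
  rw [mul_div_assoc', div_mul_eq_mul_div, div_eq_iff h2, Finset.prod_range_succ]
  calc _ = (∏ k ∈ Finset.range n, tm k z) * ((n : ℂ) ^ (z + 1) * (n.factorial : ℂ) * cs z n) := by
        ring
    _ = ((∏ k ∈ Finset.range n, tm k z) * ((n : ℂ) + 1 + z) ^ n *
        Complex.exp ((2 * z + 1) / 2 * ((harmonic n : ℚ) : ℂ) - n)) * (z + 1 + n) := by
        rw [← h4]
        ring
    _ = _ := by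
        rw [← h3]
        ring

theorem const_fact : (2 * (Real.pi : ℂ)) ^ ((1 : ℂ) / 2) * (((√2 * √Real.pi)⁻¹ : ℝ) : ℂ) = 1 := by
  have h1 : (2 * (Real.pi : ℂ)) ^ ((1 : ℂ) / 2) = ((√2 * √Real.pi : ℝ) : ℂ) := by
    rw [← Real.sqrt_mul (by norm_num), Real.sqrt_eq_rpow, Complex.ofReal_cpow (by positivity)]
    push_cast
    rfl
  rw [h1, ← Complex.ofReal_mul, mul_inv_cancel₀ (by positivity), Complex.ofReal_one]

end BG

open BG

/-- `barnesG` is the Barnes `G`-function. -/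
theorem s_BG : barnesG 1 = 1 ∧
    (∀ s : ℂ, (∀ j : ℕ, s ≠ -(j : ℂ)) → barnesG (s + 1) = Complex.Gamma s * barnesG s) ∧
    Differentiable ℂ barnesG ∧
    ∀ s : ℂ, Multipliable fun k : ℕ => (1 + (s - 1) / ((k : ℂ) + 1)) ^ (k + 1) *
      Complex.exp ((s - 1) ^ 2 / (2 * ((k : ℂ) + 1)) - (s - 1)) := by
  refine ⟨?_, fun s hs => ?_, ?_, fun s => multipliable_tm (s - 1)⟩
  · rw [barnesG_eq, sub_self, P_zero]
    simp
  · obtain ⟨z, rfl⟩ : ∃ z : ℂ, s = z + 1 := ⟨s - 1, by ring⟩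
    have hz : ∀ j : ℕ, z + 1 + j ≠ 0 := fun j h => hs j (by linear_combination h)
    have h2pi : (2 * (Real.pi : ℂ)) ≠ 0 := by
      have h1 : ((Real.pi : ℝ) : ℂ) ≠ 0 := by exact_mod_cast Real.pi_ne_zero
      exact mul_ne_zero two_ne_zero h1
    rw [barnesG_eq, barnesG_eq, add_sub_cancel_right, add_sub_cancel_right, P_rec hz]
    have h1 : (2 * (Real.pi : ℂ)) ^ ((z + 1) / 2) =
        (2 * (Real.pi : ℂ)) ^ (z / 2) * (2 * (Real.pi : ℂ)) ^ ((1 : ℂ) / 2) := by
      rw [← Complex.cpow_add _ _ h2pi]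
      congr 1
      ring
    have h2 : Complex.exp (-(z + 1 + (z + 1) ^ 2 * (1 + (Real.eulerMascheroniConstant : ℂ))) / 2) *
        (Complex.exp (z + 1) *
          Complex.exp ((2 * z + 1) / 2 * (Real.eulerMascheroniConstant : ℂ))) =
        Complex.exp (-(z + z ^ 2 * (1 + (Real.eulerMascheroniConstant : ℂ))) / 2) := by
      rw [← Complex.exp_add, ← Complex.exp_add]
      congr 1
      ring
    calc _ = (2 * (Real.pi : ℂ)) ^ (z / 2) *
          ((2 * (Real.pi : ℂ)) ^ ((1 : ℂ) / 2) * (((√2 * √Real.pi)⁻¹ : ℝ) : ℂ)) *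
          (Complex.exp (-(z + 1 + (z + 1) ^ 2 *
            (1 + (Real.eulerMascheroniConstant : ℂ))) / 2) * (Complex.exp (z + 1) *
          Complex.exp ((2 * z + 1) / 2 * (Real.eulerMascheroniConstant : ℂ)))) *
          (P z * Complex.Gamma (z + 1)) := by
          rw [h1]
          ring
      _ = _ := by
          rw [const_fact, h2]
          ring
  · have h2pi : (2 * (Real.pi : ℂ)) ≠ 0 := by
      have h1 : ((Real.pi : ℝ) : ℂ) ≠ 0 := by exact_mod_cast Real.pi_ne_zero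
      exact mul_ne_zero two_ne_zero h1
    have h3 : barnesG = fun s => (2 * (Real.pi : ℂ)) ^ ((s - 1) / 2) *
      Complex.exp (-((s - 1) + (s - 1) ^ 2 * (1 + (Real.eulerMascheroniConstant : ℂ))) / 2) *
      P (s - 1) := by
      funext s
      exact barnesG_eq s
    rw [h3]
    have h4 : Differentiable ℂ fun s : ℂ => P (s - 1) :=
      P_diff.comp (differentiable_id.sub_const 1)
    have h5 : Differentiable ℂ fun s : ℂ => (2 * (Real.pi : ℂ)) ^ ((s - 1) / 2) :=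
      Differentiable.const_cpow (by fun_prop) (Or.inl h2pi)
    fun_prop

end

end Pool.Agent.R923.SE
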