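import Pool.Agent.R923.SE.Stm

/-!
Project SE: `s_BAR : S_BAR` (helper33).
-/

set_option autoImplicit false

open Complex Filter Topology

namespace Pool.Agent.R923.SE

namespace Bar

/-! ### closeness to one -/

lemma near_mul {x y : ℂ} {s t : ℝ} (hx : ‖x - 1‖ ≤ Real.exp s - 1)
    (hy : ‖y - 1‖ ≤ Real.exp t - 1) : ‖x * y - 1‖ ≤ Real.exp (s + t) - 1 := by
  have h : x * y - 1 = (x - 1) * (y - 1) + (x - 1) + (y - 1) := by ring
  have h1 : ‖x * y - 1‖ ≤ ‖x - 1‖ * ‖y - 1‖ + ‖x - 1‖ + ‖y - 1‖ := by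
    rw [h]
    refine (norm_add_le _ _).trans (add_le_add ((norm_add_le _ _).trans ?_) le_rfl)
    rw [norm_mul]
  rw [Real.exp_add]
  have h2 : 0 ≤ ‖x - 1‖ := norm_nonneg _
  have h3 : 0 ≤ ‖y - 1‖ := norm_nonneg _
  have h4 : (1 + ‖x - 1‖) * (1 + ‖y - 1‖) ≤ Real.exp s * Real.exp t :=
    mul_le_mul (by linarith) (by linarith) (by linarith) (Real.exp_pos s).le
  nlinarith

lemma near_pow {x : ℂ} {s : ℝ} (hx : ‖x - 1‖ ≤ Real.exp s - 1) (n : ℕ) :
    ‖x ^ n - 1‖ ≤ Real.exp (n * s) - 1 := by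
  induction n with
  | zero => simp
  | succ n ih =>
    have := near_mul ih hx
    rw [pow_succ]
    refine this.trans (le_of_eq ?_)
    congr 2
    push_cast
    ring

lemma near_prod {ι : Type*} (s : Finset ι) (x : ι → ℂ) (c : ι → ℝ)
    (h : ∀ i ∈ s, ‖x i - 1‖ ≤ Real.exp (c i) - 1) :
    ‖∏ i ∈ s, x i - 1‖ ≤ Real.exp (∑ i ∈ s, c i) - 1 := by
  classical
  induction s using Finset.induction_on with
  | empty => simp
  | insert a s ha ih =>
    rw [Finset.prod_insert ha, Finset.sum_insert ha]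
    exact near_mul (h a (Finset.mem_insert_self a s))
      (ih fun i hi => h i (Finset.mem_insert_of_mem hi))

lemma near_of_le {x : ℂ} {s : ℝ} (h : ‖x - 1‖ ≤ s) : ‖x - 1‖ ≤ Real.exp s - 1 := by
  linarith [Real.add_one_le_exp s]

lemma base_bound {u v : ℂ} (hv : ‖v‖ ≤ 1) :
    ‖(1 - u) * exp v - 1‖ ≤ ‖v‖ ^ 2 + ‖v - u‖ + 2 * (‖u‖ * ‖v‖) := by
  have h : (1 - u) * exp v - 1 = (exp v - 1 - v) + (v - u) - u * (exp v - 1) := by ring
  rw [h]
  refine (norm_sub_le _ _).trans ?_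
  have h1 := norm_exp_sub_one_sub_id_le hv
  have h2 := norm_exp_sub_one_le hv
  have h3 : ‖u * (exp v - 1)‖ ≤ 2 * (‖u‖ * ‖v‖) := by
    rw [norm_mul]
    nlinarith [norm_nonneg u]
  have h4 := norm_add_le (exp v - 1 - v) (v - u)
  linarith

lemma base_bound' {u : ℂ} (hu : ‖u‖ ≤ 1) : ‖(1 - u) * exp u - 1‖ ≤ 3 * ‖u‖ ^ 2 := by
  have := base_bound (u := u) hu
  rw [sub_self, norm_zero] at this
  nlinarith

lemma cube_bound {v : ℂ} (hv : ‖v‖ ≤ 1 / 2) :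
    ‖(1 + v) * exp (v ^ 2 / 2 - v) - 1‖ ≤ 4 * ‖v‖ ^ 3 := by
  set w := v ^ 2 / 2 - v with hw
  have hv0 : 0 ≤ ‖v‖ := norm_nonneg v
  have hwn : ‖w‖ ≤ 5 / 4 * ‖v‖ := by
    rw [hw]
    refine (norm_sub_le _ _).trans ?_
    rw [norm_div, norm_pow]
    simp only [Complex.norm_ofNat]
    nlinarith
  have hw1 : ‖w‖ ≤ 1 := by linarith
  have h3 := exp_bound hw1 (n := 3) (by norm_num)
  have hs : ∑ m ∈ Finset.range 3, w ^ m / (m.factorial : ℂ) = 1 + w + w ^ 2 / 2 := by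
    simp [Finset.sum_range_succ, Nat.factorial]
  rw [hs] at h3
  have h3' : ‖exp w - (1 + w + w ^ 2 / 2)‖ ≤ ‖w‖ ^ 3 := by
    refine h3.trans ?_
    norm_num [Nat.factorial]
    have : 0 ≤ ‖w‖ ^ 3 := by positivity
    nlinarith
  have h : (1 + v) * exp w - 1 =
      (1 + v) * (exp w - (1 + w + w ^ 2 / 2)) + v ^ 3 * (1 / 2 - 3 / 8 * v + v ^ 2 / 8) := by
    rw [hw]; ring
  rw [h]
  refine (norm_add_le _ _).trans ?_
  rw [norm_mul, norm_mul, norm_pow]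
  have a1 : ‖1 + v‖ ≤ 3 / 2 := by
    refine (norm_add_le _ _).trans ?_
    rw [norm_one]; linarith
  have a2 : ‖w‖ ^ 3 ≤ (5 / 4 * ‖v‖) ^ 3 := pow_le_pow_left₀ (norm_nonneg _) hwn 3
  have a3 : ‖(1 / 2 - 3 / 8 * v + v ^ 2 / 8 : ℂ)‖ ≤ 1 := by
    refine (norm_add_le _ _).trans ?_
    have b1 : ‖(1 / 2 - 3 / 8 * v : ℂ)‖ ≤ 1 / 2 + 3 / 8 * ‖v‖ := by
      refine (norm_sub_le _ _).trans ?_
      rw [norm_mul]
      norm_num
    have b2 : ‖(v ^ 2 / 8 : ℂ)‖ = ‖v‖ ^ 2 / 8 := by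
      rw [norm_div, norm_pow]; norm_num
    rw [b2]
    nlinarith
  have a4 : ‖1 + v‖ * ‖exp w - (1 + w + w ^ 2 / 2)‖ ≤ 3 / 2 * (5 / 4 * ‖v‖) ^ 3 :=
    mul_le_mul a1 (h3'.trans a2) (norm_nonneg _) (by norm_num)
  have a5 : ‖v‖ ^ 3 * ‖(1 / 2 - 3 / 8 * v + v ^ 2 / 8 : ℂ)‖ ≤ ‖v‖ ^ 3 * 1 :=
    mul_le_mul_of_nonneg_left a3 (by positivity)
  have a6 : 0 ≤ ‖v‖ ^ 3 := by positivity
  nlinarith

/-! ### sums -/

lemma sum_inv (n : ℕ) (hn : 1 ≤ n) (N : ℕ) (hN : n ≤ N) :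
    ∑ k ∈ Finset.Ico n N, (1 : ℝ) / ((k : ℝ) * (k + 1)) = 1 / n - 1 / N := by
  induction N, hN using Nat.le_induction with
  | base => simp
  | succ N hN ih =>
    rw [Finset.sum_Ico_succ_top hN, ih]
    have h1 : (0 : ℝ) < N := by exact_mod_cast (lt_of_lt_of_le (by omega) hN)
    have h2 : (0 : ℝ) < n := by exact_mod_cast (by omega : 0 < n)
    push_cast
    field_simp
    ring

lemma sum_cube (n : ℕ) (hn : 1 ≤ n) (N : ℕ) (hN : n ≤ N) :
    ∑ k ∈ Finset.Ico n N, (1 : ℝ) / ((k : ℝ) + 1) ^ 3 ≤ 1 / (n : ℝ) ^ 2 := by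
  have h0 : (0 : ℝ) < n := by exact_mod_cast (by omega : 0 < n)
  have h1 : ∑ k ∈ Finset.Ico n N, (1 : ℝ) / ((k : ℝ) + 1) ^ 3 ≤
      ∑ k ∈ Finset.Ico n N, (1 / (n : ℝ)) * (1 / ((k : ℝ) * (k + 1))) := by
    refine Finset.sum_le_sum fun k hk => ?_
    have hk1 : n ≤ k := (Finset.mem_Ico.1 hk).1
    have hk2 : (n : ℝ) ≤ k := by exact_mod_cast hk1
    have hk0 : (0 : ℝ) < k := by linarith
    rw [div_mul_div_comm, one_mul]
    apply div_le_div_of_nonneg_left zero_le_one (by positivity)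
    have : (n : ℝ) * (k * (k + 1)) ≤ k * (k * (k + 1)) :=
      mul_le_mul_of_nonneg_right hk2 (by positivity)
    nlinarith [sq_nonneg (k : ℝ)]
  refine h1.trans ?_
  rw [← Finset.mul_sum, sum_inv n hn N hN]
  have h2 : (0 : ℝ) ≤ 1 / N := by positivity
  have h3 : (1 / (n : ℝ)) * (1 / n - 1 / N) ≤ (1 / (n : ℝ)) * (1 / n) :=
    mul_le_mul_of_nonneg_left (by linarith) (by positivity)
  refine h3.trans (le_of_eq ?_)
  field_simp

/-! ### the Gamma part -/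

/-- `Γ(j+1+a) Γ(j+1-a) / Γ(j+1)²` -/
noncomputable def g (a : ℂ) (j : ℕ) : ℂ :=
  Complex.Gamma ((j : ℂ) + 1 + a) / Complex.Gamma ((j : ℂ) + 1) *
    (Complex.Gamma ((j : ℂ) + 1 + -a) / Complex.Gamma ((j : ℂ) + 1))

/-- `a² / (k+1)²` -/
noncomputable def u (a : ℂ) (k : ℕ) : ℂ := a ^ 2 / ((k : ℂ) + 1) ^ 2

lemma NN_mul (a : ℂ) (n : ℕ) : NN n a * NN n (-a) = ∏ j ∈ Finset.range n, g a j := by
  rw [NN, NN, ← Finset.prod_mul_distrib]; rfl

lemma re_pos {a : ℂ} (ha : |a.re| < 1) (j : ℕ) : 0 < ((j : ℂ) + 1 + a).re := by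
  have h := (abs_lt.1 ha).1
  have h2 : (0 : ℝ) ≤ j := Nat.cast_nonneg j
  simp only [add_re, natCast_re, one_re]
  linarith

lemma re_neg {a : ℂ} (ha : |a.re| < 1) : |(-a).re| < 1 := by
  rwa [neg_re, abs_neg]

lemma kne (j : ℕ) : (j : ℂ) + 1 ≠ 0 := by
  exact_mod_cast (Nat.succ_ne_zero j)

lemma g_ne {a : ℂ} (ha : |a.re| < 1) (j : ℕ) : g a j ≠ 0 := by
  have h0 : Complex.Gamma ((j : ℂ) + 1) ≠ 0 := by
    have := Complex.Gamma_ne_zero_of_re_pos (re_pos (a := 0) (by simp) j)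
    rwa [add_zero] at this
  exact mul_ne_zero (div_ne_zero (Complex.Gamma_ne_zero_of_re_pos (re_pos ha j)) h0)
    (div_ne_zero (Complex.Gamma_ne_zero_of_re_pos (re_pos (re_neg ha) j)) h0)

lemma g_succ {a : ℂ} (ha : |a.re| < 1) (j : ℕ) : g a (j + 1) = g a j * (1 - u a j) := by
  have h1 : (j : ℂ) + 1 + a ≠ 0 := fun h => by
    have := re_pos ha j; rw [h] at this; simp at this
  have h2 : (j : ℂ) + 1 + -a ≠ 0 := fun h => by
    have := re_pos (re_neg ha) j; rw [h] at this; simp at this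
  have h3 := kne j
  have h0 : Complex.Gamma ((j : ℂ) + 1) ≠ 0 := by
    have := Complex.Gamma_ne_zero_of_re_pos (re_pos (a := 0) (by simp) j)
    rwa [add_zero] at this
  unfold g u
  push_cast
  rw [show (j : ℂ) + 1 + 1 + a = ((j : ℂ) + 1 + a) + 1 by ring,
    show (j : ℂ) + 1 + 1 + -a = ((j : ℂ) + 1 + -a) + 1 by ring,
    Complex.Gamma_add_one _ h1, Complex.Gamma_add_one _ h2, Complex.Gamma_add_one _ h3]
  field_simp
  ring

lemma u_ne {a : ℂ} (ha : |a.re| < 1) (k : ℕ) : 1 - u a k ≠ 0 := by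
  intro h
  have := g_succ ha k
  rw [h, mul_zero] at this
  exact g_ne ha (k + 1) this

lemma g_prod {a : ℂ} (ha : |a.re| < 1) (n : ℕ) :
    g a n = g a 0 * ∏ k ∈ Finset.range n, (1 - u a k) := by
  induction n with
  | zero => simp
  | succ n ih => rw [g_succ ha, ih, Finset.prod_range_succ, mul_assoc]

lemma g_tendsto {a : ℂ} (ha : |a.re| < 1) : Tendsto (g a) atTop (𝓝 1) := by
  by_cases h0 : a = 0
  · have : g a = fun _ => 1 := by
      funext n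
      rw [g_prod ha, h0]
      simp [g, u]
    rw [this]
    exact tendsto_const_nhds
  · have hs : Complex.sin (Real.pi * a) ≠ 0 := by
      intro h
      rw [Complex.sin_eq_zero_iff] at h
      obtain ⟨k, hk⟩ := h
      have hpi : (Real.pi : ℂ) ≠ 0 := by exact_mod_cast Real.pi_ne_zero
      have hak : a = k := by
        rw [mul_comm] at hk
        exact mul_right_cancel₀ hpi hk
      rw [hak, intCast_re] at ha
      have hk1 : |k| < 1 := by exact_mod_cast ha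
      have hk0 : k = 0 := by
        rw [← Int.abs_lt_one_iff]; exact hk1
      rw [hk0] at hak
      exact h0 (by simpa using hak)
    have h1 := Complex.tendsto_euler_sin_prod a
    have hg0 : g a 0 = Real.pi * a / Complex.sin (Real.pi * a) := by
      have h2 := Complex.Gamma_mul_Gamma_one_sub a
      have h3 := Complex.Gamma_add_one a h0
      unfold g
      simp only [Nat.cast_zero, zero_add, Complex.Gamma_one, div_one]
      rw [add_comm 1 a, h3, ← sub_eq_add_neg, mul_assoc, h2]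
      ring
    have h4 : Tendsto (fun n : ℕ => (Complex.sin (Real.pi * a))⁻¹ *
        (Real.pi * a * ∏ j ∈ Finset.range n, ((1 : ℂ) - a ^ 2 / ((j : ℂ) + 1) ^ 2))) atTop
        (𝓝 ((Complex.sin (Real.pi * a))⁻¹ * Complex.sin (Real.pi * a))) := h1.const_mul _
    rw [inv_mul_cancel₀ hs] at h4
    refine h4.congr fun n => ?_
    rw [g_prod ha n, hg0]
    unfold u
    ring

lemma P_mul {a : ℂ} (ha : |a.re| < 1) (n : ℕ) :
    (∏ j ∈ Finset.range n, g a j) * ∏ k ∈ Finset.range n, (1 - u a k) ^ (k + 1) = g a n ^ n := by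
  induction n with
  | zero => simp
  | succ n ih =>
    rw [Finset.prod_range_succ, Finset.prod_range_succ, g_succ ha, mul_pow]
    calc _ = ((∏ j ∈ Finset.range n, g a j) * ∏ k ∈ Finset.range n, (1 - u a k) ^ (k + 1)) *
          g a n * (1 - u a n) ^ (n + 1) := by ring
      _ = _ := by rw [ih]; ring

/-! ### the products -/

/-- the terms of the product -/
noncomputable def t (a : ℂ) (k : ℕ) : ℂ := (1 - u a k) ^ (k + 1) * exp (a ^ 2 / ((k : ℂ) + 1))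

lemma u_norm {a : ℂ} {M : ℝ} (hM : ‖a‖ ≤ M) (k : ℕ) : ‖u a k‖ ≤ M ^ 2 / ((k : ℝ) + 1) ^ 2 := by
  unfold u
  rw [norm_div, norm_pow, norm_pow]
  have h1 : ‖(k : ℂ) + 1‖ = (k : ℝ) + 1 := by
    have : (k : ℂ) + 1 = ((k + 1 : ℕ) : ℂ) := by push_cast; ring
    rw [this, Complex.norm_natCast]; push_cast; ring
  rw [h1]
  exact div_le_div_of_nonneg_right (pow_le_pow_left₀ (norm_nonneg _) hM 2) (by positivity)

lemma t_near {a : ℂ} {M : ℝ} (hM : ‖a‖ ≤ M) (k : ℕ) (hk : M ≤ (k : ℝ) + 1) :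
    ‖t a k - 1‖ ≤ Real.exp (3 * M ^ 4 * (1 / ((k : ℝ) + 1) ^ 3)) - 1 := by
  have hM0 : 0 ≤ M := (norm_nonneg _).trans hM
  have hk0 : (0 : ℝ) < (k : ℝ) + 1 := by positivity
  have hu := u_norm hM k
  have hu1 : ‖u a k‖ ≤ 1 := by
    refine hu.trans ?_
    rw [div_le_one (by positivity)]
    exact pow_le_pow_left₀ hM0 hk 2
  have h1 := base_bound' hu1
  have h2 : ‖(1 - u a k) * exp (u a k) - 1‖ ≤ 3 * (M ^ 2 / ((k : ℝ) + 1) ^ 2) ^ 2 :=
    h1.trans (mul_le_mul_of_nonneg_left (pow_le_pow_left₀ (norm_nonneg _) hu 2) (by norm_num))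
  have h3 := near_pow (near_of_le h2) (k + 1)
  have h4 : t a k = ((1 - u a k) * exp (u a k)) ^ (k + 1) := by
    unfold t
    rw [mul_pow, ← Complex.exp_nat_mul]
    congr 2
    unfold u
    have := kne k
    push_cast
    field_simp
  rw [h4]
  refine h3.trans (le_of_eq ?_)
  congr 2
  push_cast
  field_simp

lemma t_prod_near {a : ℂ} {M : ℝ} (hM : ‖a‖ ≤ M) (n : ℕ) (hn : 1 ≤ n) (hn2 : M ≤ n) (N : ℕ)
    (hN : n ≤ N) :
    ‖∏ k ∈ Finset.Ico n N, t a k - 1‖ ≤ Real.exp (3 * M ^ 4 / (n : ℝ) ^ 2) - 1 := by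
  have h1 := near_prod (Finset.Ico n N) (t a) (fun k => 3 * M ^ 4 * (1 / ((k : ℝ) + 1) ^ 3))
    (fun k hk => t_near hM k (by
      have : (n : ℝ) ≤ k := by exact_mod_cast (Finset.mem_Ico.1 hk).1
      linarith))
  refine h1.trans ?_
  rw [← Finset.mul_sum]
  have h2 := sum_cube n hn N hN
  have h3 : 3 * M ^ 4 * ∑ k ∈ Finset.Ico n N, (1 : ℝ) / ((k : ℝ) + 1) ^ 3 ≤
      3 * M ^ 4 * (1 / (n : ℝ) ^ 2) := mul_le_mul_of_nonneg_left h2 (by positivity)
  have h4 : 3 * M ^ 4 * (1 / (n : ℝ) ^ 2) = 3 * M ^ 4 / (n : ℝ) ^ 2 := by ring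
  rw [h4] at h3
  linarith [Real.exp_le_exp.2 h3]

lemma x_near {a : ℂ} {M : ℝ} (hM : ‖a‖ ≤ M) (k : ℕ) (hk1 : 1 ≤ k) (hk : 2 * M ^ 2 ≤ (k : ℝ) + 1) :
    ‖(1 - u a k) * exp (a ^ 2 / ((k : ℂ) * (k + 1))) - 1‖ ≤
      Real.exp ((8 * M ^ 4 + 2 * M ^ 2) * (1 / ((k : ℝ) + 1) ^ 3)) - 1 := by
  have hM0 : 0 ≤ M := (norm_nonneg _).trans hM
  have hk1' : (1 : ℝ) ≤ k := by exact_mod_cast hk1
  have hk0 : (0 : ℝ) < (k : ℝ) + 1 := by positivity
  have hkc : (k : ℂ) ≠ 0 := by exact_mod_cast (by omega : k ≠ 0)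
  have hkc1 := kne k
  have nk : ‖(k : ℂ)‖ = k := Complex.norm_natCast k
  have nk1 : ‖(k : ℂ) + 1‖ = (k : ℝ) + 1 := by
    have : (k : ℂ) + 1 = ((k + 1 : ℕ) : ℂ) := by push_cast; ring
    rw [this, Complex.norm_natCast]; push_cast; ring
  have hu := u_norm hM k
  have ha2 : ‖a‖ ^ 2 ≤ M ^ 2 := pow_le_pow_left₀ (norm_nonneg _) hM 2
  have hv : ‖a ^ 2 / ((k : ℂ) * (k + 1))‖ ≤ 2 * M ^ 2 / ((k : ℝ) + 1) ^ 2 := by
    rw [norm_div, norm_mul, norm_pow, nk, nk1, div_le_div_iff₀ (by positivity) (by positivity)]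
    have h5 : ((k : ℝ) + 1) ^ 2 ≤ 2 * (k * (k + 1)) := by nlinarith
    calc ‖a‖ ^ 2 * ((k : ℝ) + 1) ^ 2 ≤ M ^ 2 * (2 * (k * (k + 1))) :=
          mul_le_mul ha2 h5 (by positivity) (by positivity)
      _ = _ := by ring
  have hv1 : ‖a ^ 2 / ((k : ℂ) * (k + 1))‖ ≤ 1 := by
    refine hv.trans ?_
    rw [div_le_one (by positivity)]
    nlinarith
  have hd : ‖a ^ 2 / ((k : ℂ) * (k + 1)) - u a k‖ ≤ 2 * M ^ 2 / ((k : ℝ) + 1) ^ 3 := by
    have e : a ^ 2 / ((k : ℂ) * (k + 1)) - u a k = a ^ 2 / ((k : ℂ) * (k + 1) ^ 2) := by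
      unfold u
      field_simp
      ring
    rw [e, norm_div, norm_mul, norm_pow, norm_pow, nk, nk1,
      div_le_div_iff₀ (by positivity) (by positivity)]
    have h5 : ((k : ℝ) + 1) ^ 3 ≤ 2 * (k * (k + 1) ^ 2) := by nlinarith [sq_nonneg ((k : ℝ) + 1)]
    calc ‖a‖ ^ 2 * ((k : ℝ) + 1) ^ 3 ≤ M ^ 2 * (2 * (k * (k + 1) ^ 2)) :=
          mul_le_mul ha2 h5 (by positivity) (by positivity)
      _ = _ := by ring
  refine near_of_le ((base_bound hv1).trans ?_)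
  have a1 : ‖a ^ 2 / ((k : ℂ) * (k + 1))‖ ^ 2 ≤ (2 * M ^ 2 / ((k : ℝ) + 1) ^ 2) ^ 2 :=
    pow_le_pow_left₀ (norm_nonneg _) hv 2
  have a2 : ‖u a k‖ * ‖a ^ 2 / ((k : ℂ) * (k + 1))‖ ≤
      (M ^ 2 / ((k : ℝ) + 1) ^ 2) * (2 * M ^ 2 / ((k : ℝ) + 1) ^ 2) :=
    mul_le_mul hu hv (norm_nonneg _) (by positivity)
  have a3 : (1 : ℝ) / ((k : ℝ) + 1) ^ 4 ≤ 1 / ((k : ℝ) + 1) ^ 3 := by
    apply div_le_div_of_nonneg_left zero_le_one (by positivity)
    exact pow_le_pow_right₀ (by linarith) (by norm_num)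
  have a4 : 8 * M ^ 4 * ((1 : ℝ) / ((k : ℝ) + 1) ^ 4) ≤ 8 * M ^ 4 * (1 / ((k : ℝ) + 1) ^ 3) :=
    mul_le_mul_of_nonneg_left a3 (by positivity)
  calc _ ≤ (2 * M ^ 2 / ((k : ℝ) + 1) ^ 2) ^ 2 + 2 * M ^ 2 / ((k : ℝ) + 1) ^ 3 +
        2 * ((M ^ 2 / ((k : ℝ) + 1) ^ 2) * (2 * M ^ 2 / ((k : ℝ) + 1) ^ 2)) := by linarith
    _ = 8 * M ^ 4 * ((1 : ℝ) / ((k : ℝ) + 1) ^ 4) + 2 * M ^ 2 * (1 / ((k : ℝ) + 1) ^ 3) := by
        field_simp
        ring
    _ ≤ _ := by linarith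

lemma g_near {a : ℂ} (ha : |a.re| < 1) {M : ℝ} (hM : ‖a‖ ≤ M) (n : ℕ) (hn : 1 ≤ n)
    (hn2 : 2 * M ^ 2 ≤ n) :
    ‖((g a n)⁻¹) ^ n * exp (a ^ 2) - 1‖ ≤ Real.exp ((8 * M ^ 4 + 2 * M ^ 2) / n) - 1 := by
  have hn0 : (0 : ℝ) < n := by exact_mod_cast (by omega : 0 < n)
  have key : ∀ N : ℕ, n ≤ N → ‖((g a N) * (g a n)⁻¹) ^ n * exp (a ^ 2 * (1 - (n : ℂ) / N)) - 1‖ ≤
      Real.exp ((8 * M ^ 4 + 2 * M ^ 2) / n) - 1 := by
    intro N hN
    have hN0 : (N : ℂ) ≠ 0 := by exact_mod_cast (by omega : N ≠ 0)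
    have hnc : (n : ℂ) ≠ 0 := by exact_mod_cast (by omega : n ≠ 0)
    have h1 := near_prod (Finset.Ico n N) (fun k => (1 - u a k) * exp (a ^ 2 / ((k : ℂ) * (k + 1))))
      (fun k => (8 * M ^ 4 + 2 * M ^ 2) * (1 / ((k : ℝ) + 1) ^ 3))
      (fun k hk => x_near hM k (hn.trans (Finset.mem_Ico.1 hk).1) (by
        have : (n : ℝ) ≤ k := by exact_mod_cast (Finset.mem_Ico.1 hk).1
        linarith))
    have h2 := near_pow h1 n
    have e1 : ∏ k ∈ Finset.Ico n N, (1 - u a k) * exp (a ^ 2 / ((k : ℂ) * (k + 1))) =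
        (g a N * (g a n)⁻¹) * exp (a ^ 2 * (1 / (n : ℂ) - 1 / N)) := by
      rw [Finset.prod_mul_distrib, ← Complex.exp_sum]
      congr 1
      · rw [g_prod ha N, g_prod ha n, ← Finset.prod_range_mul_prod_Ico _ hN]
        have := g_ne ha n
        rw [g_prod ha n] at this
        rw [eq_mul_inv_iff_mul_eq₀ this]
        ring
      · congr 1
        have h3 := sum_inv n hn N hN
        have h4 : ∑ k ∈ Finset.Ico n N, (1 : ℂ) / ((k : ℂ) * (k + 1)) = 1 / n - 1 / N := by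
          have := congrArg (fun x : ℝ => (x : ℂ)) h3
          push_cast at this
          exact this
        rw [← h4, Finset.mul_sum]
        refine Finset.sum_congr rfl fun k _ => ?_
        ring
    rw [e1, mul_pow, ← Complex.exp_nat_mul] at h2
    have e2 : (n : ℂ) * (a ^ 2 * (1 / (n : ℂ) - 1 / N)) = a ^ 2 * (1 - (n : ℂ) / N) := by
      field_simp
    rw [e2] at h2
    refine h2.trans ?_
    have h5 := sum_cube n hn N hN
    rw [← Finset.mul_sum]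
    have h6 : (n : ℝ) * ((8 * M ^ 4 + 2 * M ^ 2) *
        ∑ k ∈ Finset.Ico n N, (1 : ℝ) / ((k : ℝ) + 1) ^ 3) ≤ (8 * M ^ 4 + 2 * M ^ 2) / n := by
      calc _ ≤ (n : ℝ) * ((8 * M ^ 4 + 2 * M ^ 2) * (1 / (n : ℝ) ^ 2)) :=
            mul_le_mul_of_nonneg_left (mul_le_mul_of_nonneg_left h5 (by positivity)) hn0.le
        _ = _ := by field_simp
    linarith [Real.exp_le_exp.2 h6]
  have lim : Tendsto (fun N : ℕ => ((g a N) * (g a n)⁻¹) ^ n * exp (a ^ 2 * (1 - (n : ℂ) / N)))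
      atTop (𝓝 (((1 : ℂ) * (g a n)⁻¹) ^ n * exp (a ^ 2 * (1 - 0)))) := by
    refine Tendsto.mul (((g_tendsto ha).mul_const _).pow n) ?_
    refine (Complex.continuous_exp.tendsto _).comp ?_
    refine Tendsto.const_mul _ (tendsto_const_nhds.sub ?_)
    exact tendsto_const_div_atTop_nhds_zero_nat (n : ℂ)
  rw [one_mul, sub_zero, mul_one] at lim
  have lim2 := (lim.sub_const 1).norm
  refine le_of_tendsto lim2 ?_
  filter_upwards [eventually_ge_atTop n] with N hN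
  exact key N hN

/-! ### the Barnes product -/

/-- the terms of `barnesG (1 + a)` -/
noncomputable def w (a : ℂ) (k : ℕ) : ℂ :=
  (1 + a / ((k : ℂ) + 1)) ^ (k + 1) * exp (a ^ 2 / (2 * ((k : ℂ) + 1)) - a)

lemma w_near (a : ℂ) (k : ℕ) (hk : 2 * ‖a‖ ≤ (k : ℝ) + 1) :
    ‖w a k - 1‖ ≤ Real.exp (4 * ‖a‖ ^ 3 / ((k : ℝ) + 1) ^ 2) - 1 := by
  have hk0 : (0 : ℝ) < (k : ℝ) + 1 := by positivity
  have hkc1 := kne k
  have nk1 : ‖(k : ℂ) + 1‖ = (k : ℝ) + 1 := by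
    have : (k : ℂ) + 1 = ((k + 1 : ℕ) : ℂ) := by push_cast; ring
    rw [this, Complex.norm_natCast]; push_cast; ring
  have hv : ‖a / ((k : ℂ) + 1)‖ ≤ 1 / 2 := by
    rw [norm_div, nk1, div_le_div_iff₀ hk0 (by norm_num)]
    linarith
  have h1 := near_pow (near_of_le (cube_bound hv)) (k + 1)
  have h2 : w a k = ((1 + a / ((k : ℂ) + 1)) *
      exp ((a / ((k : ℂ) + 1)) ^ 2 / 2 - a / ((k : ℂ) + 1))) ^ (k + 1) := by
    unfold w
    rw [mul_pow, ← Complex.exp_nat_mul]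
    congr 2
    push_cast
    field_simp
  rw [h2]
  refine h1.trans (le_of_eq ?_)
  congr 2
  rw [norm_div, nk1]
  push_cast
  field_simp

lemma w_mult (a : ℂ) : Multipliable (w a) := by
  have h : Summable fun k => ‖w a k - 1‖ := by
    have hs : Summable fun k : ℕ => 8 * ‖a‖ ^ 3 * (1 / ((k : ℝ) + 1) ^ 2) := by
      apply Summable.mul_left
      have := (summable_nat_add_iff 1).2 (Real.summable_one_div_nat_pow.2 (by norm_num : 1 < 2))
      simpa using this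
    refine Summable.of_norm_bounded_eventually_nat hs ?_
    obtain ⟨K, hK⟩ := exists_nat_ge (2 * ‖a‖ + 4 * ‖a‖ ^ 3)
    filter_upwards [eventually_ge_atTop K] with k hk
    have hkR : (K : ℝ) ≤ k := by exact_mod_cast hk
    have ha0 : 0 ≤ ‖a‖ := norm_nonneg a
    have ha3 : 0 ≤ 4 * ‖a‖ ^ 3 := by positivity
    have h1 := w_near a k (by linarith)
    rw [norm_norm]
    refine h1.trans ?_
    set x := 4 * ‖a‖ ^ 3 / ((k : ℝ) + 1) ^ 2 with hx
    have hx0 : 0 ≤ x := by positivity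
    have hk1 : (1 : ℝ) ≤ (k : ℝ) + 1 := by
      have : (0 : ℝ) ≤ k := Nat.cast_nonneg k
      linarith
    have hx1 : x ≤ 1 := by
      rw [hx, div_le_one (by positivity)]
      have : (k : ℝ) + 1 ≤ ((k : ℝ) + 1) ^ 2 := by nlinarith
      linarith
    have h2 := Real.abs_exp_sub_one_le (x := x) (by rwa [abs_of_nonneg hx0])
    rw [abs_of_nonneg hx0] at h2
    refine (le_abs_self _).trans (h2.trans (le_of_eq ?_))
    rw [hx]
    ring
  have := multipliable_one_add_of_summable h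
  refine this.congr fun k => ?_
  ring

lemma w_mul (a : ℂ) (k : ℕ) : w a k * w (-a) k = t a k := by
  have hkc1 := kne k
  unfold w t u
  have e1 : (1 - a ^ 2 / ((k : ℂ) + 1) ^ 2) = (1 + a / ((k : ℂ) + 1)) * (1 + -a / ((k : ℂ) + 1)) := by
    field_simp
    ring
  have e2 : exp (a ^ 2 / ((k : ℂ) + 1)) =
      exp (a ^ 2 / (2 * ((k : ℂ) + 1)) - a) * exp ((-a) ^ 2 / (2 * ((k : ℂ) + 1)) - -a) := by
    rw [← Complex.exp_add]
    congr 1
    field_simp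
    ring
  rw [e1, e2, mul_pow]
  ring

/-- limit of the product -/
noncomputable def L (a : ℂ) : ℂ := (∏' k, w a k) * ∏' k, w (-a) k

lemma L_tendsto (a : ℂ) : Tendsto (fun n => ∏ k ∈ Finset.range n, t a k) atTop (𝓝 (L a)) := by
  have h := (w_mult a).hasProd.tendsto_prod_nat.mul (w_mult (-a)).hasProd.tendsto_prod_nat
  refine h.congr fun n => ?_
  rw [← Finset.prod_mul_distrib]
  exact Finset.prod_congr rfl fun k _ => w_mul a k

lemma barnes_eq (a : ℂ) : barnesG (1 + a) * barnesG (1 - a) =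
    exp (-(a ^ 2 * (1 + (Real.eulerMascheroniConstant : ℂ)))) * L a := by
  have hpi : (2 * (Real.pi : ℂ)) ≠ 0 := by
    simp
  unfold barnesG L
  rw [show (1 : ℂ) + a - 1 = a by ring, show (1 : ℂ) - a - 1 = -a by ring]
  have e1 : (2 * (Real.pi : ℂ)) ^ (a / 2) * (2 * (Real.pi : ℂ)) ^ (-a / 2) = 1 := by
    rw [← Complex.cpow_add _ _ hpi, show a / 2 + -a / 2 = 0 by ring, Complex.cpow_zero]
  have e2 : exp (-(a + a ^ 2 * (1 + (Real.eulerMascheroniConstant : ℂ))) / 2) *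
      exp (-(-a + (-a) ^ 2 * (1 + (Real.eulerMascheroniConstant : ℂ))) / 2) =
      exp (-(a ^ 2 * (1 + (Real.eulerMascheroniConstant : ℂ)))) := by
    rw [← Complex.exp_add]
    congr 1
    ring
  rw [← e2]
  calc _ = ((2 * (Real.pi : ℂ)) ^ (a / 2) * (2 * (Real.pi : ℂ)) ^ (-a / 2)) *
        (exp (-(a + a ^ 2 * (1 + (Real.eulerMascheroniConstant : ℂ))) / 2) *
      exp (-(-a + (-a) ^ 2 * (1 + (Real.eulerMascheroniConstant : ℂ))) / 2)) *
        ((∏' k, w a k) * ∏' k, w (-a) k) := by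
        unfold w
        ring
    _ = _ := by rw [e1, one_mul]

lemma t_ne {a : ℂ} (ha : |a.re| < 1) (k : ℕ) : t a k ≠ 0 :=
  mul_ne_zero (pow_ne_zero _ (u_ne ha k)) (Complex.exp_ne_zero _)

lemma E_ne {a : ℂ} (ha : |a.re| < 1) (n : ℕ) : ∏ k ∈ Finset.range n, t a k ≠ 0 :=
  Finset.prod_ne_zero_iff.2 fun k _ => t_ne ha k

lemma L_near {a : ℂ} (ha : |a.re| < 1) {M : ℝ} (hM : ‖a‖ ≤ M) (n : ℕ) (hn : 1 ≤ n)
    (hn2 : M ≤ n) :
    ‖L a / (∏ k ∈ Finset.range n, t a k) - 1‖ ≤ Real.exp (3 * M ^ 4 / (n : ℝ) ^ 2) - 1 := by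
  have lim := (((L_tendsto a).div_const (∏ k ∈ Finset.range n, t a k)).sub_const 1).norm
  refine le_of_tendsto lim ?_
  filter_upwards [eventually_ge_atTop n] with N hN
  rw [← Finset.prod_range_mul_prod_Ico _ hN, mul_div_cancel_left₀ _ (E_ne ha n)]
  exact t_prod_near hM n hn hn2 N hN

lemma delta_tendsto (c : ℝ) : Tendsto (fun n : ℕ => Real.exp (c / (n : ℝ)) - 1) atTop (𝓝 0) := by
  have h1 : Tendsto (fun n : ℕ => c / (n : ℝ)) atTop (𝓝 0) := tendsto_const_div_atTop_nhds_zero_nat c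
  have h2 := (Real.continuous_exp.tendsto 0).comp h1
  have h3 := h2.sub_const 1
  simpa using h3

lemma delta_tendsto2 (c : ℝ) :
    Tendsto (fun n : ℕ => Real.exp (c / (n : ℝ) ^ 2) - 1) atTop (𝓝 0) := by
  have h0 : Tendsto (fun n : ℕ => (n : ℝ) ^ 2) atTop atTop :=
    (tendsto_pow_atTop (by norm_num)).comp tendsto_natCast_atTop_atTop
  have h1 : Tendsto (fun n : ℕ => c / (n : ℝ) ^ 2) atTop (𝓝 0) := h0.const_div_atTop c
  have h2 := (Real.continuous_exp.tendsto 0).comp h1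
  have h3 := h2.sub_const 1
  simpa using h3

lemma norm_le_two {z : ℂ} (h : ‖z - 1‖ ≤ 1 / 2) : 1 / 2 ≤ ‖z‖ ∧ ‖z‖ ≤ 3 / 2 := by
  constructor
  · have := norm_sub_norm_le (1 : ℂ) (1 - z)
    rw [norm_one, sub_sub_cancel, norm_sub_rev] at this
    linarith
  · have := norm_add_le (z - 1) 1
    rw [sub_add_cancel, norm_one] at this
    linarith

lemma L_cont (K : Set ℂ) (hK : IsCompact K) (hre : ∀ a ∈ K, |a.re| < 1) : ContinuousOn L K := by
  obtain ⟨M0, hM0⟩ := hK.isBounded.exists_norm_le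
  set M := max M0 0 with hMdef
  have hM : ∀ a ∈ K, ‖a‖ ≤ M := fun a ha => (hM0 a ha).trans (le_max_left _ _)
  have hEc : ∀ n, Continuous (fun a => ∏ k ∈ Finset.range n, t a k) := fun n => by
    unfold t u
    fun_prop
  have hd := delta_tendsto2 (3 * M ^ 4)
  have hev : ∀ᶠ n : ℕ in atTop, 1 ≤ n ∧ M ≤ n ∧ Real.exp (3 * M ^ 4 / (n : ℝ) ^ 2) - 1 ≤ 1 / 2 := by
    obtain ⟨m, hm⟩ := exists_nat_ge M
    filter_upwards [eventually_ge_atTop 1, eventually_ge_atTop m,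
      hd.eventually (ge_mem_nhds (by norm_num : (0 : ℝ) < 1 / 2))] with n h1 h2 h3
    exact ⟨h1, hm.trans (by exact_mod_cast h2), h3⟩
  obtain ⟨n0, h01, h02, h03⟩ := hev.exists
  obtain ⟨B, hB⟩ := hK.exists_bound_of_continuousOn (hEc n0).continuousOn
  have hLB : ∀ a ∈ K, ‖L a‖ ≤ 2 * |B| := by
    intro a ha
    have h1 := (L_near (hre a ha) (hM a ha) n0 h01 h02).trans h03
    have h2 := (norm_le_two h1).2
    have h3 : L a = (L a / ∏ k ∈ Finset.range n0, t a k) * ∏ k ∈ Finset.range n0, t a k := by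
      rw [div_mul_cancel₀ _ (E_ne (hre a ha) n0)]
    rw [h3, norm_mul]
    have h4 := hB a ha
    have h5 : ‖∏ k ∈ Finset.range n0, t a k‖ ≤ |B| := h4.trans (le_abs_self B)
    calc _ ≤ (3 / 2) * |B| := mul_le_mul h2 h5 (norm_nonneg _) (by norm_num)
      _ ≤ _ := by nlinarith [abs_nonneg B]
  have hU : TendstoUniformlyOn (fun (n : ℕ) (a : ℂ) => ∏ k ∈ Finset.range n, t a k) L atTop K := by
    rw [Metric.tendstoUniformlyOn_iff]
    intro ε hε
    have h1 : Tendsto (fun n : ℕ => 4 * |B| * (Real.exp (3 * M ^ 4 / (n : ℝ) ^ 2) - 1)) atTop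
        (𝓝 (4 * |B| * 0)) := hd.const_mul _
    rw [mul_zero] at h1
    filter_upwards [hev, h1.eventually (gt_mem_nhds hε)] with n hn hn2 a ha
    obtain ⟨h11, h12, h13⟩ := hn
    have g1 := L_near (hre a ha) (hM a ha) n h11 h12
    have g2 := (norm_le_two (g1.trans h13)).1
    have hE := E_ne (hre a ha) n
    set z := L a / ∏ k ∈ Finset.range n, t a k with hz
    have hLz : L a = z * ∏ k ∈ Finset.range n, t a k := by rw [hz, div_mul_cancel₀ _ hE]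
    have g3 : ‖∏ k ∈ Finset.range n, t a k‖ ≤ 2 * ‖L a‖ := by
      rw [hLz, norm_mul]
      nlinarith [norm_nonneg (∏ k ∈ Finset.range n, t a k)]
    rw [dist_eq_norm]
    have g4 : L a - ∏ k ∈ Finset.range n, t a k = (∏ k ∈ Finset.range n, t a k) * (z - 1) := by
      rw [hLz]; ring
    rw [g4, norm_mul]
    refine lt_of_le_of_lt ?_ hn2
    have g5 : ‖∏ k ∈ Finset.range n, t a k‖ ≤ 4 * |B| := by
      have := hLB a ha
      linarith
    exact mul_le_mul g5 g1 (norm_nonneg _) (by positivity)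
  exact hU.continuousOn (Frequently.of_forall fun n => (hEc n).continuousOn)

lemma sum_harm (n : ℕ) : ∑ k ∈ Finset.range n, (1 : ℂ) / ((k : ℂ) + 1) = ((harmonic n : ℝ) : ℂ) := by
  rw [harmonic]
  push_cast
  refine Finset.sum_congr rfl fun k _ => ?_
  rw [one_div]

lemma main_eq {a : ℂ} (ha : |a.re| < 1) (n : ℕ) (hn : 1 ≤ n) :
    NN n a * NN n (-a) * (n : ℂ) ^ (-(a ^ 2)) * (barnesG (1 + a) * barnesG (1 - a)) =
      (((g a n)⁻¹) ^ n * exp (a ^ 2))⁻¹ *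
        exp (a ^ 2 * (((harmonic n : ℝ) - Real.log n - Real.eulerMascheroniConstant : ℝ) : ℂ)) *
        (L a / ∏ k ∈ Finset.range n, t a k) := by
  have hnc : (n : ℂ) ≠ 0 := by exact_mod_cast (by omega : n ≠ 0)
  have hP := P_mul ha n
  have hE' : ∏ k ∈ Finset.range n, (1 - u a k) ^ (k + 1) ≠ 0 :=
    Finset.prod_ne_zero_iff.2 fun k _ => pow_ne_zero _ (u_ne ha k)
  have hE : ∏ k ∈ Finset.range n, t a k = (∏ k ∈ Finset.range n, (1 - u a k) ^ (k + 1)) *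
      exp (a ^ 2 * ((harmonic n : ℝ) : ℂ)) := by
    unfold t
    rw [Finset.prod_mul_distrib, ← Complex.exp_sum, ← sum_harm, Finset.mul_sum]
    congr 2
    refine Finset.sum_congr rfl fun k _ => ?_
    ring
  have hg := g_ne ha n
  rw [NN_mul, barnes_eq, Complex.cpow_def_of_ne_zero hnc, ← Complex.natCast_log, hE,
    eq_div_of_mul_eq hE' hP]
  push_cast
  rw [inv_pow, mul_inv, inv_inv, ← Complex.exp_neg]
  have e1 : exp ((Real.log n : ℂ) * -a ^ 2) *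
      exp (-(a ^ 2 * (1 + (Real.eulerMascheroniConstant : ℂ)))) *
      exp (a ^ 2 * ((harmonic n : ℝ) : ℂ)) =
      exp (-a ^ 2) * exp (a ^ 2 * (((harmonic n : ℝ) : ℂ) - (Real.log n : ℂ) -
        (Real.eulerMascheroniConstant : ℂ))) := by
    rw [← Complex.exp_add, ← Complex.exp_add, ← Complex.exp_add]
    congr 1
    ring
  have hx : exp (a ^ 2 * ((harmonic n : ℝ) : ℂ)) ≠ 0 := Complex.exp_ne_zero _
  push_cast at e1 hx ⊢
  rw [mul_div_assoc', div_mul_eq_mul_div, div_mul_eq_mul_div, div_eq_div_iff hE'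
    (mul_ne_zero hE' hx)]
  linear_combination (g a n ^ n * L a * ∏ k ∈ Finset.range n, (1 - u a k) ^ (k + 1)) * e1

end Bar

open Bar in
theorem s_BAR : S_BAR := by
  intro K hK hre
  constructor
  · have h := L_cont K hK hre
    have h2 : (fun a => barnesG (1 + a) * barnesG (1 - a)) =
        fun a => exp (-(a ^ 2 * (1 + (Real.eulerMascheroniConstant : ℂ)))) * L a :=
      funext barnes_eq
    rw [h2]
    exact (Continuous.continuousOn (by fun_prop)).mul h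
  · obtain ⟨M0, hM0⟩ := hK.isBounded.exists_norm_le
    set M := max M0 0 with hMdef
    have hMnn : 0 ≤ M := le_max_right _ _
    have hM : ∀ a ∈ K, ‖a‖ ≤ M := fun a ha => (hM0 a ha).trans (le_max_left _ _)
    set d : ℕ → ℝ := fun n => (harmonic n : ℝ) - Real.log n - Real.eulerMascheroniConstant with hd
    have hd0 : Tendsto d atTop (𝓝 0) := by
      have := Real.tendsto_harmonic_sub_log.sub_const Real.eulerMascheroniConstant
      simpa using this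
    set d1 : ℕ → ℝ := fun n => Real.exp ((8 * M ^ 4 + 2 * M ^ 2) / (n : ℝ)) - 1 with hd1
    have hd10 : Tendsto d1 atTop (𝓝 0) := delta_tendsto _
    set d3 : ℕ → ℝ := fun n => Real.exp (3 * M ^ 4 / (n : ℝ) ^ 2) - 1 with hd3
    have hd30 : Tendsto d3 atTop (𝓝 0) := delta_tendsto2 _
    have hb : Tendsto (fun n => (1 + 2 * d1 n) * (1 + 2 * (M ^ 2 * |d n|)) * (1 + d3 n) - 1) atTop
        (𝓝 ((1 + 2 * 0) * (1 + 2 * (M ^ 2 * |(0 : ℝ)|)) * (1 + 0) - 1)) :=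
      ((((hd10.const_mul 2).const_add 1).mul (((hd0.abs.const_mul (M ^ 2)).const_mul 2).const_add
        1)).mul (hd30.const_add 1)).sub_const 1
    have hb0 : (1 + 2 * (0 : ℝ)) * (1 + 2 * (M ^ 2 * |(0 : ℝ)|)) * (1 + 0) - 1 = 0 := by simp
    rw [hb0] at hb
    have hdM : Tendsto (fun n => M ^ 2 * |d n|) atTop (𝓝 (M ^ 2 * |(0 : ℝ)|)) :=
      hd0.abs.const_mul (M ^ 2)
    rw [abs_zero, mul_zero] at hdM
    rw [Metric.tendstoUniformlyOn_iff]
    intro ε hε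
    obtain ⟨m1, hm1⟩ := exists_nat_ge (2 * M ^ 2)
    obtain ⟨m2, hm2⟩ := exists_nat_ge M
    filter_upwards [eventually_ge_atTop 1, eventually_ge_atTop m1, eventually_ge_atTop m2,
      hd10.eventually (ge_mem_nhds (by norm_num : (0 : ℝ) < 1 / 2)),
      hdM.eventually (ge_mem_nhds (by norm_num : (0 : ℝ) < 1)),
      hb.eventually (gt_mem_nhds hε)] with n h1 h2 h3 h4 h5 h6 a ha
    have hn1 : 2 * M ^ 2 ≤ n := hm1.trans (by exact_mod_cast h2)
    have hn2 : M ≤ n := hm2.trans (by exact_mod_cast h3)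
    have hMa := hM a ha
    have hra := hre a ha
    rw [dist_comm, dist_eq_norm, main_eq hra n h1, Pi.one_apply]
    refine lt_of_le_of_lt ?_ h6
    set x := ((g a n)⁻¹) ^ n * exp (a ^ 2) with hx
    set y := exp (a ^ 2 * ((d n : ℝ) : ℂ)) with hy
    set z := L a / ∏ k ∈ Finset.range n, t a k with hz
    have bx : ‖x - 1‖ ≤ d1 n := g_near hra hMa n h1 hn1
    have bz : ‖z - 1‖ ≤ d3 n := L_near hra hMa n h1 hn2
    have hxn := (norm_le_two (bx.trans h4)).1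
    have hx0 : x ≠ 0 := by
      intro h
      rw [h, norm_zero] at hxn
      linarith
    have bx' : ‖x⁻¹ - 1‖ ≤ 2 * d1 n := by
      have e : x⁻¹ - 1 = (1 - x) / x := by field_simp
      rw [e, norm_div, norm_sub_rev, div_le_iff₀ (by linarith)]
      have : 0 ≤ d1 n := (norm_nonneg _).trans bx
      nlinarith
    have by' : ‖y - 1‖ ≤ 2 * (M ^ 2 * |d n|) := by
      have hn : ‖a ^ 2 * ((d n : ℝ) : ℂ)‖ ≤ M ^ 2 * |d n| := by
        rw [norm_mul, norm_pow, Complex.norm_real, Real.norm_eq_abs]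
        exact mul_le_mul_of_nonneg_right (pow_le_pow_left₀ (norm_nonneg _) hMa 2) (abs_nonneg _)
      have := norm_exp_sub_one_le (hn.trans h5)
      linarith
    have h7 : x⁻¹ * y * z - 1 = ((x⁻¹ - 1) + 1) * ((y - 1) + 1) * ((z - 1) + 1) - 1 := by ring
    have h8 : ∀ p q r : ℂ, ‖(p + 1) * (q + 1) * (r + 1) - 1‖ ≤
        (1 + ‖p‖) * (1 + ‖q‖) * (1 + ‖r‖) - 1 := by
      intro p q r
      have e : (p + 1) * (q + 1) * (r + 1) - 1 =
          p * q * r + p * q + p * r + q * r + p + q + r := by ring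
      rw [e]
      have t1 := norm_add_le (p * q * r + p * q + p * r + q * r + p + q) r
      have t2 := norm_add_le (p * q * r + p * q + p * r + q * r + p) q
      have t3 := norm_add_le (p * q * r + p * q + p * r + q * r) p
      have t4 := norm_add_le (p * q * r + p * q + p * r) (q * r)
      have t5 := norm_add_le (p * q * r + p * q) (p * r)
      have t6 := norm_add_le (p * q * r) (p * q)
      simp only [norm_mul] at t1 t2 t3 t4 t5 t6
      nlinarith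
    rw [h7]
    refine (h8 _ _ _).trans ?_
    have p1 : 0 ≤ ‖x⁻¹ - 1‖ := norm_nonneg _
    have p2 : 0 ≤ ‖y - 1‖ := norm_nonneg _
    have p3 : 0 ≤ ‖z - 1‖ := norm_nonneg _
    have q1 : (1 + ‖x⁻¹ - 1‖) * (1 + ‖y - 1‖) ≤ (1 + 2 * d1 n) * (1 + 2 * (M ^ 2 * |d n|)) :=
      mul_le_mul (by linarith) (by linarith) (by linarith) (by linarith)
    have q2 : (1 + ‖x⁻¹ - 1‖) * (1 + ‖y - 1‖) * (1 + ‖z - 1‖) ≤
        (1 + 2 * d1 n) * (1 + 2 * (M ^ 2 * |d n|)) * (1 + d3 n) :=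
      mul_le_mul q1 (by linarith) (by linarith) (by nlinarith)
    linarith

end Pool.Agent.R923.SE
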