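import Pool.Agent.R923.SE.Stm

/-!
Project SE: density form and invariances of the Gaussian measure (S_DEN, S_ROT, S_UL, S_UR, S_TR).
-/

set_option autoImplicit false

open MeasureTheory Complex Filter Topology
open scoped ENNReal

namespace Pool.Agent.R923.SE

noncomputable section

instance haarMt (n m : ℕ) : (volume : Measure (Mt n m)).IsAddHaarMeasure := by
  have h1 : (volume : Measure (Fin m → ℂ)).IsAddHaarMeasure := inferInstance
  rw [volume_pi]
  exact Measure.pi.isAddHaarMeasure _

instance haarMt2 (n m : ℕ) : (volume : Measure (Mt n m × Mt n m)).IsAddHaarMeasure :=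
  Measure.prod.instIsAddHaarMeasure _ _

namespace Base

lemma lintegral_fin_prod {n : ℕ} {E : Fin n → Type*}
    {mE : ∀ i, MeasurableSpace (E i)} {μ : (i : Fin n) → Measure (E i)} [∀ i, SigmaFinite (μ i)]
    (f : (i : Fin n) → E i → ℝ≥0∞) (hf : ∀ i, Measurable (f i)) :
    ∫⁻ x : (i : Fin n) → E i, ∏ i, f i (x i) ∂(Measure.pi μ) = ∏ i, ∫⁻ x, f i x ∂(μ i) := by
  induction n with
  | zero => simp
  | succ n ih =>
    calc
      _ = ∫⁻ x : E 0 × ((i : Fin n) → E (Fin.succ i)),
            f 0 x.1 * ∏ i : Fin n, f (Fin.succ i) (x.2 i)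
            ∂((μ 0).prod (Measure.pi (fun i ↦ μ i.succ))) := by
          rw [← ((measurePreserving_piFinSuccAbove μ 0).symm).lintegral_comp_emb
            (MeasurableEquiv.measurableEmbedding _)]
          simp_rw [MeasurableEquiv.piFinSuccAbove_symm_apply, Fin.insertNthEquiv,
            Fin.prod_univ_succ, Fin.insertNth_zero, Equiv.coe_fn_mk, Fin.cons_succ,
            Fin.zero_succAbove, cast_eq, Fin.cons_zero]
          rfl
      _ = (∫⁻ x, f 0 x ∂μ 0)
            * ∏ i : Fin n, ∫⁻ (x : E (Fin.succ i)), f (Fin.succ i) x ∂(μ i.succ) := by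
          rw [← ih _ (fun i => hf i.succ), ← lintegral_prod_mul (hf 0).aemeasurable]
          exact (Finset.measurable_prod _ fun i _ =>
            (hf i.succ).comp (measurable_pi_apply i)).aemeasurable
      _ = ∏ i, ∫⁻ x, f i x ∂(μ i) := by rw [Fin.prod_univ_succ]

lemma pi_withDensity {n : ℕ} {E : Type*} {mE : MeasurableSpace E} {μ : Measure E} [SigmaFinite μ]
    (f : E → ℝ≥0∞) (hf : Measurable f) [SigmaFinite (μ.withDensity f)] :
    Measure.pi (fun _ : Fin n => μ.withDensity f) =
      (Measure.pi (fun _ : Fin n => μ)).withDensity (fun x => ∏ i, f (x i)) := by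
  refine Measure.pi_eq fun s hs => ?_
  rw [withDensity_apply _ (MeasurableSet.univ_pi hs), Measure.restrict_pi_pi,
    lintegral_fin_prod (fun _ => f) (fun _ => hf)]
  exact Finset.prod_congr rfl fun i _ => (withDensity_apply _ (hs i)).symm

/-- the density of `cg` -/
def dc (w : ℂ) : ℝ≥0∞ := ENNReal.ofReal (Real.exp (-‖w‖ ^ 2) / Real.pi)

lemma measurable_dc : Measurable dc := by unfold dc; fun_prop

lemma cg_eq : cg = (volume : Measure ℂ).withDensity dc := rfl

end Base

open Base

theorem s_DEN : S_DEN := by
  intro n m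
  have h1 : (Measure.pi fun _ : Fin m => cg) = (volume : Measure (Fin m → ℂ)).withDensity
      (fun v => ∏ j, dc (v j)) := by
    haveI : SigmaFinite ((volume : Measure ℂ).withDensity dc) := by
      rw [← cg_eq]; infer_instance
    rw [cg_eq]
    exact pi_withDensity dc measurable_dc
  have hm : Measurable (fun v : Fin m → ℂ => ∏ j, dc (v j)) :=
    Finset.measurable_prod _ fun j _ => measurable_dc.comp (measurable_pi_apply j)
  have h2 : gau n m = (volume : Measure (Mt n m)).withDensity (fun B => ∏ i, ∏ j, dc (B i j)) := by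
    haveI : SigmaFinite ((volume : Measure (Fin m → ℂ)).withDensity (fun v => ∏ j, dc (v j))) := by
      rw [← h1]; infer_instance
    unfold gau
    rw [h1]
    exact pi_withDensity _ hm
  rw [h2]
  congr 1
  funext B
  have h3 : ∀ (i : Fin n) (j : Fin m), 0 ≤ Real.exp (-‖B i j‖ ^ 2) / Real.pi := fun i j => by positivity
  unfold dc
  simp_rw [← ENNReal.ofReal_prod_of_nonneg (fun j _ => h3 _ j)]
  rw [← ENNReal.ofReal_prod_of_nonneg (fun i _ => Finset.prod_nonneg fun j _ => h3 i j)]
  congr 1
  simp_rw [Finset.prod_div_distrib, ← Real.exp_sum, Finset.prod_const, Finset.card_univ,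
    Fintype.card_fin]
  rw [← pow_mul, mul_comm m n]
  congr 2
  unfold nsq
  simp [Finset.sum_neg_distrib]

namespace Base

/-- a linear map preserving the exponent of a Gaussian density preserves the measure -/
lemma iso {E : Type*} [NormedAddCommGroup E] [NormedSpace ℝ E] [FiniteDimensional ℝ E]
    [MeasurableSpace E] [BorelSpace E] (ν : Measure E) [ν.IsAddHaarMeasure]
    (ρ : E → ℝ≥0∞) (hρ : Measurable ρ) (hp : IsProbabilityMeasure (ν.withDensity ρ))
    (L : E →ₗ[ℝ] E) (hinj : Function.Injective L) (hL : ∀ x, ρ (L x) = ρ x) :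
    MeasurePreserving L (ν.withDensity ρ) (ν.withDensity ρ) := by
  have hdet : LinearMap.det L ≠ 0 := by
    intro h0
    have := LinearMap.bot_lt_ker_of_det_eq_zero h0
    rw [LinearMap.ker_eq_bot.2 hinj] at this
    exact lt_irrefl _ this
  have hLm : Measurable L := (LinearMap.continuous_of_finiteDimensional L).measurable
  have h1 := Measure.map_linearMap_addHaar_eq_smul_addHaar ν hdet
  have h2 : (ν.withDensity ρ).map L = (ENNReal.ofReal |(LinearMap.det L)⁻¹|) • ν.withDensity ρ := by
    ext s hs
    rw [Measure.map_apply hLm hs, withDensity_apply _ (hLm hs), Measure.smul_apply,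
      withDensity_apply _ hs, smul_eq_mul]
    have h3 : ∫⁻ x in L ⁻¹' s, ρ x ∂ν = ∫⁻ x in L ⁻¹' s, ρ (L x) ∂ν := by simp_rw [hL]
    rw [h3, ← lintegral_indicator (hLm hs), ← lintegral_indicator hs]
    have h4 : ∀ x, (L ⁻¹' s).indicator (fun x => ρ (L x)) x = (s.indicator ρ) (L x) := by
      intro x
      by_cases hx : L x ∈ s
      · rw [Set.indicator_of_mem (show x ∈ L ⁻¹' s from hx), Set.indicator_of_mem hx]
      · rw [Set.indicator_of_notMem (show x ∉ L ⁻¹' s from hx), Set.indicator_of_notMem hx]
    simp_rw [h4]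
    rw [← lintegral_map (hρ.indicator hs) hLm, h1, lintegral_smul_measure, smul_eq_mul]
  have h5 : ENNReal.ofReal |(LinearMap.det L)⁻¹| = 1 := by
    have h6 := congrArg (fun μ => μ Set.univ) h2
    simp only [Measure.smul_apply, smul_eq_mul] at h6
    rw [Measure.map_apply hLm MeasurableSet.univ, Set.preimage_univ, measure_univ, mul_one] at h6
    exact h6.symm
  refine ⟨hLm, ?_⟩
  rw [h2, h5, one_smul]

/-- the density of `gau` -/
def dg {n m : ℕ} (B : Mt n m) : ℝ≥0∞ := ENNReal.ofReal (Real.exp (-nsq B) / Real.pi ^ (n * m))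

lemma measurable_nsq {n m : ℕ} : Measurable (nsq : Mt n m → ℝ) := by unfold nsq; fun_prop

lemma measurable_dg {n m : ℕ} : Measurable (dg : Mt n m → ℝ≥0∞) := by
  unfold dg
  exact (((Real.measurable_exp.comp measurable_nsq.neg).div_const _)).ennreal_ofReal

lemma gau_eq (n m : ℕ) : gau n m = (volume : Measure (Mt n m)).withDensity dg := s_DEN n m

lemma nsq_eq_zero {n m : ℕ} {B : Mt n m} (h : nsq B = 0) : B = 0 := by
  unfold nsq at h
  have h1 := (Finset.sum_eq_zero_iff_of_nonneg
    (fun i _ => Finset.sum_nonneg fun j _ => by positivity)).1 h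
  funext i j
  have h2 := (Finset.sum_eq_zero_iff_of_nonneg (fun j _ => by positivity)).1
    (h1 i (Finset.mem_univ i)) j (Finset.mem_univ j)
  simpa using h2

lemma nsq_nonneg {n m : ℕ} (B : Mt n m) : 0 ≤ nsq B :=
  Finset.sum_nonneg fun i _ => Finset.sum_nonneg fun j _ => by positivity

end Base

theorem s_UL : S_UL := by
  intro n m U hU
  let L : Mt n m →ₗ[ℝ] Mt n m :=
    { toFun := fun B i j => ∑ l, U i l * B l j
      map_add' := by
        intro B C; funext i j; simp [mul_add, Finset.sum_add_distrib]
      map_smul' := by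
        intro c B; funext i j
        simp only [Pi.smul_apply, Complex.real_smul, RingHom.id_apply, Finset.mul_sum]
        exact Finset.sum_congr rfl fun l _ => by ring }
  have hQ : ∀ B : Mt n m, nsq (L B) = nsq B := by
    intro B
    have h1 : ∀ X : Mt n m, ((nsq X : ℝ) : ℂ) =
        Matrix.trace ((Matrix.of X).conjTranspose * Matrix.of X) := by
      intro X
      simp only [nsq, Matrix.trace, Matrix.diag, Matrix.mul_apply, Matrix.conjTranspose_apply,
        Matrix.of_apply]
      rw [Finset.sum_comm]
      push_cast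
      refine Finset.sum_congr rfl fun i _ => Finset.sum_congr rfl fun j _ => ?_
      exact (Complex.conj_mul' _).symm
    have h2 : Matrix.of (L B) = U * Matrix.of B := by
      ext i j; simp [L, Matrix.mul_apply]
    have h3 := h1 (L B)
    rw [h2, Matrix.conjTranspose_mul, Matrix.mul_assoc, ← Matrix.mul_assoc _ U] at h3
    have hU' : U.conjTranspose * U = 1 := Matrix.mem_unitaryGroup_iff'.1 hU
    rw [hU', Matrix.one_mul, ← h1 B] at h3
    exact_mod_cast h3
  have hinj : Function.Injective L := by
    rw [← LinearMap.ker_eq_bot, LinearMap.ker_eq_bot']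
    intro B hB
    refine nsq_eq_zero ?_
    rw [← hQ B, hB]; simp [nsq]
  have hp : IsProbabilityMeasure ((volume : Measure (Mt n m)).withDensity dg) := by
    rw [← gau_eq]; infer_instance
  have h := iso (volume : Measure (Mt n m)) dg measurable_dg hp L hinj
    (fun x => by unfold dg; rw [hQ x])
  rw [gau_eq]
  exact h

theorem s_UR : S_UR := by
  intro n m V hV
  let L : Mt n m →ₗ[ℝ] Mt n m :=
    { toFun := fun B i j => ∑ l, B i l * V l j
      map_add' := by
        intro B C; funext i j; simp [add_mul, Finset.sum_add_distrib]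
      map_smul' := by
        intro c B; funext i j
        simp only [Pi.smul_apply, Complex.real_smul, RingHom.id_apply, Finset.mul_sum]
        exact Finset.sum_congr rfl fun l _ => by ring }
  have hQ : ∀ B : Mt n m, nsq (L B) = nsq B := by
    intro B
    have h1 : ∀ X : Mt n m, ((nsq X : ℝ) : ℂ) =
        Matrix.trace (Matrix.of X * (Matrix.of X).conjTranspose) := by
      intro X
      simp only [nsq, Matrix.trace, Matrix.diag, Matrix.mul_apply, Matrix.conjTranspose_apply,
        Matrix.of_apply]
      push_cast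
      refine Finset.sum_congr rfl fun i _ => Finset.sum_congr rfl fun j _ => ?_
      exact (Complex.mul_conj' _).symm
    have h2 : Matrix.of (L B) = Matrix.of B * V := by
      ext i j; simp [L, Matrix.mul_apply]
    have h3 := h1 (L B)
    rw [h2, Matrix.conjTranspose_mul, Matrix.mul_assoc, ← Matrix.mul_assoc V] at h3
    have hV' : V * V.conjTranspose = 1 := Matrix.mem_unitaryGroup_iff.1 hV
    rw [hV', Matrix.one_mul, ← h1 B] at h3
    exact_mod_cast h3
  have hinj : Function.Injective L := by
    rw [← LinearMap.ker_eq_bot, LinearMap.ker_eq_bot']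
    intro B hB
    refine nsq_eq_zero ?_
    rw [← hQ B, hB]; simp [nsq]
  have hp : IsProbabilityMeasure ((volume : Measure (Mt n m)).withDensity dg) := by
    rw [← gau_eq]; infer_instance
  have h := iso (volume : Measure (Mt n m)) dg measurable_dg hp L hinj
    (fun x => by unfold dg; rw [hQ x])
  rw [gau_eq]
  exact h

theorem s_ROT : S_ROT := by
  intro n m a b c d hab hcd hac
  let L : Mt n m × Mt n m →ₗ[ℝ] Mt n m × Mt n m :=
    { toFun := fun x => (a • x.1 + b • x.2, c • x.1 + d • x.2)
      map_add' := by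
        intro x y
        simp only [Prod.fst_add, Prod.snd_add, smul_add, Prod.mk_add_mk]
        congr 1 <;> abel
      map_smul' := by
        intro r x
        simp only [Prod.smul_fst, Prod.smul_snd, RingHom.id_apply, Prod.smul_mk, smul_add]
        congr 1 <;> (rw [smul_comm r, smul_comm r]) }
  have hm := (mul_eq_one_comm (a := (!![a, b; c, d] : Matrix (Fin 2) (Fin 2) ℂ))
    (b := (!![a, b; c, d] : Matrix (Fin 2) (Fin 2) ℂ).conjTranspose)).1 (by
      have hab' : a * (starRingEnd ℂ) a + b * (starRingEnd ℂ) b = 1 := by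
        rw [Complex.mul_conj, Complex.mul_conj, Complex.normSq_eq_norm_sq,
          Complex.normSq_eq_norm_sq]
        exact_mod_cast hab
      have hcd' : c * (starRingEnd ℂ) c + d * (starRingEnd ℂ) d = 1 := by
        rw [Complex.mul_conj, Complex.mul_conj, Complex.normSq_eq_norm_sq,
          Complex.normSq_eq_norm_sq]
        exact_mod_cast hcd
      have hac' : c * (starRingEnd ℂ) a + d * (starRingEnd ℂ) b = 0 := by
        have := congrArg (starRingEnd ℂ) hac
        simp only [map_add, map_mul, Complex.conj_conj, map_zero] at this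
        rw [← this]; ring
      ext i j
      fin_cases i <;> fin_cases j <;>
        simp [Matrix.mul_apply, Fin.sum_univ_two, Matrix.conjTranspose_apply, hab', hcd', hac',
          hac] )
  have e1 : (starRingEnd ℂ) a * a + (starRingEnd ℂ) c * c = 1 := by
    have := congrFun (congrFun hm 0) 0
    simpa [Matrix.mul_apply, Fin.sum_univ_two, Matrix.conjTranspose_apply] using this
  have e2 : (starRingEnd ℂ) b * b + (starRingEnd ℂ) d * d = 1 := by
    have := congrFun (congrFun hm 1) 1
    simpa [Matrix.mul_apply, Fin.sum_univ_two, Matrix.conjTranspose_apply] using this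
  have e3 : (starRingEnd ℂ) a * b + (starRingEnd ℂ) c * d = 0 := by
    have := congrFun (congrFun hm 0) 1
    simpa [Matrix.mul_apply, Fin.sum_univ_two, Matrix.conjTranspose_apply] using this
  have e4 : (starRingEnd ℂ) b * a + (starRingEnd ℂ) d * c = 0 := by
    have := congrFun (congrFun hm 1) 0
    simpa [Matrix.mul_apply, Fin.sum_univ_two, Matrix.conjTranspose_apply] using this
  have key : ∀ u v : ℂ, ‖a * u + b * v‖ ^ 2 + ‖c * u + d * v‖ ^ 2 = ‖u‖ ^ 2 + ‖v‖ ^ 2 := by
    intro u v
    have h : ∀ w : ℂ, ((‖w‖ ^ 2 : ℝ) : ℂ) = (starRingEnd ℂ) w * w := by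
      intro w
      rw [← Complex.normSq_eq_norm_sq, Complex.normSq_eq_conj_mul_self]
    have : (((‖a * u + b * v‖ ^ 2 + ‖c * u + d * v‖ ^ 2 : ℝ)) : ℂ) =
        ((‖u‖ ^ 2 + ‖v‖ ^ 2 : ℝ) : ℂ) := by
      rw [Complex.ofReal_add, Complex.ofReal_add, h, h, h, h]
      simp only [map_add, map_mul]
      linear_combination ((starRingEnd ℂ) u * u) * e1 + ((starRingEnd ℂ) v * v) * e2 +
        ((starRingEnd ℂ) u * v) * e3 + ((starRingEnd ℂ) v * u) * e4
    exact_mod_cast this
  have hQ : ∀ x : Mt n m × Mt n m, nsq (L x).1 + nsq (L x).2 = nsq x.1 + nsq x.2 := by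
    intro x
    simp only [nsq, ← Finset.sum_add_distrib]
    refine Finset.sum_congr rfl fun i _ => Finset.sum_congr rfl fun j _ => ?_
    exact key (x.1 i j) (x.2 i j)
  have hinj : Function.Injective L := by
    rw [← LinearMap.ker_eq_bot, LinearMap.ker_eq_bot']
    intro x hx
    have h := hQ x
    rw [hx] at h
    have h0 : nsq (0 : Mt n m) = 0 := by simp [nsq]
    simp only [Prod.fst_zero, Prod.snd_zero, h0, add_zero] at h
    have h1 := nsq_nonneg x.1
    have h2 := nsq_nonneg x.2
    exact Prod.ext (nsq_eq_zero (by linarith)) (nsq_eq_zero (by linarith))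
  have hd : (gau n m).prod (gau n m) = (volume : Measure (Mt n m × Mt n m)).withDensity
      (fun x => dg x.1 * dg x.2) := by
    haveI : SigmaFinite ((volume : Measure (Mt n m)).withDensity dg) := by
      rw [← gau_eq]; infer_instance
    rw [gau_eq, prod_withDensity measurable_dg measurable_dg]
    rfl
  have hp : IsProbabilityMeasure ((volume : Measure (Mt n m × Mt n m)).withDensity
      (fun x => dg x.1 * dg x.2)) := by
    rw [← hd]; infer_instance
  have h := iso (volume : Measure (Mt n m × Mt n m)) (fun x => dg x.1 * dg x.2)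
    ((measurable_dg.comp measurable_fst).mul (measurable_dg.comp measurable_snd)) hp L hinj
    (fun x => by
      unfold dg
      rw [← ENNReal.ofReal_mul (by positivity), ← ENNReal.ofReal_mul (by positivity)]
      congr 1
      rw [div_mul_div_comm, div_mul_div_comm, ← Real.exp_add, ← Real.exp_add]
      congr 2
      have := hQ x
      linarith)
  rw [hd]
  exact h

theorem s_TR : S_TR := by
  intro n m
  have key : ∀ a b : ℕ, Measure.map (fun (X : Mt a b) => (fun p => X p.1 p.2 : Fin a × Fin b → ℂ))
      (gau a b) = Measure.pi (fun _ : Fin a × Fin b => cg) := by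
    intro a b
    refine (Measure.pi_eq fun s hs => ?_).symm
    rw [Measure.map_apply (by fun_prop) (MeasurableSet.univ_pi hs)]
    have : (fun (X : Mt a b) => (fun p => X p.1 p.2 : Fin a × Fin b → ℂ)) ⁻¹' (Set.univ.pi s) =
        Set.univ.pi (fun i => Set.univ.pi (fun j => s (i, j))) := by
      ext X; simp
    rw [this, gau, Measure.pi_pi]
    simp_rw [Measure.pi_pi]
    rw [Fintype.prod_prod_type]
  have key2 : ∀ a b : ℕ, gau a b = Measure.map (fun (z : Fin a × Fin b → ℂ) =>
      (fun i j => z (i, j) : Mt a b)) (Measure.pi (fun _ : Fin a × Fin b => cg)) := by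
    intro a b
    rw [← key a b, Measure.map_map (by fun_prop) (by fun_prop)]
    exact Measure.map_id.symm
  have sw : Measure.map (fun (z : Fin n × Fin m → ℂ) => (fun p => z p.swap : Fin m × Fin n → ℂ))
      (Measure.pi (fun _ : Fin n × Fin m => cg)) = Measure.pi (fun _ : Fin m × Fin n => cg) := by
    refine (Measure.pi_eq fun s hs => ?_).symm
    rw [Measure.map_apply (by fun_prop) (MeasurableSet.univ_pi hs)]
    have : (fun (z : Fin n × Fin m → ℂ) => (fun p => z p.swap : Fin m × Fin n → ℂ)) ⁻¹'
        (Set.univ.pi s) = Set.univ.pi (fun p : Fin n × Fin m => s p.swap) := by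
      ext z
      simp only [Set.mem_preimage, Set.mem_univ_pi]
      constructor
      · intro h p
        simpa using h p.swap
      · intro h p
        simpa using h p.swap
    rw [this, Measure.pi_pi]
    exact (Equiv.prodComm (Fin n) (Fin m)).prod_comp (fun p => cg (s p))
  refine ⟨by fun_prop, ?_⟩
  rw [key2 n m, Measure.map_map (by fun_prop) (by fun_prop), key2 m n, ← sw,
    Measure.map_map (by fun_prop) (by fun_prop)]
  rfl

end

end Pool.Agent.R923.SE
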