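import Mathlib

/-!
Project SE (helper923): MP_43990b_pr, Fisher–Hartwig asymptotics for the spherical ensemble.
Definitions.
-/

set_option autoImplicit false

open MeasureTheory Complex

namespace Pool.Agent.R923.SE

noncomputable section

/-- `n × m` complex matrices -/
abbrev Mt (n m : ℕ) := Fin n → Fin m → ℂ

/-- the standard complex Gaussian measure on `ℂ`, with density `e^{-|w|²} / π` -/
def cg : Measure ℂ :=
  (volume : Measure ℂ).withDensity fun w => ENNReal.ofReal (Real.exp (-‖w‖ ^ 2) / Real.pi)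

/-- the law of an `n × m` matrix with i.i.d. standard complex Gaussian entries -/
def gau (n m : ℕ) : Measure (Mt n m) := Measure.pi fun _ : Fin n => Measure.pi fun _ : Fin m => cg

/-- `∑ |B i j|²` -/
def nsq {n m : ℕ} (B : Mt n m) : ℝ := ∑ i, ∑ j, ‖B i j‖ ^ 2

/-- `∑ C i j * conj (B i j) = tr (C Bᴴ)` -/
def ip {n m : ℕ} (C B : Mt n m) : ℂ := ∑ i, ∑ j, C i j * (starRingEnd ℂ) (B i j)

/-- the determinant -/
def dt {n : ℕ} (A : Mt n n) : ℂ := Matrix.det (Matrix.of A)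

/-- `|det A| ^ (2 p)` -/
def fp {n : ℕ} (p : ℂ) (A : Mt n n) : ℂ := Complex.exp (2 * p * ((Real.log ‖dt A‖ : ℝ) : ℂ))

/-- `∏_{j=1}^n Γ(j + p) / Γ(j)` -/
def NN (n : ℕ) (p : ℂ) : ℂ :=
  ∏ j ∈ Finset.range n, Complex.Gamma ((j : ℂ) + 1 + p) / Complex.Gamma ((j : ℂ) + 1)

/-- the law of two independent Ginibre matrices -/
def gg (n : ℕ) : Measure (Mt n n × Mt n n) := (gau n n).prod (gau n n)

/-- `E |det C|^{2p} |det B|^{2q}`, `C = √r B + √(1 - r) A` -/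
def Psi (n : ℕ) (r : ℝ) (p q : ℂ) : ℂ :=
  ∫ x, fp p (((√r : ℝ) : ℂ) • x.2 + ((√(1 - r) : ℝ) : ℂ) • x.1) * fp q x.2 ∂gg n

/-- `E |det C|^{2p} |det B|^{2q} |tr (C Bᴴ)|^{2k}`, `C`, `B` independent -/
def mom (n : ℕ) (p q : ℂ) (k : ℕ) : ℂ :=
  ∫ x, fp p x.1 * fp q x.2 * ((‖ip x.1 x.2‖ ^ (2 * k) : ℝ) : ℂ) ∂gg n

/-- `E |det C|^{2p} (tr (X Cᴴ))^k (tr (Y C))^k` -/
def ZZ (n : ℕ) (p : ℂ) (k : ℕ) (X Y : Matrix (Fin n) (Fin n) ℂ) : ℂ :=
  ∫ C : Mt n n, fp p C * (Matrix.trace (X * (Matrix.of C).conjTranspose)) ^ k *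
    (Matrix.trace (Y * Matrix.of C)) ^ k ∂gau n n

/-- the Barnes `G`-function, by its Weierstrass product -/
def barnesG (s : ℂ) : ℂ :=
  (2 * (Real.pi : ℂ)) ^ ((s - 1) / 2) *
    Complex.exp (-((s - 1) + (s - 1) ^ 2 * (1 + (Real.eulerMascheroniConstant : ℂ))) / 2) *
    ∏' k : ℕ, (1 + (s - 1) / ((k : ℂ) + 1)) ^ (k + 1) *
      Complex.exp ((s - 1) ^ 2 / (2 * ((k : ℂ) + 1)) - (s - 1))

/-- `E |P_n(z)|^γ`, `P_n(z) = det (z - A B⁻¹)` -/
def Esph (n : ℕ) (z γ : ℂ) : ℂ :=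
  ∫ x, Complex.exp (γ * ((Real.log ‖Matrix.det (z • (1 : Matrix (Fin n) (Fin n) ℂ) -
    Matrix.of x.1 * (Matrix.of x.2)⁻¹)‖ : ℝ) : ℂ)) ∂gg n

instance : IsProbabilityMeasure cg := by
  constructor
  have h1 : ∫ w : ℂ, Real.exp (-‖w‖ ^ 2) = Real.pi := by
    have h := Complex.integral_exp_neg_rpow (p := 2) (by norm_num)
    simp only [Real.rpow_two] at h
    rw [h]
    norm_num
  have hi : Integrable (fun w : ℂ => Real.exp (-‖w‖ ^ 2)) := by
    by_contra hc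
    rw [integral_undef hc] at h1
    exact absurd h1.symm Real.pi_ne_zero
  rw [cg, withDensity_apply _ MeasurableSet.univ, Measure.restrict_univ,
    ← ofReal_integral_eq_lintegral_ofReal]
  · rw [integral_div, h1, div_self Real.pi_ne_zero, ENNReal.ofReal_one]
  · exact hi.div_const _
  · exact Filter.Eventually.of_forall fun w => by positivity

instance (n m : ℕ) : IsProbabilityMeasure (gau n m) := by
  unfold gau; infer_instance

instance (n : ℕ) : IsProbabilityMeasure (gg n) := by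
  unfold gg; infer_instance

end

end Pool.Agent.R923.SE
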