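import Pool.Agent.R923.SE.Stm

/-!
Project SE: final assembly.
-/

set_option autoImplicit false

open MeasureTheory Complex Filter Topology

namespace Pool.Agent.R923.SE

noncomputable section

namespace Final

lemma NN_ne_zero (n : ℕ) (p : ℂ) (hp : -1 < p.re) : NN n p ≠ 0 := by
  unfold NN
  refine Finset.prod_ne_zero_iff.2 fun j _ => div_ne_zero ?_ ?_
  · refine Complex.Gamma_ne_zero_of_re_pos ?_
    simp only [add_re, natCast_re, one_re]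
    have : (0 : ℝ) ≤ j := Nat.cast_nonneg j
    linarith
  · refine Complex.Gamma_ne_zero_of_re_pos ?_
    simp only [add_re, natCast_re, one_re]
    have : (0 : ℝ) ≤ j := Nat.cast_nonneg j
    linarith

lemma ratio (n : ℕ) (z γ : ℂ) (hγ : |γ.re| < 2) (h : S_SPH) :
    Esph n z γ / ((n : ℂ) ^ (γ ^ 2 / 4) *
      ((1 + ‖z‖ ^ 2 : ℝ) : ℂ) ^ (γ * n / 2 - γ ^ 2 / 4) /
        (barnesG (1 - γ / 2) * barnesG (1 + γ / 2))) =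
    (Psi n (‖z‖ ^ 2 / (1 + ‖z‖ ^ 2)) (γ / 2) (-(γ / 2)) /
      (NN n (γ / 2) * NN n (-(γ / 2)) *
        ((1 - ‖z‖ ^ 2 / (1 + ‖z‖ ^ 2) : ℝ) : ℂ) ^ ((γ / 2) ^ 2))) *
    (NN n (γ / 2) * NN n (-(γ / 2)) * (n : ℂ) ^ (-((γ / 2) ^ 2)) *
      (barnesG (1 + γ / 2) * barnesG (1 - γ / 2))) := by
  have ht : (0 : ℝ) < 1 + ‖z‖ ^ 2 := by positivity
  have ht' : ((1 + ‖z‖ ^ 2 : ℝ) : ℂ) ≠ 0 := by exact_mod_cast ht.ne'
  have hre := abs_lt.1 hγ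
  have h2re : (γ / 2).re = γ.re / 2 := by
    rw [show γ / 2 = γ / ((2 : ℝ) : ℂ) by norm_num, Complex.div_ofReal_re]
  have hN1 : NN n (γ / 2) ≠ 0 := NN_ne_zero n _ (by rw [h2re]; linarith)
  have hN2 : NN n (-(γ / 2)) ≠ 0 := NN_ne_zero n _ (by rw [neg_re, h2re]; linarith)
  have e1 : (1 - ‖z‖ ^ 2 / (1 + ‖z‖ ^ 2) : ℝ) = (1 + ‖z‖ ^ 2)⁻¹ := by field_simp; ring
  have e2 : (((1 + ‖z‖ ^ 2)⁻¹ : ℝ) : ℂ) ^ ((γ / 2) ^ 2) =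
      (((1 + ‖z‖ ^ 2 : ℝ) : ℂ) ^ (γ ^ 2 / 4))⁻¹ := by
    rw [Complex.ofReal_inv, Complex.inv_cpow, show (γ / 2) ^ 2 = γ ^ 2 / 4 by ring]
    rw [Complex.arg_ofReal_of_nonneg ht.le]
    exact Real.pi_pos.ne
  have e3 : ((1 + ‖z‖ ^ 2 : ℝ) : ℂ) ^ (γ * n / 2 - γ ^ 2 / 4) =
      ((1 + ‖z‖ ^ 2 : ℝ) : ℂ) ^ ((n : ℂ) * γ / 2) / ((1 + ‖z‖ ^ 2 : ℝ) : ℂ) ^ (γ ^ 2 / 4) := by
    rw [Complex.cpow_sub _ _ ht', show γ * (n : ℂ) / 2 = (n : ℂ) * γ / 2 by ring]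
  have e4 : (n : ℂ) ^ (-((γ / 2) ^ 2)) = ((n : ℂ) ^ (γ ^ 2 / 4))⁻¹ := by
    rw [Complex.cpow_neg, show (γ / 2) ^ 2 = γ ^ 2 / 4 by ring]
  rw [h n z γ, e1, e2, e3, e4]
  have hA : ((1 + ‖z‖ ^ 2 : ℝ) : ℂ) ^ ((n : ℂ) * γ / 2) ≠ 0 := by
    rw [Complex.cpow_def_of_ne_zero ht']; exact Complex.exp_ne_zero _
  have hB : ((1 + ‖z‖ ^ 2 : ℝ) : ℂ) ^ (γ ^ 2 / 4) ≠ 0 := by
    rw [Complex.cpow_def_of_ne_zero ht']; exact Complex.exp_ne_zero _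
  generalize ((1 + ‖z‖ ^ 2 : ℝ) : ℂ) ^ ((n : ℂ) * γ / 2) = A at *
  generalize ((1 + ‖z‖ ^ 2 : ℝ) : ℂ) ^ (γ ^ 2 / 4) = B at *
  generalize barnesG (1 - γ / 2) = G1
  generalize barnesG (1 + γ / 2) = G2
  generalize (n : ℂ) ^ (γ ^ 2 / 4) = D
  generalize Psi n (‖z‖ ^ 2 / (1 + ‖z‖ ^ 2)) (γ / 2) (-(γ / 2)) = P
  simp only [div_eq_mul_inv, mul_inv, inv_inv]
  have hA' : A * A⁻¹ = 1 := mul_inv_cancel₀ hA
  have hN1' : NN n (γ * 2⁻¹) * (NN n (γ * 2⁻¹))⁻¹ = 1 := by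
    rw [← div_eq_mul_inv γ 2]; exact mul_inv_cancel₀ hN1
  have hN2' : NN n (-(γ * 2⁻¹)) * (NN n (-(γ * 2⁻¹)))⁻¹ = 1 := by
    rw [← div_eq_mul_inv γ 2]; exact mul_inv_cancel₀ hN2
  generalize NN n (γ * 2⁻¹) = N1 at *
  generalize NN n (-(γ * 2⁻¹)) = N2 at *
  calc A * P * (D⁻¹ * (A⁻¹ * B) * (G1 * G2))
      = (A * A⁻¹) * (P * D⁻¹ * B * G1 * G2) := by ring
    _ = (N1 * N1⁻¹) * (N2 * N2⁻¹) * (P * D⁻¹ * B * G1 * G2) := by rw [hA', hN1', hN2']; ring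
    _ = _ := by ring

end Final

open Final

theorem s_FIN (h1 : S_UNIF) (h2 : S_SPH) (h3 : S_BAR) : S_FIN := by
  intro K Γ hK hΓ hre
  set K' : Set ℂ := (fun γ : ℂ => γ / 2) '' Γ with hK'
  have hK'c : IsCompact K' := hΓ.image (by fun_prop)
  have hK're : ∀ a ∈ K', |a.re| < 1 := by
    rintro a ⟨γ, hγ, rfl⟩
    have := hre γ hγ
    have h2re : (γ / 2).re = γ.re / 2 := by
      rw [show γ / 2 = γ / ((2 : ℝ) : ℂ) by norm_num, Complex.div_ofReal_re]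
    show |(γ / 2).re| < 1
    rw [h2re, abs_div, abs_two]
    linarith
  obtain ⟨R, hR0, hR⟩ : ∃ R : ℝ, 0 ≤ R ∧ ∀ z ∈ K, ‖z‖ ^ 2 ≤ R := by
    obtain ⟨C, hC⟩ := hK.isBounded.exists_norm_le
    refine ⟨C ^ 2, by positivity, fun z hz => ?_⟩
    exact pow_le_pow_left₀ (norm_nonneg _) (hC z hz) 2
  have hr0 : 0 ≤ R / (1 + R) := by positivity
  have hr1 : R / (1 + R) < 1 := by rw [div_lt_one (by positivity)]; linarith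
  have hF := h1 K' (R / (1 + R)) hK'c hK're hr0 hr1
  have hG := (h3 K' hK'c hK're).2
  rw [Metric.tendstoUniformlyOn_iff] at hF hG ⊢
  intro ε hε
  set δ : ℝ := min 1 (ε / 3) with hδ
  have hδ0 : 0 < δ := lt_min one_pos (by positivity)
  filter_upwards [hF δ hδ0, hG δ hδ0] with n hFn hGn
  rintro ⟨z, γ⟩ ⟨hz, hγ⟩
  have hp : γ / 2 ∈ K' := ⟨γ, hγ, rfl⟩
  have ht : (0 : ℝ) < 1 + ‖z‖ ^ 2 := by positivity
  have hr : ‖z‖ ^ 2 / (1 + ‖z‖ ^ 2) ∈ Set.Icc 0 (R / (1 + R)) := by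
    refine ⟨by positivity, ?_⟩
    rw [div_le_div_iff₀ ht (by positivity)]
    have := hR z hz
    nlinarith
  have hf := hFn (‖z‖ ^ 2 / (1 + ‖z‖ ^ 2), γ / 2) ⟨hr, hp⟩
  have hg := hGn (γ / 2) hp
  simp only [Pi.one_apply, dist_eq_norm] at hf hg ⊢
  rw [ratio n z γ (hre γ hγ) h2]
  set f := Psi n (‖z‖ ^ 2 / (1 + ‖z‖ ^ 2)) (γ / 2) (-(γ / 2)) /
      (NN n (γ / 2) * NN n (-(γ / 2)) *
        ((1 - ‖z‖ ^ 2 / (1 + ‖z‖ ^ 2) : ℝ) : ℂ) ^ ((γ / 2) ^ 2)) with hfd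
  set g := NN n (γ / 2) * NN n (-(γ / 2)) * (n : ℂ) ^ (-((γ / 2) ^ 2)) *
      (barnesG (1 + γ / 2) * barnesG (1 - γ / 2)) with hgd
  have e : (1 : ℂ) - f * g = (1 - f) + (1 - g) - (1 - f) * (1 - g) := by ring
  rw [e]
  calc ‖(1 - f) + (1 - g) - (1 - f) * (1 - g)‖
      ≤ ‖1 - f‖ + ‖1 - g‖ + ‖1 - f‖ * ‖1 - g‖ := by
        refine (norm_sub_le _ _).trans ?_
        rw [norm_mul]
        have := norm_add_le (1 - f) (1 - g)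
        linarith
    _ < δ + δ + δ * 1 := by
        have h1' : ‖1 - f‖ * ‖1 - g‖ ≤ δ * 1 :=
          mul_le_mul hf.le (hg.le.trans (min_le_left _ _)) (norm_nonneg _) hδ0.le
        linarith
    _ ≤ ε := by
        have := min_le_right 1 (ε / 3)
        rw [← hδ] at this
        linarith

end

end Pool.Agent.R923.SE
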