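import Pool.Agent.R923.SE.HolA

/-!
Project SE, piece HOL (helper291).
-/

set_option autoImplicit false

open MeasureTheory Complex Filter Topology

namespace Pool.Agent.R923.SE

noncomputable section

lemma hol_continuous_dt (n : ℕ) : Continuous (fun A : Mt n n => dt A) := by
  unfold dt
  exact Continuous.matrix_det continuous_id

lemma hol_measurable_log (n : ℕ) : Measurable (fun A : Mt n n => Real.log ‖dt A‖) :=
  Real.measurable_log.comp (hol_continuous_dt n).norm.measurable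

lemma hol_fp_real {n : ℕ} (a : ℝ) (A : Mt n n) :
    fp (a : ℂ) A = ((Real.exp (2 * a * Real.log ‖dt A‖) : ℝ) : ℂ) := by
  unfold fp
  push_cast
  rfl

lemma hol_int_real (h : S_N) (n : ℕ) (a : ℝ) (ha : -1 < a) :
    Integrable (fun A : Mt n n => Real.exp (2 * a * Real.log ‖dt A‖)) (gau n n) ∧
    ∫ A : Mt n n, Real.exp (2 * a * Real.log ‖dt A‖) ∂gau n n =
      ∏ j ∈ Finset.range n, Real.Gamma ((j : ℝ) + 1 + a) / Real.Gamma ((j : ℝ) + 1) := by
  obtain ⟨h1, h2⟩ := h n (a : ℂ) (by simpa using ha)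
  simp only [hol_fp_real] at h1 h2
  constructor
  · exact h1.re.congr (Eventually.of_forall fun A => Complex.ofReal_re _)
  · rw [hol_NN_real, integral_complex_ofReal] at h2
    exact_mod_cast h2

/-- the matrix `C` -/
def CC (n : ℕ) (r : ℝ) (x : Mt n n × Mt n n) : Mt n n :=
  ((√r : ℝ) : ℂ) • x.2 + ((√(1 - r) : ℝ) : ℂ) • x.1

lemma hol_mp (h : S_ROT) (n : ℕ) (r : ℝ) (h0 : 0 ≤ r) (h1 : r ≤ 1) :
    MeasurePreserving (CC n r) (gg n) (gau n n) := by
  have hs : √r ^ 2 = r := Real.sq_sqrt h0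
  have hs1 : √(1 - r) ^ 2 = 1 - r := Real.sq_sqrt (by linarith)
  have H := h n n ((√(1 - r) : ℝ) : ℂ) ((√r : ℝ) : ℂ) (-((√r : ℝ) : ℂ)) ((√(1 - r) : ℝ) : ℂ)
    (by simp only [Complex.norm_real, Real.norm_eq_abs, sq_abs, hs, hs1]; ring)
    (by simp only [norm_neg, Complex.norm_real, Real.norm_eq_abs, sq_abs, hs, hs1]; ring)
    (by simp only [map_neg, Complex.conj_ofReal]; ring)
  have H2 : MeasurePreserving (Prod.fst : Mt n n × Mt n n → Mt n n)
      ((gau n n).prod (gau n n)) (gau n n) := measurePreserving_fst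
  have H3 := H2.comp H
  unfold gg
  convert H3 using 1
  funext x
  simp [CC, Function.comp, add_comm]

/-- the exponent -/
def XX (n : ℕ) (r : ℝ) (x : Mt n n × Mt n n) : ℝ :=
  2 * (Real.log ‖dt (CC n r x)‖ - Real.log ‖dt x.2‖)

lemma hol_measurable_XX (h : S_ROT) (n : ℕ) (r : ℝ) (h0 : 0 ≤ r) (h1 : r ≤ 1) :
    Measurable (XX n r) := by
  unfold XX
  exact ((((hol_measurable_log n).comp (hol_mp h n r h0 h1).measurable).sub
    ((hol_measurable_log n).comp measurable_snd)).const_mul 2)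

lemma hol_young (t c b L : ℝ) (ht : |t| < 1) :
    Real.exp (t * (2 * (c - b))) ≤
      Real.exp (2 * (2 * t / (1 - t)) * c) * Real.exp (-(2 * t / (1 - t)) * L) +
      Real.exp (2 * (-(2 * t / (1 + t))) * b) * Real.exp ((2 * t / (1 + t)) * L) := by
  obtain ⟨ht1, ht2⟩ := abs_lt.1 ht
  have h1 : 0 < 1 - t := by linarith
  have h2 : 0 < 1 + t := by linarith
  rw [← Real.exp_add, ← Real.exp_add]
  set u := 2 * (2 * t / (1 - t)) * c + -(2 * t / (1 - t)) * L with hu
  set v := 2 * (-(2 * t / (1 + t))) * b + (2 * t / (1 + t)) * L with hv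
  have e : t * (2 * (c - b)) = (1 - t) / 2 * u + (1 + t) / 2 * v := by
    rw [hu, hv]; field_simp; ring
  rw [e]
  rcases le_total u v with h | h
  · have : (1 - t) / 2 * u + (1 + t) / 2 * v ≤ v := by nlinarith
    have h3 := Real.exp_le_exp.2 this
    have h4 := Real.exp_pos u
    linarith
  · have : (1 - t) / 2 * u + (1 + t) / 2 * v ≤ u := by nlinarith
    have h3 := Real.exp_le_exp.2 this
    have h4 := Real.exp_pos v
    linarith

lemma hol_bounds (t : ℝ) (ht : |t| < 1) :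
    -1 < 2 * t / (1 - t) ∧ -1 < -(2 * t / (1 + t)) := by
  obtain ⟨ht1, ht2⟩ := abs_lt.1 ht
  have h1 : 0 < 1 - t := by linarith
  have h2 : 0 < 1 + t := by linarith
  constructor
  · rw [lt_div_iff₀ h1]; linarith
  · rw [neg_lt_neg_iff, div_lt_iff₀ h2]; linarith

/-- main estimate for real exponents -/
lemma hol_main (hN : S_N) (hR : S_ROT) (n : ℕ) (r : ℝ) (h0 : 0 ≤ r) (h1 : r ≤ 1) (t : ℝ)
    (ht : |t| < 1) (L : ℝ) :
    Integrable (fun x => Real.exp (t * XX n r x)) (gg n) ∧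
    ∫ x, Real.exp (t * XX n r x) ∂gg n ≤
      (∏ j ∈ Finset.range n, Real.Gamma ((j : ℝ) + 1 + 2 * t / (1 - t)) /
        Real.Gamma ((j : ℝ) + 1)) * Real.exp (-(2 * t / (1 - t)) * L) +
      (∏ j ∈ Finset.range n, Real.Gamma ((j : ℝ) + 1 + -(2 * t / (1 + t))) /
        Real.Gamma ((j : ℝ) + 1)) * Real.exp ((2 * t / (1 + t)) * L) := by
  obtain ⟨b1, b2⟩ := hol_bounds t ht
  obtain ⟨i1, e1⟩ := hol_int_real hN n _ b1
  obtain ⟨i2, e2⟩ := hol_int_real hN n _ b2
  have mp := hol_mp hR n r h0 h1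
  have mp2 : MeasurePreserving (Prod.snd : Mt n n × Mt n n → Mt n n) (gg n) (gau n n) := by
    unfold gg; exact measurePreserving_snd
  have i1' : Integrable (fun x : Mt n n × Mt n n =>
      Real.exp (2 * (2 * t / (1 - t)) * Real.log ‖dt (CC n r x)‖)) (gg n) :=
    mp.integrable_comp_of_integrable i1
  have i2' : Integrable (fun x : Mt n n × Mt n n =>
      Real.exp (2 * (-(2 * t / (1 + t))) * Real.log ‖dt x.2‖)) (gg n) :=
    mp2.integrable_comp_of_integrable i2
  have e1' : ∫ x, Real.exp (2 * (2 * t / (1 - t)) * Real.log ‖dt (CC n r x)‖) ∂gg n =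
      ∏ j ∈ Finset.range n, Real.Gamma ((j : ℝ) + 1 + 2 * t / (1 - t)) /
        Real.Gamma ((j : ℝ) + 1) := by
    rw [← e1, ← mp.map_eq, integral_map mp.measurable.aemeasurable]
    rw [mp.map_eq]
    exact i1.aestronglyMeasurable
  have e2' : ∫ x : Mt n n × Mt n n, Real.exp (2 * (-(2 * t / (1 + t))) * Real.log ‖dt x.2‖) ∂gg n =
      ∏ j ∈ Finset.range n, Real.Gamma ((j : ℝ) + 1 + -(2 * t / (1 + t))) /
        Real.Gamma ((j : ℝ) + 1) := by
    rw [← e2, ← mp2.map_eq, integral_map mp2.measurable.aemeasurable]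
    rw [mp2.map_eq]
    exact i2.aestronglyMeasurable
  have hbound : ∀ x, Real.exp (t * XX n r x) ≤
      Real.exp (2 * (2 * t / (1 - t)) * Real.log ‖dt (CC n r x)‖) *
        Real.exp (-(2 * t / (1 - t)) * L) +
      Real.exp (2 * (-(2 * t / (1 + t))) * Real.log ‖dt x.2‖) *
        Real.exp ((2 * t / (1 + t)) * L) := fun x => hol_young t _ _ L ht
  have hI : Integrable (fun x : Mt n n × Mt n n =>
      Real.exp (2 * (2 * t / (1 - t)) * Real.log ‖dt (CC n r x)‖) *
        Real.exp (-(2 * t / (1 - t)) * L) +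
      Real.exp (2 * (-(2 * t / (1 + t))) * Real.log ‖dt x.2‖) *
        Real.exp ((2 * t / (1 + t)) * L)) (gg n) := (i1'.mul_const _).add (i2'.mul_const _)
  have hint : Integrable (fun x => Real.exp (t * XX n r x)) (gg n) := by
    refine hI.mono' ?_ (Eventually.of_forall fun x => ?_)
    · exact (Real.measurable_exp.comp
        ((hol_measurable_XX hR n r h0 h1).const_mul t)).aestronglyMeasurable
    · rw [Real.norm_eq_abs, abs_of_pos (Real.exp_pos _)]
      exact hbound x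
  refine ⟨hint, ?_⟩
  calc ∫ x, Real.exp (t * XX n r x) ∂gg n ≤ _ := integral_mono hint hI hbound
    _ = _ := by
        rw [integral_add (i1'.mul_const _) (i2'.mul_const _), integral_mul_const,
          integral_mul_const, ← e1', ← e2']

lemma hol_Psi (n : ℕ) (r : ℝ) (p : ℂ) :
    Psi n r p (-p) = ∫ x, Complex.exp (p * ((XX n r x : ℝ) : ℂ)) ∂gg n := by
  unfold Psi fp XX CC
  congr 1
  funext x
  rw [← Complex.exp_add]
  congr 1
  push_cast
  ring

lemma hol_one (hN : S_N) (hR : S_ROT) : ∀ x : ℝ, 0 ≤ x → x < 1 → ∃ C : ℝ, 0 ≤ C ∧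
    ∀ (n : ℕ) (r : ℝ) (p : ℂ), 0 ≤ r → r ≤ 1 →
    0 ≤ p.re → p.re ≤ x → ‖Psi n r p (-p)‖ ≤ C * ((n : ℝ) + 1) ^ C := by
  intro x hx0 hx1
  have hx : |x| < 1 := by rw [abs_of_nonneg hx0]; exact hx1
  obtain ⟨b1, b2⟩ := hol_bounds x hx
  obtain ⟨k1, hk1⟩ := hol_prod_bound _ b1
  obtain ⟨k2, hk2⟩ := hol_prod_bound _ b2
  refine ⟨3 + k1 + k2, by positivity, ?_⟩
  intro n r p h0 h1 hp0 hpx
  have hfac : (0 : ℝ) < n.factorial := by positivity
  obtain ⟨i1, e1⟩ := hol_main hN hR n r h0 h1 x hx (Real.log n.factorial)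
  have q1 : ((n.factorial : ℝ)) ^ (2 * x / (1 - x)) *
      Real.exp (-(2 * x / (1 - x)) * Real.log n.factorial) = 1 := by
    rw [Real.rpow_def_of_pos hfac, ← Real.exp_add]
    convert Real.exp_zero using 2
    ring
  have q2 : ((n.factorial : ℝ)) ^ (-(2 * x / (1 + x))) *
      Real.exp ((2 * x / (1 + x)) * Real.log n.factorial) = 1 := by
    rw [Real.rpow_def_of_pos hfac, ← Real.exp_add]
    convert Real.exp_zero using 2
    ring
  have hn1 : (1 : ℝ) ≤ (n : ℝ) + 1 := by linarith [Nat.cast_nonneg (α := ℝ) n]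
  have e2 : ∫ y, Real.exp (x * XX n r y) ∂gg n ≤
      ((n : ℝ) + 1) ^ k1 + ((n : ℝ) + 1) ^ k2 := by
    refine e1.trans (add_le_add ?_ ?_)
    · calc _ ≤ (((n.factorial : ℝ)) ^ (2 * x / (1 - x)) * ((n : ℝ) + 1) ^ k1) *
            Real.exp (-(2 * x / (1 - x)) * Real.log n.factorial) :=
            mul_le_mul_of_nonneg_right (hk1 n) (Real.exp_pos _).le
        _ = ((n : ℝ) + 1) ^ k1 * (((n.factorial : ℝ)) ^ (2 * x / (1 - x)) *
            Real.exp (-(2 * x / (1 - x)) * Real.log n.factorial)) := by ring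
        _ = _ := by rw [q1, mul_one]
    · calc _ ≤ (((n.factorial : ℝ)) ^ (-(2 * x / (1 + x))) * ((n : ℝ) + 1) ^ k2) *
            Real.exp ((2 * x / (1 + x)) * Real.log n.factorial) :=
            mul_le_mul_of_nonneg_right (hk2 n) (Real.exp_pos _).le
        _ = ((n : ℝ) + 1) ^ k2 * (((n.factorial : ℝ)) ^ (-(2 * x / (1 + x))) *
            Real.exp ((2 * x / (1 + x)) * Real.log n.factorial)) := by ring
        _ = _ := by rw [q2, mul_one]
  have hle : ∀ k : ℕ, k ≤ k1 + k2 → ((n : ℝ) + 1) ^ k ≤ ((n : ℝ) + 1) ^ ((3 : ℝ) + k1 + k2) := by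
    intro k hk
    rw [← Real.rpow_natCast]
    apply Real.rpow_le_rpow_of_exponent_le hn1
    have : (k : ℝ) ≤ ((k1 + k2 : ℕ) : ℝ) := by exact_mod_cast hk
    push_cast at this
    linarith
  have hP : ‖Psi n r p (-p)‖ ≤ 1 + ∫ y, Real.exp (x * XX n r y) ∂gg n := by
    rw [hol_Psi]
    calc ‖∫ y, Complex.exp (p * ((XX n r y : ℝ) : ℂ)) ∂gg n‖
        ≤ ∫ y, (1 + Real.exp (x * XX n r y)) ∂gg n := by
          apply norm_integral_le_of_norm_le ((integrable_const _).add i1)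
          refine Eventually.of_forall fun y => ?_
          rw [Complex.norm_exp]
          change _ ≤ 1 + Real.exp (x * XX n r y)
          have : (p * ((XX n r y : ℝ) : ℂ)).re = p.re * XX n r y := by simp
          rw [this]
          rcases le_total 0 (XX n r y) with h | h
          · have : Real.exp (p.re * XX n r y) ≤ Real.exp (x * XX n r y) :=
              Real.exp_le_exp.2 (mul_le_mul_of_nonneg_right hpx h)
            linarith
          · have : Real.exp (p.re * XX n r y) ≤ 1 := by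
              rw [Real.exp_le_one_iff]
              exact mul_nonpos_of_nonneg_of_nonpos hp0 h
            have := Real.exp_pos (x * XX n r y)
            linarith
      _ = 1 + ∫ y, Real.exp (x * XX n r y) ∂gg n := by
          rw [integral_add (integrable_const _) i1]
          simp
  have a0 := hle 0 (by omega)
  have a1 := hle k1 (by omega)
  have a2 := hle k2 (by omega)
  rw [pow_zero] at a0
  have hpos : (0 : ℝ) ≤ ((n : ℝ) + 1) ^ ((3 : ℝ) + k1 + k2) := by positivity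
  calc ‖Psi n r p (-p)‖ ≤ 1 + (((n : ℝ) + 1) ^ k1 + ((n : ℝ) + 1) ^ k2) := hP.trans (by linarith)
    _ ≤ 3 * ((n : ℝ) + 1) ^ ((3 : ℝ) + k1 + k2) := by linarith
    _ ≤ (3 + k1 + k2) * ((n : ℝ) + 1) ^ ((3 : ℝ) + k1 + k2) := by
        apply mul_le_mul_of_nonneg_right _ hpos
        have := Nat.cast_nonneg (α := ℝ) k1
        have := Nat.cast_nonneg (α := ℝ) k2
        linarith

lemma hol_two (hN : S_N) (hR : S_ROT) (n : ℕ) (r : ℝ) (h0 : 0 ≤ r) (h1 : r ≤ 1) :
    DifferentiableOn ℂ (fun p => Psi n r p (-p)) {p : ℂ | |p.re| < 1} := by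
  have e : (fun p => Psi n r p (-p)) = ProbabilityTheory.complexMGF (XX n r) (gg n) := by
    funext p
    rw [hol_Psi]
    rfl
  rw [e]
  refine ProbabilityTheory.differentiableOn_complexMGF.mono ?_
  intro p hp
  have hsub : Set.Ioo (-1 : ℝ) 1 ⊆ ProbabilityTheory.integrableExpSet (XX n r) (gg n) := by
    intro t ht
    exact (hol_main hN hR n r h0 h1 t (abs_lt.2 ht) 0).1
  exact interior_maximal hsub isOpen_Ioo (abs_lt.1 hp)

lemma hol_Psi_zero (hN : S_N) (n : ℕ) (p : ℂ) (h1 : -1 < p.re) (h2 : p.re < 1) :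
    Psi n 0 p (-p) = NN n p * NN n (-p) := by
  rw [← (hN n p h1).2, ← (hN n (-p) (by simpa using h2)).2, ← integral_prod_mul]
  unfold Psi gg
  simp

theorem s_HOL (hN : S_N) (hR : S_ROT) : S_HOL := by
  refine ⟨hol_one hN hR, fun n r h0 h1 => hol_two hN hR n r h0 h1, ?_⟩
  intro x hx0 hx1
  obtain ⟨C, hC, h⟩ := hol_one hN hR x hx0 hx1
  refine ⟨C, hC, fun n p hp0 hpx => ?_⟩
  rw [← hol_Psi_zero hN n p (by linarith) (by linarith)]
  exact h n 0 p le_rfl zero_le_one hp0 hpx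

end

end Pool.Agent.R923.SE
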