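import Pool.Agent.R923.SE.Stm

/-!
Project SE, piece HOL, part A (helper291): bounds for quotients of Gamma functions.
-/

set_option autoImplicit false

open MeasureTheory Complex Filter Topology

namespace Pool.Agent.R923.SE

noncomputable section

lemma hol_gam01 (a : ℝ) (ha : 0 ≤ a) (ha1 : a ≤ 1) (j : ℝ) (hj : 1 ≤ j) :
    Real.Gamma (j + a) ≤ Real.Gamma j * j ^ a := by
  have hj0 : 0 < j := by linarith
  rcases ha.eq_or_lt with h0 | h0
  · rw [← h0]; simp
  rcases ha1.eq_or_lt with h1 | h1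
  · rw [h1, Real.Gamma_add_one hj0.ne', Real.rpow_one, mul_comm]
  have h := Real.Gamma_mul_add_mul_le_rpow_Gamma_mul_rpow_Gamma (s := j) (t := j + 1)
    (a := 1 - a) (b := a) hj0 (by linarith) (by linarith) h0 (by ring)
  have e1 : (1 - a) * j + a * (j + 1) = j + a := by ring
  rw [e1, Real.Gamma_add_one hj0.ne'] at h
  have hG : 0 < Real.Gamma j := Real.Gamma_pos_of_pos hj0
  calc Real.Gamma (j + a) ≤ _ := h
    _ = Real.Gamma j * j ^ a := by
        rw [Real.mul_rpow hj0.le hG.le, mul_comm (j ^ a), ← mul_assoc, ← Real.rpow_add hG]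
        simp

/-- `Γ(j + a) ≤ Γ(j) j^a (1 + 1/j)^k` -/
def GB (a : ℝ) : Prop := ∃ k : ℕ, ∀ j : ℝ, 1 ≤ j →
  Real.Gamma (j + a) ≤ Real.Gamma j * j ^ a * (1 + 1 / j) ^ k

lemma hol_bern (K : ℕ) (j : ℝ) (hj : 1 ≤ j) : 1 + K / j ≤ (1 + 1 / j) ^ K := by
  have hj0 : 0 < j := by linarith
  have h := one_add_mul_le_pow (a := 1 / j) (by have : 0 < 1 / j := by positivity
                                                linarith) K
  calc 1 + K / j = 1 + (K : ℝ) * (1 / j) := by ring
    _ ≤ _ := h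

lemma hol_GB_succ (a : ℝ) (ha : 0 ≤ a) (h : GB a) : GB (a + 1) := by
  obtain ⟨k, hk⟩ := h
  obtain ⟨m, hm⟩ := exists_nat_ge a
  refine ⟨k + m, fun j hj => ?_⟩
  have hj0 : 0 < j := by linarith
  have e1 : j + (a + 1) = (j + a) + 1 := by ring
  rw [e1, Real.Gamma_add_one (by positivity)]
  have h1 := hk j hj
  have h2 := hol_bern m j hj
  have hG : 0 < Real.Gamma j := Real.Gamma_pos_of_pos hj0
  have h3 : j + a ≤ j * (1 + 1 / j) ^ m := by
    calc j + a ≤ j + m := by linarith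
      _ = j * (1 + m / j) := by field_simp
      _ ≤ _ := mul_le_mul_of_nonneg_left h2 hj0.le
  calc (j + a) * Real.Gamma (j + a)
      ≤ (j * (1 + 1 / j) ^ m) * (Real.Gamma j * j ^ a * (1 + 1 / j) ^ k) := by
        apply mul_le_mul h3 h1
        · exact (Real.Gamma_pos_of_pos (by positivity)).le
        · positivity
    _ = Real.Gamma j * j ^ (a + 1) * (1 + 1 / j) ^ (k + m) := by
        rw [Real.rpow_add hj0, Real.rpow_one, pow_add]; ring

lemma hol_GB_pred (a : ℝ) (ha : -1 < a) (ha0 : a < 0) (h : GB (a + 1)) : GB a := by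
  obtain ⟨k, hk⟩ := h
  obtain ⟨m, hm⟩ := exists_nat_ge (-a / (1 + a))
  refine ⟨k + m, fun j hj => ?_⟩
  have hj0 : 0 < j := by linarith
  have hja : 0 < j + a := by linarith
  have e1 : j + (a + 1) = (j + a) + 1 := by ring
  have h1 := hk j hj
  rw [e1, Real.Gamma_add_one hja.ne'] at h1
  have h2 := hol_bern m j hj
  have hG : 0 < Real.Gamma j := Real.Gamma_pos_of_pos hj0
  have h1a : 0 < 1 + a := by linarith
  rw [div_le_iff₀ h1a] at hm
  have hm2 : 0 ≤ a + m := by nlinarith [Nat.cast_nonneg (α := ℝ) m]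
  -- `j ≤ (j + a) (1 + m / j)`
  have h3 : j ≤ (j + a) * (1 + m / j) := by
    have e2 : (j + a) * (1 + m / j) = j + ((a + m) * j + a * m) / j := by field_simp; ring
    rw [e2]
    have : 0 ≤ ((a + m) * j + a * m) / j := by
      apply div_nonneg _ hj0.le
      nlinarith
    linarith
  have h4 : j ≤ (j + a) * (1 + 1 / j) ^ m :=
    h3.trans (mul_le_mul_of_nonneg_left h2 hja.le)
  have h5 : (j + a) * Real.Gamma (j + a) ≤
      (j + a) * (Real.Gamma j * j ^ a * (1 + 1 / j) ^ (k + m)) := by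
    calc (j + a) * Real.Gamma (j + a) ≤ Real.Gamma j * j ^ (a + 1) * (1 + 1 / j) ^ k := h1
      _ = j * (Real.Gamma j * j ^ a * (1 + 1 / j) ^ k) := by
          rw [Real.rpow_add hj0, Real.rpow_one]; ring
      _ ≤ ((j + a) * (1 + 1 / j) ^ m) * (Real.Gamma j * j ^ a * (1 + 1 / j) ^ k) := by
          apply mul_le_mul_of_nonneg_right h4; positivity
      _ = _ := by rw [pow_add]; ring
  exact le_of_mul_le_mul_left h5 hja

lemma hol_GB_nonneg (m : ℕ) : ∀ a : ℝ, 0 ≤ a → a ≤ m + 1 → GB a := by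
  induction m with
  | zero =>
    intro a h0 h1
    refine ⟨0, fun j hj => ?_⟩
    simpa using hol_gam01 a h0 (by simpa using h1) j hj
  | succ m ih =>
    intro a h0 h1
    push_cast at h1
    by_cases h : a ≤ m + 1
    · exact ih a h0 h
    · have := hol_GB_succ (a - 1) (by have : (0 : ℝ) ≤ m := Nat.cast_nonneg m
                                      push Not at h; linarith)
        (ih (a - 1) (by have : (0 : ℝ) ≤ m := Nat.cast_nonneg m
                        push Not at h; linarith) (by linarith))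
      simpa using this

lemma hol_GB (a : ℝ) (ha : -1 < a) : GB a := by
  by_cases h : 0 ≤ a
  · obtain ⟨m, hm⟩ := exists_nat_ge a
    exact hol_GB_nonneg m a h (by linarith)
  · push Not at h
    refine hol_GB_pred a ha h (hol_GB_nonneg 0 (a + 1) (by linarith) (by simp; linarith))

lemma hol_NN_real (n : ℕ) (a : ℝ) : NN n (a : ℂ) =
    ((∏ j ∈ Finset.range n, Real.Gamma ((j : ℝ) + 1 + a) / Real.Gamma ((j : ℝ) + 1) : ℝ) : ℂ) := by
  unfold NN
  push_cast
  refine Finset.prod_congr rfl fun j _ => ?_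
  rw [← Complex.Gamma_ofReal, ← Complex.Gamma_ofReal]
  push_cast
  rfl

lemma hol_prod_bound (a : ℝ) (ha : -1 < a) : ∃ k : ℕ, ∀ n : ℕ,
    ∏ j ∈ Finset.range n, Real.Gamma ((j : ℝ) + 1 + a) / Real.Gamma ((j : ℝ) + 1) ≤
      ((n.factorial : ℝ)) ^ a * ((n : ℝ) + 1) ^ k := by
  obtain ⟨k, hk⟩ := hol_GB a ha
  refine ⟨k, fun n => ?_⟩
  induction n with
  | zero => simp
  | succ n ih =>
    rw [Finset.prod_range_succ]
    have hn : (0 : ℝ) ≤ n := Nat.cast_nonneg n
    have hG : 0 < Real.Gamma ((n : ℝ) + 1) := Real.Gamma_pos_of_pos (by positivity)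
    have hG2 : 0 < Real.Gamma ((n : ℝ) + 1 + a) := Real.Gamma_pos_of_pos (by linarith)
    have h1 := hk ((n : ℝ) + 1) (by linarith)
    have h2 : Real.Gamma ((n : ℝ) + 1 + a) / Real.Gamma ((n : ℝ) + 1) ≤
        ((n : ℝ) + 1) ^ a * (1 + 1 / ((n : ℝ) + 1)) ^ k := by
      rw [div_le_iff₀ hG]
      calc _ ≤ _ := h1
        _ = _ := by ring
    have hprod : 0 ≤ ((n.factorial : ℝ)) ^ a * ((n : ℝ) + 1) ^ k := by positivity
    calc _ ≤ (((n.factorial : ℝ)) ^ a * ((n : ℝ) + 1) ^ k) *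
          (((n : ℝ) + 1) ^ a * (1 + 1 / ((n : ℝ) + 1)) ^ k) := by
          apply mul_le_mul ih h2 (div_pos hG2 hG).le hprod
      _ = (((n + 1).factorial : ℕ) : ℝ) ^ a * (((n + 1 : ℕ) : ℝ) + 1) ^ k := by
          rw [Nat.factorial_succ]
          push_cast
          rw [Real.mul_rpow (by positivity) (by positivity)]
          have e3 : ((n : ℝ) + 1) ^ k * (1 + 1 / ((n : ℝ) + 1)) ^ k = ((n : ℝ) + 1 + 1) ^ k := by
            rw [← mul_pow]
            congr 1
            field_simp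
          rw [← e3]
          ring

end

end Pool.Agent.R923.SE
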