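import Pool.Agent.R923.SE.Stm

/-!
Project SE, piece IMG: the coefficients on the imaginary axis.
-/

set_option autoImplicit false

open MeasureTheory Complex Filter Topology

namespace Pool.Agent.R923.SE

noncomputable section

namespace Img

/-- multiplication of a power series by `1 - r` -/
def D (a : ℕ → ℂ) : ℕ → ℂ
  | 0 => a 0
  | k + 1 => a (k + 1) - a k

theorem D_hasSum (a : ℕ → ℂ) (r : ℝ) (A : ℂ) (h : HasSum (fun k => a k * (r : ℂ) ^ k) A) :
    HasSum (fun k => D a k * (r : ℂ) ^ k) (((1 - r : ℝ) : ℂ) * A) := by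
  have h1 : HasSum (fun k : ℕ => (match k with
      | 0 => 0
      | k + 1 => (r : ℂ) * (a k * (r : ℂ) ^ k) : ℂ)) ((r : ℂ) * A) := by
    rw [← hasSum_nat_add_iff' 1]
    simpa using h.mul_left (r : ℂ)
  have h2 := h.sub h1
  have e : ((1 - r : ℝ) : ℂ) * A = A - (r : ℂ) * A := by push_cast; ring
  rw [e]
  refine h2.congr_fun ?_
  intro k
  cases k with
  | zero => simp [D]
  | succ k => simp only [D]; ring

theorem D_iter_hasSum (N : ℕ) (a : ℕ → ℂ) (r : ℝ) (A : ℂ)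
    (h : HasSum (fun k => a k * (r : ℂ) ^ k) A) :
    HasSum (fun k => (D^[N] a) k * (r : ℂ) ^ k) (((1 - r : ℝ) : ℂ) ^ N * A) := by
  induction N with
  | zero => simpa using h
  | succ N ih =>
    rw [Function.iterate_succ_apply']
    have := D_hasSum _ r _ ih
    rw [pow_succ']
    rw [mul_assoc]
    exact this

/-- the binomial coefficients `(x)_k / k!` -/
def bc (x : ℂ) (k : ℕ) : ℂ := (ascPochhammer ℂ k).eval x / (k.factorial : ℂ)

theorem bc_zero (x : ℂ) : bc x 0 = 1 := by simp [bc]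

theorem bc_sub (x : ℂ) (k : ℕ) : bc x (k + 1) - bc x k = bc (x - 1) (k + 1) := by
  unfold bc
  have h1 : (ascPochhammer ℂ (k + 1)).eval x = (ascPochhammer ℂ k).eval x * (x + k) := by
    rw [ascPochhammer_succ_eval]
  have h2 : (ascPochhammer ℂ (k + 1)).eval (x - 1) = (x - 1) * (ascPochhammer ℂ k).eval x := by
    rw [ascPochhammer_succ_left]
    simp [Polynomial.eval_comp]
  have h3 : ((k + 1).factorial : ℂ) = ((k : ℂ) + 1) * (k.factorial : ℂ) := by
    rw [Nat.factorial_succ]; push_cast; ring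
  have h4 : (k.factorial : ℂ) ≠ 0 := by exact_mod_cast k.factorial_ne_zero
  have h5 : (k : ℂ) + 1 ≠ 0 := by exact_mod_cast Nat.succ_ne_zero k
  rw [h1, h2, h3]
  field_simp
  ring

theorem D_iter_bc (n : ℕ) (K x : ℂ) (a : ℕ → ℂ) (h : ∀ k ≤ n, a k = K * bc x k) (N : ℕ) :
    ∀ k ≤ n, (D^[N] a) k = K * bc (x - N) k := by
  induction N with
  | zero => intro k hk; simpa using h k hk
  | succ N ih =>
    intro k hk
    rw [Function.iterate_succ_apply']
    cases k with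
    | zero =>
      simp only [D]
      rw [ih 0 hk, bc_zero, bc_zero]
    | succ k =>
      simp only [D]
      rw [ih (k + 1) hk, ih k (by omega), ← mul_sub, bc_sub]
      congr 2
      push_cast
      ring

end Img

theorem s_IMG (h1 : S_SER) (h2 : S_MOM) (h3 : S_POS) (h4 : S_PD) : S_IMG := by
  intro n y r hr0 hr1
  obtain ⟨p, hp⟩ : ∃ p : ℂ, p = (y : ℂ) * I := ⟨_, rfl⟩
  have hpre : -1 < p.re := by rw [hp]; simp
  have hqre : -1 < (-p).re := by rw [hp]; simp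
  obtain ⟨K, hK⟩ : ∃ K : ℂ, K = NN n p * NN n (-p) := ⟨_, rfl⟩
  obtain ⟨M, hM⟩ : ∃ M : ℕ → ℂ, M = fun k => ((1 / (k.factorial : ℝ) ^ 2 : ℝ) : ℂ) *
    mom n p (-p) k := ⟨_, rfl⟩
  obtain ⟨C, hC⟩ : ∃ C : ℕ → ℂ, C = (Img.D)^[n ^ 2] M := ⟨_, rfl⟩
  -- the coefficients up to `n`
  have hMk : ∀ k ≤ n, M k = K * Img.bc ((n : ℂ) ^ 2 + (y : ℂ) ^ 2) k := by
    intro k hk
    rw [hM]
    simp only
    rw [h2 n p (-p) k hpre hqre hk, hK]
    unfold Img.bc
    have e : ((n : ℂ) + p) * (n + -p) = (n : ℂ) ^ 2 + (y : ℂ) ^ 2 := by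
      rw [hp]
      ring_nf
      rw [I_sq]
      ring
    rw [e]
    have h5 : (k.factorial : ℂ) ≠ 0 := by exact_mod_cast k.factorial_ne_zero
    push_cast
    field_simp
  have hCk : ∀ k ≤ n, C k = K * Img.bc ((y : ℂ) ^ 2) k := by
    intro k hk
    rw [hC, Img.D_iter_bc n K _ M hMk (n ^ 2) k hk]
    congr 2
    push_cast
    ring
  -- the series
  have hser : ∀ ρ : ℝ, 0 ≤ ρ → ρ < 1 →
      HasSum (fun k => C k * (ρ : ℂ) ^ k) (Psi n ρ p (-p)) := by
    intro ρ hρ0 hρ1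
    have h5 := h1 n p (-p) ρ hpre hqre hρ0 hρ1
    have h6 : HasSum (fun k => M k * (ρ : ℂ) ^ k)
        (Psi n ρ p (-p) * ((1 - ρ : ℝ) : ℂ) ^ (-((n : ℂ) ^ 2 + n * (p + -p)))) := by
      refine h5.congr_fun ?_
      intro k
      rw [hM]
      simp only
      push_cast
      ring
    have h7 := Img.D_iter_hasSum (n ^ 2) M ρ _ h6
    rw [← hC] at h7
    have h8 : ((1 - ρ : ℝ) : ℂ) ≠ 0 := by
      have : (1 - ρ : ℝ) ≠ 0 := by linarith
      exact_mod_cast this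
    have h9 : ((1 - ρ : ℝ) : ℂ) ^ (-((n : ℂ) ^ 2 + n * (p + -p))) =
        (((1 - ρ : ℝ) : ℂ) ^ (n ^ 2))⁻¹ := by
      have e : (-((n : ℂ) ^ 2 + n * (p + -p))) = -(((n ^ 2 : ℕ)) : ℂ) := by
        push_cast
        ring
      rw [e, Complex.cpow_neg, Complex.cpow_natCast]
    rw [h9] at h7
    have h10 : ((1 - ρ : ℝ) : ℂ) ^ (n ^ 2) * (Psi n ρ p (-p) *
        (((1 - ρ : ℝ) : ℂ) ^ (n ^ 2))⁻¹) = Psi n ρ p (-p) := by
      have : ((1 - ρ : ℝ) : ℂ) ^ (n ^ 2) ≠ 0 := pow_ne_zero _ h8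
      field_simp
    rw [h10] at h7
    exact h7
  obtain ⟨hpd1, hpd2⟩ := h4 n y
  rw [← hp] at hpd1 hpd2
  obtain ⟨c, hc⟩ : ∃ c : ℕ → ℝ, c = fun k => (C k).re := ⟨_, rfl⟩
  obtain ⟨F, hF⟩ : ∃ F : ℝ → ℝ, F = fun ρ => (Psi n ρ p (-p)).re := ⟨_, rfl⟩
  have hFs : ∀ ρ : ℝ, 0 ≤ ρ → ρ < 1 → HasSum (fun k => c k * ρ ^ k) (F ρ) := by
    intro ρ hρ0 hρ1
    have h5 := Complex.reCLM.hasSum (hser ρ hρ0 hρ1)
    rw [hF]
    refine h5.congr_fun ?_
    intro k
    rw [hc]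
    simp only [Function.comp, Complex.reCLM_apply]
    have e : ((ρ : ℂ) ^ k) = ((ρ ^ k : ℝ) : ℂ) := by push_cast; rfl
    rw [e, Complex.re_mul_ofReal]
  have hc0 : ∀ k, 0 ≤ c k := by
    refine h3 F c hFs ?_
    intro N b α hb
    have := hpd2 N b α hb
    rw [hF]
    exact this
  -- partial sums at most one
  have hpart : ∀ L : ℕ, ∑ k ∈ Finset.range L, c k ≤ 1 := by
    intro L
    have ht : Tendsto (fun ρ : ℝ => ∑ k ∈ Finset.range L, c k * ρ ^ k) (𝓝[<] 1)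
        (𝓝 (∑ k ∈ Finset.range L, c k)) := by
      have h5 : Continuous (fun ρ : ℝ => ∑ k ∈ Finset.range L, c k * ρ ^ k) := by fun_prop
      have h6 := (h5.tendsto 1).mono_left (nhdsWithin_le_nhds (s := Set.Iio 1))
      simpa using h6
    refine le_of_tendsto ht ?_
    have h5 : ∀ᶠ ρ : ℝ in 𝓝[<] 1, ρ ∈ Set.Ioo (0 : ℝ) 1 := Ioo_mem_nhdsLT one_pos
    filter_upwards [h5] with ρ hρ
    have h6 := sum_le_hasSum (Finset.range L)
      (fun k _ => mul_nonneg (hc0 k) (pow_nonneg hρ.1.le k)) (hFs ρ hρ.1.le hρ.2)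
    refine h6.trans ?_
    rw [hF]
    simp only
    exact (Complex.re_le_norm _).trans (hpd1 ρ hρ.1.le hρ.2.le).2
  have hcs : Summable c := summable_of_sum_range_le hc0 hpart
  -- everything is real
  have hPre : Psi n r p (-p) = ((F r : ℝ) : ℂ) := by
    rw [hF]
    apply Complex.ext
    · simp
    · simp [(hpd1 r hr0 hr1.le).1]
  have hKre : K = ((K.re : ℝ) : ℂ) := by
    have h5 := hser 0 le_rfl one_pos
    have h6 : HasSum (fun k => C k * ((0 : ℝ) : ℂ) ^ k) (C 0) := by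
      have := hasSum_single (f := fun k => C k * ((0 : ℝ) : ℂ) ^ k) 0 (by
        intro k hk
        simp [hk])
      simpa using this
    have h7 := h5.unique h6
    have h8 : C 0 = K := by rw [hCk 0 (Nat.zero_le _), Img.bc_zero, mul_one]
    have h9 : K.im = 0 := by
      rw [← h8, ← h7]
      exact (hpd1 0 le_rfl zero_le_one).1
    apply Complex.ext
    · simp
    · simp [h9]
  have hbr : ∀ k, Img.bc ((y : ℂ) ^ 2) k =
      (((ascPochhammer ℝ k).eval (y ^ 2) / k.factorial : ℝ) : ℂ) := by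
    intro k
    unfold Img.bc
    have h5 : (ascPochhammer ℂ k).eval ((y : ℂ) ^ 2) =
        (((ascPochhammer ℝ k).eval (y ^ 2) : ℝ) : ℂ) := by
      have h6 : (ascPochhammer ℂ k) = (ascPochhammer ℝ k).map (algebraMap ℝ ℂ) := by
        rw [ascPochhammer_map]
      rw [h6]
      have h7 : ((y : ℂ) ^ 2) = algebraMap ℝ ℂ (y ^ 2) := by simp
      rw [h7, Polynomial.eval_map_algebraMap, Polynomial.aeval_algebraMap_apply]
      simp
    rw [h5]
    push_cast
    rfl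
  have hCc : ∀ k ≤ n, C k = ((c k : ℝ) : ℂ) := by
    intro k hk
    rw [hc]
    simp only
    rw [hCk k hk, hbr, hKre]
    apply Complex.ext
    · simp
    · simp
  have hmain : NN n p * NN n (-p) *
      ∑ k ∈ Finset.range (n + 1), (((ascPochhammer ℝ k).eval (y ^ 2) / k.factorial * r ^ k : ℝ) : ℂ)
      = ((∑ k ∈ Finset.range (n + 1), c k * r ^ k : ℝ) : ℂ) := by
    rw [← hK, Finset.mul_sum, Complex.ofReal_sum]
    refine Finset.sum_congr rfl (fun k hk => ?_)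
    have hk' : k ≤ n := by
      rw [Finset.mem_range] at hk
      omega
    rw [Complex.ofReal_mul, Complex.ofReal_mul, ← hCc k hk', hCk k hk', hbr]
    ring
  rw [← hp, hmain, hPre, ← Complex.ofReal_sub, Complex.norm_real, Real.norm_eq_abs]
  have h5 := (hasSum_nat_add_iff' (n + 1)).2 (hFs r hr0 hr1)
  have h6 : HasSum (fun k => r ^ (n + 1) * c (k + (n + 1))) (r ^ (n + 1) *
      (∑' k, c k - ∑ k ∈ Finset.range (n + 1), c k)) :=
    ((hasSum_nat_add_iff' (n + 1)).2 hcs.hasSum).mul_left _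
  have h7 : 0 ≤ F r - ∑ k ∈ Finset.range (n + 1), c k * r ^ k :=
    h5.nonneg (fun k => mul_nonneg (hc0 _) (pow_nonneg hr0 _))
  rw [abs_of_nonneg h7]
  have h8 := hasSum_le (fun k => by
    rw [mul_comm (r ^ (n + 1))]
    refine mul_le_mul_of_nonneg_left ?_ (hc0 (k + (n + 1)))
    exact pow_le_pow_of_le_one hr0 hr1.le (by omega)) h5 h6
  refine h8.trans ?_
  have h9 : ∑' k, c k ≤ 1 := by
    refine hcs.tsum_le_of_sum_range_le hpart
  have h10 : 0 ≤ ∑ k ∈ Finset.range (n + 1), c k := Finset.sum_nonneg (fun k _ => hc0 k)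
  calc r ^ (n + 1) * (∑' k, c k - ∑ k ∈ Finset.range (n + 1), c k) ≤ r ^ (n + 1) * 1 :=
        mul_le_mul_of_nonneg_left (by linarith) (pow_nonneg hr0 _)
    _ = r ^ (n + 1) := mul_one _

end

end Pool.Agent.R923.SE
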