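import Pool.Agent.R923.SE.Stm

/-!
Project SE (helper923), piece SPH (helper875): reduction of the spherical ensemble to `Psi`.
-/

set_option autoImplicit false

open MeasureTheory Complex Filter Topology

namespace Pool.Agent.R923.SE

noncomputable section

namespace Sph

lemma measurable_dt {n : ℕ} : Measurable (fun A : Mt n n => dt A) := by
  unfold dt
  apply Continuous.measurable
  apply Continuous.matrix_det
  exact continuous_id

lemma measurable_fp {n : ℕ} (p : ℂ) : Measurable (fun A : Mt n n => fp p A) := by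
  unfold fp
  have h := measurable_dt (n := n)
  fun_prop

lemma dt_smul {n : ℕ} (c : ℂ) (A : Mt n n) : dt (c • A) = c ^ n * dt A := by
  unfold dt
  have : Matrix.of (c • A) = c • Matrix.of A := rfl
  rw [this, Matrix.det_smul, Fintype.card_fin]

/-- mixtures are almost surely invertible -/
lemma ae_mix (h1 : S_NUL) (h2 : S_ROT) (n : ℕ) (c d : ℂ) (hcd : ‖c‖ ^ 2 + ‖d‖ ^ 2 = 1) :
    ∀ᵐ x ∂gg n, dt (c • x.1 + d • x.2) ≠ 0 := by
  have hT := h2 n n ((starRingEnd ℂ) d) (-(starRingEnd ℂ) c) c d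
    (by rw [norm_neg, RCLike.norm_conj, RCLike.norm_conj, add_comm]; exact hcd) hcd (by ring)
  have h3 : ∀ᵐ y ∂(gau n n).prod (gau n n), dt y.2 ≠ 0 :=
    Measure.quasiMeasurePreserving_snd.ae (h1 n)
  exact hT.quasiMeasurePreserving.ae h3


lemma measurable_int (n : ℕ) (r : ℝ) (p q : ℂ) : Measurable (fun x : Mt n n × Mt n n =>
    fp p (((√r : ℝ) : ℂ) • x.2 + ((√(1 - r) : ℝ) : ℂ) • x.1) * fp q x.2) := by
  apply Measurable.mul
  · apply (measurable_fp p).comp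
    fun_prop
  · exact (measurable_fp q).comp measurable_snd


/-- the integrand of `Esph` is almost surely a constant times the integrand of `Psi` at the point
`(a • x.1, x.2)`, `a` a complex number of modulus one -/
lemma key (h1 : S_NUL) (h2 : S_ROT) (n : ℕ) (z γ : ℂ) :
    ∃ a : ℂ, ‖a‖ = 1 ∧
      MeasurePreserving (fun x : Mt n n × Mt n n => (a • x.1 + (0 : ℂ) • x.2,
        (0 : ℂ) • x.1 + (1 : ℂ) • x.2)) ((gau n n).prod (gau n n)) ((gau n n).prod (gau n n)) ∧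
      ∀ᵐ x ∂gg n, Complex.exp (γ * ((Real.log ‖Matrix.det (z • (1 : Matrix (Fin n) (Fin n) ℂ) -
        Matrix.of x.1 * (Matrix.of x.2)⁻¹)‖ : ℝ) : ℂ)) =
        ((1 + ‖z‖ ^ 2 : ℝ) : ℂ) ^ ((n : ℂ) * γ / 2) *
        (fp (γ / 2) (((√(‖z‖ ^ 2 / (1 + ‖z‖ ^ 2)) : ℝ) : ℂ) • x.2 +
          ((√(1 - ‖z‖ ^ 2 / (1 + ‖z‖ ^ 2)) : ℝ) : ℂ) • (a • x.1)) * fp (-(γ / 2)) x.2) := by
  set t : ℝ := ‖z‖ ^ 2 with ht
  have ht0 : 0 ≤ t := by positivity
  have h1t : 0 < 1 + t := by linarith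
  set r : ℝ := t / (1 + t) with hr
  have h1r : 1 - r = 1 / (1 + t) := by rw [hr]; field_simp; ring
  have hr0 : 0 ≤ r := by rw [hr]; positivity
  have h1r0 : 0 ≤ 1 - r := by rw [h1r]; positivity
  -- the phase
  set u : ℂ := exp (z.arg * I) with hu
  have hun : ‖u‖ = 1 := by rw [hu]; exact Complex.norm_exp_ofReal_mul_I _
  have hu0 : u ≠ 0 := by rw [← norm_ne_zero_iff, hun]; norm_num
  have hzu : z = (‖z‖ : ℂ) * u := (Complex.norm_mul_exp_arg_mul_I z).symm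
  set a : ℂ := -u⁻¹ with ha
  have han : ‖a‖ = 1 := by rw [ha, norm_neg, norm_inv, hun, inv_one]
  set s : ℝ := √(1 + t) with hs
  have hs0 : 0 < s := Real.sqrt_pos.mpr h1t
  have hsr : s * √r = ‖z‖ := by
    rw [hs, ← Real.sqrt_mul h1t.le, hr, mul_div_cancel₀ _ h1t.ne', ht]
    exact Real.sqrt_sq (norm_nonneg z)
  have hs1 : s * √(1 - r) = 1 := by
    rw [hs, ← Real.sqrt_mul h1t.le, h1r, mul_one_div_cancel h1t.ne', Real.sqrt_one]
  refine ⟨a, han, h2 n n a 0 0 1 (by rw [han]; simp) (by simp) (by simp), ?_⟩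
  have e1 : ∀ᵐ x ∂gg n, dt ((((√(1 - r) : ℝ) : ℂ) * a) • x.1 + ((√r : ℝ) : ℂ) • x.2) ≠ 0 := by
    apply ae_mix h1 h2
    rw [norm_mul, han, mul_one, Complex.norm_real, Complex.norm_real, Real.norm_eq_abs,
      Real.norm_eq_abs, sq_abs, sq_abs, Real.sq_sqrt hr0, Real.sq_sqrt h1r0]
    ring
  have e2 : ∀ᵐ x ∂gg n, dt x.2 ≠ 0 := by
    have : ∀ᵐ y ∂(gau n n).prod (gau n n), dt y.2 ≠ 0 :=
      Measure.quasiMeasurePreserving_snd.ae (h1 n)
    exact this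
  filter_upwards [e1, e2] with x hx1 hx2
  -- the matrix identity
  set C : Mt n n := ((√r : ℝ) : ℂ) • x.2 + ((√(1 - r) : ℝ) : ℂ) • (a • x.1) with hC
  have hCx : (((√(1 - r) : ℝ) : ℂ) * a) • x.1 + ((√r : ℝ) : ℂ) • x.2 = C := by
    rw [hC, smul_smul, add_comm]
  rw [hCx] at hx1
  have hB : IsUnit (Matrix.of x.2).det := by
    rw [isUnit_iff_ne_zero]; exact hx2
  have hmat : (z • (1 : Matrix (Fin n) (Fin n) ℂ) - Matrix.of x.1 * (Matrix.of x.2)⁻¹) *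
      Matrix.of x.2 = ((s : ℂ) * u) • Matrix.of C := by
    rw [sub_mul, Matrix.mul_assoc, Matrix.nonsing_inv_mul _ hB, mul_one, smul_mul_assoc, one_mul]
    have hsr' : (s : ℂ) * ((√r : ℝ) : ℂ) = (‖z‖ : ℂ) := by rw [← hsr]; push_cast; ring
    have hs1' : (s : ℂ) * ((√(1 - r) : ℝ) : ℂ) = 1 := by
      rw [← Complex.ofReal_mul, hs1]; simp
    have hua : u * a = -1 := by rw [ha]; field_simp
    ext i j
    simp only [hC, Matrix.sub_apply, Matrix.smul_apply, Matrix.of_apply, Pi.add_apply,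
      Pi.smul_apply, smul_eq_mul]
    calc z * x.2 i j - x.1 i j = ((‖z‖ : ℂ) * u) * x.2 i j + (1 : ℂ) * (-1) * x.1 i j := by
          rw [← hzu]; ring
      _ = ((s : ℂ) * ((√r : ℝ) : ℂ) * u) * x.2 i j +
          ((s : ℂ) * ((√(1 - r) : ℝ) : ℂ)) * (u * a) * x.1 i j := by rw [hsr', hs1', hua]
      _ = _ := by ring
  have hdet : ‖Matrix.det (z • (1 : Matrix (Fin n) (Fin n) ℂ) -
      Matrix.of x.1 * (Matrix.of x.2)⁻¹)‖ * ‖dt x.2‖ = s ^ n * ‖dt C‖ := by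
    have h3 := congrArg Matrix.det hmat
    rw [Matrix.det_mul, Matrix.det_smul, Fintype.card_fin] at h3
    have h4 := congrArg norm h3
    rw [norm_mul, norm_mul, norm_pow, norm_mul, hun, mul_one, Complex.norm_real,
      Real.norm_of_nonneg hs0.le] at h4
    exact h4
  have hlog : Real.log ‖Matrix.det (z • (1 : Matrix (Fin n) (Fin n) ℂ) -
      Matrix.of x.1 * (Matrix.of x.2)⁻¹)‖ = n * Real.log s + Real.log ‖dt C‖ -
        Real.log ‖dt x.2‖ := by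
    have h5 : ‖dt x.2‖ ≠ 0 := norm_ne_zero_iff.mpr hx2
    have h6 : ‖dt C‖ ≠ 0 := norm_ne_zero_iff.mpr hx1
    have h7 : s ^ n ≠ 0 := pow_ne_zero _ hs0.ne'
    have h8 : ‖Matrix.det (z • (1 : Matrix (Fin n) (Fin n) ℂ) -
      Matrix.of x.1 * (Matrix.of x.2)⁻¹)‖ ≠ 0 := by
      intro h0
      rw [h0, zero_mul] at hdet
      exact mul_ne_zero h7 h6 hdet.symm
    have h9 := congrArg Real.log hdet
    rw [Real.log_mul h8 h5, Real.log_mul h7 h6, Real.log_pow] at h9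
    linarith
  have hlogs : Real.log s = Real.log (1 + t) / 2 := by
    rw [hs, Real.log_sqrt h1t.le]
  have hcp : ((1 + t : ℝ) : ℂ) ^ ((n : ℂ) * γ / 2) =
      exp ((Real.log (1 + t) : ℝ) * ((n : ℂ) * γ / 2)) := by
    rw [Complex.cpow_def_of_ne_zero (by exact_mod_cast h1t.ne'), Complex.ofReal_log h1t.le]
  rw [hlog, hlogs, hcp]
  unfold fp
  rw [← Complex.exp_add, ← Complex.exp_add]
  congr 1
  push_cast
  ring

end Sph

open Sph in
theorem s_SPH (h1 : S_NUL) (h2 : S_ROT) : S_SPH := by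
  intro n z γ
  obtain ⟨a, -, hT, hae⟩ := key h1 h2 n z γ
  have hF := measurable_int n (‖z‖ ^ 2 / (1 + ‖z‖ ^ 2)) (γ / 2) (-(γ / 2))
  have hPsi : Psi n (‖z‖ ^ 2 / (1 + ‖z‖ ^ 2)) (γ / 2) (-(γ / 2)) = ∫ x : Mt n n × Mt n n,
      fp (γ / 2) (((√(‖z‖ ^ 2 / (1 + ‖z‖ ^ 2)) : ℝ) : ℂ) • x.2 +
        ((√(1 - ‖z‖ ^ 2 / (1 + ‖z‖ ^ 2)) : ℝ) : ℂ) • (a • x.1)) * fp (-(γ / 2)) x.2
      ∂gg n := by
    unfold Psi gg
    have := integral_map (μ := (gau n n).prod (gau n n)) hT.measurable.aemeasurable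
      hF.aestronglyMeasurable
    rw [hT.map_eq] at this
    rw [this]
    simp only [zero_smul, one_smul, add_zero, zero_add]
  rw [hPsi]
  unfold Esph
  rw [← integral_const_mul]
  exact integral_congr_ae hae

open Sph in
/-- the integrand of `Esph` is integrable if that of `Psi` is -/
theorem integrable_Esph (h1 : S_NUL) (h2 : S_ROT) (n : ℕ) (z γ : ℂ)
    (h : Integrable (fun x : Mt n n × Mt n n =>
      fp (γ / 2) (((√(‖z‖ ^ 2 / (1 + ‖z‖ ^ 2)) : ℝ) : ℂ) • x.2 +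
        ((√(1 - ‖z‖ ^ 2 / (1 + ‖z‖ ^ 2)) : ℝ) : ℂ) • x.1) * fp (-(γ / 2)) x.2) (gg n)) :
    Integrable (fun x : Mt n n × Mt n n =>
      Complex.exp (γ * ((Real.log ‖Matrix.det (z • (1 : Matrix (Fin n) (Fin n) ℂ) -
        Matrix.of x.1 * (Matrix.of x.2)⁻¹)‖ : ℝ) : ℂ))) (gg n) := by
  obtain ⟨a, -, hT, hae⟩ := key h1 h2 n z γ
  have h3 : Integrable (fun x : Mt n n × Mt n n =>
      fp (γ / 2) (((√(‖z‖ ^ 2 / (1 + ‖z‖ ^ 2)) : ℝ) : ℂ) • x.2 +
        ((√(1 - ‖z‖ ^ 2 / (1 + ‖z‖ ^ 2)) : ℝ) : ℂ) • (a • x.1)) * fp (-(γ / 2)) x.2) (gg n) := by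
    have h4 := hT.integrable_comp_of_integrable h
    simp only [Function.comp_def, zero_smul, one_smul, add_zero, zero_add] at h4
    exact h4
  exact (h3.const_mul _).congr (hae.mono fun x hx => hx.symm)

end

end Pool.Agent.R923.SE
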