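import Pool.Agent.R923.SE.Hol
import Pool.Agent.R923.SE.Sph

/-!
Project SE (helper923): integrability of `|P_n(z)|^γ` for `|Re γ| < 2`.
-/

set_option autoImplicit false

open MeasureTheory Complex Filter Topology

namespace Pool.Agent.R923.SE

noncomputable section

lemma int_exp (hN : S_N) (hR : S_ROT) (n : ℕ) (r : ℝ) (h0 : 0 ≤ r) (h1 : r ≤ 1) (p : ℂ)
    (hp : |p.re| < 1) :
    Integrable (fun x => Complex.exp (p * ((XX n r x : ℝ) : ℂ))) (gg n) := by
  obtain ⟨h, -⟩ := hol_main hN hR n r h0 h1 p.re hp 0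
  refine h.mono' ?_ (Eventually.of_forall fun x => ?_)
  · have := hol_measurable_XX hR n r h0 h1
    apply Measurable.aestronglyMeasurable
    fun_prop
  · rw [Complex.norm_exp]
    simp

open Sph in
theorem s_INT (hN : S_N) (h1 : S_NUL) (h2 : S_ROT) : ∀ (n : ℕ) (z γ : ℂ), |γ.re| < 2 →
    Integrable (fun x : Mt n n × Mt n n => Complex.exp (γ * ((Real.log ‖Matrix.det
      (z • (1 : Matrix (Fin n) (Fin n) ℂ) - Matrix.of x.1 * (Matrix.of x.2)⁻¹)‖ : ℝ) : ℂ)))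
      (gg n) := by
  intro n z γ hγ
  set t : ℝ := ‖z‖ ^ 2 with ht
  have ht0 : 0 ≤ t := by positivity
  have h1t : 0 < 1 + t := by linarith
  set r : ℝ := t / (1 + t) with hr
  have h1r : 1 - r = 1 / (1 + t) := by rw [hr]; field_simp; ring
  have hr0 : 0 ≤ r := by rw [hr]; positivity
  have h1r0 : 0 ≤ 1 - r := by rw [h1r]; positivity
  -- the phase
  set u : ℂ := exp (z.arg * I) with hu
  have hun : ‖u‖ = 1 := by rw [hu]; exact Complex.norm_exp_ofReal_mul_I _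
  have hu0 : u ≠ 0 := by rw [← norm_ne_zero_iff, hun]; norm_num
  have hzu : z = (‖z‖ : ℂ) * u := (Complex.norm_mul_exp_arg_mul_I z).symm
  set a : ℂ := -u⁻¹ with ha
  have han : ‖a‖ = 1 := by rw [ha, norm_neg, norm_inv, hun, inv_one]
  set s : ℝ := √(1 + t) with hs
  have hs0 : 0 < s := Real.sqrt_pos.mpr h1t
  have hsr : s * √r = ‖z‖ := by
    rw [hs, ← Real.sqrt_mul h1t.le, hr, mul_div_cancel₀ _ h1t.ne', ht]
    exact Real.sqrt_sq (norm_nonneg z)
  have hs1 : s * √(1 - r) = 1 := by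
    rw [hs, ← Real.sqrt_mul h1t.le, h1r, mul_one_div_cancel h1t.ne', Real.sqrt_one]
  -- change of variables
  have hT := h2 n n a 0 0 1 (by rw [han]; simp) (by simp) (by simp)
  have hre : |(γ / 2).re| < 1 := by
    have h2re : (γ / 2).re = γ.re / 2 := by
      rw [show γ / 2 = γ / ((2 : ℝ) : ℂ) by norm_num, Complex.div_ofReal_re]
    rw [h2re, abs_div, abs_of_pos (by norm_num : (0 : ℝ) < 2)]
    linarith
  have hI := int_exp hN h2 n r hr0 (by linarith) (γ / 2) hre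
  have hI2 := (hT.integrable_comp_of_integrable hI).const_mul
    (exp ((Real.log (1 + t) : ℝ) * ((n : ℂ) * γ / 2)))
  refine hI2.congr ?_
  have e1 : ∀ᵐ x ∂gg n, dt ((((√(1 - r) : ℝ) : ℂ) * a) • x.1 + ((√r : ℝ) : ℂ) • x.2) ≠ 0 := by
    apply ae_mix h1 h2
    rw [norm_mul, han, mul_one, Complex.norm_real, Complex.norm_real, Real.norm_eq_abs,
      Real.norm_eq_abs, sq_abs, sq_abs, Real.sq_sqrt hr0, Real.sq_sqrt h1r0]
    ring
  have e2 : ∀ᵐ x ∂gg n, dt x.2 ≠ 0 := by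
    have : ∀ᵐ y ∂(gau n n).prod (gau n n), dt y.2 ≠ 0 :=
      Measure.quasiMeasurePreserving_snd.ae (h1 n)
    exact this
  filter_upwards [e1, e2] with x hx1 hx2
  -- the matrix identity
  set C : Mt n n := ((√r : ℝ) : ℂ) • x.2 + ((√(1 - r) : ℝ) : ℂ) • (a • x.1) with hC
  have hCx : (((√(1 - r) : ℝ) : ℂ) * a) • x.1 + ((√r : ℝ) : ℂ) • x.2 = C := by
    rw [hC, smul_smul, add_comm]
  rw [hCx] at hx1
  have hB : IsUnit (Matrix.of x.2).det := by
    rw [isUnit_iff_ne_zero]; exact hx2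
  have hmat : (z • (1 : Matrix (Fin n) (Fin n) ℂ) - Matrix.of x.1 * (Matrix.of x.2)⁻¹) *
      Matrix.of x.2 = ((s : ℂ) * u) • Matrix.of C := by
    rw [sub_mul, Matrix.mul_assoc, Matrix.nonsing_inv_mul _ hB, mul_one, smul_mul_assoc, one_mul]
    have hsr' : (s : ℂ) * ((√r : ℝ) : ℂ) = (‖z‖ : ℂ) := by rw [← hsr]; push_cast; ring
    have hs1' : (s : ℂ) * ((√(1 - r) : ℝ) : ℂ) = 1 := by
      rw [← Complex.ofReal_mul, hs1]; simp
    have hua : u * a = -1 := by rw [ha]; field_simp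
    ext i j
    simp only [hC, Matrix.sub_apply, Matrix.smul_apply, Matrix.of_apply, Pi.add_apply,
      Pi.smul_apply, smul_eq_mul]
    calc z * x.2 i j - x.1 i j = ((‖z‖ : ℂ) * u) * x.2 i j + (1 : ℂ) * (-1) * x.1 i j := by
          rw [← hzu]; ring
      _ = ((s : ℂ) * ((√r : ℝ) : ℂ) * u) * x.2 i j +
          ((s : ℂ) * ((√(1 - r) : ℝ) : ℂ)) * (u * a) * x.1 i j := by rw [hsr', hs1', hua]
      _ = _ := by ring
  have hdet : ‖Matrix.det (z • (1 : Matrix (Fin n) (Fin n) ℂ) -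
      Matrix.of x.1 * (Matrix.of x.2)⁻¹)‖ * ‖dt x.2‖ = s ^ n * ‖dt C‖ := by
    have h3 := congrArg Matrix.det hmat
    rw [Matrix.det_mul, Matrix.det_smul, Fintype.card_fin] at h3
    have h4 := congrArg norm h3
    rw [norm_mul, norm_mul, norm_pow, norm_mul, hun, mul_one, Complex.norm_real,
      Real.norm_of_nonneg hs0.le] at h4
    exact h4
  have hlog : Real.log ‖Matrix.det (z • (1 : Matrix (Fin n) (Fin n) ℂ) -
      Matrix.of x.1 * (Matrix.of x.2)⁻¹)‖ = n * Real.log s + Real.log ‖dt C‖ -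
        Real.log ‖dt x.2‖ := by
    have h5 : ‖dt x.2‖ ≠ 0 := norm_ne_zero_iff.mpr hx2
    have h6 : ‖dt C‖ ≠ 0 := norm_ne_zero_iff.mpr hx1
    have h7 : s ^ n ≠ 0 := pow_ne_zero _ hs0.ne'
    have h8 : ‖Matrix.det (z • (1 : Matrix (Fin n) (Fin n) ℂ) -
      Matrix.of x.1 * (Matrix.of x.2)⁻¹)‖ ≠ 0 := by
      intro h0
      rw [h0, zero_mul] at hdet
      exact mul_ne_zero h7 h6 hdet.symm
    have h9 := congrArg Real.log hdet
    rw [Real.log_mul h8 h5, Real.log_mul h7 h6, Real.log_pow] at h9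
    linarith
  have hlogs : Real.log s = Real.log (1 + t) / 2 := by
    rw [hs, Real.log_sqrt h1t.le]
  have hXX : XX n r (a • x.1 + (0 : ℂ) • x.2, (0 : ℂ) • x.1 + (1 : ℂ) • x.2) =
      2 * (Real.log ‖dt C‖ - Real.log ‖dt x.2‖) := by
    unfold XX CC
    simp only [zero_smul, one_smul, add_zero, zero_add, hC]
  simp only [Function.comp]
  rw [hXX, hlog, hlogs, ← Complex.exp_add]
  congr 1
  push_cast
  ring

end

end Pool.Agent.R923.SE
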