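import Pool.Agent.R923.SE.LagA

/-!
Project SE, piece LAG (helper206): moments of `tr (S B Bᴴ)`.
-/

set_option autoImplicit false

open MeasureTheory Complex Filter Topology

namespace Pool.Agent.R923.SE.LagB

open Pool.Agent.R923.SE Pool.Agent.R923.SE.A206 Pool.Agent.R923.SE.LagA

lemma norm_det_unitary {n : ℕ} {U : Matrix (Fin n) (Fin n) ℂ}
    (hU : U ∈ Matrix.unitaryGroup (Fin n) ℂ) : ‖U.det‖ = 1 := by
  have h := Matrix.mem_unitaryGroup_iff.mp hU
  have h2 : U.det * (starRingEnd ℂ) U.det = 1 := by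
    have h3 := congrArg Matrix.det h
    rw [Matrix.det_mul, Matrix.det_one, Matrix.star_eq_conjTranspose,
      Matrix.det_conjTranspose] at h3
    exact h3
  have h4 : ‖U.det‖ * ‖U.det‖ = 1 := by
    have := congrArg norm h2
    simpa using this
  nlinarith [norm_nonneg U.det]

lemma of_mul {n m : ℕ} (U : Matrix (Fin n) (Fin n) ℂ) (B : Mt n m) :
    Matrix.of (fun (i : Fin n) (j : Fin m) => ∑ l, U i l * B l j) = U * Matrix.of B := by
  ext i j; simp [Matrix.mul_apply]

lemma fp_mul_left {n : ℕ} (p : ℂ) (C : Mt n n) {V : Matrix (Fin n) (Fin n) ℂ}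
    (hV : V ∈ Matrix.unitaryGroup (Fin n) ℂ) :
    fp p (fun (i : Fin n) (j : Fin n) => ∑ l, V i l * C l j) = fp p C := by
  unfold fp dt
  rw [of_mul, Matrix.det_mul, norm_mul, norm_det_unitary hV, one_mul]

lemma rownorm_meas {n m : ℕ} (i : Fin n) : Measurable (fun B : Mt n m => ∑ j, ‖B i j‖ ^ 2) := by
  have : Continuous (fun B : Mt n m => ∑ j, ‖B i j‖ ^ 2) := by fun_prop
  exact this.measurable

/-- diagonal case, weighted -/
lemma diag_q (h1 : S_ROW) {n : ℕ} (d : Fin n → ℝ) (k : ℕ) {q : ℂ} (hq : -1 < q.re) :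
    ∫ B : Mt n n, fp q B * (((∑ i, d i * ∑ j, ‖B i j‖ ^ 2) ^ k : ℝ) : ℂ) ∂gau n n =
      NN n q * (QQ d k).eval ((n : ℂ) + q) := by
  refine moments (gau n n) (fp q) (fun i B => ∑ j, ‖B i j‖ ^ 2) (NN n q) ((n : ℂ) + q)
    (measurable_fp q) (fun i => rownorm_meas i)
    (fun i B => Finset.sum_nonneg fun j _ => by positivity) ?_ d k
  intro e he
  obtain ⟨ha, hb⟩ := h1.1 n q e hq he
  refine ⟨ha, ?_⟩
  rw [hb]
  congr 1
  have h3 : ∀ i, ((1 - e i : ℝ) : ℂ) ^ (-((n : ℂ) + q)) =
      Complex.exp (((n : ℂ) + q) * ((-Real.log (1 - e i) : ℝ) : ℂ)) := by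
    intro i
    have h4 : (0 : ℝ) < 1 - e i := by linarith [he i]
    rw [Complex.cpow_def_of_ne_zero (by exact_mod_cast h4.ne'), ← Complex.ofReal_log h4.le]
    congr 1
    push_cast; ring
  rw [Finset.prod_congr rfl fun i _ => h3 i, ← Complex.exp_sum]
  congr 1
  rw [← Finset.mul_sum]
  push_cast
  rw [Finset.sum_neg_distrib]

/-- diagonal case, rectangular -/
lemma diag_m (h1 : S_ROW) {n m : ℕ} (d : Fin n → ℝ) (k : ℕ) :
    ∫ B : Mt n m, (((∑ i, d i * ∑ j, ‖B i j‖ ^ 2) ^ k : ℝ) : ℂ) ∂gau n m =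
      (QQ d k).eval (m : ℂ) := by
  have h := moments (gau n m) (fun _ => 1) (fun i B => ∑ j, ‖B i j‖ ^ 2) 1 (m : ℂ)
    measurable_const (fun i => rownorm_meas i)
    (fun i B => Finset.sum_nonneg fun j _ => by positivity) ?_ d k
  · simpa using h
  intro e he
  obtain ⟨ha, hb⟩ := h1.2 n m e he
  simp only [one_mul]
  refine ⟨ha.ofReal, ?_⟩
  rw [integral_complex_ofReal, hb]
  have h3 : ∀ i, ((1 - e i) ^ m)⁻¹ = Real.exp ((m : ℝ) * (-Real.log (1 - e i))) := by
    intro i
    have h4 : (0 : ℝ) < 1 - e i := by linarith [he i]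
    rw [mul_neg, Real.exp_neg, ← Real.log_pow, Real.exp_log (pow_pos h4 m)]
  rw [Finset.prod_congr rfl fun i _ => h3 i, ← Real.exp_sum, ← Finset.mul_sum,
    Finset.sum_neg_distrib]
  push_cast
  rfl

lemma trace_herm {n m : ℕ} (U : Matrix (Fin n) (Fin n) ℂ) (d : Fin n → ℝ) (B : Mt n m) :
    Matrix.trace ((U * Matrix.diagonal (fun i => (d i : ℂ)) * star U) *
      (Matrix.of B * (Matrix.of B).conjTranspose)) =
      ((∑ i, d i * ∑ j, ‖∑ l, (star U) i l * B l j‖ ^ 2 : ℝ) : ℂ) := by
  have e1 : (U * Matrix.diagonal (fun i => (d i : ℂ)) * star U) *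
      (Matrix.of B * (Matrix.of B).conjTranspose) =
      U * (Matrix.diagonal (fun i => (d i : ℂ)) * (star U *
        (Matrix.of B * (Matrix.of B).conjTranspose))) := by
    simp only [Matrix.mul_assoc]
  rw [e1, Matrix.trace_mul_comm]
  have e2 : Matrix.diagonal (fun i => (d i : ℂ)) * (star U *
        (Matrix.of B * (Matrix.of B).conjTranspose)) * U =
      Matrix.diagonal (fun i => (d i : ℂ)) * ((star U * Matrix.of B) *
        (star U * Matrix.of B).conjTranspose) := by
    rw [Matrix.conjTranspose_mul]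
    simp only [Matrix.star_eq_conjTranspose, Matrix.conjTranspose_conjTranspose, Matrix.mul_assoc]
  rw [e2, Matrix.trace]
  push_cast
  refine Finset.sum_congr rfl fun i _ => ?_
  rw [Matrix.diag_apply, Matrix.diagonal_mul, Matrix.mul_apply]
  congr 1
  refine Finset.sum_congr rfl fun j _ => ?_
  rw [Matrix.conjTranspose_apply, Matrix.mul_apply]
  simp only [Matrix.of_apply]
  exact Complex.mul_conj' _

lemma herm (h1 : S_ROW) (h2 : S_UL) (n k : ℕ) (S : Matrix (Fin n) (Fin n) ℂ)
    (hS : S.IsHermitian) :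
    ∃ Q : Polynomial ℂ, Q.natDegree ≤ k ∧
    (∀ q : ℂ, -1 < q.re → ∫ B : Mt n n, fp q B *
      (Matrix.trace (S * (Matrix.of B * (Matrix.of B).conjTranspose))) ^ k ∂gau n n =
        NN n q * Q.eval ((n : ℂ) + q)) ∧
    (∀ m : ℕ, ∫ B : Mt n m,
      (Matrix.trace (S * (Matrix.of B * (Matrix.of B).conjTranspose))) ^ k ∂gau n m =
        Q.eval (m : ℂ)) := by
  have hs := hS.spectral_theorem
  rw [Unitary.conjStarAlgAut_apply] at hs
  set U : Matrix (Fin n) (Fin n) ℂ := (hS.eigenvectorUnitary : Matrix (Fin n) (Fin n) ℂ) with hU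
  have hUm : U ∈ Matrix.unitaryGroup (Fin n) ℂ := (hS.eigenvectorUnitary).2
  have hUs : star U ∈ Matrix.unitaryGroup (Fin n) ℂ := Unitary.star_mem hUm
  set d : Fin n → ℝ := hS.eigenvalues with hd
  have hs' : S = U * Matrix.diagonal (fun i => (d i : ℂ)) * star U := hs
  refine ⟨QQ d k, QQ_deg d k, fun q hq => ?_, fun m => ?_⟩
  · rw [← diag_q h1 d k hq]
    have hm := h2 n n (star U) hUs
    have hmeas : Measurable (fun B : Mt n n =>
        fp q B * (((∑ i, d i * ∑ j, ‖B i j‖ ^ 2) ^ k : ℝ) : ℂ)) := by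
      refine (measurable_fp q).mul (Complex.measurable_ofReal.comp (Measurable.pow_const ?_ k))
      exact Finset.measurable_sum _ fun i _ => (rownorm_meas i).const_mul _
    have h3 : ∫ B : Mt n n, fp q B * (((∑ i, d i * ∑ j, ‖B i j‖ ^ 2) ^ k : ℝ) : ℂ) ∂gau n n =
        ∫ B : Mt n n, fp q B * (((∑ i, d i * ∑ j, ‖B i j‖ ^ 2) ^ k : ℝ) : ℂ)
          ∂((gau n n).map (fun (B : Mt n n) (i : Fin n) (j : Fin n) =>
            ∑ l, (star U) i l * B l j)) := by
      rw [hm.map_eq]
    rw [h3, integral_map hm.measurable.aemeasurable hmeas.aestronglyMeasurable]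
    refine integral_congr_ae (Filter.Eventually.of_forall fun B => ?_)
    simp only
    rw [fp_mul_left q B hUs, hs', trace_herm U d B]
    push_cast
    rfl
  · rw [← diag_m h1 d k]
    have hm := h2 n m (star U) hUs
    have hmeas : Measurable (fun B : Mt n m =>
        (((∑ i, d i * ∑ j, ‖B i j‖ ^ 2) ^ k : ℝ) : ℂ)) := by
      refine Complex.measurable_ofReal.comp (Measurable.pow_const ?_ k)
      exact Finset.measurable_sum _ fun i _ => (rownorm_meas i).const_mul _
    have h3 : ∫ B : Mt n m, (((∑ i, d i * ∑ j, ‖B i j‖ ^ 2) ^ k : ℝ) : ℂ) ∂gau n m =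
        ∫ B : Mt n m, (((∑ i, d i * ∑ j, ‖B i j‖ ^ 2) ^ k : ℝ) : ℂ)
          ∂((gau n m).map (fun (B : Mt n m) (i : Fin n) (j : Fin m) =>
            ∑ l, (star U) i l * B l j)) := by
      rw [hm.map_eq]
    rw [h3, integral_map hm.measurable.aemeasurable hmeas.aestronglyMeasurable]
    refine integral_congr_ae (Filter.Eventually.of_forall fun B => ?_)
    simp only
    rw [hs', trace_herm U d B]
    push_cast
    rfl

/-- Lagrange interpolation of a `k`-th power at a complex point -/
lemma lagr (k : ℕ) (a b z : ℂ) :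
    (a + z * b) ^ k = ∑ r ∈ Finset.range (k + 1),
      ((Lagrange.basis (Finset.range (k + 1)) (fun r : ℕ => (r : ℂ)) r).eval z) *
        (a + (r : ℂ) * b) ^ k := by
  set P : Polynomial ℂ := (Polynomial.C a + Polynomial.X * Polynomial.C b) ^ k with hP
  have hdeg : P.degree < (Finset.range (k + 1)).card := by
    rw [Finset.card_range]
    refine lt_of_le_of_lt Polynomial.degree_le_natDegree ?_
    have h1 : P.natDegree ≤ k := by
      refine (Polynomial.natDegree_pow_le).trans ?_
      have h2 : (Polynomial.C a + Polynomial.X * Polynomial.C b).natDegree ≤ 1 := by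
        refine (Polynomial.natDegree_add_le _ _).trans ?_
        rw [Polynomial.natDegree_C]
        refine max_le (by omega) ?_
        exact (Polynomial.natDegree_mul_C_le _ _).trans Polynomial.natDegree_X_le
      nlinarith
    exact_mod_cast Nat.lt_succ_of_le h1
  have h := Lagrange.eq_interpolate (s := Finset.range (k + 1)) (v := fun r : ℕ => (r : ℂ))
    (Set.injOn_of_injective Nat.cast_injective) hdeg
  have h2 := congrArg (Polynomial.eval z) h
  rw [Lagrange.interpolate_apply, Polynomial.eval_finsetSum] at h2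
  simp only [hP, Polynomial.eval_pow, Polynomial.eval_add, Polynomial.eval_mul, Polynomial.eval_C,
    Polynomial.eval_X] at h2
  rw [h2]
  exact Finset.sum_congr rfl fun r _ => mul_comm _ _

end Pool.Agent.R923.SE.LagB

namespace Pool.Agent.R923.SE

open Pool.Agent.R923.SE.A206 Pool.Agent.R923.SE.LagB

theorem s_LAG (h1 : S_ROW) (h2 : S_UL) (h3 : S_POL) : S_LAG := by
  intro n k S
  set H1 : Matrix (Fin n) (Fin n) ℂ := (1 / 2 : ℂ) • (S + S.conjTranspose) with hH1
  set H2 : Matrix (Fin n) (Fin n) ℂ := (-(I / 2) : ℂ) • (S - S.conjTranspose) with hH2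
  have hh1 : H1.IsHermitian := by
    rw [Matrix.IsHermitian, hH1, Matrix.conjTranspose_smul, Matrix.conjTranspose_add,
      Matrix.conjTranspose_conjTranspose, add_comm]
    congr 1
    simp
  have hh2 : H2.IsHermitian := by
    rw [Matrix.IsHermitian, hH2, Matrix.conjTranspose_smul, Matrix.conjTranspose_sub,
      Matrix.conjTranspose_conjTranspose]
    ext i j
    simp
    ring
  have hX : H1 + I • H2 = S := by
    ext i j
    simp only [hH1, hH2, Matrix.add_apply, Matrix.smul_apply, Matrix.sub_apply,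
      Matrix.conjTranspose_apply, smul_eq_mul]
    ring_nf
    rw [Complex.I_sq]; ring
  have hr : ∀ r : ℕ, (H1 + (r : ℂ) • H2).IsHermitian := by
    intro r
    refine hh1.add ?_
    rw [Matrix.IsHermitian, Matrix.conjTranspose_smul, hh2.eq]
    simp
  choose Q hQd hQq hQm using fun r : ℕ => herm h1 h2 n k _ (hr r)
  set lam : ℕ → ℂ := fun r =>
    (Lagrange.basis (Finset.range (k + 1)) (fun r : ℕ => (r : ℂ)) r).eval I with hlam
  have hpt : ∀ (m : ℕ) (B : Mt n m),
      (Matrix.trace (S * (Matrix.of B * (Matrix.of B).conjTranspose))) ^ k =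
      ∑ r ∈ Finset.range (k + 1), lam r *
        (Matrix.trace ((H1 + (r : ℂ) • H2) * (Matrix.of B * (Matrix.of B).conjTranspose))) ^ k := by
    intro m B
    have e1 : ∀ z : ℂ, Matrix.trace ((H1 + z • H2) * (Matrix.of B * (Matrix.of B).conjTranspose)) =
        Matrix.trace (H1 * (Matrix.of B * (Matrix.of B).conjTranspose)) +
          z * Matrix.trace (H2 * (Matrix.of B * (Matrix.of B).conjTranspose)) := by
      intro z
      rw [Matrix.add_mul, Matrix.trace_add, Matrix.smul_mul z H2, Matrix.trace_smul z, smul_eq_mul]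
    have e2 := e1 I
    rw [hX] at e2
    rw [e2, lagr]
    refine Finset.sum_congr rfl fun r _ => ?_
    rw [e1 r]
  refine ⟨∑ r ∈ Finset.range (k + 1), Polynomial.C (lam r) * Q r, ?_, fun q hq => ?_, fun m => ?_⟩
  · refine Polynomial.natDegree_sum_le_of_forall_le _ _ fun r _ => ?_
    exact (Polynomial.natDegree_C_mul_le _ _).trans (hQd r)
  · rw [Polynomial.eval_finsetSum, Finset.mul_sum]
    have hi : ∀ r ∈ Finset.range (k + 1), Integrable (fun B : Mt n n => lam r * (fp q B *
        (Matrix.trace ((H1 + (r : ℂ) • H2) *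
          (Matrix.of B * (Matrix.of B).conjTranspose))) ^ k)) (gau n n) := by
      intro r _
      exact (PB.integrable_fp h3 ((PB.trace_q (H1 + (r : ℂ) • H2)).pow k) hq).const_mul _
    have e : ∫ B : Mt n n, fp q B *
        (Matrix.trace (S * (Matrix.of B * (Matrix.of B).conjTranspose))) ^ k ∂gau n n =
        ∫ B : Mt n n, ∑ r ∈ Finset.range (k + 1), lam r * (fp q B *
        (Matrix.trace ((H1 + (r : ℂ) • H2) *
          (Matrix.of B * (Matrix.of B).conjTranspose))) ^ k) ∂gau n n := by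
      refine integral_congr_ae (Filter.Eventually.of_forall fun B => ?_)
      simp only
      rw [hpt n B, Finset.mul_sum]
      exact Finset.sum_congr rfl fun r _ => by ring
    rw [e, integral_finsetSum _ hi]
    refine Finset.sum_congr rfl fun r _ => ?_
    rw [integral_const_mul, hQq r q hq, Polynomial.eval_mul, Polynomial.eval_C]
    ring
  · rw [Polynomial.eval_finsetSum]
    have hi : ∀ r ∈ Finset.range (k + 1), Integrable (fun B : Mt n m => lam r *
        (Matrix.trace ((H1 + (r : ℂ) • H2) *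
          (Matrix.of B * (Matrix.of B).conjTranspose))) ^ k) (gau n m) := by
      intro r _
      exact (PB.integrable h1 ((PB.trace_q (H1 + (r : ℂ) • H2)).pow k)).const_mul _
    have e : ∫ B : Mt n m,
        (Matrix.trace (S * (Matrix.of B * (Matrix.of B).conjTranspose))) ^ k ∂gau n m =
        ∫ B : Mt n m, ∑ r ∈ Finset.range (k + 1), lam r *
        (Matrix.trace ((H1 + (r : ℂ) • H2) *
          (Matrix.of B * (Matrix.of B).conjTranspose))) ^ k ∂gau n m := by
      refine integral_congr_ae (Filter.Eventually.of_forall fun B => ?_)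
      simp only
      rw [hpt m B]
    rw [e, integral_finsetSum _ hi]
    refine Finset.sum_congr rfl fun r _ => ?_
    rw [integral_const_mul, hQm r m, Polynomial.eval_mul, Polynomial.eval_C]

end Pool.Agent.R923.SE
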