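import Pool.Agent.R923.SE.Aux206

/-!
Project SE, piece LAG, part A (helper206): moments from a Laplace transform of Gamma type.
-/

set_option autoImplicit false

open MeasureTheory Complex Filter Topology

namespace Pool.Agent.R923.SE.LagA

noncomputable section

variable {n : ℕ}

/-- `∑ d_i / (1 - t d_i)` -/
def hf (d : Fin n → ℝ) (t : ℝ) : ℂ := ((∑ i, d i / (1 - t * d i) : ℝ) : ℂ)

/-- coefficients: `(d/dt)^k e^{sL} = (∑_j ac k j s^j) e^{sL}`, `L' = hf` -/
def ac (d : Fin n → ℝ) : ℕ → ℕ → ℝ → ℂ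
  | 0, 0 => fun _ => 1
  | 0, (_ + 1) => fun _ => 0
  | (k + 1), 0 => deriv (ac d k 0)
  | (k + 1), (j + 1) => fun t => deriv (ac d k (j + 1)) t + hf d t * ac d k j t

/-- size -/
def dd (d : Fin n → ℝ) : ℝ := 1 + ∑ i, |d i|

lemma one_le_dd (d : Fin n → ℝ) : 1 ≤ dd d := by
  unfold dd
  have : 0 ≤ ∑ i, |d i| := Finset.sum_nonneg fun i _ => abs_nonneg _
  linarith

lemma abs_le_dd (d : Fin n → ℝ) (i : Fin n) : |d i| ≤ dd d := by
  unfold dd
  have : |d i| ≤ ∑ i, |d i| := Finset.single_le_sum (f := fun i => |d i|)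
    (fun i _ => abs_nonneg _) (Finset.mem_univ i)
  linarith

/-- radius -/
def rr (d : Fin n → ℝ) : ℝ := 1 / (4 * dd d)

lemma rr_pos (d : Fin n → ℝ) : 0 < rr d := by
  unfold rr
  have := one_le_dd d
  positivity

lemma abs_mul_le (d : Fin n → ℝ) {t : ℝ} (ht : t ∈ Metric.ball (0 : ℝ) (rr d)) (i : Fin n) :
    |t * d i| ≤ 1 / 4 := by
  have h1 : |t| ≤ rr d := by
    have := Metric.mem_ball.mp ht
    rw [Real.dist_eq, sub_zero] at this
    exact this.le
  have h2 := abs_le_dd d i
  have h3 := one_le_dd d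
  rw [abs_mul]
  calc |t| * |d i| ≤ rr d * dd d := mul_le_mul h1 h2 (abs_nonneg _) (rr_pos d).le
    _ = 1 / 4 := by
      unfold rr
      have : dd d ≠ 0 := by positivity
      field_simp

lemma one_sub_pos (d : Fin n → ℝ) {t : ℝ} (ht : t ∈ Metric.ball (0 : ℝ) (rr d)) (i : Fin n) :
    0 < 1 - t * d i := by
  have := abs_le.mp (abs_mul_le d ht i)
  linarith [this.2]

lemma hf_cd (d : Fin n → ℝ) :
    ContDiffOn ℝ (⊤ : ℕ∞) (hf d) (Metric.ball (0 : ℝ) (rr d)) := by
  have h : ContDiffOn ℝ (⊤ : ℕ∞) (fun t : ℝ => ∑ i, d i / (1 - t * d i))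
      (Metric.ball (0 : ℝ) (rr d)) := by
    refine ContDiffOn.sum fun i _ => ?_
    refine ContDiffOn.div contDiffOn_const (by fun_prop) ?_
    intro t ht
    exact (one_sub_pos d ht i).ne'
  exact Complex.ofRealCLM.contDiff.comp_contDiffOn h

lemma ac_cd (d : Fin n → ℝ) : ∀ k j, ContDiffOn ℝ (⊤ : ℕ∞) (ac d k j)
    (Metric.ball (0 : ℝ) (rr d)) := by
  intro k
  induction k with
  | zero =>
    intro j
    cases j with
    | zero => exact contDiffOn_const
    | succ j => exact contDiffOn_const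
  | succ k ih =>
    intro j
    have hder : ∀ j, ContDiffOn ℝ (⊤ : ℕ∞) (deriv (ac d k j)) (Metric.ball (0 : ℝ) (rr d)) :=
      fun j => ((contDiffOn_infty_iff_deriv_of_isOpen Metric.isOpen_ball).mp (ih j)).2
    cases j with
    | zero => exact hder 0
    | succ j => exact (hder (j + 1)).add ((hf_cd d).mul (ih j))

lemma ac_big (d : Fin n → ℝ) : ∀ k j, k < j → ac d k j = fun _ => 0 := by
  intro k
  induction k with
  | zero =>
    intro j hj
    cases j with
    | zero => omega
    | succ j => rfl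
  | succ k ih =>
    intro j hj
    cases j with
    | zero => omega
    | succ j =>
      funext t
      show deriv (ac d k (j + 1)) t + hf d t * ac d k j t = 0
      rw [ih (j + 1) (by omega), ih j (by omega)]
      simp

/-- the polynomial -/
def QQ (d : Fin n → ℝ) (k : ℕ) : Polynomial ℂ :=
  ∑ j ∈ Finset.range (k + 1), Polynomial.C (ac d k j 0) * Polynomial.X ^ j

lemma QQ_deg (d : Fin n → ℝ) (k : ℕ) : (QQ d k).natDegree ≤ k := by
  unfold QQ
  refine Polynomial.natDegree_sum_le_of_forall_le _ _ fun j hj => ?_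
  exact (Polynomial.natDegree_C_mul_X_pow_le _ _).trans (by
    have := Finset.mem_range.mp hj; omega)

lemma QQ_eval (d : Fin n → ℝ) (k : ℕ) (s : ℂ) :
    (QQ d k).eval s = ∑ j ∈ Finset.range (k + 1), ac d k j 0 * s ^ j := by
  unfold QQ
  rw [Polynomial.eval_finsetSum]
  simp

lemma hasDerivAt_L (d : Fin n → ℝ) {t : ℝ} (ht : t ∈ Metric.ball (0 : ℝ) (rr d)) :
    HasDerivAt (fun t : ℝ => -∑ i, Real.log (1 - t * d i)) (∑ i, d i / (1 - t * d i)) t := by
  have h : ∀ i ∈ (Finset.univ : Finset (Fin n)),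
      HasDerivAt (fun t : ℝ => Real.log (1 - t * d i)) (-(d i / (1 - t * d i))) t := by
    intro i _
    have h1 : HasDerivAt (fun t : ℝ => 1 - t * d i) (-(d i)) t := by
      simpa using (((hasDerivAt_id t).mul_const (d i)).const_sub 1)
    have h2 := h1.log (one_sub_pos d ht i).ne'
    rw [neg_div] at h2
    exact h2
  have h3 := (HasDerivAt.fun_sum h).fun_neg
  refine h3.congr_deriv ?_
  simp

/-- main lemma: if `∫ w e^{∑ d_i x_i} = N ∏ (1 - d_i)^{-s}` then the moments are polynomials in `s` -/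
theorem moments {Ω : Type*} [MeasurableSpace Ω] (μ : Measure Ω) (w : Ω → ℂ) (x : Fin n → Ω → ℝ)
    (N s : ℂ) (hw : Measurable w) (hx : ∀ i, Measurable (x i)) (hx0 : ∀ i ω, 0 ≤ x i ω)
    (H : ∀ d : Fin n → ℝ, (∀ i, d i < 1) →
      Integrable (fun ω => w ω * ((Real.exp (∑ i, d i * x i ω) : ℝ) : ℂ)) μ ∧
      ∫ ω, w ω * ((Real.exp (∑ i, d i * x i ω) : ℝ) : ℂ) ∂μ =
        N * Complex.exp (s * ((-∑ i, Real.log (1 - d i) : ℝ) : ℂ)))
    (d : Fin n → ℝ) (k : ℕ) :
    ∫ ω, w ω * (((∑ i, d i * x i ω) ^ k : ℝ) : ℂ) ∂μ = N * (QQ d k).eval s := by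
  classical
  set X : Ω → ℝ := fun ω => ∑ i, d i * x i ω with hX
  set T : Ω → ℝ := fun ω => ∑ i, x i ω with hT
  have hT0 : ∀ ω, 0 ≤ T ω := fun ω => Finset.sum_nonneg fun i _ => hx0 i ω
  have hXm : Measurable X := by
    refine Finset.measurable_sum _ fun i _ => ?_
    exact (hx i).const_mul _
  have hXT : ∀ ω, |X ω| ≤ dd d * T ω := by
    intro ω
    calc |X ω| ≤ ∑ i, |d i * x i ω| := Finset.abs_sum_le_sum_abs _ _
      _ ≤ ∑ i, dd d * x i ω := by
        refine Finset.sum_le_sum fun i _ => ?_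
        rw [abs_mul, abs_of_nonneg (hx0 i ω)]
        exact mul_le_mul_of_nonneg_right (abs_le_dd d i) (hx0 i ω)
      _ = dd d * T ω := by rw [Finset.mul_sum]
  have hdd := one_le_dd d
  -- the dominating function
  have hdom : Integrable (fun ω => ‖w ω‖ * Real.exp (T ω / 2)) μ := by
    have h := (H (fun _ => 1 / 2) (fun _ => by norm_num)).1.norm
    refine h.congr (Filter.Eventually.of_forall fun ω => ?_)
    simp only [norm_mul, Complex.norm_real, Real.norm_eq_abs, Real.abs_exp]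
    congr 2
    rw [← Finset.mul_sum]; simp only [hT]; ring
  have hbd : ∀ (j : ℕ) (ω : Ω) (t : ℝ), t ∈ Metric.ball (0 : ℝ) (rr d) →
      ‖w ω * (((X ω) ^ j : ℝ) : ℂ) * ((Real.exp (t * X ω) : ℝ) : ℂ)‖ ≤
        (dd d ^ j * (4 ^ j * j.factorial)) * (‖w ω‖ * Real.exp (T ω / 2)) := by
    intro j ω t ht
    have ht1 : |t| ≤ rr d := by
      have := Metric.mem_ball.mp ht
      rw [Real.dist_eq, sub_zero] at this
      exact this.le
    have h1 : t * X ω ≤ T ω / 4 := by
      calc t * X ω ≤ |t * X ω| := le_abs_self _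
        _ = |t| * |X ω| := abs_mul _ _
        _ ≤ rr d * (dd d * T ω) := mul_le_mul ht1 (hXT ω) (abs_nonneg _) (rr_pos d).le
        _ = T ω / 4 := by
          unfold rr
          have : dd d ≠ 0 := by positivity
          field_simp
    have h2 : |X ω| ^ j ≤ dd d ^ j * T ω ^ j := by
      rw [← mul_pow]; exact pow_le_pow_left₀ (abs_nonneg _) (hXT ω) j
    have h3 : T ω ^ j ≤ (4 ^ j * j.factorial) * Real.exp (T ω / 4) := by
      have h4 : (T ω / 4) ^ j / j.factorial ≤ Real.exp (T ω / 4) :=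
        Real.pow_div_factorial_le_exp _ (by linarith [hT0 ω]) j
      have h5 : (0 : ℝ) < j.factorial := by exact_mod_cast j.factorial_pos
      rw [div_le_iff₀ h5, div_pow, div_le_iff₀ (by positivity)] at h4
      calc T ω ^ j ≤ _ := h4
        _ = _ := by ring
    rw [norm_mul, norm_mul, Complex.norm_real, Complex.norm_real, Real.norm_eq_abs,
      Real.norm_eq_abs, Real.abs_exp, abs_pow]
    calc ‖w ω‖ * |X ω| ^ j * Real.exp (t * X ω)
        ≤ ‖w ω‖ * (dd d ^ j * ((4 ^ j * j.factorial) * Real.exp (T ω / 4))) *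
          Real.exp (T ω / 4) := by
          refine mul_le_mul (mul_le_mul_of_nonneg_left (h2.trans
            (mul_le_mul_of_nonneg_left h3 (by positivity))) (norm_nonneg _))
            (Real.exp_le_exp.mpr h1) (Real.exp_nonneg _) (by positivity)
      _ = (dd d ^ j * (4 ^ j * j.factorial)) * (‖w ω‖ * (Real.exp (T ω / 4) * Real.exp (T ω / 4))) := by
          ring
      _ = _ := by
          rw [← Real.exp_add]
          congr 3
          ring
  -- the functions `F j`
  set F : ℕ → ℝ → ℂ := fun j t =>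
    ∫ ω, w ω * (((X ω) ^ j : ℝ) : ℂ) * ((Real.exp (t * X ω) : ℝ) : ℂ) ∂μ with hF
  have hmeas : ∀ (j : ℕ) (t : ℝ), AEStronglyMeasurable
      (fun ω => w ω * (((X ω) ^ j : ℝ) : ℂ) * ((Real.exp (t * X ω) : ℝ) : ℂ)) μ := by
    intro j t
    refine ((hw.mul ?_).mul ?_).aestronglyMeasurable
    · exact Complex.measurable_ofReal.comp (hXm.pow_const j)
    · exact Complex.measurable_ofReal.comp (Real.measurable_exp.comp (hXm.const_mul t))
  have hint : ∀ (j : ℕ) (t : ℝ), t ∈ Metric.ball (0 : ℝ) (rr d) → Integrable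
      (fun ω => w ω * (((X ω) ^ j : ℝ) : ℂ) * ((Real.exp (t * X ω) : ℝ) : ℂ)) μ := by
    intro j t ht
    exact Integrable.mono' (hdom.const_mul (dd d ^ j * (4 ^ j * j.factorial))) (hmeas j t)
      (Filter.Eventually.of_forall fun ω => hbd j ω t ht)
  have hder : ∀ (j : ℕ) (t : ℝ), t ∈ Metric.ball (0 : ℝ) (rr d) →
      HasDerivAt (F j) (F (j + 1) t) t := by
    intro j t ht
    refine (hasDerivAt_integral_of_dominated_loc_of_deriv_le
      (F := fun (t : ℝ) ω => w ω * (((X ω) ^ j : ℝ) : ℂ) * ((Real.exp (t * X ω) : ℝ) : ℂ))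
      (F' := fun (t : ℝ) ω => w ω * (((X ω) ^ (j + 1) : ℝ) : ℂ) * ((Real.exp (t * X ω) : ℝ) : ℂ))
      (bound := fun ω => (dd d ^ (j + 1) * (4 ^ (j + 1) * (j + 1).factorial)) *
        (‖w ω‖ * Real.exp (T ω / 2)))
      (Metric.isOpen_ball.mem_nhds ht) (Filter.Eventually.of_forall fun t => hmeas j t)
      (hint j t ht) (hmeas (j + 1) t)
      (Filter.Eventually.of_forall fun ω t ht => hbd (j + 1) ω t ht)
      (hdom.const_mul _) (Filter.Eventually.of_forall fun ω t _ => ?_)).2
    have h1 : HasDerivAt (fun t : ℝ => t * X ω) (X ω) t := by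
      simpa using (hasDerivAt_id t).mul_const (X ω)
    have h2 : HasDerivAt (fun t : ℝ => ((Real.exp (t * X ω) : ℝ) : ℂ))
        ((Real.exp (t * X ω) * X ω : ℝ) : ℂ) t := (h1.exp).ofReal_comp
    have h3 := h2.const_mul (w ω * (((X ω) ^ j : ℝ) : ℂ))
    refine h3.congr_deriv ?_
    push_cast; ring
  have hF0 : ∀ t ∈ Metric.ball (0 : ℝ) (rr d),
      F 0 t = N * Complex.exp (s * ((-∑ i, Real.log (1 - t * d i) : ℝ) : ℂ)) := by
    intro t ht
    have h := (H (fun i => t * d i) (fun i => by linarith [one_sub_pos d ht i])).2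
    rw [← h]
    simp only [hF]
    refine integral_congr_ae (Filter.Eventually.of_forall fun ω => ?_)
    simp only [pow_zero, Complex.ofReal_one, mul_one, hX]
    rw [Finset.mul_sum]
    congr 3
    refine Finset.sum_congr rfl fun i _ => by ring
  have hF0' : ∀ t ∈ Metric.ball (0 : ℝ) (rr d), HasDerivAt (F 0) (s * hf d t * F 0 t) t := by
    intro t ht
    have h1 := ((hasDerivAt_L d ht).ofReal_comp.const_mul s).cexp.const_mul N
    have h2 : F 0 =ᶠ[𝓝 t] fun t => N * Complex.exp (s * ((-∑ i, Real.log (1 - t * d i) : ℝ) : ℂ)) :=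
      Filter.eventually_of_mem (Metric.isOpen_ball.mem_nhds ht) hF0
    have h3 := h1.congr_of_eventuallyEq h2
    refine h3.congr_deriv ?_
    rw [hF0 t ht]; unfold hf; ring
  have key : ∀ k : ℕ, ∀ t ∈ Metric.ball (0 : ℝ) (rr d),
      F k t = (∑ j ∈ Finset.range (k + 1), ac d k j t * s ^ j) * F 0 t := by
    intro k
    induction k with
    | zero => intro t _; simp [ac]
    | succ k ih =>
      intro t ht
      have hd : ∀ j ∈ Finset.range (k + 1), HasDerivAt (fun t => ac d k j t * s ^ j)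
          (deriv (ac d k j) t * s ^ j) t := by
        intro j _
        have h1 : DifferentiableAt ℝ (ac d k j) t :=
          ((ac_cd d k j).contDiffAt (Metric.isOpen_ball.mem_nhds ht)).differentiableAt (by simp)
        exact h1.hasDerivAt.mul_const _
      have h2 := (HasDerivAt.fun_sum hd).mul (hF0' t ht)
      have h3 : F k =ᶠ[𝓝 t] fun t => (∑ j ∈ Finset.range (k + 1), ac d k j t * s ^ j) * F 0 t :=
        Filter.eventually_of_mem (Metric.isOpen_ball.mem_nhds ht) ih
      have h4 := (hder k t ht).unique (h2.congr_of_eventuallyEq h3)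
      rw [h4, Finset.sum_range_succ' _ (k + 1)]
      have h5 : ∀ j, ac d (k + 1) (j + 1) t = deriv (ac d k (j + 1)) t + hf d t * ac d k j t :=
        fun j => rfl
      have h6 : ac d (k + 1) 0 t = deriv (ac d k 0) t := rfl
      simp only [h5, h6]
      have h7 : ∑ j ∈ Finset.range (k + 1), (deriv (ac d k (j + 1)) t + hf d t * ac d k j t) *
          s ^ (j + 1) + deriv (ac d k 0) t * s ^ 0 =
          (∑ j ∈ Finset.range (k + 1), deriv (ac d k (j + 1)) t * s ^ (j + 1) +
            deriv (ac d k 0) t * s ^ 0) +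
          (∑ j ∈ Finset.range (k + 1), ac d k j t * s ^ j) * (s * hf d t) := by
        rw [Finset.sum_mul, add_right_comm, ← Finset.sum_add_distrib]
        congr 1
        refine Finset.sum_congr rfl fun j _ => by ring
      rw [h7, ← Finset.sum_range_succ' (fun j => deriv (ac d k j) t * s ^ j) (k + 1),
        Finset.sum_range_succ _ (k + 1), ac_big d k (k + 1) (by omega)]
      simp only [deriv_const', zero_mul, add_zero]
      ring
  have h0 : (0 : ℝ) ∈ Metric.ball (0 : ℝ) (rr d) := Metric.mem_ball_self (rr_pos d)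
  have h1 := key k 0 h0
  have h2 : F 0 0 = N := by
    rw [hF0 0 h0]; simp
  have h3 : F k 0 = ∫ ω, w ω * (((X ω) ^ k : ℝ) : ℂ) ∂μ := by
    simp only [hF]
    refine integral_congr_ae (Filter.Eventually.of_forall fun ω => ?_)
    simp
  rw [← h3, h1, h2, QQ_eval, mul_comm]

end

end Pool.Agent.R923.SE.LagA
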