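import Pool.Agent.R923.SE.Stm

/-!
Project SE: the padded Gaussian matrix (`S_MC`).
-/

set_option autoImplicit false

open MeasureTheory Complex Filter Topology

namespace Pool.Agent.R923.SE

noncomputable section

namespace MC

lemma dens_meas : Measurable fun w : ℂ => ENNReal.ofReal (Real.exp (-‖w‖ ^ 2) / Real.pi) := by
  fun_prop

lemma int_cg (f : ℂ → ℂ) :
    ∫ w, f w ∂cg = ∫ w : ℂ, ((Real.exp (-‖w‖ ^ 2) / Real.pi : ℝ) : ℂ) * f w := by
  rw [cg, integral_withDensity_eq_integral_toReal_smul dens_meas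
    (Eventually.of_forall fun w => ENNReal.ofReal_lt_top)]
  refine integral_congr_ae (Eventually.of_forall fun w => ?_)
  show (ENNReal.ofReal _).toReal • f w = _
  rw [ENNReal.toReal_ofReal (by positivity), Complex.real_smul]

lemma int_cg_real (f : ℂ → ℝ) :
    ∫ w, f w ∂cg = ∫ w : ℂ, Real.exp (-‖w‖ ^ 2) / Real.pi * f w := by
  rw [cg, integral_withDensity_eq_integral_toReal_smul dens_meas
    (Eventually.of_forall fun w => ENNReal.ofReal_lt_top)]
  refine integral_congr_ae (Eventually.of_forall fun w => ?_)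
  show (ENNReal.ofReal _).toReal • f w = _
  rw [ENNReal.toReal_ofReal (by positivity), smul_eq_mul]

/-- characteristic function of `cg` -/
lemma char_cg (z t : ℂ) :
    ∫ w, cexp (((inner ℝ (z * (starRingEnd ℂ) w) t : ℝ) : ℂ) * I) ∂cg =
      cexp (-((‖z‖ ^ 2 * ‖t‖ ^ 2 / 4 : ℝ) : ℂ)) := by
  rw [int_cg]
  have h := GaussianFourier.integral_cexp_neg_mul_sq_norm_add (V := ℂ) (b := 1) (by simp) I
    (z * (starRingEnd ℂ) t)
  have h1 : ∀ w : ℂ, ((Real.exp (-‖w‖ ^ 2) / Real.pi : ℝ) : ℂ) *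
      cexp (((inner ℝ (z * (starRingEnd ℂ) w) t : ℝ) : ℂ) * I) =
      (Real.pi : ℂ)⁻¹ * cexp (-1 * (‖w‖ : ℂ) ^ 2 +
        I * ((inner ℝ (z * (starRingEnd ℂ) t) w : ℝ) : ℂ)) := by
    intro w
    have h2 : (inner ℝ (z * (starRingEnd ℂ) w) t : ℝ) = inner ℝ (z * (starRingEnd ℂ) t) w := by
      simp only [Complex.inner, map_mul, Complex.conj_conj, Complex.mul_re, Complex.mul_im]
      ring
    rw [h2, Complex.exp_add]
    push_cast
    ring_nf
  simp_rw [h1]
  rw [integral_const_mul, h]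
  have hf : ((Module.finrank ℝ ℂ : ℂ) / 2) = 1 := by
    rw [Complex.finrank_real_complex]; norm_num
  rw [hf, Complex.cpow_one, div_one, inv_mul_cancel_left₀ (by exact_mod_cast Real.pi_ne_zero),
    I_sq, norm_mul, RCLike.norm_conj]
  push_cast
  ring_nf

/-- moments of `cg` -/
lemma mom_cg (k : ℕ) : ∫ w, ‖w‖ ^ (2 * k) ∂cg = (k.factorial : ℝ) := by
  rw [int_cg_real]
  have h := Complex.integral_rpow_mul_exp_neg_rpow (p := 2) (q := 2 * k) (by norm_num)
    (by have : (0 : ℝ) ≤ k := Nat.cast_nonneg k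
        linarith)
  have h1 : ∀ w : ℂ, Real.exp (-‖w‖ ^ 2) / Real.pi * ‖w‖ ^ (2 * k) =
      Real.pi⁻¹ * (‖w‖ ^ (2 * (k : ℝ)) * Real.exp (-‖w‖ ^ (2 : ℝ))) := by
    intro w
    have h2 : ‖w‖ ^ (2 * (k : ℝ)) = ‖w‖ ^ (2 * k) := by
      rw [← Real.rpow_natCast]
      push_cast
      rfl
    rw [h2, Real.rpow_two]
    ring
  simp_rw [h1]
  rw [integral_const_mul, h]
  have h3 : (2 * (k : ℝ) + 2) / 2 = k + 1 := by ring
  rw [h3, Real.Gamma_nat_eq_factorial]
  field_simp

lemma mom_cg_int (k : ℕ) : Integrable (fun w : ℂ => ‖w‖ ^ (2 * k)) cg := by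
  by_contra h
  have h1 := mom_cg k
  rw [integral_undef h] at h1
  exact absurd h1.symm (by exact_mod_cast k.factorial_ne_zero)

/-- the linear form -/
def lf {n m : ℕ} (c : Fin n → Fin m → ℂ) (B : Mt n m) : ℂ :=
  ∑ i, ∑ j, c i j * (starRingEnd ℂ) (B i j)

lemma lf_meas {n m : ℕ} (c : Fin n → Fin m → ℂ) : Measurable (lf c) := by
  unfold lf
  refine Finset.measurable_sum _ fun i _ => Finset.measurable_sum _ fun j _ => ?_
  refine Measurable.const_mul ?_ _
  exact (Complex.continuous_conj.measurable).comp ((measurable_pi_apply j).comp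
    (measurable_pi_apply i))

/-- the law of a linear form in Gaussian variables -/
lemma law {n m : ℕ} (c : Fin n → Fin m → ℂ) :
    (gau n m).map (lf c) =
      cg.map (fun w : ℂ => ((√(∑ i, ∑ j, ‖c i j‖ ^ 2) : ℝ) : ℂ) * (starRingEnd ℂ) w) := by
  have hm2 : Measurable fun w : ℂ =>
      ((√(∑ i, ∑ j, ‖c i j‖ ^ 2) : ℝ) : ℂ) * (starRingEnd ℂ) w := by
    exact (Complex.continuous_conj.measurable).const_mul _
  have : IsProbabilityMeasure ((gau n m).map (lf c)) :=
    Measure.isProbabilityMeasure_map (lf_meas c).aemeasurable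
  have : IsProbabilityMeasure (cg.map (fun w : ℂ =>
      ((√(∑ i, ∑ j, ‖c i j‖ ^ 2) : ℝ) : ℂ) * (starRingEnd ℂ) w)) :=
    Measure.isProbabilityMeasure_map hm2.aemeasurable
  refine Measure.ext_of_charFun (funext fun t => ?_)
  rw [charFun_apply, charFun_apply, integral_map (lf_meas c).aemeasurable
    (by fun_prop), integral_map hm2.aemeasurable (by fun_prop), char_cg]
  have h1 : ∀ B : Mt n m, cexp (((inner ℝ (lf c B) t : ℝ) : ℂ) * I) =
      ∏ i, ∏ j, cexp (((inner ℝ (c i j * (starRingEnd ℂ) (B i j)) t : ℝ) : ℂ) * I) := by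
    intro B
    simp_rw [← Complex.exp_sum]
    congr 1
    unfold lf
    rw [sum_inner]
    push_cast
    rw [Finset.sum_mul]
    refine Finset.sum_congr rfl fun i _ => ?_
    rw [sum_inner]
    push_cast
    rw [Finset.sum_mul]
  simp_rw [h1]
  have h2 : ∀ i : Fin n, ∫ b : Fin m → ℂ,
      ∏ j, cexp (((inner ℝ (c i j * (starRingEnd ℂ) (b j)) t : ℝ) : ℂ) * I)
        ∂(Measure.pi fun _ : Fin m => cg) = ∏ j, cexp (-((‖c i j‖ ^ 2 * ‖t‖ ^ 2 / 4 : ℝ) : ℂ)) := by
    intro i
    rw [integral_fintype_prod_eq_prod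
      (f := fun j w => cexp (((inner ℝ (c i j * (starRingEnd ℂ) w) t : ℝ) : ℂ) * I))]
    exact Finset.prod_congr rfl fun j _ => char_cg _ _
  rw [gau, integral_fintype_prod_eq_prod (f := fun i (b : Fin m → ℂ) =>
    ∏ j, cexp (((inner ℝ (c i j * (starRingEnd ℂ) (b j)) t : ℝ) : ℂ) * I))]
  simp_rw [h2, ← Complex.exp_sum]
  congr 1
  rw [Complex.norm_real, Real.norm_of_nonneg (Real.sqrt_nonneg _),
    Real.sq_sqrt (Finset.sum_nonneg fun i _ => Finset.sum_nonneg fun j _ => by positivity)]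
  push_cast
  rw [Finset.sum_mul, Finset.sum_div, ← Finset.sum_neg_distrib]
  refine Finset.sum_congr rfl fun i _ => ?_
  rw [Finset.sum_mul, Finset.sum_div, ← Finset.sum_neg_distrib]

lemma lin_norm {n m : ℕ} (c : Fin n → Fin m → ℂ) (k : ℕ) (w : ℂ) :
    ‖((√(∑ i, ∑ j, ‖c i j‖ ^ 2) : ℝ) : ℂ) * (starRingEnd ℂ) w‖ ^ (2 * k) =
      (∑ i, ∑ j, ‖c i j‖ ^ 2) ^ k * ‖w‖ ^ (2 * k) := by
  rw [norm_mul, RCLike.norm_conj, Complex.norm_real, Real.norm_of_nonneg (Real.sqrt_nonneg _),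
    mul_pow, pow_mul √_, Real.sq_sqrt (Finset.sum_nonneg fun i _ =>
      Finset.sum_nonneg fun j _ => by positivity)]

lemma lin_int {n m : ℕ} (c : Fin n → Fin m → ℂ) (k : ℕ) :
    Integrable (fun B : Mt n m => ‖lf c B‖ ^ (2 * k)) (gau n m) := by
  have h1 : Integrable (fun z : ℂ => ‖z‖ ^ (2 * k)) ((gau n m).map (lf c)) := by
    rw [law c]
    refine (integrable_map_measure (by fun_prop) (by fun_prop)).2 ?_
    refine ((mom_cg_int k).const_mul ((∑ i, ∑ j, ‖c i j‖ ^ 2) ^ k)).congr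
      (Eventually.of_forall fun w => ?_)
    exact (lin_norm c k w).symm
  exact (integrable_map_measure (by fun_prop) (lf_meas c).aemeasurable).1 h1

lemma lin {n m : ℕ} (c : Fin n → Fin m → ℂ) (k : ℕ) :
    ∫ B : Mt n m, ‖lf c B‖ ^ (2 * k) ∂gau n m =
      (k.factorial : ℝ) * (∑ i, ∑ j, ‖c i j‖ ^ 2) ^ k := by
  have h1 : ∫ B : Mt n m, ‖lf c B‖ ^ (2 * k) ∂gau n m =
      ∫ z, ‖z‖ ^ (2 * k) ∂((gau n m).map (lf c)) := by
    rw [integral_map (lf_meas c).aemeasurable (by fun_prop)]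
  rw [h1, law c, integral_map (by fun_prop) (by fun_prop)]
  simp_rw [lin_norm]
  rw [integral_const_mul, mom_cg, mul_comm]

lemma dt_meas {n : ℕ} : Measurable fun A : Mt n n => dt A := by
  have h : Continuous fun A : Mt n n => dt A := by
    unfold dt
    refine Continuous.matrix_det ?_
    exact continuous_id
  exact h.measurable

lemma fp_meas {n : ℕ} (p : ℂ) : Measurable fun A : Mt n n => fp p A := by
  unfold fp
  refine Complex.measurable_exp.comp ?_
  refine Measurable.const_mul ?_ _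
  exact Complex.measurable_ofReal.comp (Real.measurable_log.comp dt_meas.norm)

/-- the part of `nsq` in the first `m` columns -/
def vv {m l : ℕ} (C : Mt (m + l) (m + l)) : ℝ := ∑ i, ∑ j : Fin m, ‖C i (Fin.castAdd l j)‖ ^ 2

lemma vv_nonneg {m l : ℕ} (C : Mt (m + l) (m + l)) : 0 ≤ vv C :=
  Finset.sum_nonneg fun i _ => Finset.sum_nonneg fun j _ => by positivity

lemma vv_le {m l : ℕ} (C : Mt (m + l) (m + l)) : vv C ≤ nsq C := by
  refine Finset.sum_le_sum fun i _ => ?_
  rw [Fin.sum_univ_add]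
  have : 0 ≤ ∑ j : Fin l, ‖C i (Fin.natAdd m j)‖ ^ 2 :=
    Finset.sum_nonneg fun j _ => by positivity
  linarith

lemma vv_cont {m l : ℕ} : Continuous fun C : Mt (m + l) (m + l) => vv C := by
  unfold vv
  fun_prop

/-- the diagonal used in `S_COL` -/
def dd (m l : ℕ) (r : ℝ) (j : Fin (m + l)) : ℝ := if (j : ℕ) < m then r else 0

lemma dd_sum {m l : ℕ} (r : ℝ) (C : Mt (m + l) (m + l)) :
    ∑ j, dd m l r j * ∑ i, ‖C i j‖ ^ 2 = r * vv C := by
  rw [Fin.sum_univ_add]
  have h1 : ∀ j : Fin m, dd m l r (Fin.castAdd l j) = r := fun j => by simp [dd]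
  have h2 : ∀ j : Fin l, dd m l r (Fin.natAdd m j) = 0 := fun j => by simp [dd]
  simp_rw [h1, h2]
  simp only [zero_mul, Finset.sum_const_zero, add_zero]
  rw [← Finset.mul_sum, Finset.sum_comm]
  rfl

lemma dd_prod {m l : ℕ} (r : ℝ) (s : ℂ) :
    ∏ i, ((1 - dd m l r i : ℝ) : ℂ) ^ s = (((1 - r : ℝ) : ℂ) ^ s) ^ m := by
  rw [Fin.prod_univ_add]
  have h1 : ∀ j : Fin m, dd m l r (Fin.castAdd l j) = r := fun j => by simp [dd]
  have h2 : ∀ j : Fin l, dd m l r (Fin.natAdd m j) = 0 := fun j => by simp [dd]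
  simp_rw [h1, h2]
  simp

lemma col (h : S_COL) {m l : ℕ} (p : ℂ) (hp : -1 < p.re) (r : ℝ) (hr : r < 1) :
    Integrable (fun C : Mt (m + l) (m + l) => fp p C * ((Real.exp (r * vv C) : ℝ) : ℂ))
      (gau (m + l) (m + l)) ∧
    ∫ C : Mt (m + l) (m + l), fp p C * ((Real.exp (r * vv C) : ℝ) : ℂ) ∂gau (m + l) (m + l) =
      NN (m + l) p * (1 / (1 - (r : ℂ)) ^ ((m : ℂ) * (((m + l : ℕ) : ℂ) + p))) := by
  have h1 := h (m + l) p (dd m l r) hp (fun i => by
    unfold dd
    split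
    · exact hr
    · exact one_pos)
  simp_rw [dd_sum] at h1
  refine ⟨h1.1, ?_⟩
  rw [h1.2, dd_prod, ← Complex.cpow_nat_mul, one_div, ← Complex.cpow_neg]
  congr 2
  · push_cast; ring
  · ring

lemma hs_congr {f g : ℕ → ℂ} {a : ℂ} (h : HasSum f a) (e : ∀ k, f k = g k) : HasSum g a := by
  have : f = g := funext e
  rwa [← this]

/-- the power series in `r` -/
lemma ser (h : S_COL) {m l : ℕ} (p : ℂ) (hp : -1 < p.re) (r : ℝ) (hr : |r| < 1) :
    HasSum (fun k : ℕ => r ^ k • (((k.factorial : ℂ))⁻¹ *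
      ∫ C : Mt (m + l) (m + l), fp p C * (((vv C) ^ k : ℝ) : ℂ) ∂gau (m + l) (m + l)))
      (∫ C : Mt (m + l) (m + l), fp p C * ((Real.exp (r * vv C) : ℝ) : ℂ)
        ∂gau (m + l) (m + l)) := by
  have hb : ∀ C : Mt (m + l) (m + l), HasSum (fun k : ℕ => ‖fp p C‖ * ((|r| * vv C) ^ k / k.factorial))
      (‖fp p C‖ * Real.exp (|r| * vv C)) := by
    intro C
    refine HasSum.mul_left _ ?_
    have := NormedSpace.expSeries_div_hasSum_exp (𝔸 := ℝ) (|r| * vv C)
    rwa [← Real.exp_eq_exp_ℝ] at this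
  have key := hasSum_integral_of_dominated_convergence (μ := gau (m + l) (m + l))
    (F := fun (k : ℕ) (C : Mt (m + l) (m + l)) =>
      fp p C * (((r * vv C) ^ k / k.factorial : ℝ) : ℂ))
    (f := fun C => fp p C * ((Real.exp (r * vv C) : ℝ) : ℂ))
    (fun k C => ‖fp p C‖ * ((|r| * vv C) ^ k / k.factorial)) ?_ ?_ ?_ ?_ ?_
  · refine hs_congr key fun k => ?_
    rw [← integral_const_mul, ← integral_smul]
    refine integral_congr_ae (Eventually.of_forall fun C => ?_)
    show fp p C * (((r * vv C) ^ k / k.factorial : ℝ) : ℂ) =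
      r ^ k • (((k.factorial : ℂ))⁻¹ * (fp p C * (((vv C) ^ k : ℝ) : ℂ)))
    rw [Complex.real_smul]
    push_cast
    rw [mul_pow]
    ring
  · intro k
    refine Measurable.aestronglyMeasurable ?_
    refine (fp_meas p).mul (Complex.measurable_ofReal.comp ?_)
    exact ((vv_cont.measurable.const_mul r).pow_const k).div_const _
  · intro k
    refine Eventually.of_forall fun C => ?_
    show ‖fp p C * (((r * vv C) ^ k / k.factorial : ℝ) : ℂ)‖ ≤ _
    rw [norm_mul, Complex.norm_real, norm_div, norm_pow, norm_mul, Real.norm_eq_abs,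
      Real.norm_eq_abs, abs_of_nonneg (vv_nonneg C), Real.norm_of_nonneg (Nat.cast_nonneg _)]
  · exact Eventually.of_forall fun C => (hb C).summable
  · refine (col h p hp |r| hr).1.norm.congr (Eventually.of_forall fun C => ?_)
    show ‖fp p C * ((Real.exp (|r| * vv C) : ℝ) : ℂ)‖ = ∑' k, _
    rw [(hb C).tsum_eq, norm_mul, Complex.norm_real, Real.norm_of_nonneg (Real.exp_pos _).le]
  · refine Eventually.of_forall fun C => ?_
    have := NormedSpace.expSeries_div_hasSum_exp (𝔸 := ℝ) (r * vv C)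
    rw [← Real.exp_eq_exp_ℝ] at this
    exact (Complex.hasSum_ofReal.2 this).mul_left _

/-- the second moment identity -/
lemma momv (h : S_COL) {m l : ℕ} (p : ℂ) (hp : -1 < p.re) (k : ℕ) :
    ∫ C : Mt (m + l) (m + l), fp p C * (((vv C) ^ k : ℝ) : ℂ) ∂gau (m + l) (m + l) =
      NN (m + l) p * (ascPochhammer ℂ k).eval ((m : ℂ) * (((m + l : ℕ) : ℂ) + p)) := by
  set s : ℂ := (m : ℂ) * (((m + l : ℕ) : ℂ) + p) with hs
  set a : ℕ → ℂ := fun k => ((k.factorial : ℂ))⁻¹ *
      ∫ C : Mt (m + l) (m + l), fp p C * (((vv C) ^ k : ℝ) : ℂ) ∂gau (m + l) (m + l) with ha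
  set b : ℕ → ℂ := fun k => NN (m + l) p * Ring.choose (s + k - 1) k with hb
  set F : ℝ → ℂ := fun r => ∫ C : Mt (m + l) (m + l), fp p C * ((Real.exp (r * vv C) : ℝ) : ℂ)
        ∂gau (m + l) (m + l) with hF
  have hco : ∀ (f : ℕ → ℂ) (k : ℕ), FormalMultilinearSeries.coeff
      (fun k => ContinuousMultilinearMap.mkPiRing ℝ (Fin k) (f k)) k = f k := by
    intro f k
    simp [FormalMultilinearSeries.coeff]
  have hA : HasFPowerSeriesAt F
      (fun k => ContinuousMultilinearMap.mkPiRing ℝ (Fin k) (a k)) 0 := by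
    rw [hasFPowerSeriesAt_iff]
    filter_upwards [Metric.ball_mem_nhds (0 : ℝ) one_pos] with r hr
    have hr' : |r| < 1 := by simpa using hr
    rw [zero_add]
    simp_rw [hco]
    exact ser h (m := m) (l := l) p hp r hr'
  have hB : HasFPowerSeriesAt F
      (fun k => ContinuousMultilinearMap.mkPiRing ℝ (Fin k) (b k)) 0 := by
    rw [hasFPowerSeriesAt_iff]
    filter_upwards [Metric.ball_mem_nhds (0 : ℝ) one_pos] with r hr
    have hr' : |r| < 1 := by simpa using hr
    rw [zero_add]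
    have h1 := (Complex.one_div_one_sub_cpow_hasFPowerSeriesOnBall_zero s).hasSum_sub
      (y := (r : ℂ)) (by
        rw [Metric.mem_eball, edist_zero_right]
        have : ‖(r : ℂ)‖ₑ = ENNReal.ofReal |r| := by
          rw [← ofReal_norm, Complex.norm_real, Real.norm_eq_abs]
        rw [this]
        exact ENNReal.ofReal_lt_one.2 hr')
    have h2 := h1.mul_left (NN (m + l) p)
    rw [← (col h p hp r (abs_lt.1 hr').2).2] at h2
    simp_rw [hco]
    refine hs_congr h2 fun k => ?_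
    simp [b]
    ring
  have hE := hA.eq_formalMultilinearSeries hB
  have hk := congrFun hE k
  have hk2 := congrArg (fun f => f (fun _ => (1 : ℝ))) hk
  simp at hk2
  have hc : (k.factorial : ℂ) ≠ 0 := by exact_mod_cast k.factorial_ne_zero
  have hd : (k.factorial : ℂ) * Ring.choose (s + k - 1) k = (ascPochhammer ℂ k).eval s := by
    rw [← Ring.multichoose_eq, ← nsmul_eq_mul, Ring.factorial_nsmul_multichoose_eq_ascPochhammer]
    exact Polynomial.ascPochhammer_smeval_eq_eval s k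
  have he : ((k.factorial : ℂ))⁻¹ *
      ∫ C : Mt (m + l) (m + l), fp p C * (((vv C) ^ k : ℝ) : ℂ) ∂gau (m + l) (m + l) =
      NN (m + l) p * Ring.choose (s + k - 1) k := hk2
  rw [inv_mul_eq_iff_eq_mul₀ hc] at he
  rw [he, ← hd]
  ring

end MC

theorem s_MC (h1 : S_COL) (h2 : S_POL) : S_MC := by
  intro n m hm p k hp
  obtain ⟨l, rfl⟩ := Nat.exists_eq_add_of_le hm
  have e1 : ∀ x : Mt (m + l) m × Mt (m + l) (m + l),
      (∑ i, ∑ j : Fin m, x.2 i (Fin.castLE hm j) * (starRingEnd ℂ) (x.1 i j)) =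
      MC.lf (fun i j => x.2 i (Fin.castAdd l j)) x.1 := fun x => rfl
  simp_rw [e1]
  have hv : ∀ C : Mt (m + l) (m + l),
      ∑ i, ∑ j : Fin m, ‖(fun i j => C i (Fin.castAdd l j)) i j‖ ^ 2 = MC.vv C := fun C => rfl
  have hmeas : AEStronglyMeasurable (fun x : Mt (m + l) m × Mt (m + l) (m + l) => fp p x.2 *
      ((‖MC.lf (fun i j => x.2 i (Fin.castAdd l j)) x.1‖ ^ (2 * k) : ℝ) : ℂ))
      ((gau (m + l) m).prod (gau (m + l) (m + l))) := by
    refine Measurable.aestronglyMeasurable ?_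
    refine ((MC.fp_meas p).comp measurable_snd).mul (Complex.measurable_ofReal.comp ?_)
    refine (Measurable.norm ?_).pow_const _
    unfold MC.lf
    have : Continuous fun x : Mt (m + l) m × Mt (m + l) (m + l) =>
        ∑ i, ∑ j : Fin m, x.2 i (Fin.castAdd l j) * (starRingEnd ℂ) (x.1 i j) := by
      refine continuous_finsetSum _ fun i _ => continuous_finsetSum _ fun j _ => ?_
      refine Continuous.mul (by fun_prop) (Complex.continuous_conj.comp (by fun_prop))
    exact this.measurable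
  have hI : Integrable (fun C : Mt (m + l) (m + l) => fp p C * ((MC.vv C ^ k : ℝ) : ℂ))
      (gau (m + l) (m + l)) := by
    refine (h2 (m + l) p k hp).mono ?_ (Eventually.of_forall fun C => ?_)
    · refine Measurable.aestronglyMeasurable ?_
      exact (MC.fp_meas p).mul (Complex.measurable_ofReal.comp
        (MC.vv_cont.measurable.pow_const k))
    · rw [norm_mul, norm_mul, Complex.norm_real, Complex.norm_real,
        Real.norm_of_nonneg (pow_nonneg (MC.vv_nonneg C) k),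
        Real.norm_of_nonneg (pow_nonneg ((MC.vv_nonneg C).trans (MC.vv_le C)) k)]
      exact mul_le_mul_of_nonneg_left (pow_le_pow_left₀ (MC.vv_nonneg C) (MC.vv_le C) k)
        (norm_nonneg _)
  have hint : Integrable (fun x : Mt (m + l) m × Mt (m + l) (m + l) => fp p x.2 *
      ((‖MC.lf (fun i j => x.2 i (Fin.castAdd l j)) x.1‖ ^ (2 * k) : ℝ) : ℂ))
      ((gau (m + l) m).prod (gau (m + l) (m + l))) := by
    rw [integrable_prod_iff' hmeas]
    constructor
    · refine Eventually.of_forall fun C => ?_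
      exact (MC.lin_int (fun i j => C i (Fin.castAdd l j)) k).ofReal.const_mul (fp p C)
    · refine ((hI.norm).const_mul (k.factorial : ℝ)).congr (Eventually.of_forall fun C => ?_)
      show (k.factorial : ℝ) * ‖fp p C * ((MC.vv C ^ k : ℝ) : ℂ)‖ =
        ∫ x, ‖fp p C * ((‖MC.lf (fun i j => C i (Fin.castAdd l j)) x‖ ^ (2 * k) : ℝ) : ℂ)‖
          ∂gau (m + l) m
      have e2 : ∀ x : Mt (m + l) m,
          ‖fp p C * ((‖MC.lf (fun i j => C i (Fin.castAdd l j)) x‖ ^ (2 * k) : ℝ) : ℂ)‖ =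
          ‖fp p C‖ * ‖MC.lf (fun i j => C i (Fin.castAdd l j)) x‖ ^ (2 * k) := by
        intro x
        rw [norm_mul, Complex.norm_real, Real.norm_of_nonneg (by positivity)]
      simp_rw [e2]
      rw [integral_const_mul, MC.lin, hv, norm_mul, Complex.norm_real,
        Real.norm_of_nonneg (pow_nonneg (MC.vv_nonneg C) k)]
      ring
  refine ⟨hint, ?_⟩
  rw [integral_prod_symm _ hint]
  have e3 : ∀ C : Mt (m + l) (m + l), ∫ x : Mt (m + l) m, fp p C *
      ((‖MC.lf (fun i j => C i (Fin.castAdd l j)) x‖ ^ (2 * k) : ℝ) : ℂ) ∂gau (m + l) m =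
      (k.factorial : ℂ) * (fp p C * ((MC.vv C ^ k : ℝ) : ℂ)) := by
    intro C
    have e4 : ∫ x : Mt (m + l) m,
        ((‖MC.lf (fun i j => C i (Fin.castAdd l j)) x‖ ^ (2 * k) : ℝ) : ℂ) ∂gau (m + l) m =
        ((∫ x : Mt (m + l) m, ‖MC.lf (fun i j => C i (Fin.castAdd l j)) x‖ ^ (2 * k)
          ∂gau (m + l) m : ℝ) : ℂ) := integral_ofReal
    rw [integral_const_mul, e4, MC.lin, hv]
    push_cast
    ring
  simp_rw [e3]
  rw [integral_const_mul, MC.momv h1 p hp k]
  ring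

end

end Pool.Agent.R923.SE
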