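import Pool.Agent.R923.SE.Aux206

/-!
Project SE, piece MOM (helper206): the first `n` moments.
-/

set_option autoImplicit false

open MeasureTheory Complex Filter Topology

namespace Pool.Agent.R923.SE.MomA

open Pool.Agent.R923.SE Pool.Agent.R923.SE.A206

lemma ip_eq {n : ℕ} (C B : Mt n n) :
    ip C B = Matrix.trace ((Matrix.of B).conjTranspose * Matrix.of C) := by
  simp only [ip, Matrix.trace, Matrix.diag_apply, Matrix.mul_apply, Matrix.conjTranspose_apply,
    Matrix.of_apply]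
  rw [Finset.sum_comm]
  refine Finset.sum_congr rfl fun j _ => Finset.sum_congr rfl fun i _ => ?_
  rw [mul_comm]; rfl

lemma conj_ip_eq {n : ℕ} (C B : Mt n n) :
    (starRingEnd ℂ) (ip C B) = Matrix.trace (Matrix.of B * (Matrix.of C).conjTranspose) := by
  rw [trace_ct]
  simp only [ip, map_sum, map_mul, Complex.conj_conj]
  refine Finset.sum_congr rfl fun j _ => Finset.sum_congr rfl fun i _ => ?_
  rw [mul_comm]; rfl

lemma norm_pow_eq (z : ℂ) (k : ℕ) :
    ((‖z‖ ^ (2 * k) : ℝ) : ℂ) = ((starRingEnd ℂ) z) ^ k * z ^ k := by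
  rw [← mul_pow, mul_comm ((starRingEnd ℂ) z), Complex.mul_conj, Complex.normSq_eq_norm_sq, pow_mul]
  push_cast; rfl

lemma ZZ_eq {n : ℕ} (p : ℂ) (k : ℕ) (B : Mt n n) :
    ZZ n p k (Matrix.of B) (Matrix.of B).conjTranspose =
      ∫ C : Mt n n, fp p C * ((‖ip C B‖ ^ (2 * k) : ℝ) : ℂ) ∂gau n n := by
  unfold ZZ
  refine integral_congr_ae (Filter.Eventually.of_forall fun C => ?_)
  simp only
  rw [norm_pow_eq, conj_ip_eq, ip_eq]
  ring

/-- polynomially bounded functions of two matrices -/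
def PB2 {n m : ℕ} (g : Mt n n × Mt n m → ℂ) : Prop :=
  Continuous g ∧ ∃ K : ℝ, 0 ≤ K ∧ ∃ j : ℕ, ∀ x, ‖g x‖ ≤ K * ((1 + nsq x.1) ^ j * (1 + nsq x.2) ^ j)

lemma PB2.fst {n m : ℕ} {g : Mt n n → ℂ} (hg : PB g) :
    PB2 (fun x : Mt n n × Mt n m => g x.1) := by
  obtain ⟨hc, K, hK, j, h⟩ := hg
  refine ⟨hc.comp continuous_fst, K, hK, j, fun x => ?_⟩
  refine (h x.1).trans (mul_le_mul_of_nonneg_left ?_ hK)
  exact le_mul_of_one_le_right (pow_nonneg (by linarith [nsq_nonneg x.1]) _)
    (one_le_pow₀ (one_le_nsq x.2))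

lemma PB2.snd {n m : ℕ} {g : Mt n m → ℂ} (hg : PB g) :
    PB2 (fun x : Mt n n × Mt n m => g x.2) := by
  obtain ⟨hc, K, hK, j, h⟩ := hg
  refine ⟨hc.comp continuous_snd, K, hK, j, fun x => ?_⟩
  refine (h x.2).trans (mul_le_mul_of_nonneg_left ?_ hK)
  exact le_mul_of_one_le_left (pow_nonneg (by linarith [nsq_nonneg x.2]) _)
    (one_le_pow₀ (one_le_nsq x.1))

lemma PB2.mul {n m : ℕ} {f g : Mt n n × Mt n m → ℂ} (hf : PB2 f) (hg : PB2 g) :
    PB2 (fun x => f x * g x) := by
  obtain ⟨hc, K, hK, j, h⟩ := hf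
  obtain ⟨hc', K', hK', j', h'⟩ := hg
  refine ⟨hc.mul hc', K * K', by positivity, j + j', fun x => ?_⟩
  have p1 : 0 ≤ 1 + nsq x.1 := by linarith [nsq_nonneg x.1]
  have p2 : 0 ≤ 1 + nsq x.2 := by linarith [nsq_nonneg x.2]
  rw [norm_mul, pow_add, pow_add]
  calc ‖f x‖ * ‖g x‖ ≤ (K * ((1 + nsq x.1) ^ j * (1 + nsq x.2) ^ j)) *
        (K' * ((1 + nsq x.1) ^ j' * (1 + nsq x.2) ^ j')) :=
        mul_le_mul (h x) (h' x) (norm_nonneg _) (by positivity)
    _ = _ := by ring

lemma PB2.add {n m : ℕ} {f g : Mt n n × Mt n m → ℂ} (hf : PB2 f) (hg : PB2 g) :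
    PB2 (fun x => f x + g x) := by
  obtain ⟨hc, K, hK, j, h⟩ := hf
  obtain ⟨hc', K', hK', j', h'⟩ := hg
  refine ⟨hc.add hc', K + K', by positivity, j + j', fun x => ?_⟩
  have p1 : 0 ≤ 1 + nsq x.1 := by linarith [nsq_nonneg x.1]
  have p2 : 0 ≤ 1 + nsq x.2 := by linarith [nsq_nonneg x.2]
  have a1 : (1 + nsq x.1) ^ j ≤ (1 + nsq x.1) ^ (j + j') :=
    pow_le_pow_right₀ (one_le_nsq x.1) (by omega)
  have a2 : (1 + nsq x.2) ^ j ≤ (1 + nsq x.2) ^ (j + j') :=
    pow_le_pow_right₀ (one_le_nsq x.2) (by omega)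
  have a3 : (1 + nsq x.1) ^ j' ≤ (1 + nsq x.1) ^ (j + j') :=
    pow_le_pow_right₀ (one_le_nsq x.1) (by omega)
  have a4 : (1 + nsq x.2) ^ j' ≤ (1 + nsq x.2) ^ (j + j') :=
    pow_le_pow_right₀ (one_le_nsq x.2) (by omega)
  have b1 : (1 + nsq x.1) ^ j * (1 + nsq x.2) ^ j ≤
      (1 + nsq x.1) ^ (j + j') * (1 + nsq x.2) ^ (j + j') :=
    mul_le_mul a1 a2 (pow_nonneg p2 _) (pow_nonneg p1 _)
  have b2 : (1 + nsq x.1) ^ j' * (1 + nsq x.2) ^ j' ≤
      (1 + nsq x.1) ^ (j + j') * (1 + nsq x.2) ^ (j + j') :=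
    mul_le_mul a3 a4 (pow_nonneg p2 _) (pow_nonneg p1 _)
  calc ‖f x + g x‖ ≤ ‖f x‖ + ‖g x‖ := norm_add_le _ _
    _ ≤ K * ((1 + nsq x.1) ^ j * (1 + nsq x.2) ^ j) +
        K' * ((1 + nsq x.1) ^ j' * (1 + nsq x.2) ^ j') := add_le_add (h x) (h' x)
    _ ≤ K * ((1 + nsq x.1) ^ (j + j') * (1 + nsq x.2) ^ (j + j')) +
        K' * ((1 + nsq x.1) ^ (j + j') * (1 + nsq x.2) ^ (j + j')) :=
        add_le_add (mul_le_mul_of_nonneg_left b1 hK) (mul_le_mul_of_nonneg_left b2 hK')
    _ = _ := by ring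

lemma PB2.sum {n m : ℕ} {ι : Type*} (s : Finset ι) {f : ι → Mt n n × Mt n m → ℂ}
    (hf : ∀ i ∈ s, PB2 (f i)) : PB2 (fun x => ∑ i ∈ s, f i x) := by
  classical
  induction s using Finset.induction_on with
  | empty => simpa using PB2.fst (m := m) (PB.const (n := n) (m := n) 0)
  | insert a s ha ih =>
    simp only [Finset.sum_insert ha]
    exact (hf a (Finset.mem_insert_self _ _)).add
      (ih fun i hi => hf i (Finset.mem_insert_of_mem hi))

lemma PB2.pow {n m : ℕ} {f : Mt n n × Mt n m → ℂ} (hf : PB2 f) (k : ℕ) :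
    PB2 (fun x => f x ^ k) := by
  induction k with
  | zero => simpa using PB2.fst (m := m) (PB.const (n := n) (m := n) 1)
  | succ k ih => simpa [pow_succ] using ih.mul hf

/-- `tr (C B Bᴴ)` as a function of the pair `(C, B)` -/
lemma PB2.trace_cbb {n m : ℕ} : PB2 (fun x : Mt n n × Mt n m =>
    Matrix.trace (Matrix.of x.1 * (Matrix.of x.2 * (Matrix.of x.2).conjTranspose))) := by
  simp only [A206.trace_q]
  refine PB2.sum _ fun i _ => PB2.sum _ fun j _ => ?_
  have h : PB (fun B : Mt n m => ∑ l, B j l * (starRingEnd ℂ) (B i l)) :=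
    PB.sum _ fun l _ => (PB.entry j l).mul (PB.entry' i l)
  exact (PB2.fst (PB.entry i j)).mul (PB2.snd h)

lemma integrable_norm_pow (hP : S_POL) {n : ℕ} {p : ℂ} (hp : -1 < p.re) (j : ℕ) :
    Integrable (fun C : Mt n n => ‖fp p C‖ * (1 + nsq C) ^ j) (gau n n) := by
  have h1 := (hP n p j hp).norm
  have h0 := (hP n p 0 hp).norm
  refine Integrable.mono' ((h0.add h1).const_mul (2 ^ j))
    ((measurable_fp p).norm.mul ((continuous_nsq.const_add 1).pow j).measurable).aestronglyMeasurable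
    ?_
  refine Filter.Eventually.of_forall fun C => ?_
  simp only [Pi.add_apply, norm_mul, pow_zero, Complex.ofReal_one, mul_one]
  have h2 : ‖(((nsq C) ^ j : ℝ) : ℂ)‖ = nsq C ^ j := by
    rw [Complex.norm_real, Real.norm_of_nonneg (pow_nonneg (nsq_nonneg C) _)]
  rw [h2, norm_norm, Real.norm_of_nonneg (pow_nonneg (by linarith [nsq_nonneg C]) j)]
  have h3 := one_add_pow_le (nsq_nonneg C) j
  calc ‖fp p C‖ * (1 + nsq C) ^ j ≤ ‖fp p C‖ * (2 ^ j * (1 + nsq C ^ j)) := by gcongr
    _ = _ := by ring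

/-- weighted integrability on the product, square second factor -/
lemma PB2.integrable_qq (hP : S_POL) {n : ℕ} {g : Mt n n × Mt n n → ℂ} (hg : PB2 g) {p q : ℂ}
    (hp : -1 < p.re) (hq : -1 < q.re) :
    Integrable (fun x => fp p x.1 * fp q x.2 * g x) ((gau n n).prod (gau n n)) := by
  obtain ⟨hc, K, hK, j, h⟩ := hg
  have h1 := (integrable_norm_pow hP (n := n) hp j).mul_prod (integrable_norm_pow hP (n := n) hq j)
  refine Integrable.mono' (h1.const_mul K)
    (((((measurable_fp p).comp measurable_fst).mul ((measurable_fp q).comp measurable_snd))).mul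
      hc.measurable).aestronglyMeasurable ?_
  refine Filter.Eventually.of_forall fun x => ?_
  rw [norm_mul, norm_mul]
  calc ‖fp p x.1‖ * ‖fp q x.2‖ * ‖g x‖ ≤ ‖fp p x.1‖ * ‖fp q x.2‖ *
        (K * ((1 + nsq x.1) ^ j * (1 + nsq x.2) ^ j)) :=
        mul_le_mul_of_nonneg_left (h x) (by positivity)
    _ = _ := by ring

/-- weighted integrability on the product, Gaussian second factor -/
lemma PB2.integrable_q (hR : S_ROW) (hP : S_POL) {n m : ℕ} {g : Mt n n × Mt n m → ℂ} (hg : PB2 g)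
    {p : ℂ} (hp : -1 < p.re) :
    Integrable (fun x => fp p x.1 * g x) ((gau n n).prod (gau n m)) := by
  obtain ⟨hc, K, hK, j, h⟩ := hg
  have h2 : Integrable (fun B : Mt n m => (1 + nsq B) ^ j) (gau n m) := by
    refine Integrable.mono' ((integrable_exp_nsq hR n m).const_mul
      (2 ^ j * j.factorial * Real.exp (1 / 2)))
      ((continuous_nsq.const_add 1).pow j).measurable.aestronglyMeasurable ?_
    refine Filter.Eventually.of_forall fun C => ?_
    rw [Real.norm_of_nonneg (pow_nonneg (by linarith [nsq_nonneg C]) j)]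
    exact pow_le_exp (nsq_nonneg C) j
  have h1 := (integrable_norm_pow hP (n := n) hp j).mul_prod h2
  refine Integrable.mono' (h1.const_mul K)
    (((measurable_fp p).comp measurable_fst).mul hc.measurable).aestronglyMeasurable ?_
  refine Filter.Eventually.of_forall fun x => ?_
  rw [norm_mul]
  calc ‖fp p x.1‖ * ‖g x‖ ≤ ‖fp p x.1‖ * (K * ((1 + nsq x.1) ^ j * (1 + nsq x.2) ^ j)) :=
        mul_le_mul_of_nonneg_left (h x) (by positivity)
    _ = _ := by ring

/-- padding by zero columns -/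
def pad {n m : ℕ} (B : Mt n m) : Mt n n := fun i j => if h : (j : ℕ) < m then B i ⟨j, h⟩ else 0

lemma sum_pad {n m : ℕ} (hm : m ≤ n) (f : Fin m → ℂ) (g : Fin n → ℂ) :
    ∑ j : Fin n, (if h : (j : ℕ) < m then f ⟨j, h⟩ * g j else 0) =
      ∑ j : Fin m, f j * g (Fin.castLE hm j) := by
  classical
  have h1 : ∑ j : Fin n, (if h : (j : ℕ) < m then f ⟨j, h⟩ * g j else 0) =
      ∑ j ∈ (Finset.univ : Finset (Fin m)).map (Fin.castLEEmb hm),
        (if h : (j : ℕ) < m then f ⟨j, h⟩ * g j else 0) := by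
    symm
    refine Finset.sum_subset (Finset.subset_univ _) fun j _ hj => ?_
    rw [dif_neg]
    intro h
    apply hj
    rw [Finset.mem_map]
    exact ⟨⟨j, h⟩, Finset.mem_univ _, by ext; simp⟩
  rw [h1, Finset.sum_map]
  refine Finset.sum_congr rfl fun j _ => ?_
  have hj : ((Fin.castLEEmb hm j : Fin n) : ℕ) < m := by simp
  rw [dif_pos hj]
  rfl

lemma pad_mul {n m : ℕ} (hm : m ≤ n) (B : Mt n m) :
    Matrix.of (pad B) * (Matrix.of (pad B)).conjTranspose =
      Matrix.of B * (Matrix.of B).conjTranspose := by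
  ext i j
  simp only [Matrix.mul_apply, Matrix.conjTranspose_apply, Matrix.of_apply, pad]
  have h := sum_pad hm (fun l => B i l) (fun l => star (if h : (l : ℕ) < m then B j ⟨l, h⟩ else 0))
  have h2 : ∀ l : Fin n, (if h : (l : ℕ) < m then B i ⟨l, h⟩ else 0) *
      star (if h : (l : ℕ) < m then B j ⟨l, h⟩ else 0) =
      (if h : (l : ℕ) < m then B i ⟨l, h⟩ * star (if h : (l : ℕ) < m then B j ⟨l, h⟩ else 0)
        else 0) := by
    intro l
    by_cases hl : (l : ℕ) < m
    · simp [hl]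
    · simp [hl]
  rw [Finset.sum_congr rfl fun l _ => h2 l, h]
  refine Finset.sum_congr rfl fun l _ => ?_
  simp

lemma ip_pad {n m : ℕ} (hm : m ≤ n) (C : Mt n n) (B : Mt n m) :
    ip C (pad B) = ∑ i, ∑ j : Fin m, C i (Fin.castLE hm j) * (starRingEnd ℂ) (B i j) := by
  unfold ip
  refine Finset.sum_congr rfl fun i _ => ?_
  have h := sum_pad hm (fun l => (starRingEnd ℂ) (B i l)) (fun l => C i l)
  have h2 : ∀ l : Fin n, C i l * (starRingEnd ℂ) (pad B i l) =
      (if h : (l : ℕ) < m then (starRingEnd ℂ) (B i ⟨l, h⟩) * C i l else 0) := by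
    intro l
    unfold pad
    by_cases hl : (l : ℕ) < m
    · simp [hl, mul_comm]
    · simp [hl]
  rw [Finset.sum_congr rfl fun l _ => h2 l, h]
  exact Finset.sum_congr rfl fun l _ => mul_comm _ _

/-- the final interpolation identity -/
lemma final_interp (k : ℕ) (s a : ℂ) :
    ∑ m ∈ Finset.range (k + 1),
      ((Lagrange.basis (Finset.range (k + 1)) (fun r : ℕ => (r : ℂ)) m).eval s) *
        (ascPochhammer ℂ k).eval ((m : ℂ) * a) = (ascPochhammer ℂ k).eval (s * a) := by
  set P : Polynomial ℂ := (ascPochhammer ℂ k).comp (Polynomial.X * Polynomial.C a) with hP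
  have hdeg : P.degree < (Finset.range (k + 1)).card := by
    rw [Finset.card_range]
    refine lt_of_le_of_lt Polynomial.degree_le_natDegree ?_
    have h1 : P.natDegree ≤ k := by
      refine (Polynomial.natDegree_comp_le).trans ?_
      rw [ascPochhammer_natDegree]
      have h2 : (Polynomial.X * Polynomial.C a : Polynomial ℂ).natDegree ≤ 1 :=
        (Polynomial.natDegree_mul_C_le _ _).trans Polynomial.natDegree_X_le
      nlinarith
    exact_mod_cast Nat.lt_succ_of_le h1
  have h := Lagrange.eq_interpolate (s := Finset.range (k + 1)) (v := fun r : ℕ => (r : ℂ))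
    (Set.injOn_of_injective Nat.cast_injective) hdeg
  have h2 := congrArg (Polynomial.eval s) h
  rw [Lagrange.interpolate_apply, Polynomial.eval_finsetSum] at h2
  simp only [hP, Polynomial.eval_comp, Polynomial.eval_mul, Polynomial.eval_C,
    Polynomial.eval_X] at h2
  rw [h2]
  exact Finset.sum_congr rfl fun r _ => mul_comm _ _

lemma Q_interp (k : ℕ) (Q : Polynomial ℂ) (hQ : Q.natDegree ≤ k) (s : ℂ) :
    Q.eval s = ∑ m ∈ Finset.range (k + 1),
      ((Lagrange.basis (Finset.range (k + 1)) (fun r : ℕ => (r : ℂ)) m).eval s) *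
        Q.eval (m : ℂ) := by
  have hdeg : Q.degree < (Finset.range (k + 1)).card := by
    rw [Finset.card_range]
    refine lt_of_le_of_lt Polynomial.degree_le_natDegree ?_
    exact_mod_cast Nat.lt_succ_of_le hQ
  have h := Lagrange.eq_interpolate (s := Finset.range (k + 1)) (v := fun r : ℕ => (r : ℂ))
    (Set.injOn_of_injective Nat.cast_injective) hdeg
  have h2 := congrArg (Polynomial.eval s) h
  rw [Lagrange.interpolate_apply, Polynomial.eval_finsetSum] at h2
  simp only [Polynomial.eval_mul, Polynomial.eval_C] at h2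
  rw [h2]
  exact Finset.sum_congr rfl fun r _ => mul_comm _ _

/-- the `m`-th node -/
lemma node (h1 : S_ZD) (h3 : S_MC) (h4 : S_POL) (h6 : S_ROW) {n m : ℕ} (hm : m ≤ n) {p : ℂ}
    (k : ℕ) (hp : -1 < p.re) :
    ∫ C : Mt n n, fp p C * (Matrix.trace ((1 : Matrix (Fin n) (Fin n) ℂ) *
      (Matrix.of C).conjTranspose)) ^ k *
      (∫ B : Mt n m, (Matrix.trace (Matrix.of C *
        (Matrix.of B * (Matrix.of B).conjTranspose))) ^ k ∂gau n m) ∂gau n n =
      NN n p * (k.factorial : ℂ) * (ascPochhammer ℂ k).eval ((m : ℂ) * (n + p)) := by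
  have e1 : ∫ C : Mt n n, fp p C * (Matrix.trace ((1 : Matrix (Fin n) (Fin n) ℂ) *
      (Matrix.of C).conjTranspose)) ^ k *
      (∫ B : Mt n m, (Matrix.trace (Matrix.of C *
        (Matrix.of B * (Matrix.of B).conjTranspose))) ^ k ∂gau n m) ∂gau n n =
      ∫ C : Mt n n, (∫ B : Mt n m, fp p C * ((Matrix.trace ((1 : Matrix (Fin n) (Fin n) ℂ) *
      (Matrix.of C).conjTranspose)) ^ k * (Matrix.trace (Matrix.of C *
        (Matrix.of B * (Matrix.of B).conjTranspose))) ^ k) ∂gau n m) ∂gau n n := by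
    refine integral_congr_ae (Filter.Eventually.of_forall fun C => ?_)
    simp only
    rw [← integral_const_mul]
    refine integral_congr_ae (Filter.Eventually.of_forall fun B => ?_)
    simp only
    ring
  have hint : Integrable (fun x : Mt n n × Mt n m => fp p x.1 *
      ((Matrix.trace ((1 : Matrix (Fin n) (Fin n) ℂ) *
      (Matrix.of x.1).conjTranspose)) ^ k * (Matrix.trace (Matrix.of x.1 *
        (Matrix.of x.2 * (Matrix.of x.2).conjTranspose))) ^ k)) ((gau n n).prod (gau n m)) :=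
    PB2.integrable_q h6 h4 ((PB2.fst ((PB.trace_ct 1).pow k)).mul (PB2.trace_cbb.pow k)) hp
  rw [e1, integral_integral_swap (f := fun C B => fp p C *
      ((Matrix.trace ((1 : Matrix (Fin n) (Fin n) ℂ) *
      (Matrix.of C).conjTranspose)) ^ k * (Matrix.trace (Matrix.of C *
        (Matrix.of B * (Matrix.of B).conjTranspose))) ^ k)) hint]
  have e2 : ∀ B : Mt n m, ∫ C : Mt n n, fp p C * ((Matrix.trace ((1 : Matrix (Fin n) (Fin n) ℂ) *
      (Matrix.of C).conjTranspose)) ^ k * (Matrix.trace (Matrix.of C *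
        (Matrix.of B * (Matrix.of B).conjTranspose))) ^ k) ∂gau n n =
      ∫ C : Mt n n, fp p C * ((‖∑ i, ∑ j : Fin m, C i (Fin.castLE hm j) *
        (starRingEnd ℂ) (B i j)‖ ^ (2 * k) : ℝ) : ℂ) ∂gau n n := by
    intro B
    have h5 := h1 n p k (Matrix.of (pad B)) (Matrix.of (pad B)).conjTranspose hp
    rw [ZZ_eq, pad_mul hm B] at h5
    simp only [ip_pad hm] at h5
    rw [h5]
    unfold ZZ
    refine integral_congr_ae (Filter.Eventually.of_forall fun C => ?_)
    simp only
    rw [Matrix.trace_mul_comm (Matrix.of C)]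
    ring
  rw [integral_congr_ae (Filter.Eventually.of_forall e2)]
  obtain ⟨h7, h8⟩ := h3 n m hm p k hp
  rw [← h8, integral_prod _ h7]

end Pool.Agent.R923.SE.MomA

namespace Pool.Agent.R923.SE

open Pool.Agent.R923.SE.A206 Pool.Agent.R923.SE.MomA

theorem s_MOM (h1 : S_ZD) (h2 : S_LAG) (h3 : S_MC) (h4 : S_POL) (h6 : S_ROW) : S_MOM := by
  intro n p q k hp hq hk
  -- Step 1: Fubini
  have hint : Integrable (fun x : Mt n n × Mt n n => fp p x.1 * fp q x.2 *
      ((‖ip x.1 x.2‖ ^ (2 * k) : ℝ) : ℂ)) ((gau n n).prod (gau n n)) := by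
    refine PB2.integrable_qq h4 ?_ hp hq
    have e : ∀ x : Mt n n × Mt n n, ((‖ip x.1 x.2‖ ^ (2 * k) : ℝ) : ℂ) =
        (∑ i, ∑ j, (starRingEnd ℂ) (x.1 i j) * x.2 i j) ^ k *
          (∑ i, ∑ j, x.1 i j * (starRingEnd ℂ) (x.2 i j)) ^ k := by
      intro x
      rw [norm_pow_eq]
      congr 1
      unfold ip
      simp only [map_sum, map_mul, Complex.conj_conj]
    simp only [e]
    refine PB2.mul (PB2.pow (PB2.sum _ fun i _ => PB2.sum _ fun j _ =>
      (PB2.fst (PB.entry' i j)).mul (PB2.snd (PB.entry i j))) k)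
      (PB2.pow (PB2.sum _ fun i _ => PB2.sum _ fun j _ =>
      (PB2.fst (PB.entry i j)).mul (PB2.snd (PB.entry' i j))) k)
  have e1 : mom n p q k = ∫ B : Mt n n, fp q B * ZZ n p k 1
      (Matrix.of B * (Matrix.of B).conjTranspose) ∂gau n n := by
    unfold mom gg
    rw [integral_prod_symm _ hint]
    refine integral_congr_ae (Filter.Eventually.of_forall fun B => ?_)
    simp only
    rw [← h1 n p k _ _ hp, ZZ_eq, ← integral_const_mul]
    refine integral_congr_ae (Filter.Eventually.of_forall fun C => ?_)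
    simp only
    ring
  -- Step 2: the other order
  have hint2 : Integrable (fun x : Mt n n × Mt n n => fp p x.1 * fp q x.2 *
      ((Matrix.trace ((1 : Matrix (Fin n) (Fin n) ℂ) *
      (Matrix.of x.1).conjTranspose)) ^ k * (Matrix.trace (Matrix.of x.1 *
        (Matrix.of x.2 * (Matrix.of x.2).conjTranspose))) ^ k)) ((gau n n).prod (gau n n)) :=
    PB2.integrable_qq h4 ((PB2.fst ((PB.trace_ct 1).pow k)).mul (PB2.trace_cbb.pow k)) hp hq
  have e2 : ∫ B : Mt n n, fp q B * ZZ n p k 1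
      (Matrix.of B * (Matrix.of B).conjTranspose) ∂gau n n =
      ∫ C : Mt n n, fp p C * (Matrix.trace ((1 : Matrix (Fin n) (Fin n) ℂ) *
      (Matrix.of C).conjTranspose)) ^ k * (∫ B : Mt n n, fp q B * (Matrix.trace (Matrix.of C *
        (Matrix.of B * (Matrix.of B).conjTranspose))) ^ k ∂gau n n) ∂gau n n := by
    have e3 : ∫ B : Mt n n, fp q B * ZZ n p k 1
      (Matrix.of B * (Matrix.of B).conjTranspose) ∂gau n n =
      ∫ B : Mt n n, (∫ C : Mt n n, fp p C * fp q B *
      ((Matrix.trace ((1 : Matrix (Fin n) (Fin n) ℂ) *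
      (Matrix.of C).conjTranspose)) ^ k * (Matrix.trace (Matrix.of C *
        (Matrix.of B * (Matrix.of B).conjTranspose))) ^ k) ∂gau n n) ∂gau n n := by
      refine integral_congr_ae (Filter.Eventually.of_forall fun B => ?_)
      simp only
      unfold ZZ
      rw [← integral_const_mul]
      refine integral_congr_ae (Filter.Eventually.of_forall fun C => ?_)
      simp only
      rw [Matrix.trace_mul_comm (Matrix.of C)]
      ring
    rw [e3, ← integral_integral_swap (f := fun C B => fp p C * fp q B *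
      ((Matrix.trace ((1 : Matrix (Fin n) (Fin n) ℂ) *
      (Matrix.of C).conjTranspose)) ^ k * (Matrix.trace (Matrix.of C *
        (Matrix.of B * (Matrix.of B).conjTranspose))) ^ k)) hint2]
    refine integral_congr_ae (Filter.Eventually.of_forall fun C => ?_)
    simp only
    rw [← integral_const_mul]
    refine integral_congr_ae (Filter.Eventually.of_forall fun B => ?_)
    simp only
    ring
  -- Step 3: interpolation
  have e4 : ∀ C : Mt n n, ∫ B : Mt n n, fp q B * (Matrix.trace (Matrix.of C *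
        (Matrix.of B * (Matrix.of B).conjTranspose))) ^ k ∂gau n n =
      NN n q * ∑ m ∈ Finset.range (k + 1),
        ((Lagrange.basis (Finset.range (k + 1)) (fun r : ℕ => (r : ℂ)) m).eval ((n : ℂ) + q)) *
        ∫ B : Mt n m, (Matrix.trace (Matrix.of C *
        (Matrix.of B * (Matrix.of B).conjTranspose))) ^ k ∂gau n m := by
    intro C
    obtain ⟨Q, hQd, hQq, hQm⟩ := h2 n k (Matrix.of C)
    rw [hQq q hq, Q_interp k Q hQd]
    congr 1
    refine Finset.sum_congr rfl fun m _ => ?_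
    rw [hQm m]
  have hi : ∀ m ∈ Finset.range (k + 1), Integrable (fun C : Mt n n =>
      (NN n q * (Lagrange.basis (Finset.range (k + 1)) (fun r : ℕ => (r : ℂ)) m).eval
        ((n : ℂ) + q)) * (fp p C * (Matrix.trace ((1 : Matrix (Fin n) (Fin n) ℂ) *
      (Matrix.of C).conjTranspose)) ^ k * ∫ B : Mt n m, (Matrix.trace (Matrix.of C *
        (Matrix.of B * (Matrix.of B).conjTranspose))) ^ k ∂gau n m)) (gau n n) := by
    intro m _
    refine Integrable.const_mul ?_ _
    have h5 : Integrable (fun x : Mt n n × Mt n m => fp p x.1 *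
      ((Matrix.trace ((1 : Matrix (Fin n) (Fin n) ℂ) *
      (Matrix.of x.1).conjTranspose)) ^ k * (Matrix.trace (Matrix.of x.1 *
        (Matrix.of x.2 * (Matrix.of x.2).conjTranspose))) ^ k)) ((gau n n).prod (gau n m)) :=
      PB2.integrable_q h6 h4 ((PB2.fst ((PB.trace_ct 1).pow k)).mul (PB2.trace_cbb.pow k)) hp
    refine h5.integral_prod_left.congr (Filter.Eventually.of_forall fun C => ?_)
    simp only
    rw [← integral_const_mul]
    refine integral_congr_ae (Filter.Eventually.of_forall fun B => ?_)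
    simp only
    ring
  have e5 : ∫ C : Mt n n, fp p C * (Matrix.trace ((1 : Matrix (Fin n) (Fin n) ℂ) *
      (Matrix.of C).conjTranspose)) ^ k * (∫ B : Mt n n, fp q B * (Matrix.trace (Matrix.of C *
        (Matrix.of B * (Matrix.of B).conjTranspose))) ^ k ∂gau n n) ∂gau n n =
      ∫ C : Mt n n, ∑ m ∈ Finset.range (k + 1),
      (NN n q * (Lagrange.basis (Finset.range (k + 1)) (fun r : ℕ => (r : ℂ)) m).eval
        ((n : ℂ) + q)) * (fp p C * (Matrix.trace ((1 : Matrix (Fin n) (Fin n) ℂ) *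
      (Matrix.of C).conjTranspose)) ^ k * ∫ B : Mt n m, (Matrix.trace (Matrix.of C *
        (Matrix.of B * (Matrix.of B).conjTranspose))) ^ k ∂gau n m) ∂gau n n := by
    refine integral_congr_ae (Filter.Eventually.of_forall fun C => ?_)
    simp only
    rw [e4 C, Finset.mul_sum, Finset.mul_sum]
    exact Finset.sum_congr rfl fun m _ => by ring
  rw [e1, e2, e5, integral_finsetSum _ hi]
  have e6 : ∀ m ∈ Finset.range (k + 1), ∫ C : Mt n n,
      (NN n q * (Lagrange.basis (Finset.range (k + 1)) (fun r : ℕ => (r : ℂ)) m).eval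
        ((n : ℂ) + q)) * (fp p C * (Matrix.trace ((1 : Matrix (Fin n) (Fin n) ℂ) *
      (Matrix.of C).conjTranspose)) ^ k * ∫ B : Mt n m, (Matrix.trace (Matrix.of C *
        (Matrix.of B * (Matrix.of B).conjTranspose))) ^ k ∂gau n m) ∂gau n n =
      (NN n p * NN n q * (k.factorial : ℂ)) *
        ((Lagrange.basis (Finset.range (k + 1)) (fun r : ℕ => (r : ℂ)) m).eval ((n : ℂ) + q) *
          (ascPochhammer ℂ k).eval ((m : ℂ) * (n + p))) := by
    intro m hm
    have hm' : m ≤ n := by have := Finset.mem_range.mp hm; omega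
    rw [integral_const_mul, node h1 h3 h4 h6 hm' k hp]
    ring
  rw [Finset.sum_congr rfl e6, ← Finset.mul_sum, final_interp, mul_comm ((n : ℂ) + q)]

end Pool.Agent.R923.SE
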