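import Pool.Agent.R923.SE.Stm

/-!
Project SE, piece N (helper975): moments of the determinant of a Ginibre matrix, and the determinant
is almost surely not zero. Induction on the size: the first row is rotated to a multiple of the first
basis vector.
-/

set_option autoImplicit false

open MeasureTheory Complex Filter Topology

namespace Pool.Agent.R923.SE

namespace NX

noncomputable section

/-- the law of a row -/
abbrev rw (m : ℕ) : Measure (Fin m → ℂ) := Measure.pi fun _ : Fin m => cg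

/-- Euclidean norm of a row -/
def rn {m : ℕ} (a : Fin m → ℂ) : ℝ := ‖(WithLp.toLp 2 a : EuclideanSpace ℂ (Fin m))‖

theorem rn_sq {m : ℕ} (a : Fin m → ℂ) : rn a ^ 2 = ∑ i, ‖a i‖ ^ 2 := by
  unfold rn
  rw [EuclideanSpace.norm_sq_eq]

theorem rn_pos {m : ℕ} {a : Fin m → ℂ} (ha : a ≠ 0) : 0 < rn a := by
  unfold rn
  rw [norm_pos_iff]
  intro h
  apply ha
  have := congrArg (WithLp.ofLp) h
  simpa using this

theorem continuous_rn (m : ℕ) : Continuous (rn : (Fin m → ℂ) → ℝ) := by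
  unfold rn
  exact (PiLp.continuous_toLp 2 (fun _ : Fin m => ℂ)).norm

/-- `exp (2 p log ρ)` -/
def ps (p : ℂ) (x : ℝ) : ℂ := Complex.exp (2 * p * ((Real.log x : ℝ) : ℂ))

theorem measurable_ps (p : ℂ) : Measurable (ps p) := by
  unfold ps
  fun_prop

theorem rad_fun {m : ℕ} (hm : 0 < m) (p : ℂ) {x : ℝ} (hx : 0 < x) :
    ((x ^ (2 * m - 1) : ℝ)) • (ps p x * ((Real.exp (-x ^ 2) : ℝ) : ℂ)) =
      (1 / 2 : ℂ) * ((|(2 : ℝ)| * x ^ ((2 : ℝ) - 1)) • (((Real.exp (-(x ^ (2 : ℝ))) : ℝ) : ℂ) *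
        (((x ^ (2 : ℝ) : ℝ)) : ℂ) ^ ((m : ℂ) + p - 1))) := by
  have h2 : (x ^ (2 : ℝ) : ℝ) = x ^ 2 := Real.rpow_two x
  have h1 : x ^ ((2 : ℝ) - 1) = x := by norm_num
  rw [h2, h1]
  have hx2 : ((x ^ 2 : ℝ) : ℂ) ≠ 0 := by
    exact_mod_cast (pow_pos hx 2).ne'
  rw [Complex.cpow_def_of_ne_zero hx2, ← Complex.ofReal_log (pow_pos hx 2).le, Real.log_pow]
  set L : ℝ := Real.log x with hL
  have hxe : x = Real.exp L := (Real.exp_log hx).symm
  have e1 : ((x ^ (2 * m - 1) : ℝ) : ℂ) = Complex.exp (((2 * m - 1 : ℕ) : ℂ) * L) := by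
    rw [hxe]
    push_cast
    rw [← Complex.exp_nat_mul]
  have e2 : ((x : ℝ) : ℂ) = Complex.exp L := by
    rw [hxe]
    push_cast
    rfl
  have e3 : ((2 * m - 1 : ℕ) : ℂ) = 2 * (m : ℂ) - 1 := by
    rw [Nat.cast_sub (by omega)]
    push_cast
    ring
  have habs : |(2 : ℝ)| = 2 := abs_of_pos two_pos
  rw [habs]
  rw [Complex.real_smul, Complex.real_smul]
  push_cast at e1 ⊢
  rw [e1, e2]
  unfold ps
  rw [← hL, e3]
  have : Complex.exp ((2 * (m : ℂ) - 1) * L) * Complex.exp (2 * p * L) =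
      Complex.exp L * Complex.exp (2 * L * (m + p - 1)) := by
    rw [← Complex.exp_add, ← Complex.exp_add]
    congr 1
    ring
  linear_combination Complex.exp (-(Complex.exp L) ^ 2) * this

theorem rad_int {m : ℕ} (hm : 0 < m) (p : ℂ) (hp : -1 < p.re) :
    IntegrableOn (fun y : ℝ => (y ^ (2 * m - 1)) • (ps p y * ((Real.exp (-y ^ 2) : ℝ) : ℂ)))
      (Set.Ioi 0) ∧
    ∫ y in Set.Ioi (0 : ℝ), (y ^ (2 * m - 1)) • (ps p y * ((Real.exp (-y ^ 2) : ℝ) : ℂ)) =
      (1 / 2 : ℂ) * Complex.Gamma (m + p) := by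
  have hs : 0 < ((m : ℂ) + p).re := by
    have h1 : (1 : ℝ) ≤ m := by exact_mod_cast hm
    simp only [Complex.add_re, Complex.natCast_re]
    linarith
  have hc := Complex.GammaIntegral_convergent hs
  have h2 : (2 : ℝ) ≠ 0 := two_ne_zero
  have hc2 := (integrableOn_Ioi_comp_rpow_iff (fun x : ℝ => (((Real.exp (-x) : ℝ) : ℂ) *
    (x : ℂ) ^ ((m : ℂ) + p - 1))) h2).2 hc
  constructor
  · refine IntegrableOn.congr_fun (f := fun x : ℝ => (1 / 2 : ℂ) *
      ((|(2 : ℝ)| * x ^ ((2 : ℝ) - 1)) • (((Real.exp (-(x ^ (2 : ℝ))) : ℝ) : ℂ) *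
        (((x ^ (2 : ℝ) : ℝ)) : ℂ) ^ ((m : ℂ) + p - 1)))) (hc2.const_mul (1 / 2 : ℂ)) ?_
      measurableSet_Ioi
    intro x hx
    exact (rad_fun hm p hx).symm
  · have h3 := integral_comp_rpow_Ioi (fun x : ℝ => (((Real.exp (-x) : ℝ) : ℂ) *
      (x : ℂ) ^ ((m : ℂ) + p - 1))) h2
    rw [setIntegral_congr_fun measurableSet_Ioi (fun x hx => rad_fun hm p hx),
      integral_const_mul, h3, Complex.Gamma_eq_integral hs]
    rfl

/-- radial integration in `ℂ^m` -/
theorem radial {m : ℕ} (hm : 0 < m) :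
    ∃ c : ℝ, ∀ f : ℝ → ℂ,
      (Integrable (fun a : Fin m → ℂ => f (rn a)) ↔
        IntegrableOn (fun y : ℝ => (y ^ (2 * m - 1)) • f y) (Set.Ioi 0)) ∧
      ∫ a : Fin m → ℂ, f (rn a) = (c : ℂ) * ∫ y in Set.Ioi (0 : ℝ), (y ^ (2 * m - 1)) • f y := by
  have : Nonempty (Fin m) := ⟨⟨0, hm⟩⟩
  let e : PiLp 2 (fun _ : Fin m => ℂ) ≃L[ℝ] (Fin m → ℂ) :=
    PiLp.continuousLinearEquiv 2 ℝ (fun _ : Fin m => ℂ)
  let μ : Measure (PiLp 2 (fun _ : Fin m => ℂ)) := Measure.map e.symm volume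
  have : μ.IsAddHaarMeasure := ContinuousLinearEquiv.isAddHaarMeasure_map e.symm volume
  have hemb : MeasurableEmbedding e.symm := e.symm.toHomeomorph.measurableEmbedding
  have hdim : Module.finrank ℝ (PiLp 2 (fun _ : Fin m => ℂ)) = 2 * m := by
    rw [e.toLinearEquiv.finrank_eq, Module.finrank_pi_fintype]
    simp [Complex.finrank_real_complex, mul_comm]
  refine ⟨(2 * m : ℕ) * μ.real (Metric.ball 0 1), fun f => ⟨?_, ?_⟩⟩
  · have h1 := integrable_fun_norm_addHaar (F := ℂ) μ (f := f)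
    rw [hdim] at h1
    rw [← h1]
    exact (hemb.integrable_map_iff (g := fun x : PiLp 2 (fun _ : Fin m => ℂ) => f ‖x‖)).symm
  · have h1 := integral_fun_norm_addHaar (F := ℂ) μ f
    rw [hdim] at h1
    have h2 : ∫ a : Fin m → ℂ, f (rn a) = ∫ x, f ‖x‖ ∂μ :=
      (hemb.integral_map (fun x : PiLp 2 (fun _ : Fin m => ℂ) => f ‖x‖)).symm
    rw [h2, h1]
    simp only [nsmul_eq_mul, Complex.real_smul]
    push_cast
    ring

theorem row_integral (hD : S_DEN) (m : ℕ) (f : (Fin m → ℂ) → ℂ) :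
    (Integrable f (rw m) ↔
      Integrable (fun a : Fin m → ℂ => (Real.exp (-∑ i, ‖a i‖ ^ 2) / Real.pi ^ m) • f a)) ∧
    ∫ a, f a ∂rw m = ∫ a : Fin m → ℂ, (Real.exp (-∑ i, ‖a i‖ ^ 2) / Real.pi ^ m) • f a := by
  have h1 : MeasurePreserving (MeasurableEquiv.funUnique (Fin 1) (Fin m → ℂ)) (gau 1 m)
      (rw m) := by
    have h := measurePreserving_funUnique (rw m) (Fin 1)
    rwa [Subsingleton.elim (Unique.fintype : Fintype (Fin 1)) (Fin.fintype 1)] at h
  have h2 : MeasurePreserving (MeasurableEquiv.funUnique (Fin 1) (Fin m → ℂ)) (volume : Measure (Mt 1 m))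
      volume := by
    have h := volume_preserving_funUnique (Fin 1) (Fin m → ℂ)
    rwa [Subsingleton.elim (Unique.fintype : Fintype (Fin 1)) (Fin.fintype 1)] at h
  have hd := hD 1 m
  have hmeas : Measurable fun B : Mt 1 m =>
      ENNReal.ofReal (Real.exp (-nsq B) / Real.pi ^ (1 * m)) := by
    unfold nsq
    fun_prop
  have hlt : ∀ᵐ B : Mt 1 m, ENNReal.ofReal (Real.exp (-nsq B) / Real.pi ^ (1 * m)) < ⊤ :=
    Filter.Eventually.of_forall fun _ => ENNReal.ofReal_lt_top
  have hval : ∀ B : Mt 1 m, (ENNReal.ofReal (Real.exp (-nsq B) / Real.pi ^ (1 * m))).toReal =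
      Real.exp (-∑ i, ‖B 0 i‖ ^ 2) / Real.pi ^ m := by
    intro B
    rw [ENNReal.toReal_ofReal (by positivity)]
    unfold nsq
    simp
  constructor
  · rw [← h1.integrable_comp_emb (MeasurableEquiv.measurableEmbedding _), hd,
      integrable_withDensity_iff_integrable_smul' hmeas hlt,
      ← h2.integrable_comp_emb (MeasurableEquiv.measurableEmbedding _)]
    apply iff_of_eq
    congr 1
    funext B
    rw [hval]
    rfl
  · rw [← h1.integral_comp', hd, integral_withDensity_eq_integral_toReal_smul hmeas hlt,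
      ← h2.integral_comp']
    congr 1
    funext B
    rw [hval]
    rfl

theorem row_mom (hD : S_DEN) (m : ℕ) (hm : 0 < m) (p : ℂ) (hp : -1 < p.re) :
    Integrable (fun a : Fin m → ℂ => ps p (rn a)) (rw m) ∧
    ∫ a, ps p (rn a) ∂rw m = Complex.Gamma (m + p) / Complex.Gamma m := by
  obtain ⟨c, hc⟩ := radial hm
  have key : ∀ q : ℂ, -1 < q.re → Integrable (fun a : Fin m → ℂ => ps q (rn a)) (rw m) ∧
      ∫ a, ps q (rn a) ∂rw m = (1 / (Real.pi : ℂ) ^ m) * (c * ((1 / 2) *
        Complex.Gamma (m + q))) := by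
    intro q hq
    obtain ⟨r1, r2⟩ := rad_int hm q hq
    obtain ⟨c1, c2⟩ := hc (fun y => ps q y * ((Real.exp (-y ^ 2) : ℝ) : ℂ))
    obtain ⟨w1, w2⟩ := row_integral hD m (fun a : Fin m → ℂ => ps q (rn a))
    have hfun : (fun a : Fin m → ℂ => (Real.exp (-∑ i, ‖a i‖ ^ 2) / Real.pi ^ m) •
        ps q (rn a)) = fun a => (1 / (Real.pi : ℂ) ^ m) *
          (ps q (rn a) * ((Real.exp (-rn a ^ 2) : ℝ) : ℂ)) := by
      funext a
      rw [rn_sq, Complex.real_smul]
      push_cast
      ring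
    constructor
    · rw [w1, hfun]
      exact (c1.2 r1).const_mul _
    · rw [w2, hfun, integral_const_mul, c2, r2]
  refine ⟨(key p hp).1, ?_⟩
  have h0 := (key 0 (by simp)).2
  have h1 : ∫ a, ps 0 (rn a) ∂rw m = 1 := by
    unfold ps
    simp
  rw [h1, add_zero] at h0
  rw [(key p hp).2]
  have hG : Complex.Gamma m ≠ 0 := by
    apply Complex.Gamma_ne_zero_of_re_pos
    simpa using hm
  rw [eq_div_iff hG]
  calc (1 / (Real.pi : ℂ) ^ m) * (c * ((1 / 2) * Complex.Gamma (m + p))) * Complex.Gamma m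
      = Complex.Gamma (m + p) * ((1 / (Real.pi : ℂ) ^ m) * (c * ((1 / 2) *
        Complex.Gamma m))) := by ring
    _ = Complex.Gamma (m + p) := by rw [← h0, mul_one]

/-- a unitary matrix rotating a row to a multiple of the first basis vector -/
theorem exists_unitary {n : ℕ} (a : Fin (n + 1) → ℂ) (ha : a ≠ 0) :
    ∃ V ∈ Matrix.unitaryGroup (Fin (n + 1)) ℂ, ∀ j, ∑ l, a l * V l j =
      if j = 0 then ((rn a : ℝ) : ℂ) else 0 := by
  have hr := rn_pos ha
  have hrc : ((rn a : ℝ) : ℂ) ≠ 0 := by exact_mod_cast hr.ne'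
  let v0 : EuclideanSpace ℂ (Fin (n + 1)) :=
    WithLp.toLp 2 (fun l => (starRingEnd ℂ) (a l) / ((rn a : ℝ) : ℂ))
  have hv0 : ‖v0‖ = 1 := by
    have h1 : ‖v0‖ ^ 2 = 1 := by
      rw [EuclideanSpace.norm_sq_eq]
      have h2 : ∀ i, ‖v0 i‖ ^ 2 = ‖a i‖ ^ 2 / rn a ^ 2 := by
        intro i
        change ‖(starRingEnd ℂ) (a i) / ((rn a : ℝ) : ℂ)‖ ^ 2 = _
        rw [norm_div, RCLike.norm_conj, Complex.norm_real, Real.norm_eq_abs, abs_of_pos hr,
          div_pow]
      simp only [h2]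
      rw [← Finset.sum_div, ← rn_sq, div_self (by positivity)]
    have h3 : 0 ≤ ‖v0‖ := norm_nonneg _
    nlinarith
  have hon : Orthonormal ℂ ((({0} : Set (Fin (n + 1)))).domRestrict
      (fun _ : Fin (n + 1) => v0)) := by
    constructor
    · intro i
      exact hv0
    · intro i j hij
      exact absurd (Subtype.ext (i.2.trans j.2.symm)) hij
  obtain ⟨b, hb⟩ := hon.exists_orthonormalBasis_extension_of_card_eq
    (ι := Fin (n + 1)) (by simp)
  have hb0 : b 0 = v0 := hb 0 rfl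
  have hin : ∀ i j, ∑ l, (starRingEnd ℂ) ((b i) l) * (b j) l = if i = j then 1 else 0 := by
    intro i j
    have h1 := orthonormal_iff_ite.1 b.orthonormal i j
    rw [← h1, PiLp.inner_apply]
    refine Finset.sum_congr rfl fun l _ => ?_
    rw [RCLike.inner_apply]
    ring
  refine ⟨Matrix.of fun l j => (b j) l, ?_, ?_⟩
  · rw [Matrix.mem_unitaryGroup_iff']
    ext i j
    rw [Matrix.mul_apply, Matrix.one_apply, ← hin i j]
    rfl
  · intro j
    have h1 : ∀ l, a l = ((rn a : ℝ) : ℂ) * (starRingEnd ℂ) ((b 0) l) := by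
      intro l
      rw [hb0]
      change a l = ((rn a : ℝ) : ℂ) *
        (starRingEnd ℂ) ((starRingEnd ℂ) (a l) / ((rn a : ℝ) : ℂ))
      rw [map_div₀, Complex.conj_conj, Complex.conj_ofReal]
      field_simp
    have h2 : ∑ l, a l * (Matrix.of fun l j => (b j) l) l j =
        ((rn a : ℝ) : ℂ) * ∑ l, (starRingEnd ℂ) ((b 0) l) * (b j) l := by
      rw [Finset.mul_sum]
      refine Finset.sum_congr rfl fun l _ => ?_
      rw [h1 l]
      simp only [Matrix.of_apply]
      ring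
    rw [h2, hin 0 j]
    by_cases hj : j = 0
    · simp [hj]
    · simp [hj, Ne.symm hj]

theorem norm_det_unitary {n : ℕ} {V : Matrix (Fin n) (Fin n) ℂ}
    (hV : V ∈ Matrix.unitaryGroup (Fin n) ℂ) : ‖V.det‖ = 1 := by
  have h1 := Matrix.mem_unitaryGroup_iff.1 hV
  have h2 : V.det * (star V).det = 1 := by
    rw [← Matrix.det_mul, h1, Matrix.det_one]
  have h3 : (star V).det = (starRingEnd ℂ) V.det := by
    rw [Matrix.star_eq_conjTranspose, Matrix.det_conjTranspose]
    rfl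
  rw [h3] at h2
  have h4 : ‖V.det‖ * ‖V.det‖ = 1 := by
    have := congrArg norm h2
    rwa [norm_mul, RCLike.norm_conj, norm_one] at this
  have h5 : 0 ≤ ‖V.det‖ := norm_nonneg _
  nlinarith

/-- the minor without the first column -/
def mi {n : ℕ} (B : Mt n (n + 1)) : Mt n n := fun i j => B i j.succ

/-- product from the right -/
def tv {n m : ℕ} (V : Matrix (Fin m) (Fin m) ℂ) (B : Mt n m) : Mt n m :=
  fun i j => ∑ l, B i l * V l j

/-- putting a row on top -/
def cs {n m : ℕ} (x : (Fin m → ℂ) × Mt n m) : Mt (n + 1) m := Fin.cons x.1 x.2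

theorem dt_cs {n : ℕ} {a : Fin (n + 1) → ℂ} {V : Matrix (Fin (n + 1)) (Fin (n + 1)) ℂ}
    (hV : V ∈ Matrix.unitaryGroup (Fin (n + 1)) ℂ)
    (hj : ∀ j, ∑ l, a l * V l j = if j = 0 then ((rn a : ℝ) : ℂ) else 0) (A : Mt n (n + 1)) :
    ‖dt (cs (a, A))‖ = rn a * ‖dt (mi (tv V A))‖ := by
  have h1 : Matrix.det (Matrix.of (cs (a, A)) * V) = dt (cs (a, A)) * V.det := by
    rw [Matrix.det_mul]; rfl
  have h2 : ‖dt (cs (a, A))‖ = ‖Matrix.det (Matrix.of (cs (a, A)) * V)‖ := by
    rw [h1, norm_mul, norm_det_unitary hV, mul_one]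
  have hrow : ∀ j, (Matrix.of (cs (a, A)) * V) 0 j = if j = 0 then ((rn a : ℝ) : ℂ) else 0 := by
    intro j
    rw [← hj j, Matrix.mul_apply]
    rfl
  have hsub : (Matrix.of (cs (a, A)) * V).submatrix Fin.succ (Fin.succAbove 0) =
      Matrix.of (mi (tv V A)) := by
    ext i j
    rw [Matrix.submatrix_apply, Matrix.mul_apply]
    rfl
  rw [h2, Matrix.det_succ_row_zero, Finset.sum_eq_single 0]
  · rw [hrow 0, hsub]
    simp only [Fin.val_zero, pow_zero, one_mul, if_true, norm_mul, Complex.norm_real,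
      Real.norm_eq_abs]
    rw [abs_of_nonneg (by unfold rn; exact norm_nonneg _)]
    rfl
  · intro j _ hj0
    rw [hrow j]
    simp [hj0]
  · intro h
    exact absurd (Finset.mem_univ _) h

theorem mp_cs (n m : ℕ) :
    MeasurePreserving (cs : (Fin m → ℂ) × Mt n m → Mt (n + 1) m)
      ((rw m).prod (gau n m)) (gau (n + 1) m) := by
  have h := (measurePreserving_piFinSuccAbove
    (fun _ : Fin (n + 1) => (rw m : Measure (Fin m → ℂ))) 0).symm
  have h2 : ((MeasurableEquiv.piFinSuccAbove (fun _ : Fin (n + 1) => (Fin m → ℂ)) 0).symm :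
      (Fin m → ℂ) × Mt n m → Mt (n + 1) m) = cs := by
    funext x
    exact Fin.insertNth_zero' x.1 x.2
  rw [← h2]
  exact h

theorem mp_tail (n : ℕ) :
    MeasurePreserving (fun (a : Fin (n + 1) → ℂ) (j : Fin n) => a j.succ) (rw (n + 1)) (rw n) := by
  have h := measurePreserving_piFinSuccAbove (fun _ : Fin (n + 1) => cg) 0
  exact (measurePreserving_snd (μ := cg) (ν := rw n)).comp h

theorem mp_mi (n : ℕ) : MeasurePreserving (mi : Mt n (n + 1) → Mt n n) (gau n (n + 1))
    (gau n n) :=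
  measurePreserving_pi _ _ fun _ => mp_tail n

theorem continuous_dt (n : ℕ) : Continuous (dt : Mt n n → ℂ) := by
  unfold dt
  exact Continuous.matrix_det continuous_id

theorem measurable_fp (n : ℕ) (p : ℂ) : Measurable (fp p : Mt n n → ℂ) := by
  have h := (continuous_dt n).measurable
  unfold fp
  fun_prop

theorem cg_singleton (x : ℂ) : cg {x} = 0 :=
  withDensity_absolutelyContinuous _ _ (measure_singleton x)

theorem ae_ne (n : ℕ) : ∀ᵐ a ∂rw (n + 1), a ≠ 0 := by
  have h1 : Measure.map (fun a : Fin (n + 1) → ℂ => a 0) (rw (n + 1)) = cg :=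
    (measurePreserving_eval (fun _ : Fin (n + 1) => cg) 0).map_eq
  have h2 : ∀ᵐ w ∂cg, w ≠ 0 := by
    rw [ae_iff]
    simpa using cg_singleton 0
  have h3 : ∀ᵐ a ∂rw (n + 1), (fun a : Fin (n + 1) → ℂ => a 0) a ≠ 0 := by
    have h4 : ∀ᵐ w ∂Measure.map (fun a : Fin (n + 1) → ℂ => a 0) (rw (n + 1)), w ≠ 0 := by
      rw [h1]
      exact h2
    exact ae_of_ae_map (p := fun w : ℂ => w ≠ 0)
      (by fun_prop : Measurable fun a : Fin (n + 1) → ℂ => a 0).aemeasurable h4
  filter_upwards [h3] with a ha h0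
  exact ha (by rw [h0]; rfl)

theorem ae_minor {n : ℕ} (hU : S_UR) (ih : ∀ᵐ A ∂gau n n, dt A ≠ 0)
    {V : Matrix (Fin (n + 1)) (Fin (n + 1)) ℂ} (hV : V ∈ Matrix.unitaryGroup (Fin (n + 1)) ℂ) :
    ∀ᵐ A ∂gau n (n + 1), dt (mi (tv V A)) ≠ 0 := by
  have h1 : ∀ᵐ A ∂gau n (n + 1), dt (mi A) ≠ 0 :=
    (mp_mi n).quasiMeasurePreserving.ae ih
  have h2 : MeasurePreserving (tv V : Mt n (n + 1) → Mt n (n + 1)) (gau n (n + 1))
    (gau n (n + 1)) := hU n (n + 1) V hV
  exact h2.quasiMeasurePreserving.ae h1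

end

end NX

open NX

theorem s_NUL (hU : S_UR) : S_NUL := by
  intro n
  induction n with
  | zero =>
    refine Filter.Eventually.of_forall fun A => ?_
    unfold dt
    rw [Matrix.det_isEmpty]
    exact one_ne_zero
  | succ n ih =>
    have hms : MeasurableSet {A : Mt (n + 1) (n + 1) | dt A ≠ 0} :=
      (continuous_dt (n + 1)).measurable (measurableSet_singleton (0 : ℂ)).compl
    rw [← (mp_cs n (n + 1)).map_eq, ae_map_iff (mp_cs n (n + 1)).measurable.aemeasurable hms]
    have hiff := Measure.ae_prod_iff_ae_ae (μ := rw (n + 1)) (ν := gau n (n + 1))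
      (p := fun x => dt (cs x) ≠ 0) ((mp_cs n (n + 1)).measurable hms)
    refine hiff.2 ?_
    filter_upwards [ae_ne n] with a ha
    obtain ⟨V, hV, hj⟩ := exists_unitary a ha
    filter_upwards [ae_minor hU ih hV] with A hA
    have h1 := dt_cs hV hj A
    have h2 : 0 < rn a * ‖dt (mi (tv V A))‖ := mul_pos (rn_pos ha) (norm_pos_iff.2 hA)
    rw [← h1] at h2
    exact norm_pos_iff.1 h2

theorem s_N (hD : S_DEN) (hU : S_UR) : S_N := by
  have hnul := s_NUL hU
  intro n p hp
  induction n with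
  | zero =>
    have h1 : (fun A : Mt 0 0 => fp p A) = fun _ => 1 := by
      funext A
      unfold fp dt
      rw [Matrix.det_isEmpty]
      simp
    rw [h1]
    refine ⟨integrable_const _, ?_⟩
    unfold NN
    simp
  | succ n ih =>
    obtain ⟨i1, i2⟩ := ih
    obtain ⟨r1, r2⟩ := row_mom hD (n + 1) (Nat.succ_pos n) p hp
    -- the inner integral
    have hfib : ∀ a : Fin (n + 1) → ℂ, a ≠ 0 →
        ∃ V ∈ Matrix.unitaryGroup (Fin (n + 1)) ℂ,
          (fun A : Mt n (n + 1) => fp p (cs (a, A))) =ᵐ[gau n (n + 1)]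
            fun A => ps p (rn a) * fp p (mi (tv V A)) := by
      intro a ha
      obtain ⟨V, hV, hj⟩ := exists_unitary a ha
      refine ⟨V, hV, ?_⟩
      filter_upwards [ae_minor hU (hnul n) hV] with A hA
      unfold fp ps
      rw [dt_cs hV hj A, Real.log_mul (rn_pos ha).ne' (norm_pos_iff.2 hA).ne', ← Complex.exp_add]
      congr 1
      push_cast
      ring
    have hmp : ∀ V ∈ Matrix.unitaryGroup (Fin (n + 1)) ℂ,
        MeasurePreserving (fun A : Mt n (n + 1) => mi (tv V A)) (gau n (n + 1)) (gau n n) :=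
      fun V hV => (mp_mi n).comp (hU n (n + 1) V hV)
    have hint : ∀ a : Fin (n + 1) → ℂ, a ≠ 0 →
        Integrable (fun A : Mt n (n + 1) => fp p (cs (a, A))) (gau n (n + 1)) := by
      intro a ha
      obtain ⟨V, hV, hae⟩ := hfib a ha
      refine Integrable.congr ?_ hae.symm
      exact (((hmp V hV).integrable_comp i1.aestronglyMeasurable).2 i1).const_mul _
    have hval : ∀ a : Fin (n + 1) → ℂ, a ≠ 0 →
        ∫ A : Mt n (n + 1), fp p (cs (a, A)) ∂gau n (n + 1) = ps p (rn a) * NN n p := by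
      intro a ha
      obtain ⟨V, hV, hae⟩ := hfib a ha
      rw [integral_congr_ae hae, integral_const_mul, ← i2]
      congr 1
      have hm := (hmp V hV)
      rw [← hm.map_eq, integral_map hm.measurable.aemeasurable
        (measurable_fp n p).aestronglyMeasurable]
    have hnrm : ∀ a : Fin (n + 1) → ℂ, a ≠ 0 →
        ∫ A : Mt n (n + 1), ‖fp p (cs (a, A))‖ ∂gau n (n + 1) =
          ‖ps p (rn a)‖ * ∫ A : Mt n n, ‖fp p A‖ ∂gau n n := by
      intro a ha
      obtain ⟨V, hV, hae⟩ := hfib a ha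
      have h1 : (fun A : Mt n (n + 1) => ‖fp p (cs (a, A))‖) =ᵐ[gau n (n + 1)]
          fun A => ‖ps p (rn a)‖ * ‖fp p (mi (tv V A))‖ := by
        filter_upwards [hae] with A hA
        rw [hA, norm_mul]
      rw [integral_congr_ae h1, integral_const_mul]
      congr 1
      have hm := (hmp V hV)
      rw [← hm.map_eq, integral_map hm.measurable.aemeasurable
        (measurable_fp n p).norm.aestronglyMeasurable]
    have hcs := mp_cs n (n + 1)
    have hmeas : Measurable (fun x : (Fin (n + 1) → ℂ) × Mt n (n + 1) => fp p (cs x)) :=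
      (measurable_fp (n + 1) p).comp hcs.measurable
    have hprod : Integrable (fun x : (Fin (n + 1) → ℂ) × Mt n (n + 1) => fp p (cs x))
        ((rw (n + 1)).prod (gau n (n + 1))) := by
      rw [integrable_prod_iff hmeas.aestronglyMeasurable]
      constructor
      · filter_upwards [ae_ne n] with a ha
        exact hint a ha
      · refine Integrable.congr (r1.norm.mul_const (∫ A : Mt n n, ‖fp p A‖ ∂gau n n)) ?_
        filter_upwards [ae_ne n] with a ha
        rw [hnrm a ha]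
    constructor
    · rw [← hcs.map_eq, integrable_map_measure (measurable_fp (n + 1) p).aestronglyMeasurable
        hcs.measurable.aemeasurable]
      exact hprod
    · rw [← hcs.map_eq, integral_map hcs.measurable.aemeasurable
        (measurable_fp (n + 1) p).aestronglyMeasurable, integral_prod _ hprod]
      have h1 : (fun a : Fin (n + 1) → ℂ => ∫ A : Mt n (n + 1), fp p (cs (a, A))
          ∂gau n (n + 1)) =ᵐ[rw (n + 1)] fun a => ps p (rn a) * NN n p := by
        filter_upwards [ae_ne n] with a ha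
        exact hval a ha
      rw [integral_congr_ae h1, integral_mul_const, r2]
      unfold NN
      rw [Finset.prod_range_succ]
      push_cast
      ring

end Pool.Agent.R923.SE
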