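import Pool.Agent.R923.SE.MC

/-!
Project SE: symmetry and positive definiteness of `Psi` (`S_SYM`, `S_PD`).
-/

set_option autoImplicit false

open MeasureTheory Complex Filter Topology

namespace Pool.Agent.R923.SE

noncomputable section

lemma lc_meas {n : ℕ} (a b : ℂ) :
    Measurable fun x : Mt n n × Mt n n => a • x.1 + b • x.2 := by
  have h : Continuous fun x : Mt n n × Mt n n => a • x.1 + b • x.2 := by fun_prop
  exact h.measurable

lemma lc_meas' {n : ℕ} (a b : ℂ) :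
    Measurable fun x : Mt n n × Mt n n => a • x.2 + b • x.1 := by
  have h : Continuous fun x : Mt n n × Mt n n => a • x.2 + b • x.1 := by fun_prop
  exact h.measurable

theorem s_SYM (h : S_ROT) : S_SYM := by
  intro n r p q h0 h1
  have hs : (√r : ℝ) ^ 2 = r := Real.sq_sqrt h0
  have ht : (√(1 - r) : ℝ) ^ 2 = 1 - r := Real.sq_sqrt (by linarith)
  have hs' : ((√r : ℝ) : ℂ) ^ 2 = r := by exact_mod_cast congrArg (fun x : ℝ => (x : ℂ)) hs
  have ht' : ((√(1 - r) : ℝ) : ℂ) ^ 2 = 1 - r := by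
    have := congrArg (fun x : ℝ => (x : ℂ)) ht
    simpa using this
  have hT := h n n (-((√r : ℝ) : ℂ)) ((√(1 - r) : ℝ) : ℂ) ((√(1 - r) : ℝ) : ℂ) ((√r : ℝ) : ℂ)
    (by rw [norm_neg, Complex.norm_real, Complex.norm_real, Real.norm_of_nonneg (Real.sqrt_nonneg _),
          Real.norm_of_nonneg (Real.sqrt_nonneg _), hs, ht]; ring)
    (by rw [Complex.norm_real, Complex.norm_real, Real.norm_of_nonneg (Real.sqrt_nonneg _),
          Real.norm_of_nonneg (Real.sqrt_nonneg _), hs, ht]; ring)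
    (by rw [Complex.conj_ofReal, Complex.conj_ofReal]; ring)
  have hm : Measurable fun x : Mt n n × Mt n n =>
      fp p (((√r : ℝ) : ℂ) • x.2 + ((√(1 - r) : ℝ) : ℂ) • x.1) * fp q x.2 := by
    refine Measurable.mul ?_ ((MC.fp_meas q).comp measurable_snd)
    exact (MC.fp_meas p).comp (lc_meas' _ _)
  unfold Psi gg
  conv_lhs => rw [← hT.map_eq]
  rw [integral_map hT.measurable.aemeasurable hm.aestronglyMeasurable]
  refine integral_congr_ae (Eventually.of_forall fun x => ?_)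
  show fp p (((√r : ℝ) : ℂ) • (((√(1 - r) : ℝ) : ℂ) • x.1 + ((√r : ℝ) : ℂ) • x.2) +
    ((√(1 - r) : ℝ) : ℂ) • (-((√r : ℝ) : ℂ) • x.1 + ((√(1 - r) : ℝ) : ℂ) • x.2)) *
    fp q (((√(1 - r) : ℝ) : ℂ) • x.1 + ((√r : ℝ) : ℂ) • x.2) =
    fp q (((√r : ℝ) : ℂ) • x.2 + ((√(1 - r) : ℝ) : ℂ) • x.1) * fp p x.2
  have e1 : ((√r : ℝ) : ℂ) • (((√(1 - r) : ℝ) : ℂ) • x.1 + ((√r : ℝ) : ℂ) • x.2) +
    ((√(1 - r) : ℝ) : ℂ) • (-((√r : ℝ) : ℂ) • x.1 + ((√(1 - r) : ℝ) : ℂ) • x.2) = x.2 := by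
    funext i j
    simp only [Pi.add_apply, Pi.smul_apply, smul_eq_mul]
    linear_combination (x.2 i j) * hs' + (x.2 i j) * ht'
  rw [e1, add_comm (((√(1 - r) : ℝ) : ℂ) • x.1), mul_comm]

namespace PD

lemma fp_conj {n : ℕ} (p : ℂ) (A : Mt n n) :
    (starRingEnd ℂ) (fp p A) = fp ((starRingEnd ℂ) p) A := by
  unfold fp
  rw [← Complex.exp_conj, map_mul, map_mul, Complex.conj_ofReal, Complex.conj_ofNat]

/-- the bounded function -/
def ff (n : ℕ) (y : ℝ) (A : Mt n n) : ℂ := fp (y * I) A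

lemma ff_norm (n : ℕ) (y : ℝ) (A : Mt n n) : ‖ff n y A‖ = 1 := by
  unfold ff fp
  rw [Complex.norm_exp]
  simp

lemma ff_meas (n : ℕ) (y : ℝ) : Measurable (ff n y) := MC.fp_meas _

lemma fp_neg_eq (n : ℕ) (y : ℝ) (A : Mt n n) :
    fp (-((y : ℂ) * I)) A = (starRingEnd ℂ) (ff n y A) := by
  unfold ff
  rw [fp_conj]
  simp

lemma comb_meas (n : ℕ) (y : ℝ) (a b : ℂ) :
    Measurable fun x : Mt n n × Mt n n => ff n y (a • x.1 + b • x.2) :=
  (ff_meas n y).comp (lc_meas _ _)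

/-- bounded measurable functions are integrable -/
lemma bint {α : Type*} [MeasurableSpace α] (μ : Measure α) [IsProbabilityMeasure μ] (f : α → ℂ)
    (hf : Measurable f) (C : ℝ) (hC : ∀ x, ‖f x‖ ≤ C) : Integrable f μ :=
  (integrable_const C).mono' hf.aestronglyMeasurable (Eventually.of_forall hC)

/-- the averaged function -/
def ga (n : ℕ) (y a : ℝ) (D : Mt n n) : ℂ :=
  ∫ A, ff n y (((√a : ℝ) : ℂ) • D + ((√(1 - a) : ℝ) : ℂ) • A) ∂gau n n

lemma ga_meas (n : ℕ) (y a : ℝ) : Measurable (ga n y a) :=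
  ((comb_meas n y _ _).stronglyMeasurable.integral_prod_right').measurable

lemma ga_norm (n : ℕ) (y a : ℝ) (D : Mt n n) : ‖ga n y a D‖ ≤ 1 := by
  unfold ga
  have := norm_integral_le_of_norm_le_const (μ := gau n n) (C := 1)
    (f := fun A => ff n y (((√a : ℝ) : ℂ) • D + ((√(1 - a) : ℝ) : ℂ) • A))
    (Eventually.of_forall fun A => (ff_norm n y _).le)
  simpa using this

/-- inner average -/
lemma inner_avg (h : S_ROT) (n : ℕ) (y a b : ℝ) (ha0 : 0 ≤ a) (ha : a < 1) (hb0 : 0 ≤ b)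
    (hb : b < 1) (D : Mt n n) :
    ∫ E, ga n y a (((√b : ℝ) : ℂ) • D + (-((√(1 - b) : ℝ) : ℂ)) • E) ∂gau n n =
      ga n y (a * b) D := by
  have hab : a * b < 1 := by nlinarith
  have hab' : (0 : ℝ) < √(1 - a * b) := Real.sqrt_pos.2 (by linarith)
  set u : ℝ := -(√a * √(1 - b)) / √(1 - a * b) with hu
  set v : ℝ := √(1 - a) / √(1 - a * b) with hv
  have sa : √a ^ 2 = a := Real.sq_sqrt ha0
  have sa1 : √(1 - a) ^ 2 = 1 - a := Real.sq_sqrt (by linarith)
  have sb : √b ^ 2 = b := Real.sq_sqrt hb0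
  have sb1 : √(1 - b) ^ 2 = 1 - b := Real.sq_sqrt (by linarith)
  have sab : √(1 - a * b) ^ 2 = 1 - a * b := Real.sq_sqrt (by linarith)
  have huv : u ^ 2 + v ^ 2 = 1 := by
    rw [hu, hv, div_pow, div_pow, ← add_div, neg_sq, mul_pow, sa, sa1, sb1, sab]
    rw [div_eq_one_iff_eq (by linarith)]
    ring
  have hT := h n n (u : ℂ) (v : ℂ) (-(v : ℂ)) (u : ℂ)
    (by rw [Complex.norm_real, Complex.norm_real, Real.norm_eq_abs, Real.norm_eq_abs, sq_abs,
          sq_abs]; exact huv)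
    (by rw [norm_neg, Complex.norm_real, Complex.norm_real, Real.norm_eq_abs, Real.norm_eq_abs,
          sq_abs, sq_abs]; linarith)
    (by rw [map_neg, Complex.conj_ofReal, Complex.conj_ofReal]; ring)
  have hU : MeasurePreserving (fun x : Mt n n × Mt n n => (u : ℂ) • x.1 + (v : ℂ) • x.2)
      ((gau n n).prod (gau n n)) (gau n n) :=
    (measurePreserving_fst (μ := gau n n) (ν := gau n n)).comp hT
  have hm1 : Measurable fun A : Mt n n =>
      ff n y (((√(a * b) : ℝ) : ℂ) • D + ((√(1 - a * b) : ℝ) : ℂ) • A) := by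
    have hc : Continuous fun A : Mt n n =>
      (((√(a * b) : ℝ) : ℂ) • D + ((√(1 - a * b) : ℝ) : ℂ) • A) := by fun_prop
    exact (ff_meas n y).comp hc.measurable
  have e1 : ga n y (a * b) D = ∫ x : Mt n n × Mt n n,
      ff n y (((√(a * b) : ℝ) : ℂ) • D + ((√(1 - a * b) : ℝ) : ℂ) •
        ((u : ℂ) • x.1 + (v : ℂ) • x.2)) ∂(gau n n).prod (gau n n) := by
    unfold ga
    conv_lhs => rw [← hU.map_eq]
    rw [integral_map hU.measurable.aemeasurable hm1.aestronglyMeasurable]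
  rw [e1, integral_prod]
  · refine integral_congr_ae (Eventually.of_forall fun E => ?_)
    show ga n y a (((√b : ℝ) : ℂ) • D + (-((√(1 - b) : ℝ) : ℂ)) • E) = _
    unfold ga
    refine integral_congr_ae (Eventually.of_forall fun A => ?_)
    show ff n y _ = ff n y _
    congr 1
    funext i j
    simp only [Pi.add_apply, Pi.smul_apply, smul_eq_mul]
    have e2 : √(a * b) = √a * √b := Real.sqrt_mul ha0 b
    have e3 : ((√(1 - a * b) : ℝ) : ℂ) * (u : ℂ) = -(((√a : ℝ) : ℂ) * ((√(1 - b) : ℝ) : ℂ)) := by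
      rw [← Complex.ofReal_mul, hu, mul_div_cancel₀ _ hab'.ne']
      push_cast
      ring
    have e4 : ((√(1 - a * b) : ℝ) : ℂ) * (v : ℂ) = ((√(1 - a) : ℝ) : ℂ) := by
      rw [← Complex.ofReal_mul, hv, mul_div_cancel₀ _ hab'.ne']
    rw [e2]
    push_cast
    linear_combination (-(E i j)) * e3 - (A i j) * e4
  · refine bint _ _ ?_ 1 fun x => (ff_norm n y _).le
    exact hm1.comp hU.measurable

lemma key3 (h : S_ROT) (n : ℕ) (y a b : ℝ) (ha0 : 0 ≤ a) (ha : a < 1) (hb0 : 0 ≤ b)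
    (hb : b < 1) :
    ∫ x : Mt n n × Mt n n,
        ga n y a (((√b : ℝ) : ℂ) • x.1 + (-((√(1 - b) : ℝ) : ℂ)) • x.2) *
        (starRingEnd ℂ) (ff n y x.1) ∂(gau n n).prod (gau n n) =
      ∫ D, ga n y (a * b) D * (starRingEnd ℂ) (ff n y D) ∂gau n n := by
  have hcm : Measurable (starRingEnd ℂ) := Complex.continuous_conj.measurable
  have hm2 : Measurable fun x : Mt n n × Mt n n =>
      ga n y a (((√b : ℝ) : ℂ) • x.1 + (-((√(1 - b) : ℝ) : ℂ)) • x.2) *
        (starRingEnd ℂ) (ff n y x.1) :=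
    ((ga_meas n y a).comp (lc_meas _ _)).mul
      (hcm.comp ((ff_meas n y).comp measurable_fst))
  have hb2 : ∀ x : Mt n n × Mt n n,
      ‖ga n y a (((√b : ℝ) : ℂ) • x.1 + (-((√(1 - b) : ℝ) : ℂ)) • x.2) *
        (starRingEnd ℂ) (ff n y x.1)‖ ≤ 1 := by
    intro x
    rw [norm_mul, RCLike.norm_conj, ff_norm, mul_one]
    exact ga_norm n y a _
  rw [integral_prod _ (bint _ _ hm2 1 hb2)]
  refine integral_congr_ae (Eventually.of_forall fun D => ?_)
  show ∫ E, ga n y a (((√b : ℝ) : ℂ) • D + (-((√(1 - b) : ℝ) : ℂ)) • E) *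
      (starRingEnd ℂ) (ff n y D) ∂gau n n = ga n y (a * b) D * (starRingEnd ℂ) (ff n y D)
  rw [integral_mul_const, inner_avg h n y a b ha0 ha hb0 hb]

lemma key2 (h : S_ROT) (n : ℕ) (y a b : ℝ) (hb0 : 0 ≤ b) (hb : b < 1) :
    ∫ x : Mt n n × Mt n n, ga n y a x.1 *
        (starRingEnd ℂ) (ff n y (((√b : ℝ) : ℂ) • x.1 + ((√(1 - b) : ℝ) : ℂ) • x.2))
        ∂(gau n n).prod (gau n n) =
      ∫ x : Mt n n × Mt n n,
        ga n y a (((√b : ℝ) : ℂ) • x.1 + (-((√(1 - b) : ℝ) : ℂ)) • x.2) *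
        (starRingEnd ℂ) (ff n y x.1) ∂(gau n n).prod (gau n n) := by
  have sb : √b ^ 2 = b := Real.sq_sqrt hb0
  have sb1 : √(1 - b) ^ 2 = 1 - b := Real.sq_sqrt (by linarith)
  have sbc : ((√b : ℝ) : ℂ) ^ 2 = b := by exact_mod_cast congrArg (fun x : ℝ => (x : ℂ)) sb
  have sb1c : ((√(1 - b) : ℝ) : ℂ) ^ 2 = 1 - b := by
    have := congrArg (fun x : ℝ => (x : ℂ)) sb1
    simpa using this
  have hcm : Measurable (starRingEnd ℂ) := Complex.continuous_conj.measurable
  have hm1 : Measurable fun x : Mt n n × Mt n n => ga n y a x.1 *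
      (starRingEnd ℂ) (ff n y (((√b : ℝ) : ℂ) • x.1 + ((√(1 - b) : ℝ) : ℂ) • x.2)) :=
    ((ga_meas n y a).comp measurable_fst).mul (hcm.comp (comb_meas n y _ _))
  have hT := h n n ((√b : ℝ) : ℂ) (-((√(1 - b) : ℝ) : ℂ)) ((√(1 - b) : ℝ) : ℂ) ((√b : ℝ) : ℂ)
    (by rw [norm_neg, Complex.norm_real, Complex.norm_real, Real.norm_of_nonneg (Real.sqrt_nonneg _),
          Real.norm_of_nonneg (Real.sqrt_nonneg _), sb, sb1]; ring)
    (by rw [Complex.norm_real, Complex.norm_real, Real.norm_of_nonneg (Real.sqrt_nonneg _),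
          Real.norm_of_nonneg (Real.sqrt_nonneg _), sb, sb1]; ring)
    (by rw [Complex.conj_ofReal, Complex.conj_ofReal]; ring)
  conv_lhs => rw [← hT.map_eq]
  rw [integral_map hT.measurable.aemeasurable hm1.aestronglyMeasurable]
  refine integral_congr_ae (Eventually.of_forall fun x => ?_)
  have e5 : ((√b : ℝ) : ℂ) • (((√b : ℝ) : ℂ) • x.1 + (-((√(1 - b) : ℝ) : ℂ)) • x.2) +
      ((√(1 - b) : ℝ) : ℂ) • (((√(1 - b) : ℝ) : ℂ) • x.1 + ((√b : ℝ) : ℂ) • x.2) = x.1 := by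
    funext i j
    simp only [Pi.add_apply, Pi.smul_apply, smul_eq_mul]
    linear_combination (x.1 i j) * sbc + (x.1 i j) * sb1c
  exact congrArg (fun z => ga n y a (((√b : ℝ) : ℂ) • x.1 + (-((√(1 - b) : ℝ) : ℂ)) • x.2) *
    (starRingEnd ℂ) (ff n y z)) e5

lemma key1 (n : ℕ) (y a b : ℝ) :
    ∫ D, ga n y a D * (starRingEnd ℂ) (ga n y b D) ∂gau n n =
      ∫ x : Mt n n × Mt n n, ga n y a x.1 *
        (starRingEnd ℂ) (ff n y (((√b : ℝ) : ℂ) • x.1 + ((√(1 - b) : ℝ) : ℂ) • x.2))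
        ∂(gau n n).prod (gau n n) := by
  have hcm : Measurable (starRingEnd ℂ) := Complex.continuous_conj.measurable
  have hm1 : Measurable fun x : Mt n n × Mt n n => ga n y a x.1 *
      (starRingEnd ℂ) (ff n y (((√b : ℝ) : ℂ) • x.1 + ((√(1 - b) : ℝ) : ℂ) • x.2)) :=
    ((ga_meas n y a).comp measurable_fst).mul (hcm.comp (comb_meas n y _ _))
  have hb1 : ∀ x : Mt n n × Mt n n, ‖ga n y a x.1 *
      (starRingEnd ℂ) (ff n y (((√b : ℝ) : ℂ) • x.1 + ((√(1 - b) : ℝ) : ℂ) • x.2))‖ ≤ 1 := by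
    intro x
    rw [norm_mul, RCLike.norm_conj, ff_norm, mul_one]
    exact ga_norm n y a _
  rw [integral_prod _ (bint _ _ hm1 1 hb1)]
  refine integral_congr_ae (Eventually.of_forall fun D => ?_)
  show ga n y a D * (starRingEnd ℂ) (ga n y b D) = ∫ A, ga n y a D *
      (starRingEnd ℂ) (ff n y (((√b : ℝ) : ℂ) • D + ((√(1 - b) : ℝ) : ℂ) • A)) ∂gau n n
  rw [integral_const_mul, integral_conj]
  rfl

lemma key (h : S_ROT) (n : ℕ) (y a b : ℝ) (ha0 : 0 ≤ a) (ha : a < 1) (hb0 : 0 ≤ b)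
    (hb : b < 1) :
    Psi n (a * b) (y * I) (-(y * I)) =
      ∫ D, ga n y a D * (starRingEnd ℂ) (ga n y b D) ∂gau n n := by
  rw [key1, key2 h n y a b hb0 hb, key3 h n y a b ha0 ha hb0 hb]
  unfold Psi gg
  have hm3 : Measurable fun x : Mt n n × Mt n n =>
      fp (y * I) (((√(a * b) : ℝ) : ℂ) • x.2 + ((√(1 - a * b) : ℝ) : ℂ) • x.1) *
        fp (-(y * I)) x.2 := by
    refine Measurable.mul ?_ ((MC.fp_meas _).comp measurable_snd)
    exact (MC.fp_meas _).comp (lc_meas' _ _)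
  have hb3 : ∀ x : Mt n n × Mt n n,
      ‖fp (y * I) (((√(a * b) : ℝ) : ℂ) • x.2 + ((√(1 - a * b) : ℝ) : ℂ) • x.1) *
        fp (-(y * I)) x.2‖ ≤ 1 := by
    intro x
    rw [norm_mul, fp_neg_eq, RCLike.norm_conj, ff_norm, mul_one]
    exact (ff_norm n y _).le
  rw [integral_prod_symm _ (bint _ _ hm3 1 hb3)]
  refine integral_congr_ae (Eventually.of_forall fun D => ?_)
  show ∫ A, fp (y * I) (((√(a * b) : ℝ) : ℂ) • D + ((√(1 - a * b) : ℝ) : ℂ) • A) *
      fp (-(y * I)) D ∂gau n n = ga n y (a * b) D * (starRingEnd ℂ) (ff n y D)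
  rw [integral_mul_const, fp_neg_eq]
  rfl

end PD

theorem s_PD (h : S_ROT) : S_PD := by
  intro n y
  refine ⟨fun r h0 h1 => ⟨?_, ?_⟩, ?_⟩
  · have e1 := s_SYM h n r (y * I) (-(y * I)) h0 h1
    have e2 : (starRingEnd ℂ) (Psi n r (y * I) (-(y * I))) = Psi n r (-(y * I)) (y * I) := by
      unfold Psi
      rw [← integral_conj]
      refine integral_congr_ae (Eventually.of_forall fun x => ?_)
      show (starRingEnd ℂ) (_ * _) = _
      rw [map_mul, PD.fp_conj, PD.fp_conj]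
      simp
    rw [← e1] at e2
    exact Complex.conj_eq_iff_im.1 e2
  · unfold Psi
    have := norm_integral_le_of_norm_le_const (μ := gg n) (C := 1)
      (f := fun x : Mt n n × Mt n n => fp (y * I)
        (((√r : ℝ) : ℂ) • x.2 + ((√(1 - r) : ℝ) : ℂ) • x.1) * fp (-(y * I)) x.2)
      (Eventually.of_forall fun x => by
        rw [norm_mul, PD.fp_neg_eq, RCLike.norm_conj, PD.ff_norm, mul_one]
        exact (PD.ff_norm n y _).le)
    simpa using this
  · intro N b α hb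
    have e1 : ∀ i j, (Psi n (b i * b j) (y * I) (-(y * I))).re =
        ∫ D, (PD.ga n y (b i) D * (starRingEnd ℂ) (PD.ga n y (b j) D)).re ∂gau n n := by
      intro i j
      rw [PD.key h n y (b i) (b j) (hb i).1 (hb i).2 (hb j).1 (hb j).2]
      refine (integral_re (𝕜 := ℂ) (PD.bint (gau n n) _ ?_ 1 fun D => ?_)).symm
      · exact (PD.ga_meas n y _).mul
          (Complex.continuous_conj.measurable.comp (PD.ga_meas n y _))
      · rw [norm_mul, RCLike.norm_conj]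
        exact mul_le_one₀ (PD.ga_norm _ _ _ _) (norm_nonneg _) (PD.ga_norm _ _ _ _)
    have hI : ∀ i j, Integrable (fun D => (PD.ga n y (b i) D *
        (starRingEnd ℂ) (PD.ga n y (b j) D)).re) (gau n n) := by
      intro i j
      have h3 : Integrable (fun D => PD.ga n y (b i) D *
          (starRingEnd ℂ) (PD.ga n y (b j) D)) (gau n n) := by
        refine PD.bint (gau n n) _ ?_ 1 fun D => ?_
        · exact (PD.ga_meas n y _).mul
            (Complex.continuous_conj.measurable.comp (PD.ga_meas n y _))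
        · rw [norm_mul, RCLike.norm_conj]
          exact mul_le_one₀ (PD.ga_norm _ _ _ _) (norm_nonneg _) (PD.ga_norm _ _ _ _)
      exact h3.re
    have e2 : ∑ i, ∑ j, α i * α j * (Psi n (b i * b j) (y * I) (-(y * I))).re =
        ∫ D, ∑ i, ∑ j, α i * α j * (PD.ga n y (b i) D *
          (starRingEnd ℂ) (PD.ga n y (b j) D)).re ∂gau n n := by
      rw [integral_finsetSum _ fun i _ => integrable_finsetSum _ fun j _ =>
        (hI i j).const_mul _]
      refine Finset.sum_congr rfl fun i _ => ?_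
      rw [integral_finsetSum _ fun j _ => (hI i j).const_mul _]
      refine Finset.sum_congr rfl fun j _ => ?_
      rw [integral_const_mul, e1]
    rw [e2]
    refine integral_nonneg fun D => ?_
    show 0 ≤ ∑ i, ∑ j, α i * α j * (PD.ga n y (b i) D *
          (starRingEnd ℂ) (PD.ga n y (b j) D)).re
    set w : ℂ := ∑ i, (α i : ℂ) * PD.ga n y (b i) D with hw
    have e3 : ∑ i, ∑ j, α i * α j * (PD.ga n y (b i) D *
          (starRingEnd ℂ) (PD.ga n y (b j) D)).re = (w * (starRingEnd ℂ) w).re := by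
      rw [hw, map_sum, Finset.sum_mul_sum, Complex.re_sum]
      refine Finset.sum_congr rfl fun i _ => ?_
      rw [Complex.re_sum]
      refine Finset.sum_congr rfl fun j _ => ?_
      rw [map_mul, Complex.conj_ofReal, ← Complex.re_ofReal_mul]
      congr 1
      push_cast
      ring
    rw [e3, Complex.mul_conj, Complex.ofReal_re]
    exact Complex.normSq_nonneg w

end

end Pool.Agent.R923.SE
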