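import Pool.Agent.R923.SE.Stm

/-!
Project SE, piece POS: positive definite kernels `F (a b)` have nonnegative Taylor coefficients.
-/

set_option autoImplicit false

open MeasureTheory Complex Filter Topology

namespace Pool.Agent.R923.SE

noncomputable section

namespace Pos

open Finset fwdDiff

/-- the alternating sums -/
def S (k l : ℕ) : ℝ :=
  ∑ i ∈ range (k + 1), ((-1 : ℝ) ^ (k - i) * (k.choose i : ℝ)) * ((i : ℝ) / (k + 1)) ^ l

theorem sum_eq (k l : ℕ) :
    ∑ i ∈ range (k + 1), ((-1 : ℝ) ^ (k - i) * (k.choose i : ℝ)) * (i : ℝ) ^ l =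
      (fwdDiff (1 : ℝ))^[k] (fun r : ℝ => r ^ l) 0 := by
  rw [fwdDiff_iter_eq_sum_shift]
  refine Finset.sum_congr rfl (fun i _ => ?_)
  simp

theorem S_eq (k l : ℕ) : S k l = (fwdDiff (1 : ℝ))^[k] (fun r : ℝ => r ^ l) 0 / ((k : ℝ) + 1) ^ l := by
  unfold S
  rw [← sum_eq, Finset.sum_div]
  refine Finset.sum_congr rfl (fun i _ => ?_)
  rw [div_pow]
  ring

theorem S_lt {k l : ℕ} (h : l < k) : S k l = 0 := by
  rw [S_eq, fwdDiff_iter_pow_eq_zero_of_lt h]
  simp

theorem S_self (k : ℕ) : 0 < S k k := by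
  rw [S_eq, fwdDiff_iter_eq_factorial]
  have h1 : (0 : ℝ) < (k.factorial : ℝ) := by exact_mod_cast k.factorial_pos
  have h2 : (0 : ℝ) < ((k : ℝ) + 1) ^ k := by positivity
  exact div_pos (by simpa using h1) h2

theorem S_abs (k l : ℕ) : |S k l| ≤ 2 ^ k := by
  unfold S
  refine (Finset.abs_sum_le_sum_abs _ _).trans ?_
  have h1 : ∀ i ∈ range (k + 1),
      |((-1 : ℝ) ^ (k - i) * (k.choose i : ℝ)) * ((i : ℝ) / (k + 1)) ^ l| ≤ (k.choose i : ℝ) := by
    intro i hi
    rw [Finset.mem_range] at hi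
    rw [abs_mul, abs_mul, abs_pow, abs_neg, abs_one, one_pow, one_mul, Nat.abs_cast]
    have h2 : |((i : ℝ) / (k + 1)) ^ l| ≤ 1 := by
      rw [abs_of_nonneg (by positivity)]
      refine pow_le_one₀ (by positivity) ?_
      rw [div_le_one (by positivity)]
      have : (i : ℝ) < ((k + 1 : ℕ) : ℝ) := by exact_mod_cast hi
      push_cast at this
      exact this.le
    calc (k.choose i : ℝ) * |((i : ℝ) / (k + 1)) ^ l| ≤ (k.choose i : ℝ) * 1 :=
          mul_le_mul_of_nonneg_left h2 (Nat.cast_nonneg _)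
      _ = _ := mul_one _
  refine (Finset.sum_le_sum h1).trans ?_
  have h3 : ((∑ i ∈ range (k + 1), k.choose i : ℕ) : ℝ) = 2 ^ k := by
    rw [Nat.sum_range_choose]; push_cast; rfl
  rw [← h3]
  push_cast
  exact le_rfl

end Pos

theorem s_POS : S_POS := by
  intro F c hF hP k
  -- nonnegativity of the quadratic form
  have hQ : ∀ x : ℝ, 0 < x → x ≤ 1 / 2 → ∃ Q : ℝ, 0 ≤ Q ∧
      HasSum (fun l => c l * x ^ l * Pos.S k l ^ 2) Q := by
    intro x hx hx2
    obtain ⟨t, ht⟩ : ∃ t : ℕ → ℝ, t = fun i : ℕ => (i : ℝ) / (k + 1) := ⟨_, rfl⟩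
    obtain ⟨w, hw⟩ : ∃ w : ℕ → ℝ, w = fun i : ℕ => (-1 : ℝ) ^ (k - i) * (k.choose i : ℝ) := ⟨_, rfl⟩
    have ht0 : ∀ i : ℕ, i < k + 1 → 0 ≤ t i ∧ t i < 1 := by
      intro i hi
      rw [ht]
      refine ⟨by positivity, ?_⟩
      rw [div_lt_one (by positivity)]
      exact_mod_cast hi
    refine ⟨∑ i ∈ Finset.range (k + 1), ∑ j ∈ Finset.range (k + 1),
      w i * w j * F (x * (t i * t j)), ?_, ?_⟩
    · have h1 := hP (k + 1) (fun i => √x * t i) (fun i => w i) (by
        intro i
        have h2 := ht0 i i.2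
        have h3 : √x < 1 := by
          rw [Real.sqrt_lt' one_pos]
          linarith
        have h4 : 0 ≤ √x := Real.sqrt_nonneg x
        refine ⟨mul_nonneg h4 h2.1, ?_⟩
        nlinarith)
      have h2 : ∑ i : Fin (k + 1), ∑ j : Fin (k + 1),
          w i * w j * F ((√x * t i) * (√x * t j)) =
          ∑ i ∈ Finset.range (k + 1), ∑ j ∈ Finset.range (k + 1),
            w i * w j * F (x * (t i * t j)) := by
        rw [Finset.sum_range]
        refine Finset.sum_congr rfl (fun i _ => ?_)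
        rw [Finset.sum_range]
        refine Finset.sum_congr rfl (fun j _ => ?_)
        have : (√x * t i) * (√x * t j) = x * (t i * t j) := by
          have := Real.mul_self_sqrt hx.le
          linear_combination (t i * t j) * this
        rw [this]
      rw [← h2]
      exact h1
    · have h1 : HasSum (fun l => ∑ i ∈ Finset.range (k + 1), ∑ j ∈ Finset.range (k + 1),
          w i * w j * (c l * (x * (t i * t j)) ^ l))
          (∑ i ∈ Finset.range (k + 1), ∑ j ∈ Finset.range (k + 1),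
            w i * w j * F (x * (t i * t j))) := by
        refine hasSum_sum (fun i hi => hasSum_sum (fun j hj => ?_))
        have h2 := ht0 i (Finset.mem_range.1 hi)
        have h3 := ht0 j (Finset.mem_range.1 hj)
        refine (hF _ ?_ ?_).mul_left _
        · exact mul_nonneg hx.le (mul_nonneg h2.1 h3.1)
        · have : t i * t j ≤ 1 := by nlinarith
          nlinarith
      refine h1.congr_fun ?_
      intro l
      unfold Pos.S
      rw [sq, Finset.sum_mul_sum, Finset.mul_sum]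
      refine Finset.sum_congr rfl (fun i _ => ?_)
      rw [Finset.mul_sum]
      refine Finset.sum_congr rfl (fun j _ => ?_)
      rw [ht, hw]
      simp only
      rw [mul_pow, mul_pow]
      ring
  -- the tail
  have hsum : Summable (fun l => |c l| * (1 / 2 : ℝ) ^ l) := by
    have h1 := (hF (1 / 2) (by norm_num) (by norm_num)).summable.abs
    refine h1.congr (fun l => ?_)
    rw [abs_mul, abs_of_nonneg (by positivity : (0 : ℝ) ≤ (1 / 2) ^ l)]
  obtain ⟨T, hT⟩ := hsum
  have hT0 : 0 ≤ T := hT.nonneg (fun l => by positivity)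
  obtain ⟨D, hD⟩ : ∃ D : ℝ, D = 4 ^ k * 2 ^ (k + 1) := ⟨_, rfl⟩
  have hD0 : 0 < D := by rw [hD]; positivity
  have hmain : ∀ x : ℝ, 0 < x → x ≤ 1 / 2 → 0 ≤ c k * Pos.S k k ^ 2 + x * (D * T) := by
    intro x hx hx2
    obtain ⟨Q, hQ0, hQs⟩ := hQ x hx hx2
    have hg : HasSum (fun l => (if l = k then c k * x ^ k * Pos.S k k ^ 2 else 0) +
        x ^ (k + 1) * D * (|c l| * (1 / 2 : ℝ) ^ l))
        (c k * x ^ k * Pos.S k k ^ 2 + x ^ (k + 1) * D * T) :=
      (hasSum_ite_eq k _).add (hT.mul_left _)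
    have hle : ∀ l, c l * x ^ l * Pos.S k l ^ 2 ≤
        (if l = k then c k * x ^ k * Pos.S k k ^ 2 else 0) +
        x ^ (k + 1) * D * (|c l| * (1 / 2 : ℝ) ^ l) := by
      intro l
      have hpos : 0 ≤ x ^ (k + 1) * D * (|c l| * (1 / 2 : ℝ) ^ l) := by positivity
      rcases lt_trichotomy l k with h | h | h
      · rw [Pos.S_lt h, if_neg h.ne]
        simpa using hpos
      · rw [h, if_pos rfl]
        have := hpos
        rw [h] at this
        linarith
      · rw [if_neg h.ne', zero_add]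
        obtain ⟨m, rfl⟩ : ∃ m, l = k + 1 + m := ⟨l - (k + 1), by omega⟩
        have h1 : Pos.S k (k + 1 + m) ^ 2 ≤ 4 ^ k := by
          have h2 := Pos.S_abs k (k + 1 + m)
          have h3 : (4 : ℝ) ^ k = (2 ^ k) ^ 2 := by rw [← pow_mul, mul_comm, pow_mul]; norm_num
          rw [h3, ← sq_abs]
          exact pow_le_pow_left₀ (abs_nonneg _) h2 2
        have h2 : x ^ (k + 1 + m) ≤ x ^ (k + 1) * (2 ^ (k + 1) * (1 / 2) ^ (k + 1 + m)) := by
          rw [pow_add x]
          have h3 : (2 : ℝ) ^ (k + 1) * (1 / 2) ^ (k + 1 + m) = (1 / 2) ^ m := by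
            rw [pow_add (1 / 2 : ℝ), ← mul_assoc, ← mul_pow]
            norm_num
          rw [h3]
          exact mul_le_mul_of_nonneg_left (pow_le_pow_left₀ hx.le hx2 m) (by positivity)
        have h3 : c (k + 1 + m) * x ^ (k + 1 + m) * Pos.S k (k + 1 + m) ^ 2 ≤
            |c (k + 1 + m)| * x ^ (k + 1 + m) * Pos.S k (k + 1 + m) ^ 2 :=
          mul_le_mul_of_nonneg_right (mul_le_mul_of_nonneg_right (le_abs_self _) (by positivity))
            (sq_nonneg _)
        refine h3.trans ?_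
        calc |c (k + 1 + m)| * x ^ (k + 1 + m) * Pos.S k (k + 1 + m) ^ 2
            ≤ |c (k + 1 + m)| * (x ^ (k + 1) * (2 ^ (k + 1) * (1 / 2) ^ (k + 1 + m))) * 4 ^ k := by
              gcongr
          _ = x ^ (k + 1) * D * (|c (k + 1 + m)| * (1 / 2 : ℝ) ^ (k + 1 + m)) := by
              rw [hD]; ring
    have h1 := hasSum_le hle hQs hg
    have h2 : 0 ≤ x ^ k * (c k * Pos.S k k ^ 2 + x * (D * T)) := by
      calc 0 ≤ Q := hQ0
        _ ≤ _ := h1
        _ = _ := by ring
    exact nonneg_of_mul_nonneg_right h2 (by positivity)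
  by_contra hneg
  push Not at hneg
  have hS := Pos.S_self k
  have hA : c k * Pos.S k k ^ 2 < 0 := mul_neg_of_neg_of_pos hneg (by positivity)
  obtain ⟨A, hAe⟩ : ∃ A, A = -(c k * Pos.S k k ^ 2) := ⟨_, rfl⟩
  have hA0 : 0 < A := by rw [hAe]; linarith
  have hDT : 0 ≤ D * T := by positivity
  have h1 := hmain (min (1 / 2) (A / (2 * (D * T + 1)))) (by positivity) (min_le_left _ _)
  have h2 : min (1 / 2) (A / (2 * (D * T + 1))) * (D * T) ≤ A / 2 := by
    calc min (1 / 2) (A / (2 * (D * T + 1))) * (D * T)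
        ≤ A / (2 * (D * T + 1)) * (D * T) := mul_le_mul_of_nonneg_right (min_le_right _ _) hDT
      _ ≤ A / (2 * (D * T + 1)) * (D * T + 1) :=
          mul_le_mul_of_nonneg_left (by linarith) (by positivity)
      _ = A / 2 := by field_simp
  linarith

end

end Pool.Agent.R923.SE
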