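import Pool.Agent.R923.SE.Stm

/-!
Project SE (helper923), piece ROW (helper308): row and column scaling of Gaussian integrals with a
power of the determinant; integrability of polynomials against it.
-/

set_option autoImplicit false

open MeasureTheory Complex Filter Topology

namespace Pool.Agent.R923.SE

noncomputable section

namespace Row

variable {n m : ℕ}

/-- row scaling -/
def sc (c : Fin n → ℝ) (B : Mt n m) : Mt n m := fun i => c i • B i

theorem sc_apply (c : Fin n → ℝ) (B : Mt n m) (i : Fin n) (j : Fin m) :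
    sc c B i j = (c i : ℂ) * B i j := by
  change c i • B i j = _
  rw [Complex.real_smul]

theorem measurable_sc (c : Fin n → ℝ) : Measurable (sc c : Mt n m → Mt n m) := by
  unfold sc
  fun_prop

theorem sc_sc {c c' : Fin n → ℝ} (h : ∀ i, c i * c' i = 1) (B : Mt n m) : sc c (sc c' B) = B := by
  funext i j
  rw [sc_apply, sc_apply, ← mul_assoc, ← Complex.ofReal_mul, h, Complex.ofReal_one, one_mul]

/-- row scaling as an equivalence -/
def scE (c : Fin n → ℝ) (hc : ∀ i, 0 < c i) : Mt n m ≃ᵐ Mt n m where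
  toFun := sc c
  invFun := sc fun i => (c i)⁻¹
  left_inv := sc_sc fun i => inv_mul_cancel₀ (hc i).ne'
  right_inv := sc_sc fun i => mul_inv_cancel₀ (hc i).ne'
  measurable_toFun := measurable_sc c
  measurable_invFun := measurable_sc _

theorem nsq_sc (c : Fin n → ℝ) (B : Mt n m) :
    nsq (sc c B) = ∑ i, c i ^ 2 * ∑ j, ‖B i j‖ ^ 2 := by
  unfold nsq
  refine Finset.sum_congr rfl fun i _ => ?_
  rw [Finset.mul_sum]
  refine Finset.sum_congr rfl fun j _ => ?_
  rw [sc_apply, norm_mul, mul_pow, Complex.norm_real, Real.norm_eq_abs, sq_abs]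

theorem vol_scale (c : Fin n → ℝ) (hc : ∀ i, 0 < c i) :
    (volume : Measure (Mt n m)) =
      ENNReal.ofReal (∏ i, c i ^ (2 * m)) • (volume : Measure (Mt n m)).map (sc c) := by
  have hE : (volume : Measure (Mt n m)) =
    Measure.pi (fun _ : Fin n => (volume : Measure (Fin m → ℂ))) := rfl
  conv_lhs => rw [hE]
  refine Measure.pi_eq fun s hs => ?_
  have hpre : (sc c : Mt n m → Mt n m) ⁻¹' (Set.univ.pi s) =
      Set.univ.pi (fun i => (fun v : Fin m → ℂ => c i • v) ⁻¹' (s i)) := by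
    ext B
    simp only [Set.mem_preimage, Set.mem_univ_pi]
    rfl
  rw [Measure.smul_apply, Measure.map_apply (measurable_sc c) (MeasurableSet.univ_pi hs), hpre, hE,
    Measure.pi_pi, smul_eq_mul, ENNReal.ofReal_prod_of_nonneg (fun i _ => pow_nonneg (hc i).le _),
    ← Finset.prod_mul_distrib]
  refine Finset.prod_congr rfl fun i _ => ?_
  have hfr : Module.finrank ℝ (Fin m → ℂ) = 2 * m := by
    rw [Module.finrank_pi_fintype]
    simp [Complex.finrank_real_complex, mul_comm]
  rw [Measure.addHaar_preimage_smul _ (hc i).ne', hfr, ← mul_assoc,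
    ← ENNReal.ofReal_mul (pow_nonneg (hc i).le _), abs_of_pos (inv_pos.2 (pow_pos (hc i) _)),
    mul_inv_cancel₀ (pow_pos (hc i) _).ne', ENNReal.ofReal_one, one_mul]

/-- the density -/
def rho (B : Mt n m) : ENNReal := ENNReal.ofReal (Real.exp (-nsq B) / Real.pi ^ (n * m))

theorem measurable_nsq : Measurable (nsq : Mt n m → ℝ) := by
  unfold nsq
  fun_prop

theorem measurable_rho : Measurable (rho : Mt n m → ENNReal) := by
  unfold rho
  exact ((Real.measurable_exp.comp measurable_nsq.neg).div_const _).ennreal_ofReal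

/-- the tilt -/
def tl (c : Fin n → ℝ) (B : Mt n m) : ENNReal :=
  ENNReal.ofReal (Real.exp (∑ i, (1 - c i ^ 2) * ∑ j, ‖B i j‖ ^ 2))

theorem measurable_tl (c : Fin n → ℝ) : Measurable (tl c : Mt n m → ENNReal) := by
  unfold tl
  fun_prop

theorem rho_mul_tl (c : Fin n → ℝ) (B : Mt n m) : rho B * tl c B = rho (sc c B) := by
  unfold rho tl
  rw [← ENNReal.ofReal_mul (by positivity), nsq_sc, div_mul_eq_mul_div, ← Real.exp_add]
  congr 3
  unfold nsq
  rw [← Finset.sum_neg_distrib, ← Finset.sum_neg_distrib, ← Finset.sum_add_distrib]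
  exact Finset.sum_congr rfl fun i _ => by ring

theorem tilt (h3 : S_DEN) (c : Fin n → ℝ) (hc : ∀ i, 0 < c i) :
    (gau n m).withDensity (tl c) =
      ENNReal.ofReal (∏ i, c i ^ (2 * m))⁻¹ • (gau n m).map (scE c hc).symm := by
  have hg : gau n m = (volume : Measure (Mt n m)).withDensity rho := h3 n m
  have hpos : 0 < ∏ i, c i ^ (2 * m) := Finset.prod_pos fun i _ => pow_pos (hc i) _
  ext s hs
  rw [Measure.smul_apply, Measure.map_apply (scE c hc).symm.measurable hs, smul_eq_mul,
    withDensity_apply _ hs, hg,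
    setLIntegral_withDensity_eq_setLIntegral_mul _ measurable_rho (measurable_tl c) hs,
    withDensity_apply _ ((scE c hc).symm.measurable hs)]
  have h1 : ∫⁻ B in (scE (m := m) c hc).symm ⁻¹' s, rho B =
      ENNReal.ofReal (∏ i, c i ^ (2 * m)) * ∫⁻ B in s, rho (sc c B) := by
    conv_lhs => rw [vol_scale (m := m) c hc]
    rw [Measure.restrict_smul, lintegral_smul_measure, smul_eq_mul]
    congr 1
    rw [setLIntegral_map ((scE c hc).symm.measurable hs) measurable_rho (measurable_sc c)]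
    congr 2
    ext B
    change (scE c hc).symm (scE c hc B) ∈ s ↔ B ∈ s
    rw [MeasurableEquiv.symm_apply_apply]
  rw [h1, ← mul_assoc, ← ENNReal.ofReal_mul (inv_nonneg.2 hpos.le), inv_mul_cancel₀ hpos.ne',
    ENNReal.ofReal_one, one_mul]
  exact lintegral_congr fun B => by
    rw [Pi.mul_apply, rho_mul_tl]

theorem tl_toReal (c : Fin n → ℝ) (B : Mt n m) :
    (tl c B).toReal = Real.exp (∑ i, (1 - c i ^ 2) * ∑ j, ‖B i j‖ ^ 2) :=
  ENNReal.toReal_ofReal (Real.exp_pos _).le

theorem integrable_iff (h3 : S_DEN) (c : Fin n → ℝ) (hc : ∀ i, 0 < c i) {E : Type}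
    [NormedAddCommGroup E] [NormedSpace ℝ E] (F : Mt n m → E) :
    Integrable (fun B => Real.exp (∑ i, (1 - c i ^ 2) * ∑ j, ‖B i j‖ ^ 2) • F B) (gau n m) ↔
      Integrable (fun B => F (sc (fun i => (c i)⁻¹) B)) (gau n m) := by
  have hpos : 0 < ∏ i, c i ^ (2 * m) := Finset.prod_pos fun i _ => pow_pos (hc i) _
  have h1 := integrable_withDensity_iff_integrable_smul' (μ := gau n m) (measurable_tl c)
    (Filter.Eventually.of_forall fun B => by unfold tl; exact ENNReal.ofReal_lt_top) (g := F)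
  rw [tilt h3 c hc, integrable_smul_measure (by simpa using hpos) ENNReal.ofReal_ne_top,
    integrable_map_equiv] at h1
  simp only [tl_toReal] at h1
  exact h1.symm

theorem integral_eq (h3 : S_DEN) (c : Fin n → ℝ) (hc : ∀ i, 0 < c i) {E : Type}
    [NormedAddCommGroup E] [NormedSpace ℝ E] (F : Mt n m → E) :
    ∫ B, Real.exp (∑ i, (1 - c i ^ 2) * ∑ j, ‖B i j‖ ^ 2) • F B ∂gau n m =
      (∏ i, c i ^ (2 * m))⁻¹ • ∫ B, F (sc (fun i => (c i)⁻¹) B) ∂gau n m := by
  have hpos : 0 < ∏ i, c i ^ (2 * m) := Finset.prod_pos fun i _ => pow_pos (hc i) _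
  have h1 := integral_withDensity_eq_integral_toReal_smul (μ := gau n m) (measurable_tl c)
    (Filter.Eventually.of_forall fun B => by unfold tl; exact ENNReal.ofReal_lt_top) F
  rw [tilt h3 c hc, integral_smul_measure, integral_map_equiv,
    ENNReal.toReal_ofReal (inv_nonneg.2 hpos.le)] at h1
  simp only [tl_toReal] at h1
  exact h1.symm

theorem dt_sc (c : Fin n → ℝ) (B : Mt n n) : dt (sc c B) = ((∏ i, c i : ℝ) : ℂ) * dt B := by
  unfold dt
  have h : Matrix.of (sc c B) = Matrix.of fun i j => (fun i => (c i : ℂ)) i * Matrix.of B i j := by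
    ext i j
    exact sc_apply c B i j
  rw [h, Matrix.det_mul_column]
  push_cast
  rfl

theorem fp_sc (q : ℂ) (c : Fin n → ℝ) (hc : ∀ i, 0 < c i) (B : Mt n n) (hB : dt B ≠ 0) :
    fp q (sc c B) = Complex.exp (2 * q * ((Real.log (∏ i, c i) : ℝ) : ℂ)) * fp q B := by
  have hpos : 0 < ∏ i, c i := Finset.prod_pos fun i _ => hc i
  unfold fp
  rw [dt_sc, norm_mul, Complex.norm_real, Real.norm_of_nonneg hpos.le,
    Real.log_mul hpos.ne' (norm_ne_zero_iff.2 hB), ← Complex.exp_add]
  congr 1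
  push_cast
  ring

theorem measurable_dt : Measurable (dt : Mt n n → ℂ) := by
  unfold dt
  have h : Continuous fun A : Mt n n => Matrix.det (Matrix.of A) :=
    Continuous.matrix_det (continuous_id)
  exact h.measurable

theorem measurable_fp (q : ℂ) : Measurable (fp q : Mt n n → ℂ) := by
  unfold fp
  have h := measurable_dt (n := n)
  fun_prop

theorem const_eq (n : ℕ) (q : ℂ) (d : Fin n → ℝ) (hd : ∀ i, d i < 1) :
    (((∏ i, √(1 - d i) ^ (2 * n))⁻¹ : ℝ) : ℂ) *
      Complex.exp (2 * q * ((Real.log (∏ i, (√(1 - d i))⁻¹) : ℝ) : ℂ)) =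
    ∏ i, ((1 - d i : ℝ) : ℂ) ^ (-((n : ℂ) + q)) := by
  have h1 : ∀ i, 0 < 1 - d i := fun i => sub_pos.2 (hd i)
  rw [Real.log_prod (fun i _ => (inv_pos.2 (Real.sqrt_pos.2 (h1 i))).ne'), Complex.ofReal_sum,
    Finset.mul_sum, Complex.exp_sum, ← Finset.prod_inv_distrib, Complex.ofReal_prod,
    ← Finset.prod_mul_distrib]
  refine Finset.prod_congr rfl fun i _ => ?_
  have h2 : ((1 - d i : ℝ) : ℂ) ≠ 0 := by exact_mod_cast (h1 i).ne'
  rw [neg_add, Complex.cpow_add _ _ h2, Complex.cpow_neg, Complex.cpow_natCast, pow_mul,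
    Real.sq_sqrt (h1 i).le, Complex.ofReal_inv, Complex.ofReal_pow, Real.log_inv,
    Real.log_sqrt (h1 i).le, Complex.cpow_def_of_ne_zero h2, Complex.ofReal_log (h1 i).le |>.symm]
  congr 2
  push_cast
  ring

end Row

open Row

theorem s_ROW (h1 : S_N) (h2 : S_NUL) (h3 : S_DEN) : S_ROW := by
  refine ⟨fun n q d hq hd => ?_, fun n m d hd => ?_⟩
  · have hd' : ∀ i, 0 < 1 - d i := fun i => sub_pos.2 (hd i)
    have hc : ∀ i, 0 < √(1 - d i) := fun i => Real.sqrt_pos.2 (hd' i)
    have hc2 : ∀ i, 1 - √(1 - d i) ^ 2 = d i := fun i => by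
      rw [Real.sq_sqrt (hd' i).le]
      ring
    have hae : (fun B : Mt n n => fp q (sc (fun i => (√(1 - d i))⁻¹) B)) =ᵐ[gau n n]
        fun B => Complex.exp (2 * q * ((Real.log (∏ i, (√(1 - d i))⁻¹) : ℝ) : ℂ)) * fp q B := by
      filter_upwards [h2 n] with B hB
      exact fp_sc q _ (fun i => inv_pos.2 (hc i)) B hB
    have hI := integrable_iff h3 _ hc (fun B : Mt n n => fp q B)
    have hJ := integral_eq h3 _ hc (fun B : Mt n n => fp q B)
    rw [integrable_congr hae] at hI
    rw [integral_congr_ae hae, integral_const_mul, (h1 n q hq).2] at hJ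
    simp only [hc2, Complex.real_smul] at hI hJ
    constructor
    · have h4 := hI.2 ((h1 n q hq).1.const_mul _)
      exact h4.congr (Filter.Eventually.of_forall fun B => mul_comm _ _)
    · rw [← const_eq n q d hd, mul_comm (NN n q), mul_assoc, ← hJ]
      exact integral_congr_ae (Filter.Eventually.of_forall fun B => mul_comm _ _)
  · have hd' : ∀ i, 0 < 1 - d i := fun i => sub_pos.2 (hd i)
    have hc : ∀ i, 0 < √(1 - d i) := fun i => Real.sqrt_pos.2 (hd' i)
    have hc2 : ∀ i, 1 - √(1 - d i) ^ 2 = d i := fun i => by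
      rw [Real.sq_sqrt (hd' i).le]
      ring
    have hI := integrable_iff (m := m) h3 _ hc (fun _ => (1 : ℝ))
    have hJ := integral_eq (m := m) h3 _ hc (fun _ => (1 : ℝ))
    simp only [hc2, smul_eq_mul, mul_one, integral_const, probReal_univ] at hI hJ
    refine ⟨hI.2 (integrable_const _), ?_⟩
    rw [hJ, ← Finset.prod_inv_distrib]
    exact Finset.prod_congr rfl fun i _ => by rw [pow_mul, Real.sq_sqrt (hd' i).le]

theorem s_COL (h1 : S_N) (h2 : S_NUL) (h3 : S_DEN) (h : S_TR) : S_COL := by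
  intro n q d hq hd
  obtain ⟨hI, hJ⟩ := (s_ROW h1 h2 h3).1 n q d hq hd
  have hT := h n n
  have hdt : ∀ B : Mt n n, fp q (fun j i => B i j) = fp q B := by
    intro B
    unfold fp dt
    have h5 : (Matrix.of fun j i => B i j) = (Matrix.of B).transpose := rfl
    rw [h5, Matrix.det_transpose]
  have hm : Measurable (fun B : Mt n n => fp q B *
      ((Real.exp (∑ i, d i * ∑ j, ‖B i j‖ ^ 2) : ℝ) : ℂ)) := by
    have h6 := measurable_fp (n := n) q
    fun_prop
  have e : (fun B : Mt n n => fp q B * ((Real.exp (∑ j, d j * ∑ i, ‖B i j‖ ^ 2) : ℝ) : ℂ)) =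
      (fun B : Mt n n => fp q B * ((Real.exp (∑ i, d i * ∑ j, ‖B i j‖ ^ 2) : ℝ) : ℂ)) ∘
        fun (B : Mt n n) (j : Fin n) (i : Fin n) => B i j := by
    funext B
    rw [Function.comp_apply, hdt]
  constructor
  · rw [e]
    exact (hT.integrable_comp hm.aestronglyMeasurable).2 hI
  · rw [← hJ, e]
    conv_rhs => rw [← hT.map_eq]
    rw [integral_map hT.measurable.aemeasurable hm.aestronglyMeasurable]
    rfl

theorem s_POL (h1 : S_N) (h2 : S_NUL) (h3 : S_DEN) : S_POL := by
  intro n p k hp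
  have hI := ((s_ROW h1 h2 h3).1 n p (fun _ => 1 / 2) hp (fun _ => by norm_num)).1
  have h5 : ∀ B : Mt n n, ∑ i, (fun _ : Fin n => (1 / 2 : ℝ)) i * ∑ j, ‖B i j‖ ^ 2 =
      nsq B / 2 := by
    intro B
    unfold nsq
    rw [← Finset.mul_sum]
    ring
  have hm : Measurable (fun B : Mt n n => fp p B * (((nsq B) ^ k : ℝ) : ℂ)) := by
    have h6 := measurable_fp (n := n) p
    have h7 := measurable_nsq (n := n) (m := n)
    fun_prop
  refine Integrable.mono' ((hI.norm).const_mul ((2 : ℝ) ^ k * (k.factorial : ℝ)))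
    hm.aestronglyMeasurable (Filter.Eventually.of_forall fun B => ?_)
  have hn : 0 ≤ nsq B := by
    unfold nsq
    positivity
  have h6 := Real.pow_div_factorial_le_exp (nsq B / 2) (by positivity) k
  have hk : (0 : ℝ) < (k.factorial : ℝ) := by exact_mod_cast k.factorial_pos
  rw [div_le_iff₀ hk, div_pow, div_le_iff₀ (by positivity)] at h6
  rw [h5, norm_mul, norm_mul, Complex.norm_real, Complex.norm_real,
    Real.norm_of_nonneg (pow_nonneg hn k), Real.norm_of_nonneg (Real.exp_pos _).le]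
  calc ‖fp p B‖ * nsq B ^ k ≤ ‖fp p B‖ * (Real.exp (nsq B / 2) * (k.factorial : ℝ) * 2 ^ k) :=
        mul_le_mul_of_nonneg_left h6 (norm_nonneg _)
    _ = 2 ^ k * (k.factorial : ℝ) * (‖fp p B‖ * Real.exp (nsq B / 2)) := by ring

end

end Pool.Agent.R923.SE
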