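import Pool.Agent.R923.SE.N

/-!
Project SE, piece SER (helper975): power series of `Psi` in `r`.
-/

set_option autoImplicit false

open MeasureTheory Complex Filter Topology

namespace Pool.Agent.R923.SE

namespace SX

noncomputable section

theorem cmul_re (c b : ℂ) (t : ℝ) :
    ‖c - t • b‖ ^ 2 = ‖c‖ ^ 2 - 2 * t * (c * (starRingEnd ℂ) b).re + t ^ 2 * ‖b‖ ^ 2 := by
  rw [← Complex.normSq_eq_norm_sq, ← Complex.normSq_eq_norm_sq, ← Complex.normSq_eq_norm_sq]
  simp only [Complex.normSq_apply, Complex.sub_re, Complex.sub_im, Complex.real_smul,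
    Complex.mul_re, Complex.mul_im, Complex.ofReal_re, Complex.ofReal_im, Complex.conj_re,
    Complex.conj_im]
  ring

theorem nsq_sub {n m : ℕ} (C B : Mt n m) (t : ℝ) :
    nsq (C - t • B) = nsq C - 2 * t * (ip C B).re + t ^ 2 * nsq B := by
  unfold nsq ip
  rw [Complex.re_sum, Finset.mul_sum, Finset.mul_sum, ← Finset.sum_sub_distrib,
    ← Finset.sum_add_distrib]
  refine Finset.sum_congr rfl fun i _ => ?_
  rw [Complex.re_sum, Finset.mul_sum, Finset.mul_sum, ← Finset.sum_sub_distrib,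
    ← Finset.sum_add_distrib]
  refine Finset.sum_congr rfl fun j _ => ?_
  exact cmul_re _ _ _

theorem nsq_smul {n m : ℕ} (B : Mt n m) (s : ℝ) : nsq (s • B) = s ^ 2 * nsq B := by
  unfold nsq
  rw [Finset.mul_sum]
  refine Finset.sum_congr rfl fun i _ => ?_
  rw [Finset.mul_sum]
  refine Finset.sum_congr rfl fun j _ => ?_
  rw [Pi.smul_apply, Pi.smul_apply, norm_smul, mul_pow, Real.norm_eq_abs, sq_abs]

theorem norm_ip_le {n m : ℕ} (C B : Mt n m) : 2 * ‖ip C B‖ ≤ nsq C + nsq B := by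
  have h1 : ‖ip C B‖ ≤ ∑ i, ∑ j, ‖C i j‖ * ‖B i j‖ := by
    unfold ip
    refine (norm_sum_le _ _).trans (Finset.sum_le_sum fun i _ => ?_)
    refine (norm_sum_le _ _).trans (Finset.sum_le_sum fun j _ => ?_)
    rw [norm_mul, RCLike.norm_conj]
  have h2 : 2 * ∑ i, ∑ j, ‖C i j‖ * ‖B i j‖ ≤ nsq C + nsq B := by
    unfold nsq
    rw [Finset.mul_sum, ← Finset.sum_add_distrib]
    refine Finset.sum_le_sum fun i _ => ?_
    rw [Finset.mul_sum, ← Finset.sum_add_distrib]
    refine Finset.sum_le_sum fun j _ => ?_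
    nlinarith [sq_nonneg (‖C i j‖ - ‖B i j‖)]
  linarith

theorem dt_smul {n : ℕ} (c : ℂ) (A : Mt n n) : dt (c • A) = c ^ n * dt A := by
  unfold dt
  have : Matrix.of (c • A) = c • Matrix.of A := rfl
  rw [this, Matrix.det_smul, Fintype.card_fin]

theorem fp_smul {n : ℕ} (p : ℂ) {s : ℝ} (hs : 0 < s) {A : Mt n n} (hA : dt A ≠ 0) :
    fp p (s • A) = Complex.exp (2 * p * (n * ((Real.log s : ℝ) : ℂ))) * fp p A := by
  have h0 : s • A = (s : ℂ) • A := by
    funext i j
    simp [Complex.real_smul]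
  unfold fp
  rw [h0, dt_smul, norm_mul, norm_pow, Complex.norm_real, Real.norm_eq_abs, abs_of_pos hs,
    Real.log_mul (pow_pos hs n).ne' (norm_pos_iff.2 hA).ne', Real.log_pow, ← Complex.exp_add]
  congr 1
  push_cast
  ring

theorem fp_unit {n : ℕ} (p : ℂ) {c : ℂ} (hc : ‖c‖ = 1) (A : Mt n n) : fp p (c • A) = fp p A := by
  unfold fp
  rw [dt_smul, norm_mul, norm_pow, hc, one_pow, one_mul]

theorem measurable_nsq (n m : ℕ) : Measurable (nsq : Mt n m → ℝ) := by
  unfold nsq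
  fun_prop

theorem measurable_ip (n m : ℕ) : Measurable (fun x : Mt n m × Mt n m => ip x.1 x.2) := by
  have hc : Continuous (fun x : Mt n m × Mt n m => ip x.1 x.2) := by
    unfold ip
    refine continuous_finsetSum _ fun i _ => continuous_finsetSum _ fun j _ => ?_
    refine Continuous.mul ?_ ?_
    · fun_prop
    · exact Complex.continuous_conj.comp (by fun_prop)
  exact hc.measurable

/-- the density of `gg` -/
def ww {n : ℕ} (x : Mt n n × Mt n n) : ℝ :=
  Real.exp (-nsq x.1) / Real.pi ^ (n * n) * (Real.exp (-nsq x.2) / Real.pi ^ (n * n))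

theorem gg_int (hD : S_DEN) (n : ℕ) (F : Mt n n × Mt n n → ℂ) :
    ∫ x, F x ∂gg n = ∫ x, ww x • F x ∂((volume : Measure (Mt n n)).prod volume) := by
  have hm : Measurable (fun B : Mt n n =>
      ENNReal.ofReal (Real.exp (-nsq B) / Real.pi ^ (n * n))) := by
    have := measurable_nsq n n
    fun_prop
  unfold gg
  rw [hD n n, prod_withDensity hm hm, integral_withDensity_eq_integral_toReal_smul]
  · congr 1
    funext x
    rw [ENNReal.toReal_mul, ENNReal.toReal_ofReal (by positivity),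
      ENNReal.toReal_ofReal (by positivity)]
    rfl
  · exact (hm.comp measurable_fst).mul (hm.comp measurable_snd)
  · exact Filter.Eventually.of_forall fun _ => ENNReal.mul_lt_top ENNReal.ofReal_lt_top
      ENNReal.ofReal_lt_top

/-- the substitution, in the order `(B, C)` -/
def subst {n : ℕ} (s t : ℝ) (hs : s ≠ 0) : (Mt n n × Mt n n) ≃ₜ (Mt n n × Mt n n) where
  toFun z := (s • z.1, z.2 - t • z.1)
  invFun z := (s⁻¹ • z.1, z.2 + t • (s⁻¹ • z.1))
  left_inv z := by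
    ext : 1
    · simp [smul_smul, inv_mul_cancel₀ hs]
    · simp [smul_smul, inv_mul_cancel₀ hs]
  right_inv z := by
    ext : 1
    · simp [smul_smul, mul_inv_cancel₀ hs]
    · simp
  continuous_toFun := by fun_prop
  continuous_invFun := by fun_prop

theorem finrank_mt (n : ℕ) : Module.finrank ℝ (Mt n n) = 2 * n ^ 2 := by
  rw [Module.finrank_pi_fintype]
  simp only [Module.finrank_pi_fintype, Complex.finrank_real_complex, Finset.sum_const,
    Finset.card_univ, Fintype.card_fin, smul_eq_mul]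
  ring

instance inst_haar (n : ℕ) : (volume : Measure (Mt n n)).IsAddHaarMeasure := by
  have h1 : (volume : Measure (Fin n → ℂ)).IsAddHaarMeasure := by
    rw [volume_pi]
    infer_instance
  exact Measure.pi.isAddHaarMeasure (fun _ : Fin n => (volume : Measure (Fin n → ℂ)))

theorem change (n : ℕ) {s : ℝ} (hs : 0 < s) (t : ℝ) (F : Mt n n × Mt n n → ℂ) :
    ∫ x, F x ∂((volume : Measure (Mt n n)).prod volume) =
      ((s ^ (2 * n ^ 2) : ℝ) : ℂ) *
        ∫ y, F (y.1 - t • y.2, s • y.2) ∂((volume : Measure (Mt n n)).prod volume) := by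
  have hf : MeasurePreserving (fun B : Mt n n => s • B) (volume : Measure (Mt n n))
      (ENNReal.ofReal (|(s ^ Module.finrank ℝ (Mt n n))⁻¹|) • volume) :=
    ⟨measurable_const_smul s, Measure.map_addHaar_smul volume hs.ne'⟩
  have hS : MeasurePreserving (fun z : Mt n n × Mt n n => (s • z.1, z.2 - t • z.1))
      ((volume : Measure (Mt n n)).prod volume)
      ((ENNReal.ofReal (|(s ^ Module.finrank ℝ (Mt n n))⁻¹|) • (volume : Measure (Mt n n))).prod
        volume) := by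
    refine hf.skew_product (g := fun (B C : Mt n n) => C - t • B) ?_ ?_
    · unfold Function.uncurry
      fun_prop
    · refine Filter.Eventually.of_forall fun B => ?_
      have : (fun C : Mt n n => C - t • B) = fun C => C + -(t • B) := by
        funext C
        rw [sub_eq_add_neg]
      change Measure.map (fun C : Mt n n => C - t • B) volume = volume
      rw [this]
      exact map_add_right_eq_self volume _
  have h1 := hS.integral_comp (subst s t hs.ne').measurableEmbedding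
    (fun z : Mt n n × Mt n n => F z.swap)
  rw [Measure.prod_smul_left, integral_smul_measure, integral_prod_swap] at h1
  have h2 : ∫ x : Mt n n × Mt n n, F ((s • x.1, x.2 - t • x.1) : Mt n n × Mt n n).swap
      ∂((volume : Measure (Mt n n)).prod volume) =
      ∫ y, F (y.1 - t • y.2, s • y.2) ∂((volume : Measure (Mt n n)).prod volume) := by
    rw [← integral_prod_swap]
    rfl
  rw [h2] at h1
  rw [h1, ENNReal.toReal_ofReal (abs_nonneg _), finrank_mt, abs_of_pos (by positivity),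
    Complex.real_smul, ← mul_assoc, ← Complex.ofReal_mul, mul_inv_cancel₀ (by positivity),
    Complex.ofReal_one, one_mul]

/-- the function after the substitution -/
def HH {n : ℕ} (p q : ℂ) (t : ℝ) (x : Mt n n × Mt n n) : ℂ :=
  fp p x.1 * fp q x.2 * ((Real.exp (2 * t * (ip x.1 x.2).re) : ℝ) : ℂ)

theorem ae_gg (hN : S_NUL) (n : ℕ) : ∀ᵐ x ∂gg n, dt x.1 ≠ 0 ∧ dt x.2 ≠ 0 := by
  have h1 : ∀ᵐ x ∂gg n, dt x.1 ≠ 0 :=
    (measurePreserving_fst (μ := gau n n) (ν := gau n n)).quasiMeasurePreserving.ae (hN n)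
  have h2 : ∀ᵐ x ∂gg n, dt x.2 ≠ 0 :=
    (measurePreserving_snd (μ := gau n n) (ν := gau n n)).quasiMeasurePreserving.ae (hN n)
  filter_upwards [h1, h2] with x a b
  exact ⟨a, b⟩

theorem psi_eq (hD : S_DEN) (hN : S_NUL) (n : ℕ) (p q : ℂ) (r : ℝ) (h0 : 0 ≤ r) (h1 : r < 1) :
    Psi n r p q = ((1 - r : ℝ) : ℂ) ^ ((n : ℂ) ^ 2 + n * (p + q)) *
      ∫ x, HH p q (√r) x ∂gg n := by
  have hr1 : 0 < 1 - r := by linarith
  set s : ℝ := √(1 - r) with hs
  set t : ℝ := √r with ht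
  have hs0 : 0 < s := Real.sqrt_pos.2 hr1
  have hs2 : s ^ 2 = 1 - r := Real.sq_sqrt hr1.le
  have ht2 : t ^ 2 = r := Real.sq_sqrt h0
  unfold Psi
  rw [gg_int hD, change n hs0 t]
  have hfun : ∀ y : Mt n n × Mt n n,
      ww ((y.1 - t • y.2, s • y.2) : Mt n n × Mt n n) •
        (fp p (((t : ℝ) : ℂ) • ((y.1 - t • y.2, s • y.2) : Mt n n × Mt n n).2 +
          ((s : ℝ) : ℂ) • ((y.1 - t • y.2, s • y.2) : Mt n n × Mt n n).1) *
          fp q ((y.1 - t • y.2, s • y.2) : Mt n n × Mt n n).2) =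
      ww y • (((Real.exp (2 * t * (ip y.1 y.2).re) : ℝ) : ℂ) *
        (fp p (s • y.1) * fp q (s • y.2))) := by
    intro y
    have e1 : ((t : ℝ) : ℂ) • (s • y.2) + ((s : ℝ) : ℂ) • (y.1 - t • y.2) = s • y.1 := by
      funext i j
      simp only [Pi.add_apply, Pi.smul_apply, Pi.sub_apply, smul_eq_mul, Complex.real_smul]
      ring
    have e2 : ww ((y.1 - t • y.2, s • y.2) : Mt n n × Mt n n) =
        ww y * Real.exp (2 * t * (ip y.1 y.2).re) := by
      unfold ww
      simp only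
      rw [nsq_sub, nsq_smul, ht2, hs2]
      have : Real.exp (-(nsq y.1 - 2 * t * (ip y.1 y.2).re + r * nsq y.2)) *
          Real.exp (-((1 - r) * nsq y.2)) =
          Real.exp (-nsq y.1) * Real.exp (-nsq y.2) * Real.exp (2 * t * (ip y.1 y.2).re) := by
        rw [← Real.exp_add, ← Real.exp_add, ← Real.exp_add]
        congr 1
        ring
      calc Real.exp (-(nsq y.1 - 2 * t * (ip y.1 y.2).re + r * nsq y.2)) / Real.pi ^ (n * n) *
          (Real.exp (-((1 - r) * nsq y.2)) / Real.pi ^ (n * n))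
          = (Real.exp (-(nsq y.1 - 2 * t * (ip y.1 y.2).re + r * nsq y.2)) *
          Real.exp (-((1 - r) * nsq y.2))) / (Real.pi ^ (n * n) * Real.pi ^ (n * n)) := by ring
        _ = _ := by rw [this]; ring
    simp only
    rw [e1, e2]
    simp only [Complex.real_smul]
    push_cast
    ring
  have hint : (∫ y : Mt n n × Mt n n, ww ((y.1 - t • y.2, s • y.2) : Mt n n × Mt n n) •
        (fp p (((t : ℝ) : ℂ) • ((y.1 - t • y.2, s • y.2) : Mt n n × Mt n n).2 +
          ((s : ℝ) : ℂ) • ((y.1 - t • y.2, s • y.2) : Mt n n × Mt n n).1) *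
          fp q ((y.1 - t • y.2, s • y.2) : Mt n n × Mt n n).2)
          ∂((volume : Measure (Mt n n)).prod volume)) =
      ∫ y : Mt n n × Mt n n, ww y • (((Real.exp (2 * t * (ip y.1 y.2).re) : ℝ) : ℂ) *
        (fp p (s • y.1) * fp q (s • y.2))) ∂((volume : Measure (Mt n n)).prod volume) := by
    congr 1
    funext y
    exact hfun y
  refine (congrArg (fun z : ℂ => ((s ^ (2 * n ^ 2) : ℝ) : ℂ) * z) hint).trans ?_
  rw [← gg_int hD n (fun y => ((Real.exp (2 * t * (ip y.1 y.2).re) : ℝ) : ℂ) *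
        (fp p (s • y.1) * fp q (s • y.2)))]
  have hae : (fun y : Mt n n × Mt n n => ((Real.exp (2 * t * (ip y.1 y.2).re) : ℝ) : ℂ) *
      (fp p (s • y.1) * fp q (s • y.2))) =ᵐ[gg n]
      fun y => Complex.exp (2 * (p + q) * (n * ((Real.log s : ℝ) : ℂ))) * HH p q t y := by
    filter_upwards [ae_gg hN n] with y hy
    rw [fp_smul p hs0 hy.1, fp_smul q hs0 hy.2]
    unfold HH
    have : Complex.exp (2 * (p + q) * (n * ((Real.log s : ℝ) : ℂ))) =
        Complex.exp (2 * p * (n * ((Real.log s : ℝ) : ℂ))) *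
        Complex.exp (2 * q * (n * ((Real.log s : ℝ) : ℂ))) := by
      rw [← Complex.exp_add]
      congr 1
      ring
    rw [this]
    ring
  rw [integral_congr_ae hae, integral_const_mul, ← mul_assoc]
  congr 1
  have hne : ((1 - r : ℝ) : ℂ) ≠ 0 := by exact_mod_cast hr1.ne'
  rw [Complex.cpow_def_of_ne_zero hne, ← Complex.ofReal_log hr1.le, ← hs2, Real.log_pow]
  have e3 : ((s ^ (2 * n ^ 2) : ℝ) : ℂ) = Complex.exp (2 * (n : ℂ) ^ 2 *
      ((Real.log s : ℝ) : ℂ)) := by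
    have : s = Real.exp (Real.log s) := (Real.exp_log hs0).symm
    conv_lhs => rw [this]
    push_cast
    rw [← Complex.exp_nat_mul]
    congr 1
    push_cast
    ring
  rw [e3, ← Complex.exp_add]
  congr 1
  push_cast
  ring

/-- the terms of the double series -/
def FF {n : ℕ} (p q : ℂ) (t : ℝ) (jk : ℕ × ℕ) (x : Mt n n × Mt n n) : ℂ :=
  fp p x.1 * fp q x.2 * (((t : ℂ) * ip x.1 x.2) ^ jk.1 / (jk.1.factorial : ℂ) *
    (((t : ℂ) * (starRingEnd ℂ) (ip x.1 x.2)) ^ jk.2 / (jk.2.factorial : ℂ)))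

theorem exp_hasSum_one (z : ℂ) :
    HasSum (fun j : ℕ => z ^ j / (j.factorial : ℂ)) (Complex.exp z) := by
  rw [Complex.exp_eq_exp_ℂ]
  exact NormedSpace.expSeries_div_hasSum_exp z

theorem mul_gen {f g : ℕ → ℂ} {a b : ℂ} (hz : HasSum f a) (hw : HasSum g b) :
    HasSum (fun jk : ℕ × ℕ => f jk.1 * g jk.2) (a * b) := by
  have hz1 : Summable (fun j : ℕ => ‖f j‖) := hz.summable.norm
  have hw1 : Summable (fun j : ℕ => ‖g j‖) := hw.summable.norm
  exact hz.mul hw (summable_mul_of_summable_norm hz1 hw1)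

theorem exp_hasSum (z w : ℂ) :
    HasSum (fun jk : ℕ × ℕ => z ^ jk.1 / (jk.1.factorial : ℂ) * (w ^ jk.2 / (jk.2.factorial : ℂ)))
      (Complex.exp z * Complex.exp w) :=
  mul_gen (f := fun j : ℕ => z ^ j / (j.factorial : ℂ))
    (g := fun j : ℕ => w ^ j / (j.factorial : ℂ)) (exp_hasSum_one z) (exp_hasSum_one w)

theorem exp_hasSum_real (a b : ℝ) :
    HasSum (fun jk : ℕ × ℕ => a ^ jk.1 / (jk.1.factorial : ℝ) * (b ^ jk.2 / (jk.2.factorial : ℝ)))
      (Real.exp a * Real.exp b) := by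
  have hz : HasSum (fun j : ℕ => a ^ j / (j.factorial : ℝ)) (Real.exp a) := by
    rw [Real.exp_eq_exp_ℝ]
    exact NormedSpace.expSeries_div_hasSum_exp a
  have hw : HasSum (fun j : ℕ => b ^ j / (j.factorial : ℝ)) (Real.exp b) := by
    rw [Real.exp_eq_exp_ℝ]
    exact NormedSpace.expSeries_div_hasSum_exp b
  exact hz.mul hw (summable_mul_of_summable_norm hz.summable.norm hw.summable.norm)

/-- the dominating function -/
def GG {n : ℕ} (p q : ℂ) (t : ℝ) (x : Mt n n × Mt n n) : ℝ :=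
  ‖fp p x.1‖ * Real.exp (t * nsq x.1) * (‖fp q x.2‖ * Real.exp (t * nsq x.2))

theorem integrable_half (hR : S_ROW) (n : ℕ) (p : ℂ) (hp : -1 < p.re) (t : ℝ) (ht : t < 1) :
    Integrable (fun B : Mt n n => ‖fp p B‖ * Real.exp (t * nsq B)) (gau n n) := by
  have h1 := ((hR.1 n p (fun _ => t) hp (fun _ => ht)).1).norm
  refine h1.congr (Filter.Eventually.of_forall fun B => ?_)
  simp only
  rw [norm_mul, Complex.norm_real, Real.norm_eq_abs, abs_of_pos (Real.exp_pos _),
    ← Finset.mul_sum]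
  rfl

theorem integrable_GG (hR : S_ROW) (n : ℕ) (p q : ℂ) (hp : -1 < p.re) (hq : -1 < q.re)
    (t : ℝ) (ht : t < 1) : Integrable (GG p q t : Mt n n × Mt n n → ℝ) (gg n) :=
  (integrable_half hR n p hp t ht).mul_prod (integrable_half hR n q hq t ht)

theorem sum_FF_le {n : ℕ} (p q : ℂ) {t : ℝ} (ht : 0 ≤ t) (S : Finset (ℕ × ℕ))
    (x : Mt n n × Mt n n) : ∑ jk ∈ S, ‖FF p q t jk x‖ ≤ GG p q t x := by
  have h1 : ∀ jk : ℕ × ℕ, ‖FF p q t jk x‖ = ‖fp p x.1‖ * ‖fp q x.2‖ *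
      ((t * ‖ip x.1 x.2‖) ^ jk.1 / (jk.1.factorial : ℝ) *
        ((t * ‖ip x.1 x.2‖) ^ jk.2 / (jk.2.factorial : ℝ))) := by
    intro jk
    unfold FF
    simp only [norm_mul, norm_div, norm_pow, RCLike.norm_conj, Complex.norm_real,
      Real.norm_eq_abs, abs_of_nonneg ht, Complex.norm_natCast]
  simp only [h1]
  rw [← Finset.mul_sum]
  have h2 := sum_le_hasSum S (fun jk _ => by positivity)
    (exp_hasSum_real (t * ‖ip x.1 x.2‖) (t * ‖ip x.1 x.2‖))
  have h3 : Real.exp (t * ‖ip x.1 x.2‖) * Real.exp (t * ‖ip x.1 x.2‖) ≤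
      Real.exp (t * nsq x.1) * Real.exp (t * nsq x.2) := by
    rw [← Real.exp_add, ← Real.exp_add]
    refine Real.exp_le_exp.2 ?_
    have := mul_le_mul_of_nonneg_left (norm_ip_le x.1 x.2) ht
    linarith
  calc ‖fp p x.1‖ * ‖fp q x.2‖ * ∑ jk ∈ S, ((t * ‖ip x.1 x.2‖) ^ jk.1 / (jk.1.factorial : ℝ) *
        ((t * ‖ip x.1 x.2‖) ^ jk.2 / (jk.2.factorial : ℝ)))
      ≤ ‖fp p x.1‖ * ‖fp q x.2‖ * (Real.exp (t * nsq x.1) * Real.exp (t * nsq x.2)) :=
        mul_le_mul_of_nonneg_left (h2.trans h3) (by positivity)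
    _ = GG p q t x := by
        unfold GG
        ring

theorem measurable_FF {n : ℕ} (p q : ℂ) (t : ℝ) (jk : ℕ × ℕ) :
    Measurable (FF p q t jk : Mt n n × Mt n n → ℂ) := by
  have h1 : Measurable (fun x : Mt n n × Mt n n => fp p x.1) :=
    (NX.measurable_fp n p).comp measurable_fst
  have h2 : Measurable (fun x : Mt n n × Mt n n => fp q x.2) :=
    (NX.measurable_fp n q).comp measurable_snd
  have h3 := measurable_ip n n
  have h4 : Measurable (fun x : Mt n n × Mt n n => (starRingEnd ℂ) (ip x.1 x.2)) :=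
    Complex.continuous_conj.measurable.comp h3
  unfold FF
  exact (h1.mul h2).mul ((((h3.const_mul _).pow_const _).div_const _).mul
    (((h4.const_mul _).pow_const _).div_const _))

theorem integrable_FF (hR : S_ROW) (n : ℕ) (p q : ℂ) (hp : -1 < p.re) (hq : -1 < q.re)
    (t : ℝ) (h0 : 0 ≤ t) (ht : t < 1) (jk : ℕ × ℕ) :
    Integrable (FF p q t jk : Mt n n × Mt n n → ℂ) (gg n) := by
  refine (integrable_GG hR n p q hp hq t ht).mono' (measurable_FF p q t jk).aestronglyMeasurable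
    (Filter.Eventually.of_forall fun x => ?_)
  have := sum_FF_le p q h0 {jk} x
  rwa [Finset.sum_singleton] at this

theorem tsum_FF {n : ℕ} (p q : ℂ) (t : ℝ) (x : Mt n n × Mt n n) :
    ∑' jk, FF p q t jk x = HH p q t x := by
  unfold FF HH
  rw [tsum_mul_left, (exp_hasSum _ _).tsum_eq]
  congr 1
  rw [← Complex.exp_add, Complex.ofReal_exp]
  congr 1
  have h := Complex.add_conj (ip x.1 x.2)
  push_cast at h ⊢
  linear_combination (t : ℂ) * h

theorem hasSum_FF (hR : S_ROW) (n : ℕ) (p q : ℂ) (hp : -1 < p.re) (hq : -1 < q.re)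
    (t : ℝ) (h0 : 0 ≤ t) (ht : t < 1) :
    HasSum (fun jk => ∫ x, FF p q t jk x ∂gg n) (∫ x : Mt n n × Mt n n, HH p q t x ∂gg n) := by
  have hi := integrable_FF hR n p q hp hq t h0 ht
  have hG := integrable_GG hR n p q hp hq t ht
  have h1 := hasSum_integral_of_summable_integral_norm (F := fun jk : ℕ × ℕ =>
    (FF p q t jk : Mt n n × Mt n n → ℂ)) (μ := gg n) hi ?_
  · simp only [tsum_FF] at h1
    exact h1
  · refine summable_of_sum_le (c := ∫ x, GG p q t x ∂gg n) (fun jk => by positivity) ?_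
    intro S
    rw [← integral_finsetSum S (fun jk _ => (hi jk).norm)]
    refine integral_mono (integrable_finsetSum S fun jk _ => (hi jk).norm) hG ?_
    intro x
    exact sum_FF_le p q h0 S x

theorem off_diag (hT : S_ROT) (n : ℕ) (p q : ℂ) (t : ℝ) (jk : ℕ × ℕ) (hne : jk.1 ≠ jk.2) :
    ∫ x : Mt n n × Mt n n, FF p q t jk x ∂gg n = 0 := by
  set m : ℝ := (jk.1 : ℝ) - jk.2 with hm
  have hm0 : m ≠ 0 := by
    rw [hm, sub_ne_zero]
    exact_mod_cast hne
  set c : ℂ := Complex.exp (((Real.pi / m : ℝ) : ℂ) * I) with hc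
  have hcn : ‖c‖ = 1 := by
    rw [hc, Complex.norm_exp_ofReal_mul_I]
  have hcc : c ^ jk.1 * ((starRingEnd ℂ) c) ^ jk.2 = -1 := by
    have h1 : (starRingEnd ℂ) c = Complex.exp (-(((Real.pi / m : ℝ) : ℂ) * I)) := by
      rw [hc, ← Complex.exp_conj]
      congr 1
      rw [map_mul, Complex.conj_ofReal, Complex.conj_I]
      ring
    rw [h1, hc, ← Complex.exp_nat_mul, ← Complex.exp_nat_mul, ← Complex.exp_add,
      ← Complex.exp_pi_mul_I]
    congr 1
    have h2 : ((m : ℝ) : ℂ) ≠ 0 := by exact_mod_cast hm0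
    have h3 : ((m : ℝ) : ℂ) = (jk.1 : ℂ) - jk.2 := by
      rw [hm]; push_cast; ring
    push_cast
    rw [h3] at h2 ⊢
    field_simp
    ring
  have hmp := hT n n c 0 0 1 (by rw [hcn]; simp) (by simp) (by simp)
  have h4 : ∀ x : Mt n n × Mt n n,
      FF p q t jk (c • x.1 + (0 : ℂ) • x.2, (0 : ℂ) • x.1 + (1 : ℂ) • x.2) = -FF p q t jk x := by
    intro x
    have e1 : (c • x.1 + (0 : ℂ) • x.2 : Mt n n) = c • x.1 := by simp
    have e2 : ((0 : ℂ) • x.1 + (1 : ℂ) • x.2 : Mt n n) = x.2 := by simp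
    rw [e1, e2]
    unfold FF
    simp only
    have e3 : ip (c • x.1) x.2 = c * ip x.1 x.2 := by
      unfold ip
      rw [Finset.mul_sum]
      refine Finset.sum_congr rfl fun i _ => ?_
      rw [Finset.mul_sum]
      refine Finset.sum_congr rfl fun j _ => ?_
      simp only [Pi.smul_apply, smul_eq_mul]
      ring
    rw [e3, fp_unit p hcn, map_mul]
    have e4 : ((t : ℂ) * (c * ip x.1 x.2)) ^ jk.1 *
        ((t : ℂ) * ((starRingEnd ℂ) c * (starRingEnd ℂ) (ip x.1 x.2))) ^ jk.2 =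
        (c ^ jk.1 * ((starRingEnd ℂ) c) ^ jk.2) * (((t : ℂ) * ip x.1 x.2) ^ jk.1 *
          ((t : ℂ) * (starRingEnd ℂ) (ip x.1 x.2)) ^ jk.2) := by
      rw [mul_pow, mul_pow, mul_pow, mul_pow, mul_pow, mul_pow]
      ring
    rw [hcc] at e4
    linear_combination (fp p x.1 * fp q x.2 / (jk.1.factorial : ℂ) / (jk.2.factorial : ℂ)) * e4
  have h5 : ∫ x : Mt n n × Mt n n, FF p q t jk x ∂gg n =
      ∫ x : Mt n n × Mt n n, FF p q t jk
        (c • x.1 + (0 : ℂ) • x.2, (0 : ℂ) • x.1 + (1 : ℂ) • x.2) ∂gg n := by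
    have hmm : Measurable (fun x : Mt n n × Mt n n =>
      (c • x.1 + (0 : ℂ) • x.2, (0 : ℂ) • x.1 + (1 : ℂ) • x.2)) := hmp.measurable
    have h6 := integral_map (μ := gg n) hmm.aemeasurable
      (f := (FF p q t jk : Mt n n × Mt n n → ℂ)) (measurable_FF p q t jk).aestronglyMeasurable
    have h7 : Measure.map (fun x : Mt n n × Mt n n =>
      (c • x.1 + (0 : ℂ) • x.2, (0 : ℂ) • x.1 + (1 : ℂ) • x.2)) (gg n) = gg n := hmp.map_eq
    rw [h7] at h6
    exact h6
  simp only [h4] at h5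
  rw [integral_neg] at h5
  have h8 : (2 : ℂ) * ∫ x : Mt n n × Mt n n, FF p q t jk x ∂gg n = 0 := by
    linear_combination h5
  simpa using h8

theorem on_diag (n : ℕ) (p q : ℂ) (r : ℝ) (h0 : 0 ≤ r) (k : ℕ) :
    ∫ x : Mt n n × Mt n n, FF p q (√r) (k, k) x ∂gg n =
      ((r ^ k / (k.factorial : ℝ) ^ 2 : ℝ) : ℂ) * mom n p q k := by
  unfold mom
  rw [← integral_const_mul]
  congr 1
  funext x
  unfold FF
  simp only
  have h1 : (ip x.1 x.2) ^ k * ((starRingEnd ℂ) (ip x.1 x.2)) ^ k =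
      ((‖ip x.1 x.2‖ ^ (2 * k) : ℝ) : ℂ) := by
    rw [← mul_pow, Complex.mul_conj, Complex.normSq_eq_norm_sq]
    push_cast
    rw [pow_mul]
  have h2 : ((√r : ℝ) : ℂ) ^ k * ((√r : ℝ) : ℂ) ^ k = ((r ^ k : ℝ) : ℂ) := by
    rw [← mul_pow, ← Complex.ofReal_mul, Real.mul_self_sqrt h0]
    push_cast
    rfl
  rw [mul_pow, mul_pow, ← h1]
  push_cast at h2 ⊢
  rw [← h2]
  have h3 : (k.factorial : ℂ) ≠ 0 := by exact_mod_cast k.factorial_ne_zero
  field_simp

end

end SX

open SX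

theorem s_SER (_h1 : S_N) (hR : S_ROW) (hD : S_DEN) (hN : S_NUL) (hT : S_ROT) : S_SER := by
  intro n p q r hp hq h0 h1
  have ht0 : 0 ≤ √r := Real.sqrt_nonneg r
  have ht1 : √r < 1 := by
    rw [Real.sqrt_lt' one_pos]
    simpa using h1
  have hs := hasSum_FF hR n p q hp hq (√r) ht0 ht1
  have hinj : Function.Injective (fun k : ℕ => ((k, k) : ℕ × ℕ)) := fun a b h => by
    simpa using h
  have hz : ∀ jk : ℕ × ℕ, jk ∉ Set.range (fun k : ℕ => ((k, k) : ℕ × ℕ)) →
      ∫ x : Mt n n × Mt n n, FF p q (√r) jk x ∂gg n = 0 := by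
    intro jk hjk
    apply off_diag hT
    intro he
    exact hjk ⟨jk.1, Prod.ext rfl he⟩
  have hd := (hinj.hasSum_iff hz).2 hs
  have hcomp : ((fun jk : ℕ × ℕ => ∫ x : Mt n n × Mt n n, FF p q (√r) jk x ∂gg n) ∘
      fun k : ℕ => ((k, k) : ℕ × ℕ)) =
      fun k : ℕ => ((r ^ k / (k.factorial : ℝ) ^ 2 : ℝ) : ℂ) * mom n p q k := by
    funext k
    exact on_diag n p q r h0 k
  rw [hcomp] at hd
  have hr1 : 0 < 1 - r := by linarith
  have hne : ((1 - r : ℝ) : ℂ) ≠ 0 := by exact_mod_cast hr1.ne'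
  have hval : Psi n r p q * ((1 - r : ℝ) : ℂ) ^ (-((n : ℂ) ^ 2 + n * (p + q))) =
      ∫ x : Mt n n × Mt n n, HH p q (√r) x ∂gg n := by
    rw [psi_eq hD hN n p q r h0 h1, Complex.cpow_neg]
    have h2 : ((1 - r : ℝ) : ℂ) ^ ((n : ℂ) ^ 2 + n * (p + q)) ≠ 0 := by
      rw [Complex.cpow_def_of_ne_zero hne]
      exact Complex.exp_ne_zero _
    rw [mul_comm (_ ^ _) _, mul_assoc, mul_inv_cancel₀ h2, mul_one]
  rw [hval]
  exact hd

end Pool.Agent.R923.SE
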