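import Pool.Agent.R923.SE.Defs

/-!
Project SE (helper923): statements of the pieces.
-/

set_option autoImplicit false

open MeasureTheory Complex Filter Topology

namespace Pool.Agent.R923.SE

noncomputable section

/-- density form of `gau` -/
def S_DEN : Prop := ∀ n m : ℕ, gau n m = (volume : Measure (Mt n m)).withDensity
  (fun B => ENNReal.ofReal (Real.exp (-nsq B) / Real.pi ^ (n * m)))

/-- mixing two independent Gaussian matrices by a unitary `2 × 2` matrix -/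
def S_ROT : Prop := ∀ (n m : ℕ) (a b c d : ℂ), ‖a‖ ^ 2 + ‖b‖ ^ 2 = 1 → ‖c‖ ^ 2 + ‖d‖ ^ 2 = 1 →
  a * (starRingEnd ℂ) c + b * (starRingEnd ℂ) d = 0 →
  MeasurePreserving (fun x : Mt n m × Mt n m => (a • x.1 + b • x.2, c • x.1 + d • x.2))
    ((gau n m).prod (gau n m)) ((gau n m).prod (gau n m))

/-- unitary invariance, rows -/
def S_UL : Prop := ∀ (n m : ℕ) (U : Matrix (Fin n) (Fin n) ℂ), U ∈ Matrix.unitaryGroup (Fin n) ℂ →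
  MeasurePreserving (fun (B : Mt n m) (i : Fin n) (j : Fin m) => ∑ l, U i l * B l j)
    (gau n m) (gau n m)

/-- unitary invariance, columns -/
def S_UR : Prop := ∀ (n m : ℕ) (V : Matrix (Fin m) (Fin m) ℂ), V ∈ Matrix.unitaryGroup (Fin m) ℂ →
  MeasurePreserving (fun (B : Mt n m) (i : Fin n) (j : Fin m) => ∑ l, B i l * V l j)
    (gau n m) (gau n m)

/-- transposition -/
def S_TR : Prop := ∀ (n m : ℕ),
  MeasurePreserving (fun (B : Mt n m) (j : Fin m) (i : Fin n) => B i j) (gau n m) (gau m n)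

/-- moments of the determinant -/
def S_N : Prop := ∀ (n : ℕ) (p : ℂ), -1 < p.re →
  Integrable (fun A : Mt n n => fp p A) (gau n n) ∧ ∫ A : Mt n n, fp p A ∂gau n n = NN n p

/-- the determinant is almost surely not zero -/
def S_NUL : Prop := ∀ n : ℕ, ∀ᵐ A ∂gau n n, dt A ≠ 0

/-- row scaling -/
def S_ROW : Prop :=
  (∀ (n : ℕ) (q : ℂ) (d : Fin n → ℝ), -1 < q.re → (∀ i, d i < 1) →
    Integrable (fun B : Mt n n => fp q B * ((Real.exp (∑ i, d i * ∑ j, ‖B i j‖ ^ 2) : ℝ) : ℂ))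
      (gau n n) ∧
    ∫ B : Mt n n, fp q B * ((Real.exp (∑ i, d i * ∑ j, ‖B i j‖ ^ 2) : ℝ) : ℂ) ∂gau n n =
      NN n q * ∏ i, ((1 - d i : ℝ) : ℂ) ^ (-((n : ℂ) + q))) ∧
  (∀ (n m : ℕ) (d : Fin n → ℝ), (∀ i, d i < 1) →
    Integrable (fun B : Mt n m => Real.exp (∑ i, d i * ∑ j, ‖B i j‖ ^ 2)) (gau n m) ∧
    ∫ B : Mt n m, Real.exp (∑ i, d i * ∑ j, ‖B i j‖ ^ 2) ∂gau n m = ∏ i, ((1 - d i) ^ m)⁻¹)

/-- column scaling -/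
def S_COL : Prop :=
  ∀ (n : ℕ) (q : ℂ) (d : Fin n → ℝ), -1 < q.re → (∀ i, d i < 1) →
    Integrable (fun B : Mt n n => fp q B * ((Real.exp (∑ j, d j * ∑ i, ‖B i j‖ ^ 2) : ℝ) : ℂ))
      (gau n n) ∧
    ∫ B : Mt n n, fp q B * ((Real.exp (∑ j, d j * ∑ i, ‖B i j‖ ^ 2) : ℝ) : ℂ) ∂gau n n =
      NN n q * ∏ i, ((1 - d i : ℝ) : ℂ) ^ (-((n : ℂ) + q))

/-- power series of `Psi` at `r = 0` -/
def S_SER : Prop := ∀ (n : ℕ) (p q : ℂ) (r : ℝ), -1 < p.re → -1 < q.re → 0 ≤ r → r < 1 →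
  HasSum (fun k : ℕ => ((r ^ k / (k.factorial : ℝ) ^ 2 : ℝ) : ℂ) * mom n p q k)
    (Psi n r p q * ((1 - r : ℝ) : ℂ) ^ (-((n : ℂ) ^ 2 + n * (p + q))))

/-- everything polynomial is integrable against `fp` -/
def S_POL : Prop := ∀ (n : ℕ) (p : ℂ) (k : ℕ), -1 < p.re →
  Integrable (fun C : Mt n n => fp p C * (((nsq C) ^ k : ℝ) : ℂ)) (gau n n)

/-- right invariance: `ZZ` depends on the product only -/
def S_ZD : Prop := ∀ (n : ℕ) (p : ℂ) (k : ℕ) (X Y : Matrix (Fin n) (Fin n) ℂ), -1 < p.re →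
  ZZ n p k X Y = ZZ n p k 1 (X * Y)

/-- moments of `tr (S B Bᴴ)` are polynomials in the shape parameter -/
def S_LAG : Prop := ∀ (n k : ℕ) (S : Matrix (Fin n) (Fin n) ℂ),
  ∃ Q : Polynomial ℂ, Q.natDegree ≤ k ∧
    (∀ q : ℂ, -1 < q.re → ∫ B : Mt n n, fp q B *
      (Matrix.trace (S * (Matrix.of B * (Matrix.of B).conjTranspose))) ^ k ∂gau n n =
        NN n q * Q.eval ((n : ℂ) + q)) ∧
    (∀ m : ℕ, ∫ B : Mt n m,
      (Matrix.trace (S * (Matrix.of B * (Matrix.of B).conjTranspose))) ^ k ∂gau n m =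
        Q.eval (m : ℂ))

/-- the moments for a Gaussian matrix with `m ≤ n` columns, padded by zeros -/
def S_MC : Prop := ∀ (n m : ℕ) (hm : m ≤ n) (p : ℂ) (k : ℕ), -1 < p.re →
  Integrable (fun x : Mt n m × Mt n n => fp p x.2 *
    ((‖∑ i, ∑ j : Fin m, x.2 i (Fin.castLE hm j) * (starRingEnd ℂ) (x.1 i j)‖ ^ (2 * k) : ℝ) : ℂ))
    ((gau n m).prod (gau n n)) ∧
  ∫ x : Mt n m × Mt n n, fp p x.2 *
    ((‖∑ i, ∑ j : Fin m, x.2 i (Fin.castLE hm j) * (starRingEnd ℂ) (x.1 i j)‖ ^ (2 * k) : ℝ) : ℂ)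
    ∂((gau n m).prod (gau n n)) =
    NN n p * (k.factorial : ℂ) * (ascPochhammer ℂ k).eval ((m : ℂ) * (n + p))

/-- the first `n` moments -/
def S_MOM : Prop := ∀ (n : ℕ) (p q : ℂ) (k : ℕ), -1 < p.re → -1 < q.re → k ≤ n →
  mom n p q k = NN n p * NN n q * (k.factorial : ℂ) *
    (ascPochhammer ℂ k).eval (((n : ℂ) + p) * (n + q))

/-- positive definite kernels of the form `Ψ (a b)` have nonnegative Taylor coefficients -/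
def S_POS : Prop := ∀ (F : ℝ → ℝ) (c : ℕ → ℝ),
  (∀ r : ℝ, 0 ≤ r → r < 1 → HasSum (fun k => c k * r ^ k) (F r)) →
  (∀ (N : ℕ) (b α : Fin N → ℝ), (∀ i, 0 ≤ b i ∧ b i < 1) →
    0 ≤ ∑ i, ∑ j, α i * α j * F (b i * b j)) → ∀ k, 0 ≤ c k

/-- symmetry -/
def S_SYM : Prop := ∀ (n : ℕ) (r : ℝ) (p q : ℂ), 0 ≤ r → r ≤ 1 → Psi n r p q = Psi n r q p

/-- positive definiteness on the imaginary axis -/
def S_PD : Prop := ∀ (n : ℕ) (y : ℝ),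
  (∀ r : ℝ, 0 ≤ r → r ≤ 1 → (Psi n r (y * I) (-(y * I))).im = 0 ∧
    ‖Psi n r (y * I) (-(y * I))‖ ≤ 1) ∧
  ∀ (N : ℕ) (b α : Fin N → ℝ), (∀ i, 0 ≤ b i ∧ b i < 1) →
    0 ≤ ∑ i, ∑ j, α i * α j * (Psi n (b i * b j) (y * I) (-(y * I))).re

/-- the imaginary axis -/
def S_IMG : Prop := ∀ (n : ℕ) (y r : ℝ), 0 ≤ r → r < 1 →
  ‖Psi n r (y * I) (-(y * I)) - NN n (y * I) * NN n (-(y * I)) *
    ∑ k ∈ Finset.range (n + 1), (((ascPochhammer ℝ k).eval (y ^ 2) / k.factorial * r ^ k : ℝ) : ℂ)‖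
    ≤ r ^ (n + 1)

/-- Hölder bound, and analyticity -/
def S_HOL : Prop :=
  (∀ x : ℝ, 0 ≤ x → x < 1 → ∃ C : ℝ, 0 ≤ C ∧ ∀ (n : ℕ) (r : ℝ) (p : ℂ), 0 ≤ r → r ≤ 1 →
    0 ≤ p.re → p.re ≤ x → ‖Psi n r p (-p)‖ ≤ C * ((n : ℝ) + 1) ^ C) ∧
  (∀ (n : ℕ) (r : ℝ), 0 ≤ r → r ≤ 1 →
    DifferentiableOn ℂ (fun p => Psi n r p (-p)) {p : ℂ | |p.re| < 1}) ∧
  (∀ x : ℝ, 0 ≤ x → x < 1 → ∃ C : ℝ, 0 ≤ C ∧ ∀ (n : ℕ) (p : ℂ),
    0 ≤ p.re → p.re ≤ x → ‖NN n p * NN n (-p)‖ ≤ C * ((n : ℝ) + 1) ^ C)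

/-- asymptotics of the moments of the determinant -/
def S_BAR : Prop := ∀ K : Set ℂ, IsCompact K → (∀ a ∈ K, |a.re| < 1) →
  ContinuousOn (fun a => barnesG (1 + a) * barnesG (1 - a)) K ∧
  TendstoUniformlyOn (fun (n : ℕ) (a : ℂ) => NN n a * NN n (-a) * (n : ℂ) ^ (-(a ^ 2)) *
    (barnesG (1 + a) * barnesG (1 - a))) 1 atTop K

/-- reduction of the spherical ensemble to `Psi` -/
def S_SPH : Prop := ∀ (n : ℕ) (z γ : ℂ),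
  Esph n z γ = ((1 + ‖z‖ ^ 2 : ℝ) : ℂ) ^ ((n : ℂ) * γ / 2) *
    Psi n (‖z‖ ^ 2 / (1 + ‖z‖ ^ 2)) (γ / 2) (-(γ / 2))

/-- uniform asymptotics of `Psi` -/
def S_UNIF : Prop := ∀ (K : Set ℂ) (r0 : ℝ), IsCompact K → (∀ a ∈ K, |a.re| < 1) →
  0 ≤ r0 → r0 < 1 →
  TendstoUniformlyOn (fun (n : ℕ) (x : ℝ × ℂ) => Psi n x.1 x.2 (-x.2) /
    (NN n x.2 * NN n (-x.2) * ((1 - x.1 : ℝ) : ℂ) ^ (x.2 ^ 2))) 1 atTop (Set.Icc 0 r0 ×ˢ K)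

/-- the final statement -/
def S_FIN : Prop := ∀ (K Γ : Set ℂ), IsCompact K → IsCompact Γ → (∀ γ ∈ Γ, |γ.re| < 2) →
  TendstoUniformlyOn (fun (n : ℕ) (x : ℂ × ℂ) => Esph n x.1 x.2 /
    ((n : ℂ) ^ (x.2 ^ 2 / 4) * ((1 + ‖x.1‖ ^ 2 : ℝ) : ℂ) ^ (x.2 * n / 2 - x.2 ^ 2 / 4) /
      (barnesG (1 - x.2 / 2) * barnesG (1 + x.2 / 2)))) 1 atTop (K ×ˢ Γ)

end

end Pool.Agent.R923.SE
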