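import Pool.Agent.R923.SE.Stm

/-!
Project SE (helper923), piece UNIF (helper325): uniform asymptotics of `Psi` by the three lines
theorem.
-/

set_option autoImplicit false

open MeasureTheory Complex Filter Topology

namespace Pool.Agent.R923.SE.UnifAux

noncomputable section

/-- the coefficient `(s)_k / k!` -/
def co (s : ℝ) (k : ℕ) : ℝ := (ascPochhammer ℝ k).eval s / k.factorial

theorem co_nonneg {s : ℝ} (hs : 0 ≤ s) (k : ℕ) : 0 ≤ co s k := by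
  unfold co
  apply div_nonneg _ (by positivity)
  induction k with
  | zero => simp
  | succ k ih =>
    rw [ascPochhammer_succ_eval]
    positivity

theorem hs_congr {f g : ℕ → ℝ} {a : ℝ} (h : HasSum f a) (h2 : ∀ k, g k = f k) :
    HasSum g a := by
  have : g = f := funext h2
  rw [this]
  exact h

theorem hasSum_co (s r : ℝ) (hr0 : 0 ≤ r) (hr : r < 1) :
    HasSum (fun k : ℕ => co s k * r ^ k) ((1 - r) ^ (-s)) := by
  have h := (Real.one_div_one_sub_rpow_hasFPowerSeriesOnBall_zero s).hasSum (y := r) (by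
    rw [mem_eball_zero_iff, Real.enorm_eq_ofReal hr0]
    rw [← ENNReal.ofReal_one]
    exact (ENNReal.ofReal_lt_ofReal_iff one_pos).2 hr)
  simp only [zero_add, one_div] at h
  rw [Real.rpow_neg (by linarith)]
  refine hs_congr h fun k => ?_
  have h2 : Ring.choose (s + (k : ℝ) - 1) k = co s k := by
    have h3 : Ring.choose (s + (k : ℝ) - 1) k = Ring.multichoose s k := by
      show Ring.multichoose (s + (k : ℝ) - 1 - (k : ℝ) + 1) k = _
      congr 1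
      ring
    have h4 := Ring.factorial_nsmul_multichoose_eq_ascPochhammer s k
    rw [Polynomial.ascPochhammer_smeval_eq_eval] at h4
    rw [h3, co, ← h4, nsmul_eq_mul]
    field_simp
  rw [FormalMultilinearSeries.ofScalars_apply_eq, h2, smul_eq_mul]

/-- the tail of the binomial series -/
theorem tail_le (s r ρ : ℝ) (hs : 0 ≤ s) (hr0 : 0 ≤ r) (hρ : r ≤ ρ) (hρ0 : 0 < ρ) (hρ1 : ρ < 1)
    (N : ℕ) :
    |(1 - r) ^ (-s) - ∑ k ∈ Finset.range N, co s k * r ^ k| ≤ (r / ρ) ^ N * (1 - ρ) ^ (-s) := by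
  have h1 := hasSum_co s r hr0 (lt_of_le_of_lt hρ hρ1)
  have h2 := hasSum_co s ρ hρ0.le hρ1
  have h3 := (hasSum_nat_add_iff' N).2 h1
  have h4 := (hasSum_nat_add_iff' N).2 h2
  rw [abs_of_nonneg (h3.nonneg fun k => mul_nonneg (co_nonneg hs _) (by positivity))]
  have h5 : (1 - ρ) ^ (-s) - ∑ k ∈ Finset.range N, co s k * ρ ^ k ≤ (1 - ρ) ^ (-s) := by
    have : 0 ≤ ∑ k ∈ Finset.range N, co s k * ρ ^ k :=
      Finset.sum_nonneg fun k _ => mul_nonneg (co_nonneg hs _) (by positivity)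
    linarith
  refine le_trans ?_ (mul_le_mul_of_nonneg_left h5 (by positivity))
  refine hasSum_le (fun k => ?_) h3 (h4.mul_left ((r / ρ) ^ N))
  have h6 : r ^ (k + N) ≤ (r / ρ) ^ N * ρ ^ (k + N) := by
    have h7 : r ^ (k + N) = (r / ρ) ^ (k + N) * ρ ^ (k + N) := by
      rw [← mul_pow, div_mul_cancel₀ _ hρ0.ne']
    rw [h7, pow_add (r / ρ)]
    refine mul_le_mul_of_nonneg_right ?_ (by positivity)
    have h8 : (r / ρ) ^ k ≤ 1 := pow_le_one₀ (by positivity) ((div_le_one hρ0).2 hρ)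
    have h9 : 0 ≤ (r / ρ) ^ N := by positivity
    nlinarith
  have h7 := co_nonneg hs (k + N)
  calc co s (k + N) * r ^ (k + N) ≤ co s (k + N) * ((r / ρ) ^ N * ρ ^ (k + N)) :=
        mul_le_mul_of_nonneg_left h6 h7
    _ = _ := by ring

/-- the difference -/
def DD (n : ℕ) (r : ℝ) (p : ℂ) : ℂ :=
  Psi n r p (-p) - NN n p * NN n (-p) * ((1 - r : ℝ) : ℂ) ^ (p ^ 2)

theorem DD_neg (h3 : S_SYM) (n : ℕ) (r : ℝ) (p : ℂ) (h0 : 0 ≤ r) (h1 : r ≤ 1) :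
    DD n r (-p) = DD n r p := by
  unfold DD
  rw [neg_neg, h3 n r (-p) p h0 h1, neg_sq, mul_comm (NN n (-p))]

theorem NN_diff (n : ℕ) : DifferentiableOn ℂ (NN n) {p : ℂ | -1 < p.re} := by
  intro p hp
  apply DifferentiableAt.differentiableWithinAt
  unfold NN
  apply DifferentiableAt.fun_finsetProd
  intro j _
  apply DifferentiableAt.div_const
  have h := Complex.differentiableAt_Gamma ((j : ℂ) + 1 + p) (by
    intro m hm
    have h2 := congrArg Complex.re hm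
    simp at h2
    have hp' : -1 < p.re := hp
    have : (0 : ℝ) ≤ j := by positivity
    have : (0 : ℝ) ≤ m := by positivity
    linarith)
  exact h.comp p ((differentiableAt_const _).add differentiableAt_id)

theorem DD_diff (h2 : S_HOL) (n : ℕ) (r : ℝ) (h0 : 0 ≤ r) (h1 : r < 1) :
    DifferentiableOn ℂ (DD n r) {p : ℂ | |p.re| < 1} := by
  unfold DD
  apply DifferentiableOn.sub (h2.2.1 n r h0 h1.le)
  apply DifferentiableOn.mul
  · apply DifferentiableOn.mul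
    · refine (NN_diff n).mono ?_
      intro p hp
      exact (abs_lt.1 (show |p.re| < 1 from hp)).1
    · apply (NN_diff n).comp (differentiableOn_neg _)
      intro p hp
      have := (abs_lt.1 (show |p.re| < 1 from hp)).2
      show -1 < (-p).re
      simp
      exact this
  · intro p _
    apply DifferentiableAt.differentiableWithinAt
    apply DifferentiableAt.const_cpow
    · fun_prop
    · left
      norm_cast
      linarith

theorem re_sq (p : ℂ) : (p ^ 2).re = p.re ^ 2 - p.im ^ 2 := by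
  rw [sq, Complex.mul_re]; ring

theorem norm_exp_mul_sq (K0 : ℝ) (p : ℂ) :
    ‖Complex.exp ((K0 : ℂ) * p ^ 2)‖ = Real.exp (K0 * (p.re ^ 2 - p.im ^ 2)) := by
  rw [Complex.norm_exp, Complex.re_ofReal_mul, re_sq]

theorem norm_cpow_sq (r : ℝ) (hr : r < 1) (p : ℂ) :
    ‖((1 - r : ℝ) : ℂ) ^ (p ^ 2)‖ = (1 - r) ^ (p.re ^ 2 - p.im ^ 2) := by
  rw [Complex.norm_cpow_eq_rpow_re_of_pos (by linarith), re_sq]

/-- the bound on the imaginary axis -/
theorem imag_bound (h1 : S_IMG) (n : ℕ) (r r0 ρ K0 P : ℝ) (hr0 : 0 ≤ r) (hr : r ≤ r0)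
    (hρ : r0 < ρ) (hρ1 : ρ < 1) (hK : Real.exp (-K0) = 1 - ρ) (p : ℂ)
    (hp : p.re = 0) (hP : ‖NN n p * NN n (-p)‖ ≤ P) :
    ‖Complex.exp ((K0 : ℂ) * p ^ 2) * DD n r p‖ ≤ (1 + P) * (r0 / ρ) ^ (n + 1) := by
  have hρ0 : 0 < ρ := lt_of_le_of_lt (hr0.trans hr) hρ
  have hpI : p = ((p.im : ℝ) : ℂ) * I := by
    apply Complex.ext <;> simp [hp]
  set y := p.im with hy
  have hP0 : 0 ≤ P := (norm_nonneg _).trans hP
  have hr1 : r < 1 := by linarith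
  have e1 := h1 n y r hr0 hr1
  rw [← hpI] at e1
  have e2 : p ^ 2 = ((-(y ^ 2) : ℝ) : ℂ) := by
    rw [hpI, mul_pow, Complex.I_sq]; push_cast; ring
  have e3 : ((1 - r : ℝ) : ℂ) ^ (p ^ 2) = (((1 - r) ^ (-(y ^ 2)) : ℝ) : ℂ) := by
    rw [e2, Complex.ofReal_cpow (by linarith)]
  have e4 := tail_le (y ^ 2) r ρ (sq_nonneg y) hr0 (by linarith) hρ0 hρ1 (n + 1)
  have e5 : DD n r p = (Psi n r p (-p) - NN n p * NN n (-p) *
      ∑ k ∈ Finset.range (n + 1), (((ascPochhammer ℝ k).eval (y ^ 2) / k.factorial * r ^ k : ℝ) : ℂ))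
      - NN n p * NN n (-p) * ((((1 - r) ^ (-(y ^ 2)) - ∑ k ∈ Finset.range (n + 1),
        co (y ^ 2) k * r ^ k : ℝ)) : ℂ) := by
    rw [DD, e3]
    unfold co
    push_cast
    ring
  have e6 : ‖DD n r p‖ ≤ r ^ (n + 1) + P * ((r / ρ) ^ (n + 1) * (1 - ρ) ^ (-(y ^ 2))) := by
    rw [e5]
    refine (norm_sub_le _ _).trans (add_le_add e1 ?_)
    rw [norm_mul]
    refine mul_le_mul hP ?_ (norm_nonneg _) hP0
    rw [Complex.norm_real, Real.norm_eq_abs]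
    exact e4
  have e7 : ‖Complex.exp ((K0 : ℂ) * p ^ 2)‖ = (1 - ρ) ^ (y ^ 2) := by
    rw [norm_exp_mul_sq, hp, ← hK, ← Real.exp_mul]
    congr 1
    ring
  have e8 : (1 - ρ) ^ (y ^ 2) ≤ 1 := Real.rpow_le_one (by linarith) (by linarith) (sq_nonneg y)
  have e9 : (1 - ρ) ^ (y ^ 2) * (1 - ρ) ^ (-(y ^ 2)) = 1 := by
    rw [← Real.rpow_add (by linarith)]
    simp
  have e10 : 0 ≤ (1 - ρ) ^ (y ^ 2) := Real.rpow_nonneg (by linarith) _
  have e11 : (r / ρ) ^ (n + 1) ≤ (r0 / ρ) ^ (n + 1) := by gcongr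
  have e12 : r ^ (n + 1) ≤ (r / ρ) ^ (n + 1) := by
    apply pow_le_pow_left₀ hr0
    rw [le_div_iff₀ hρ0]
    nlinarith
  rw [norm_mul, e7]
  calc (1 - ρ) ^ (y ^ 2) * ‖DD n r p‖ ≤ (1 - ρ) ^ (y ^ 2) *
        (r ^ (n + 1) + P * ((r / ρ) ^ (n + 1) * (1 - ρ) ^ (-(y ^ 2)))) :=
        mul_le_mul_of_nonneg_left e6 e10
    _ = (1 - ρ) ^ (y ^ 2) * r ^ (n + 1) +
        P * (r / ρ) ^ (n + 1) * ((1 - ρ) ^ (y ^ 2) * (1 - ρ) ^ (-(y ^ 2))) := by ring
    _ = (1 - ρ) ^ (y ^ 2) * r ^ (n + 1) + P * (r / ρ) ^ (n + 1) := by rw [e9, mul_one]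
    _ ≤ 1 * r ^ (n + 1) + P * (r / ρ) ^ (n + 1) := by
        gcongr
    _ ≤ (r0 / ρ) ^ (n + 1) + P * (r0 / ρ) ^ (n + 1) := by
        have := mul_le_mul_of_nonneg_left e11 hP0
        linarith
    _ = _ := by ring

/-- the bound in the strip -/
theorem strip_crude (n : ℕ) (r ρ K0 P : ℝ) (hr0 : 0 ≤ r) (hρ : r ≤ ρ) (hρ1 : ρ < 1)
    (hK : Real.exp (-K0) = 1 - ρ) (hK0 : 0 ≤ K0) (p : ℂ) (hp : |p.re| ≤ 1)
    (hP : ‖NN n p * NN n (-p)‖ ≤ P) (hP2 : ‖Psi n r p (-p)‖ ≤ P) :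
    ‖Complex.exp ((K0 : ℂ) * p ^ 2) * DD n r p‖ ≤ 2 * Real.exp K0 * P := by
  have hP0 : 0 ≤ P := (norm_nonneg _).trans hP
  have hx : p.re ^ 2 ≤ 1 := by
    rw [← sq_abs]
    exact pow_le_one₀ (abs_nonneg _) hp
  have e0 : p.re ^ 2 - p.im ^ 2 ≤ 1 := by nlinarith [sq_nonneg p.im]
  set t := p.re ^ 2 - p.im ^ 2 with ht
  have e1 : ‖Complex.exp ((K0 : ℂ) * p ^ 2)‖ ≤ Real.exp K0 := by
    rw [norm_exp_mul_sq]
    apply Real.exp_le_exp.2
    nlinarith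
  have e2 : ‖Complex.exp ((K0 : ℂ) * p ^ 2)‖ * ‖((1 - r : ℝ) : ℂ) ^ (p ^ 2)‖ ≤ Real.exp K0 := by
    rw [norm_exp_mul_sq, norm_cpow_sq r (by linarith) p, ← ht]
    have hr1 : 0 < 1 - r := by linarith
    rw [Real.rpow_def_of_pos hr1, ← Real.exp_add]
    apply Real.exp_le_exp.2
    have e3 : -K0 ≤ Real.log (1 - r) := by
      rw [Real.le_log_iff_exp_le hr1, hK]
      linarith
    have e4 : Real.log (1 - r) ≤ 0 := Real.log_nonpos (by linarith) (by linarith)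
    nlinarith
  rw [norm_mul]
  have e5 : ‖DD n r p‖ ≤ P + P * ‖((1 - r : ℝ) : ℂ) ^ (p ^ 2)‖ := by
    unfold DD
    refine (norm_sub_le _ _).trans (add_le_add hP2 ?_)
    rw [norm_mul]
    exact mul_le_mul_of_nonneg_right hP (norm_nonneg _)
  calc ‖Complex.exp ((K0 : ℂ) * p ^ 2)‖ * ‖DD n r p‖
      ≤ ‖Complex.exp ((K0 : ℂ) * p ^ 2)‖ * (P + P * ‖((1 - r : ℝ) : ℂ) ^ (p ^ 2)‖) :=
        mul_le_mul_of_nonneg_left e5 (norm_nonneg _)
    _ = P * ‖Complex.exp ((K0 : ℂ) * p ^ 2)‖ +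
        P * (‖Complex.exp ((K0 : ℂ) * p ^ 2)‖ * ‖((1 - r : ℝ) : ℂ) ^ (p ^ 2)‖) := by ring
    _ ≤ P * Real.exp K0 + P * Real.exp K0 := by gcongr
    _ = _ := by ring

/-- the interpolated bound -/
theorem strip_bound (h1 : S_IMG) (h2 : S_HOL) (x0 r0 : ℝ) (hx0 : 0 ≤ x0) (hx1 : x0 < 1)
    (hr0 : 0 ≤ r0) (hr1 : r0 < 1) :
    ∃ (K0 A θ : ℝ) (c : ℕ), 0 ≤ K0 ∧ 0 ≤ A ∧ 0 ≤ θ ∧ θ < 1 ∧ ∀ (n : ℕ) (r : ℝ) (p : ℂ),
      0 ≤ r → r ≤ r0 → 0 ≤ p.re → p.re ≤ x0 →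
      ‖Complex.exp ((K0 : ℂ) * p ^ 2) * DD n r p‖ ≤ A * ((n : ℝ) + 1) ^ c * θ ^ (n + 1) := by
  obtain ⟨C1, hC1, hb1⟩ := h2.1 ((1 + x0) / 2) (by linarith) (by linarith)
  obtain ⟨C2, hC2, hb2⟩ := h2.2.2 ((1 + x0) / 2) (by linarith) (by linarith)
  set x1 := (1 + x0) / 2 with hx1d
  have hx01 : x0 < x1 := by rw [hx1d]; linarith
  have hx11 : x1 < 1 := by rw [hx1d]; linarith
  have hx1p : 0 < x1 := by linarith
  set ρ := (1 + r0) / 2 with hρd
  have hρ0 : 0 < ρ := by rw [hρd]; linarith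
  have hρr : r0 < ρ := by rw [hρd]; linarith
  have hρ1 : ρ < 1 := by rw [hρd]; linarith
  set K0 := -Real.log (1 - ρ) with hK0d
  have hK : Real.exp (-K0) = 1 - ρ := by
    rw [hK0d, neg_neg, Real.exp_log (by linarith)]
  have hK0 : 0 ≤ K0 := by
    have := Real.log_nonpos (show 0 ≤ 1 - ρ by linarith) (by linarith)
    linarith
  obtain ⟨c1, hc1⟩ := exists_nat_ge C1
  obtain ⟨c2, hc2⟩ := exists_nat_ge C2
  set c := c1 + c2 + 1 with hcd
  set P : ℕ → ℝ := fun n => (c : ℝ) * ((n : ℝ) + 1) ^ c with hPd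
  have hcc : (c : ℝ) = c1 + c2 + 1 := by rw [hcd]; push_cast; ring
  have key : ∀ (C : ℝ), 0 ≤ C → C ≤ c → ∀ n : ℕ, C * ((n : ℝ) + 1) ^ C ≤ P n := by
    intro C hC0 hC n
    have e1 : ((n : ℝ) + 1) ^ C ≤ ((n : ℝ) + 1) ^ c := by
      rw [← Real.rpow_natCast]
      exact Real.rpow_le_rpow_of_exponent_le (by linarith [(Nat.cast_nonneg n : (0 : ℝ) ≤ n)]) hC
    exact mul_le_mul hC e1 (by positivity) (by positivity)
  have hP1 : ∀ n, 1 ≤ P n := by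
    intro n
    have e1 : (1 : ℝ) ≤ c := by rw [hcc]; linarith [(Nat.cast_nonneg c1 : (0 : ℝ) ≤ c1), (Nat.cast_nonneg c2 : (0 : ℝ) ≤ c2)]
    have e2 : (1 : ℝ) ≤ ((n : ℝ) + 1) ^ c :=
      one_le_pow₀ (by linarith [(Nat.cast_nonneg n : (0 : ℝ) ≤ n)])
    calc (1 : ℝ) = 1 * 1 := by ring
      _ ≤ _ := mul_le_mul e1 e2 (by norm_num) (by positivity)
  have hle1 : C1 ≤ c := by
    rw [hcc]; linarith [(Nat.cast_nonneg c1 : (0 : ℝ) ≤ c1), (Nat.cast_nonneg c2 : (0 : ℝ) ≤ c2)]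
  have hle2 : C2 ≤ c := by
    rw [hcc]; linarith [(Nat.cast_nonneg c1 : (0 : ℝ) ≤ c1), (Nat.cast_nonneg c2 : (0 : ℝ) ≤ c2)]
  have hNN : ∀ (n : ℕ) (p : ℂ), 0 ≤ p.re → p.re ≤ x1 → ‖NN n p * NN n (-p)‖ ≤ P n :=
    fun n p h h' => (hb2 n p h h').trans (key C2 hC2 hle2 n)
  have hPsi : ∀ (n : ℕ) (r : ℝ) (p : ℂ), 0 ≤ r → r ≤ 1 → 0 ≤ p.re → p.re ≤ x1 →
      ‖Psi n r p (-p)‖ ≤ P n :=
    fun n r p h h' h'' h''' => (hb1 n r p h h' h'' h''').trans (key C1 hC1 hle1 n)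
  set q := r0 / ρ with hqd
  have hq0 : 0 ≤ q := by positivity
  have hq1 : q < 1 := (div_lt_one hρ0).2 hρr
  set δ := 1 - x0 / x1 with hδd
  have hδ0 : 0 < δ := by
    have := (div_lt_one hx1p).2 hx01
    linarith
  refine ⟨K0, 2 * Real.exp K0 * c, q ^ δ, c, hK0, by positivity, Real.rpow_nonneg hq0 _,
    Real.rpow_lt_one hq0 hq1 hδ0, ?_⟩
  intro n r p hr0' hr hp0 hpx
  have hr1' : r < 1 := by linarith
  set M := 2 * Real.exp K0 * P n with hMd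
  have hM0 : 0 < M := by
    have := hP1 n
    positivity
  have hE1 : 1 ≤ Real.exp K0 := Real.one_le_exp hK0
  set f : ℂ → ℂ := fun p => Complex.exp ((K0 : ℂ) * p ^ 2) * DD n r p with hf
  have hsub : HadamardThreeLines.verticalClosedStrip 0 x1 ⊆ {p : ℂ | |p.re| < 1} := by
    intro z hz
    have hz' : z.re ∈ Set.Icc 0 x1 := hz
    show |z.re| < 1
    rw [abs_lt]
    constructor
    · linarith [hz'.1]
    · linarith [hz'.2]
  have hdiff : DifferentiableOn ℂ f {p : ℂ | |p.re| < 1} := by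
    apply DifferentiableOn.mul _ (DD_diff h2 n r hr0' hr1')
    apply Differentiable.differentiableOn
    fun_prop
  have hcl : DiffContOnCl ℂ f (HadamardThreeLines.verticalStrip 0 x1) := by
    apply DifferentiableOn.diffContOnCl
    apply hdiff.mono
    refine Set.Subset.trans ?_ hsub
    apply closure_minimal
    · intro z hz
      have hz' : z.re ∈ Set.Ioo 0 x1 := hz
      exact (⟨hz'.1.le, hz'.2.le⟩ : z.re ∈ Set.Icc 0 x1)
    · exact isClosed_Icc.preimage Complex.continuous_re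
  have hbd : ∀ z ∈ HadamardThreeLines.verticalClosedStrip 0 x1, ‖f z‖ ≤ M := by
    intro z hz
    have hz' : z.re ∈ Set.Icc 0 x1 := hz
    exact strip_crude n r ρ K0 (P n) hr0' (by linarith) hρ1 hK hK0 z (hsub hz).le
      (hNN n z hz'.1 hz'.2) (hPsi n r z hr0' hr1'.le hz'.1 hz'.2)
  have hthree := HadamardThreeLines.norm_le_interp_of_mem_verticalClosedStrip' (f := f) (z := p)
    (a := M * q ^ (n + 1)) (b := M) (l := 0) (u := x1) hx1p
    (show p.re ∈ Set.Icc 0 x1 from ⟨hp0, by linarith⟩) hcl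
    ⟨M, by
      rintro _ ⟨z, hz, rfl⟩
      exact hbd z hz⟩
    (by
      intro z hz
      have hz' : z.re = 0 := hz
      refine (imag_bound h1 n r r0 ρ K0 (P n) hr0' hr hρr hρ1 hK z hz'
        (hNN n z (by rw [hz']) (by rw [hz']; exact hx1p.le))).trans ?_
      apply mul_le_mul_of_nonneg_right _ (by positivity)
      have := hP1 n
      rw [hMd]
      nlinarith)
    (by
      intro z hz
      have hz' : z.re = x1 := hz
      exact hbd z (show z.re ∈ Set.Icc 0 x1 from ⟨by rw [hz']; exact hx1p.le, by rw [hz']⟩))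
  rw [sub_zero, sub_zero] at hthree
  refine hthree.trans ?_
  set t := p.re / x1 with ht
  have ht0 : 0 ≤ t := by positivity
  have ht1 : t ≤ x0 / x1 := by rw [ht]; gcongr
  have ht2 : δ ≤ 1 - t := by rw [hδd]; linarith
  have hqn0 : 0 ≤ q ^ (n + 1) := by positivity
  rw [Real.mul_rpow hM0.le hqn0]
  have e1 : M ^ (1 - t) * (q ^ (n + 1)) ^ (1 - t) * M ^ t = M * (q ^ (n + 1)) ^ (1 - t) := by
    have : M ^ (1 - t) * M ^ t = M := by
      rw [← Real.rpow_add hM0]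
      simp
    calc _ = (M ^ (1 - t) * M ^ t) * (q ^ (n + 1)) ^ (1 - t) := by ring
      _ = _ := by rw [this]
  rw [e1]
  have e2 : (q ^ (n + 1)) ^ (1 - t) ≤ (q ^ δ) ^ (n + 1) := by
    have e3 : (q ^ δ) ^ (n + 1) = (q ^ (n + 1)) ^ δ := by
      rw [← Real.rpow_natCast, ← Real.rpow_mul hq0, ← Real.rpow_natCast, ← Real.rpow_mul hq0,
        mul_comm]
    rw [e3]
    apply Real.rpow_le_rpow_of_exponent_ge' hqn0 (pow_le_one₀ hq0 hq1.le) hδ0.le ht2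
  calc M * (q ^ (n + 1)) ^ (1 - t) ≤ M * (q ^ δ) ^ (n + 1) := mul_le_mul_of_nonneg_left e2 hM0.le
    _ = _ := by rw [hMd, hPd]; ring

end

end Pool.Agent.R923.SE.UnifAux

namespace Pool.Agent.R923.SE

open UnifAux

/-- uniform asymptotics of `Psi` -/
theorem s_UNIF (h1 : S_IMG) (h2 : S_HOL) (h3 : S_SYM) (h4 : S_BAR) : S_UNIF := by
  intro K r0 hK hKre hr0 hr1
  rcases K.eq_empty_or_nonempty with rfl | hne
  · rw [Set.prod_empty]
    exact tendstoUniformlyOn_empty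
  obtain ⟨a0, ha0, hmax⟩ := hK.exists_isMaxOn hne (f := fun a : ℂ => |a.re|)
    (by fun_prop)
  have hx : ∀ a ∈ K, |a.re| ≤ |a0.re| := fun a ha => hmax ha
  obtain ⟨Y, hY⟩ := hK.exists_bound_of_continuousOn (f := fun a : ℂ => a.im)
    Complex.continuous_im.continuousOn
  obtain ⟨K0, A, θ, c, hK0, hA, hθ0, hθ1, hb⟩ :=
    strip_bound h1 h2 |a0.re| r0 (abs_nonneg _) (hKre a0 ha0) hr0 hr1
  obtain ⟨hGc, hG⟩ := h4 K hK hKre
  obtain ⟨M, hM⟩ := hK.exists_bound_of_continuousOn hGc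
  obtain ⟨m, hm⟩ := exists_nat_ge (Y ^ 2)
  have hM0 : 0 ≤ M := (norm_nonneg _).trans (hM a0 ha0)
  have hr1' : 0 < 1 - r0 := by linarith
  set B : ℝ := A * (2 * (M + 1)) / (Real.exp (-(K0 * Y ^ 2)) * (1 - r0)) with hB
  have hlim : Tendsto (fun n : ℕ => B * (((n : ℝ) + 1) ^ (c + m) * θ ^ (n + 1))) atTop (𝓝 0) := by
    have e1 := (tendsto_pow_const_mul_const_pow_of_abs_lt_one (c + m)
      (show |θ| < 1 by rw [abs_of_nonneg hθ0]; exact hθ1)).comp (tendsto_add_atTop_nat 1)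
    have e2 := e1.const_mul B
    rw [mul_zero] at e2
    refine e2.congr fun n => ?_
    simp [Function.comp]
  rw [Metric.tendstoUniformlyOn_iff]
  intro ε hε
  have hG' := (Metric.tendstoUniformlyOn_iff.1 hG) (1 / 2) (by norm_num)
  filter_upwards [hG', eventually_ge_atTop 1, hlim.eventually (gt_mem_nhds hε)] with n hn1 hn2 hn3
  rintro ⟨r, a⟩ ⟨hr, ha⟩
  have hr' : r ∈ Set.Icc 0 r0 := hr
  have ha' : a ∈ K := ha
  simp only [Pi.one_apply]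
  have hn0 : (1 : ℝ) ≤ n := by exact_mod_cast hn2
  have hr2 : r < 1 := lt_of_le_of_lt hr'.2 hr1
  -- lower bound for the normalisation
  have f1 := hn1 a ha'
  rw [Pi.one_apply, Complex.dist_eq] at f1
  have f2 : 1 / 2 ≤ ‖NN n a * NN n (-a) * (n : ℂ) ^ (-(a ^ 2)) *
      (barnesG (1 + a) * barnesG (1 - a))‖ := by
    have := norm_sub_norm_le (1 : ℂ) (NN n a * NN n (-a) * (n : ℂ) ^ (-(a ^ 2)) *
      (barnesG (1 + a) * barnesG (1 - a)))
    rw [norm_one] at this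
    linarith
  have hre2 : |a.re| < 1 := hKre a ha'
  have hre3 : a.re ^ 2 ≤ 1 := by
    rw [← sq_abs]; exact pow_le_one₀ (abs_nonneg _) hre2.le
  have him : a.im ^ 2 ≤ Y ^ 2 := by
    have := hY a ha'
    rw [Real.norm_eq_abs] at this
    rw [← sq_abs]
    exact pow_le_pow_left₀ (abs_nonneg _) this 2
  have f3 : ‖(n : ℂ) ^ (-(a ^ 2))‖ ≤ ((n : ℝ) + 1) ^ m := by
    have e1 : ‖(n : ℂ) ^ (-(a ^ 2))‖ = (n : ℝ) ^ (-(a ^ 2)).re := by
      have := Complex.norm_cpow_eq_rpow_re_of_pos (show (0 : ℝ) < n by linarith) (-(a ^ 2))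
      rw [← this]
      simp
    rw [e1, Complex.neg_re, re_sq]
    have e2 : (n : ℝ) ^ (-(a.re ^ 2 - a.im ^ 2)) ≤ (n : ℝ) ^ (m : ℝ) := by
      apply Real.rpow_le_rpow_of_exponent_le hn0
      nlinarith [sq_nonneg a.re]
    rw [Real.rpow_natCast] at e2
    exact e2.trans (pow_le_pow_left₀ (by linarith) (by linarith) m)
  have f4 : 1 / 2 ≤ ‖NN n a * NN n (-a)‖ * ((n : ℝ) + 1) ^ m * (M + 1) := by
    refine f2.trans ?_
    rw [norm_mul, norm_mul (NN n a * NN n (-a))]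
    have := hM a ha'
    have e1 : ‖barnesG (1 + a) * barnesG (1 - a)‖ ≤ M + 1 := by linarith
    gcongr
  have f5 : Real.exp (-(K0 * Y ^ 2)) ≤ ‖Complex.exp ((K0 : ℂ) * a ^ 2)‖ := by
    rw [norm_exp_mul_sq]
    apply Real.exp_le_exp.2
    nlinarith [sq_nonneg a.re]
  have f6 : 1 - r0 ≤ ‖((1 - r : ℝ) : ℂ) ^ (a ^ 2)‖ := by
    rw [norm_cpow_sq r hr2 a]
    have e1 : (1 - r) ^ (1 : ℝ) ≤ (1 - r) ^ (a.re ^ 2 - a.im ^ 2) := by
      apply Real.rpow_le_rpow_of_exponent_ge (by linarith) (by linarith [hr'.1])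
      nlinarith [sq_nonneg a.im]
    rw [Real.rpow_one] at e1
    linarith [hr'.2]
  have f7 : ‖Complex.exp ((K0 : ℂ) * a ^ 2) * DD n r a‖ ≤ A * ((n : ℝ) + 1) ^ c * θ ^ (n + 1) := by
    rcases le_total 0 a.re with h | h
    · exact hb n r a hr'.1 hr'.2 h ((le_abs_self _).trans (hx a ha'))
    · have := hb n r (-a) hr'.1 hr'.2 (by rw [Complex.neg_re]; linarith)
        (by rw [Complex.neg_re]; exact (neg_le_abs _).trans (hx a ha'))
      rwa [neg_sq, DD_neg h3 n r a hr'.1 hr2.le] at this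
  have hNN : 0 < ‖NN n a * NN n (-a)‖ := by
    by_contra hc
    have : ‖NN n a * NN n (-a)‖ = 0 := le_antisymm (not_lt.1 hc) (norm_nonneg _)
    rw [this] at f4
    norm_num at f4
  have hcp : 0 < ‖((1 - r : ℝ) : ℂ) ^ (a ^ 2)‖ := lt_of_lt_of_le hr1' f6
  have hden : NN n a * NN n (-a) * ((1 - r : ℝ) : ℂ) ^ (a ^ 2) ≠ 0 :=
    mul_ne_zero (norm_pos_iff.1 hNN) (norm_pos_iff.1 hcp)
  have g1 : dist (1 : ℂ) (Psi n r a (-a) / (NN n a * NN n (-a) * ((1 - r : ℝ) : ℂ) ^ (a ^ 2))) =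
      ‖DD n r a‖ / (‖NN n a * NN n (-a)‖ * ‖((1 - r : ℝ) : ℂ) ^ (a ^ 2)‖) := by
    rw [dist_comm, Complex.dist_eq, ← norm_mul, ← norm_div]
    congr 1
    rw [DD, sub_div, div_self hden]
  rw [g1]
  have hexp : 0 < ‖Complex.exp ((K0 : ℂ) * a ^ 2)‖ := lt_of_lt_of_le (Real.exp_pos _) f5
  refine lt_of_le_of_lt ?_ hn3
  rw [norm_mul] at f7
  have hn1p : (0 : ℝ) < (n : ℝ) + 1 := by linarith
  have g2 : ‖DD n r a‖ ≤ A * ((n : ℝ) + 1) ^ c * θ ^ (n + 1) / Real.exp (-(K0 * Y ^ 2)) := by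
    rw [le_div_iff₀ (Real.exp_pos _), mul_comm]
    exact (mul_le_mul_of_nonneg_right f5 (norm_nonneg _)).trans f7
  have g3 : 1 / (2 * ((n : ℝ) + 1) ^ m * (M + 1)) ≤ ‖NN n a * NN n (-a)‖ := by
    rw [div_le_iff₀ (by positivity)]
    nlinarith [f4]
  have g4 : (1 / (2 * ((n : ℝ) + 1) ^ m * (M + 1))) * (1 - r0) ≤
      ‖NN n a * NN n (-a)‖ * ‖((1 - r : ℝ) : ℂ) ^ (a ^ 2)‖ :=
    mul_le_mul g3 f6 hr1'.le (norm_nonneg _)
  have hexp0 := Real.exp_pos (-(K0 * Y ^ 2))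
  calc ‖DD n r a‖ / (‖NN n a * NN n (-a)‖ * ‖((1 - r : ℝ) : ℂ) ^ (a ^ 2)‖)
      ≤ (A * ((n : ℝ) + 1) ^ c * θ ^ (n + 1) / Real.exp (-(K0 * Y ^ 2))) /
        ((1 / (2 * ((n : ℝ) + 1) ^ m * (M + 1))) * (1 - r0)) := by
        apply div_le_div₀ (by positivity) g2 (by positivity) g4
    _ = B * (((n : ℝ) + 1) ^ (c + m) * θ ^ (n + 1)) := by
        rw [hB, pow_add ((n : ℝ) + 1) c m]
        field_simp

end Pool.Agent.R923.SE
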