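import Pool.Agent.R923.SE.Aux206

/-!
Project SE, piece ZD (helper206): `ZZ(X, Y) = ZZ(1, XY)`.
-/

set_option autoImplicit false

open MeasureTheory Complex Filter Topology

namespace Pool.Agent.R923.SE.ZDx

open Pool.Agent.R923.SE Pool.Agent.R923.SE.A206

lemma mul_of {n : ℕ} (C : Mt n n) (V : Matrix (Fin n) (Fin n) ℂ) :
    Matrix.of (fun (i : Fin n) (j : Fin n) => ∑ l, C i l * V l j) = Matrix.of C * V := by
  ext i j; simp [Matrix.mul_apply]

lemma norm_det_unitary {n : ℕ} {U : Matrix (Fin n) (Fin n) ℂ}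
    (hU : U ∈ Matrix.unitaryGroup (Fin n) ℂ) : ‖U.det‖ = 1 := by
  have h := Matrix.mem_unitaryGroup_iff.mp hU
  have h2 : U.det * (starRingEnd ℂ) U.det = 1 := by
    have h3 := congrArg Matrix.det h
    rw [Matrix.det_mul, Matrix.det_one, Matrix.star_eq_conjTranspose,
      Matrix.det_conjTranspose] at h3
    exact h3
  have h4 : ‖U.det‖ * ‖U.det‖ = 1 := by
    have := congrArg norm h2
    simpa using this
  nlinarith [norm_nonneg U.det]

lemma fp_mul_right {n : ℕ} (p : ℂ) (C : Mt n n) {V : Matrix (Fin n) (Fin n) ℂ}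
    (hV : V ∈ Matrix.unitaryGroup (Fin n) ℂ) :
    fp p (fun (i : Fin n) (j : Fin n) => ∑ l, C i l * V l j) = fp p C := by
  unfold fp dt
  rw [mul_of, Matrix.det_mul, norm_mul, norm_det_unitary hV, mul_one]

/-- unitary case -/
lemma ZZ_unitary (h1 : S_UR) {n : ℕ} (p : ℂ) (k : ℕ) {U : Matrix (Fin n) (Fin n) ℂ}
    (Y : Matrix (Fin n) (Fin n) ℂ) (hU : U ∈ Matrix.unitaryGroup (Fin n) ℂ) :
    ZZ n p k U Y = ZZ n p k 1 (U * Y) := by
  unfold ZZ
  have hm := h1 n n U hU
  have hmeas : Measurable (fun C : Mt n n => fp p C *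
      (Matrix.trace (U * (Matrix.of C).conjTranspose)) ^ k * (Matrix.trace (Y * Matrix.of C)) ^ k) :=
    ((measurable_fp p).mul ((PB.trace_ct U).pow k).1.measurable).mul
      ((PB.trace_t Y).pow k).1.measurable
  have h := hm.map_eq
  have h2 : ∫ C : Mt n n, fp p C *
      (Matrix.trace (U * (Matrix.of C).conjTranspose)) ^ k *
        (Matrix.trace (Y * Matrix.of C)) ^ k ∂gau n n =
      ∫ C : Mt n n, fp p C *
      (Matrix.trace (U * (Matrix.of C).conjTranspose)) ^ k *
        (Matrix.trace (Y * Matrix.of C)) ^ k ∂((gau n n).map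
          (fun (B : Mt n n) (i : Fin n) (j : Fin n) => ∑ l, B i l * U l j)) := by
    rw [h]
  rw [h2, integral_map hm.measurable.aemeasurable hmeas.aestronglyMeasurable]
  refine integral_congr_ae (Filter.Eventually.of_forall fun C => ?_)
  simp only
  rw [fp_mul_right p C hU, mul_of]
  have e1 : U * (Matrix.of C * U).conjTranspose = (1 : Matrix (Fin n) (Fin n) ℂ) *
      (Matrix.of C).conjTranspose := by
    rw [Matrix.conjTranspose_mul, ← Matrix.mul_assoc]
    congr 1
    exact Matrix.mem_unitaryGroup_iff.mp hU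
  have e2 : Matrix.trace (Y * (Matrix.of C * U)) = Matrix.trace (U * Y * Matrix.of C) := by
    rw [← Matrix.mul_assoc, Matrix.trace_mul_comm, Matrix.mul_assoc]
  rw [e1, e2]

/-- the difference is a polynomial along complex lines, left -/
lemma ZZ_line_left (h2 : S_POL) {n : ℕ} {p : ℂ} (hp : -1 < p.re) (k : ℕ)
    (A B Y : Matrix (Fin n) (Fin n) ℂ) :
    ∃ P : Polynomial ℂ, ∀ ζ : ℂ, ZZ n p k (A + ζ • B) Y = P.eval ζ := by
  refine ⟨∑ m ∈ Finset.range (k + 1), Polynomial.C (∫ C : Mt n n, fp p C *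
      ((Matrix.trace (A * (Matrix.of C).conjTranspose)) ^ (k - m) *
        (Matrix.trace (B * (Matrix.of C).conjTranspose)) ^ m * (k.choose m : ℂ) *
          (Matrix.trace (Y * Matrix.of C)) ^ k) ∂gau n n) * Polynomial.X ^ m, fun ζ => ?_⟩
  rw [Polynomial.eval_finsetSum]
  simp only [Polynomial.eval_mul, Polynomial.eval_C, Polynomial.eval_pow, Polynomial.eval_X]
  unfold ZZ
  have hi : ∀ m ∈ Finset.range (k + 1), Integrable (fun C : Mt n n => fp p C *
      ((Matrix.trace (A * (Matrix.of C).conjTranspose)) ^ (k - m) *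
        (Matrix.trace (B * (Matrix.of C).conjTranspose)) ^ m * (k.choose m : ℂ) *
          (Matrix.trace (Y * Matrix.of C)) ^ k) * ζ ^ m) (gau n n) := by
    intro m _
    refine Integrable.mul_const ?_ _
    exact PB.integrable_fp h2 (((((PB.trace_ct A).pow _).mul ((PB.trace_ct B).pow _)).mul
      (PB.const _)).mul ((PB.trace_t Y).pow k)) hp
  have e : ∀ m ∈ Finset.range (k + 1), (∫ C : Mt n n, fp p C *
      ((Matrix.trace (A * (Matrix.of C).conjTranspose)) ^ (k - m) *
        (Matrix.trace (B * (Matrix.of C).conjTranspose)) ^ m * (k.choose m : ℂ) *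
          (Matrix.trace (Y * Matrix.of C)) ^ k) ∂gau n n) * ζ ^ m =
      ∫ C : Mt n n, fp p C *
      ((Matrix.trace (A * (Matrix.of C).conjTranspose)) ^ (k - m) *
        (Matrix.trace (B * (Matrix.of C).conjTranspose)) ^ m * (k.choose m : ℂ) *
          (Matrix.trace (Y * Matrix.of C)) ^ k) * ζ ^ m ∂gau n n := by
    intro m _
    rw [integral_mul_const]
  rw [Finset.sum_congr rfl e, ← integral_finsetSum _ hi]
  refine integral_congr_ae (Filter.Eventually.of_forall fun C => ?_)
  simp only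
  have e1 : Matrix.trace ((A + ζ • B) * (Matrix.of C).conjTranspose) =
      ζ * Matrix.trace (B * (Matrix.of C).conjTranspose) +
        Matrix.trace (A * (Matrix.of C).conjTranspose) := by
    rw [Matrix.add_mul, Matrix.trace_add, Matrix.smul_mul, Matrix.trace_smul, smul_eq_mul, add_comm]
  rw [e1, add_pow, Finset.mul_sum, Finset.sum_mul]
  refine Finset.sum_congr rfl fun m _ => ?_
  rw [mul_pow]; ring

/-- the same, right -/
lemma ZZ_line_right (h2 : S_POL) {n : ℕ} {p : ℂ} (hp : -1 < p.re) (k : ℕ)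
    (A B Y : Matrix (Fin n) (Fin n) ℂ) :
    ∃ P : Polynomial ℂ, ∀ ζ : ℂ, ZZ n p k 1 ((A + ζ • B) * Y) = P.eval ζ := by
  refine ⟨∑ m ∈ Finset.range (k + 1), Polynomial.C (∫ C : Mt n n, fp p C *
      ((Matrix.trace (A * Y * Matrix.of C)) ^ (k - m) *
        (Matrix.trace (B * Y * Matrix.of C)) ^ m * (k.choose m : ℂ) *
          (Matrix.trace (1 * (Matrix.of C).conjTranspose)) ^ k) ∂gau n n) * Polynomial.X ^ m,
            fun ζ => ?_⟩
  rw [Polynomial.eval_finsetSum]
  simp only [Polynomial.eval_mul, Polynomial.eval_C, Polynomial.eval_pow, Polynomial.eval_X]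
  unfold ZZ
  have hi : ∀ m ∈ Finset.range (k + 1), Integrable (fun C : Mt n n => fp p C *
      ((Matrix.trace (A * Y * Matrix.of C)) ^ (k - m) *
        (Matrix.trace (B * Y * Matrix.of C)) ^ m * (k.choose m : ℂ) *
          (Matrix.trace (1 * (Matrix.of C).conjTranspose)) ^ k) * ζ ^ m) (gau n n) := by
    intro m _
    refine Integrable.mul_const ?_ _
    exact PB.integrable_fp h2 (((((PB.trace_t (A * Y)).pow _).mul
      ((PB.trace_t (B * Y)).pow _)).mul (PB.const _)).mul ((PB.trace_ct 1).pow k)) hp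
  have e : ∀ m ∈ Finset.range (k + 1), (∫ C : Mt n n, fp p C *
      ((Matrix.trace (A * Y * Matrix.of C)) ^ (k - m) *
        (Matrix.trace (B * Y * Matrix.of C)) ^ m * (k.choose m : ℂ) *
          (Matrix.trace (1 * (Matrix.of C).conjTranspose)) ^ k) ∂gau n n) * ζ ^ m =
      ∫ C : Mt n n, fp p C *
      ((Matrix.trace (A * Y * Matrix.of C)) ^ (k - m) *
        (Matrix.trace (B * Y * Matrix.of C)) ^ m * (k.choose m : ℂ) *
          (Matrix.trace (1 * (Matrix.of C).conjTranspose)) ^ k) * ζ ^ m ∂gau n n := by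
    intro m _
    rw [integral_mul_const]
  rw [Finset.sum_congr rfl e, ← integral_finsetSum _ hi]
  refine integral_congr_ae (Filter.Eventually.of_forall fun C => ?_)
  simp only
  have e1 : Matrix.trace ((A + ζ • B) * Y * Matrix.of C) =
      ζ * Matrix.trace (B * Y * Matrix.of C) + Matrix.trace (A * Y * Matrix.of C) := by
    rw [Matrix.add_mul, Matrix.add_mul, Matrix.trace_add, Matrix.smul_mul, Matrix.smul_mul,
      Matrix.trace_smul, smul_eq_mul, add_comm]
  rw [e1, add_pow, Finset.mul_sum]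
  refine Finset.sum_congr rfl fun m _ => ?_
  rw [mul_pow]; ring

/-- equality on an infinite subset of a line gives equality on the line -/
lemma line_ext (h2 : S_POL) {n : ℕ} {p : ℂ} (hp : -1 < p.re) (k : ℕ)
    (A B Y : Matrix (Fin n) (Fin n) ℂ) (s : Set ℂ) (hs : s.Infinite)
    (h : ∀ ζ ∈ s, ZZ n p k (A + ζ • B) Y = ZZ n p k 1 ((A + ζ • B) * Y)) (ζ : ℂ) :
    ZZ n p k (A + ζ • B) Y = ZZ n p k 1 ((A + ζ • B) * Y) := by
  obtain ⟨P, hP⟩ := ZZ_line_left h2 hp k A B Y
  obtain ⟨Q, hQ⟩ := ZZ_line_right h2 hp k A B Y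
  have h0 : P = Q := by
    refine Polynomial.eq_of_infinite_eval_eq P Q (hs.mono fun ζ hζ => ?_)
    show P.eval ζ = Q.eval ζ
    rw [← hP, ← hQ]; exact h ζ hζ
  rw [hP, hQ, h0]

lemma infinite_circle : {z : ℂ | ‖z‖ = 1}.Infinite := by
  have h : Set.Infinite (Set.range fun x : ℕ => Complex.exp ((1 / ((x : ℝ) + 1) : ℝ) * I)) := by
    refine Set.infinite_range_of_injective ?_
    intro x y hxy
    have hx : ∀ x : ℕ, (Complex.exp ((1 / ((x : ℝ) + 1) : ℝ) * I)).arg = 1 / ((x : ℝ) + 1) := by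
      intro x
      have h1 : (0 : ℝ) < 1 / ((x : ℝ) + 1) := by positivity
      have h2 : 1 / ((x : ℝ) + 1) ≤ 1 := by
        rw [div_le_one (by positivity)]; linarith [Nat.cast_nonneg (α := ℝ) x]
      rw [Complex.exp_mul_I]
      exact Complex.arg_cos_add_sin_mul_I ⟨by linarith [Real.pi_pos], by linarith [Real.pi_gt_three]⟩
    have h3 := congrArg Complex.arg hxy
    simp only at h3
    rw [hx, hx] at h3
    have h4 : (x : ℝ) + 1 = (y : ℝ) + 1 := by
      have hx0 : (x : ℝ) + 1 ≠ 0 := by positivity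
      have hy0 : (y : ℝ) + 1 ≠ 0 := by positivity
      field_simp at h3
      linarith
    exact_mod_cast (by linarith : (x : ℝ) = y)
  refine h.mono ?_
  rintro _ ⟨x, rfl⟩
  exact Complex.norm_exp_ofReal_mul_I _

lemma diag_update {n : ℕ} (d : Fin n → ℂ) (a : Fin n) (ζ : ℂ) :
    Matrix.diagonal (Function.update d a ζ) =
      Matrix.diagonal (Function.update d a 0) + ζ • Matrix.diagonal (Pi.single a (1 : ℂ)) := by
  ext i j
  by_cases hij : i = j
  · subst hij
    by_cases ha : i = a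
    · subst ha; simp
    · simp [Matrix.diagonal_apply, Function.update_of_ne ha, Pi.single_eq_of_ne ha]
  · simp [Matrix.diagonal_apply_ne _ hij]

/-- unitarily diagonalisable `X` -/
lemma ZZ_diag (h1 : S_UR) (h2 : S_POL) {n : ℕ} {p : ℂ} (hp : -1 < p.re) (k : ℕ)
    (U Y : Matrix (Fin n) (Fin n) ℂ) (hU : U ∈ Matrix.unitaryGroup (Fin n) ℂ) (s : Finset (Fin n)) :
    ∀ d : Fin n → ℂ, (∀ j, j ∉ s → ‖d j‖ = 1) →
      ZZ n p k (U * Matrix.diagonal d * star U) Y =
        ZZ n p k 1 (U * Matrix.diagonal d * star U * Y) := by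
  induction s using Finset.induction_on with
  | empty =>
    intro d hd
    refine ZZ_unitary h1 p k Y ?_
    have hD : Matrix.diagonal d ∈ Matrix.unitaryGroup (Fin n) ℂ := by
      rw [Matrix.mem_unitaryGroup_iff, Matrix.star_eq_conjTranspose,
        Matrix.diagonal_conjTranspose, Matrix.diagonal_mul_diagonal]
      rw [← Matrix.diagonal_one]
      congr 1
      funext j
      have hj := hd j (by simp)
      show d j * (starRingEnd ℂ) (d j) = 1
      rw [Complex.mul_conj, Complex.normSq_eq_norm_sq, hj]; simp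
    exact mul_mem (mul_mem hU hD) (Unitary.star_mem hU)
  | insert a s ha ih =>
    intro d hd
    have key := line_ext h2 hp k (U * Matrix.diagonal (Function.update d a 0) * star U)
      (U * Matrix.diagonal (Pi.single a (1 : ℂ)) * star U) Y {z : ℂ | ‖z‖ = 1} infinite_circle
    have e : ∀ ζ : ℂ, U * Matrix.diagonal (Function.update d a 0) * star U +
        ζ • (U * Matrix.diagonal (Pi.single a (1 : ℂ)) * star U) =
        U * Matrix.diagonal (Function.update d a ζ) * star U := by
      intro ζ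
      rw [diag_update d a ζ, Matrix.mul_add, Matrix.add_mul, Matrix.mul_smul, Matrix.smul_mul]
    simp only [e] at key
    have h3 := key (fun ζ hζ => ih _ (fun j hj => ?_)) (d a)
    · rwa [Function.update_eq_self] at h3
    · by_cases hja : j = a
      · subst hja; simpa using hζ
      · rw [Function.update_of_ne hja]
        exact hd j (by simp [hja, hj])

/-- Hermitian `X` -/
lemma ZZ_herm (h1 : S_UR) (h2 : S_POL) {n : ℕ} {p : ℂ} (hp : -1 < p.re) (k : ℕ)
    (X Y : Matrix (Fin n) (Fin n) ℂ) (hX : X.IsHermitian) :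
    ZZ n p k X Y = ZZ n p k 1 (X * Y) := by
  have hs := hX.spectral_theorem
  rw [Unitary.conjStarAlgAut_apply] at hs
  rw [hs]
  exact ZZ_diag h1 h2 hp k _ Y (hX.eigenvectorUnitary).2 Finset.univ _ (fun j hj => by simp at hj)

lemma infinite_real : (Set.range ((↑) : ℝ → ℂ)).Infinite :=
  Set.infinite_range_of_injective Complex.ofReal_injective

end Pool.Agent.R923.SE.ZDx

namespace Pool.Agent.R923.SE

open Pool.Agent.R923.SE.ZDx

theorem s_ZD (h1 : S_UR) (h2 : S_POL) : S_ZD := by
  intro n p k X Y hp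
  -- Hermitian and skew-Hermitian parts
  set H1 : Matrix (Fin n) (Fin n) ℂ := (1 / 2 : ℂ) • (X + X.conjTranspose) with hH1
  set H2 : Matrix (Fin n) (Fin n) ℂ := (-(I / 2) : ℂ) • (X - X.conjTranspose) with hH2
  have hh1 : H1.IsHermitian := by
    rw [Matrix.IsHermitian, hH1, Matrix.conjTranspose_smul, Matrix.conjTranspose_add,
      Matrix.conjTranspose_conjTranspose, add_comm]
    congr 1
    simp
  have hh2 : H2.IsHermitian := by
    rw [Matrix.IsHermitian, hH2, Matrix.conjTranspose_smul, Matrix.conjTranspose_sub,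
      Matrix.conjTranspose_conjTranspose]
    ext i j
    simp
    ring
  have hX : H1 + I • H2 = X := by
    ext i j
    simp only [hH1, hH2, Matrix.add_apply, Matrix.smul_apply, Matrix.sub_apply,
      Matrix.conjTranspose_apply, smul_eq_mul]
    ring_nf
    rw [Complex.I_sq]; ring
  have key := line_ext h2 hp k H1 H2 Y (Set.range ((↑) : ℝ → ℂ)) infinite_real (fun ζ hζ => ?_) I
  · rwa [hX] at key
  · obtain ⟨r, rfl⟩ := hζ
    refine ZZ_herm h1 h2 hp k _ Y ?_
    refine hh1.add ?_
    rw [Matrix.IsHermitian, Matrix.conjTranspose_smul, hh2.eq]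
    simp

end Pool.Agent.R923.SE
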